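import Pool.Agent.Lib.MP_651af7_nt.Rt.Defs
import Pool.Agent.Lib.MP_8865d3_nt.FaPF
import Pool.Agent.Lib.MP_8865d3_nt.FaHt

/-! The product formula with gains at finitely many places. -/

namespace Pool.Agent.Lib.MP_651af7_nt.Rt

open Finset Height NumberField Pool.Agent.Lib.MP_e97e2b_nt Pool.Agent.Lib.MP_651af7_nt.Iv
  Pool.Agent.Lib.MP_651af7_nt.Vj Pool.Agent.Lib.MP_651af7_nt.Vj.P1 Pool.Agent.Lib.Common.Subspace
open Pool.Agent.Lib.MP_8865d3_nt.Fa (Small Adm wt)

variable {K : Type} [Field K] [NumberField K] {S : Finset (FinitePlace K)}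

theorem pf_inf_ne (w : InfinitePlace K) (v : FinitePlace K) : w.1 ≠ v.1 := by
  intro h
  have h1 : v.1 ((1 : K) + 1) ≤ max (v.1 1) (v.1 1) := FinitePlace.add_le v 1 1
  rw [← h, map_one, max_self] at h1
  have h2 : w ((2 : ℕ) : K) = (2 : ℕ) := InfinitePlace.map_natCast w 2
  have h3 : ((2 : ℕ) : K) = 1 + 1 := by norm_num
  rw [h3] at h2
  have h4 : w.1 ((1 : K) + 1) = 2 := by exact_mod_cast h2
  linarith

theorem pf_av_inj : Function.Injective (av : Pl S → AbsoluteValue K ℝ) := by
  rintro (w | v) (w' | v') h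
  · exact congrArg Sum.inl (Subtype.ext h)
  · exact absurd h (pf_inf_ne w v'.1)
  · exact absurd h.symm (pf_inf_ne w' v.1)
  · exact congrArg Sum.inr (Subtype.ext (Subtype.ext h))

open Classical in
theorem pf_gsum_ite (p : Pl S) (c : ℝ) :
    FinS (fun w : AbsoluteValue K ℝ => if av p = w then c else 0) ∧
      gsum (fun w : AbsoluteValue K ℝ => if av p = w then c else 0) = mu p * c := by
  refine ⟨?_, ?_⟩
  · refine Set.Finite.subset (Set.Subsingleton.finite (s := {w | av p = w.val}) ?_) ?_
    · intro a ha b hb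
      exact Subtype.ext (ha.symm.trans hb)
    · intro w hw
      by_contra hne
      exact hw (if_neg hne)
  · unfold gsum
    rw [sum_archAbsVal_eq, sum_nonarchAbsVal_eq (fun w => if av p = w then c else 0)]
    rcases p with w | v
    · rw [Finset.sum_eq_single w, finsum_eq_zero_of_forall_eq_zero]
      · simp [av, mu]
      · intro v
        exact if_neg (pf_inf_ne w v)
      · intro w' _ hw
        rw [if_neg fun e => hw (Subtype.ext e.symm), smul_zero]
      · intro hw
        exact absurd (mem_univ w) hw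
    · rw [Finset.sum_eq_zero, finsum_eq_single _ v.1]
      · simp [av, mu]
      · intro v' hv
        exact if_neg fun e => hv (Subtype.ext e.symm)
      · intro w _
        rw [if_neg fun e => pf_inf_ne w v.1 e.symm, smul_zero]

theorem pf_E_le (L : Loc K) {Γ : ℝ} (hΓ : 1 ≤ Γ) : E (IsNonarchimedean L.v) Γ ≤ Γ ^ L.e := by
  rcases L.h with h | ⟨h, h'⟩
  · rw [h, pow_one]
    unfold E
    split_ifs
    · exact hΓ
    · exact le_rfl
  · rw [h, pow_zero, E_pos_case h']

/- At the place `p` one has `log (av p g) + ∑ nα log max + gain p ≤ log (E Γ) + ∑ nβ log max` in both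
cases.  One way: `pf_gen` (`Vj/PF`) with one more factor `exp (G v)` on the left, where
`G v = ∑ p, if av p = v then gain p else 0` (`av` is injective: an infinite place is not
non-archimedean) and `gsum G = ∑ p, mu p * gain p` (`sum_archAbsVal_eq`, `sum_nonarchAbsVal_eq`);
see also `height_ineq` in `P1Sig` for the passage from `E` to `Loc`. -/
theorem pfS {I J : Type} [Fintype I] [Fintype J] {g : K} (hg : g ≠ 0) (α : I → K) (nα : I → ℕ)
    (β : J → K) (nβ : J → ℕ) {Γ : ℝ} (hΓ : 1 ≤ Γ) (gain : Pl S → ℝ)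
    (h1 : ∀ v : AbsoluteValue K ℝ, v g * ∏ i, max 1 (v (α i)) ^ nα i ≤
      E (IsNonarchimedean v) Γ * ∏ j, max 1 (v (β j)) ^ nβ j)
    (h2 : ∀ p, gain p ≤ 0 ∨ av p g * (∏ i, max 1 (av p (α i)) ^ nα i) * Real.exp (gain p) ≤
      ∏ j, max 1 (av p (β j)) ^ nβ j) :
    ∑ i, nα i * logHeight₁ (α i) + ∑ p, mu p * gain p ≤
      totalWeight K * Real.log Γ + ∑ j, nβ j * logHeight₁ (β j) := by
  classical
  have hfin : FinS fun w : AbsoluteValue K ℝ => ∑ p : Pl S, if av p = w then gain p else 0 :=
    finS_sum univ fun p _ => (pf_gsum_ite p (gain p)).1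
  have hsum : gsum (fun w : AbsoluteValue K ℝ => ∑ p : Pl S, if av p = w then gain p else 0) =
      ∑ p, mu p * gain p := by
    rw [gsum_sum univ fun p _ => (pf_gsum_ite p (gain p)).1]
    exact sum_congr rfl fun p _ => (pf_gsum_ite p (gain p)).2
  have key := pf_gen (I := Option I) hg
    (fun i w => i.elim (Real.exp (∑ p : Pl S, if av p = w then gain p else 0))
      fun i => max (w (α i)) 1)
    (fun i => by
      cases i with
      | none => simpa only [Option.elim, Real.log_exp] using hfin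
      | some i => exact finS_max _)
    (fun i w => by
      cases i with
      | none => exact Real.exp_pos _
      | some i => exact lt_max_of_lt_right one_pos)
    (fun i => i.elim 1 nα) (fun j w => max (w (β j)) 1) (fun j => finS_max _)
    (fun j w => lt_max_of_lt_right one_pos) nβ (zero_lt_one.trans_le hΓ) fun L => by
      rw [Fintype.prod_option]
      simp only [Option.elim, pow_one]
      have hB : 0 ≤ ∏ j, max (L.v (β j)) 1 ^ nβ j := prod_nonneg fun j _ => by positivity
      have hA : 0 ≤ L.v g * ∏ i, max (L.v (α i)) 1 ^ nα i :=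
        mul_nonneg (L.v.nonneg g) (prod_nonneg fun j _ => by positivity)
      have k1 : L.v g * ∏ i, max (L.v (α i)) 1 ^ nα i ≤
          Γ ^ L.e * ∏ j, max (L.v (β j)) 1 ^ nβ j := by
        have h := h1 L.v
        simp only [max_comm (1 : ℝ)] at h
        exact h.trans (mul_le_mul_of_nonneg_right (pf_E_le L hΓ) hB)
      rw [mul_comm (Real.exp _), ← mul_assoc]
      by_cases e : ∃ p : Pl S, av p = L.v
      · obtain ⟨p, hp⟩ := e
        have e2 : (∑ q : Pl S, if av q = L.v then gain q else 0) = gain p := by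
          rw [Finset.sum_eq_single p, if_pos hp]
          · intro q _ hq
            exact if_neg fun e => hq (pf_av_inj (e.trans hp.symm))
          · intro h
            exact absurd (mem_univ p) h
        rw [e2]
        rcases h2 p with h | h
        · exact (mul_le_of_le_one_right hA (Real.exp_le_one_iff.2 h)).trans k1
        · rw [hp] at h
          simp only [max_comm (1 : ℝ)] at h
          exact h.trans (le_mul_of_one_le_left hB (one_le_pow₀ hΓ))
      · rw [Finset.sum_eq_zero fun q _ => if_neg fun h => e ⟨q, h⟩, Real.exp_zero, mul_one]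
        exact k1
  rw [Fintype.sum_option] at key
  simp only [Option.elim, Real.log_exp, gsum_max, Nat.cast_one, one_mul, hsum] at key
  linarith

/- `Fa.log_max_le` for the inverse, `logHeight₁_inv`. -/
theorem prx_le (l : Pl S → K) : prx l ≤ ∑ p, mu p * logHeight₁ (l p) := by
  refine sum_le_sum fun p _ => mul_le_mul_of_nonneg_left ?_ (Nat.cast_nonneg _)
  have h := MP_8865d3_nt.Fa.log_max_le (adm_av p) (l p)⁻¹
  rwa [logHeight₁_inv, map_inv₀, max_comm] at h

/- Induction on the polynomial; `logHeight₁_add_le`, `logHeight₁_mul_le`. -/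
theorem ht_poly {σ : Type} [Fintype σ] (g : MvPolynomial σ K) : ∃ C : ℝ, 0 ≤ C ∧
    ∀ z : σ → K, logHeight₁ (MvPolynomial.eval z g) ≤ C * (1 + ∑ s, logHeight₁ (z s)) := by
  have hs : ∀ z : σ → K, 0 ≤ ∑ s, logHeight₁ (z s) := fun z =>
    sum_nonneg fun s _ => zero_le_logHeight₁ _
  induction g using MvPolynomial.induction_on with
  | C c =>
    refine ⟨logHeight₁ c, zero_le_logHeight₁ _, fun z => ?_⟩
    rw [MvPolynomial.eval_C]
    exact le_mul_of_one_le_right (zero_le_logHeight₁ _) (le_add_of_nonneg_right (hs z))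
  | add p q hp hq =>
    obtain ⟨C₁, h₁, H₁⟩ := hp
    obtain ⟨C₂, h₂, H₂⟩ := hq
    have h0 : 0 ≤ (totalWeight K : ℝ) * Real.log 2 :=
      mul_nonneg (Nat.cast_nonneg _) (Real.log_nonneg one_le_two)
    refine ⟨totalWeight K * Real.log 2 + C₁ + C₂, by positivity, fun z => ?_⟩
    rw [map_add]
    have h3 := logHeight₁_add_le (MvPolynomial.eval z p) (MvPolynomial.eval z q)
    have h4 := le_mul_of_one_le_right h0 (le_add_of_nonneg_right (a := (1 : ℝ)) (hs z))
    rw [add_mul, add_mul]
    linarith [H₁ z, H₂ z]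
  | mul_X p s hp =>
    obtain ⟨C₁, h₁, H₁⟩ := hp
    refine ⟨C₁ + 1, by positivity, fun z => ?_⟩
    rw [map_mul, MvPolynomial.eval_X]
    have h3 := logHeight₁_mul_le (MvPolynomial.eval z p) (z s)
    have h4 : logHeight₁ (z s) ≤ ∑ s, logHeight₁ (z s) :=
      single_le_sum (f := fun s => logHeight₁ (z s)) (fun s _ => zero_le_logHeight₁ _) (mem_univ s)
    rw [add_mul]
    linarith [H₁ z]

/- `ht_poly`, `Vj.height_y_le` (`Vj/Hts`), `Fa.onE_pt`; at `0` both coordinates are `0`. -/
theorem ht_ev (a b : ℤ) (g : MvPolynomial (Fin 2) K) : ∃ C : ℝ, 0 ≤ C ∧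
    ∀ P : Pt (a : K) (b : K), logHeight₁ (ev P g) ≤ C * (1 + ht P) := by
  obtain ⟨C, hC, H⟩ := ht_poly g
  set c : ℝ := totalWeight K * Real.log 3 + logHeight₁ (a : K) + logHeight₁ (b : K) with hc
  have h0 : 0 ≤ c := add_nonneg (add_nonneg
    (mul_nonneg (Nat.cast_nonneg _) (Real.log_nonneg (by norm_num))) (zero_le_logHeight₁ _))
    (zero_le_logHeight₁ _)
  refine ⟨C * (3 + c), by positivity, fun P => ?_⟩
  have hP := ht_nonneg P
  have hy : logHeight₁ (yc P) ≤ c + 2 * ht P := by
    by_cases h : P = 0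
    · rw [h, yc_zero, logHeight₁_zero]
      linarith [ht_nonneg (0 : Pt (a : K) (b : K))]
    · have h1 := Vj.height_y_le (MP_8865d3_nt.Fa.onE_pt h)
      unfold ht
      linarith
  refine (H _).trans ?_
  rw [mul_assoc]
  refine mul_le_mul_of_nonneg_left ?_ hC
  rw [Fin.sum_univ_two]
  have e : logHeight₁ (xc P) = ht P := rfl
  simp only [Matrix.cons_val_zero, Matrix.cons_val_one, e]
  nlinarith [mul_nonneg h0 hP]

end Pool.Agent.Lib.MP_651af7_nt.Rt
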