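import Pool.Agent.Lib.MP_651af7_nt.Rt.Exp
import Pool.Agent.Lib.MP_8865d3_nt.FaPF
import Pool.Agent.Lib.Common.Subspace.AuxPoly

/-! The auxiliary polynomial for targets of small height. -/

namespace Pool.Agent.Lib.MP_651af7_nt.Rt

open Finset Height NumberField Pool.Agent.Lib.MP_e97e2b_nt Pool.Agent.Lib.MP_651af7_nt.Iv
  Pool.Agent.Lib.MP_651af7_nt.Vj Pool.Agent.Lib.MP_651af7_nt.Vj.P1 Pool.Agent.Lib.Common.Subspace
open Pool.Agent.Lib.MP_8865d3_nt.Fa (Small Adm wt)

variable {K : Type} [Field K] [NumberField K]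

private theorem mova_coord : ∃ c : ℝ, 1 ≤ c ∧ ∀ (α : 𝓞 K) (σ : K →+* ℂ),
    |(((RingOfIntegers.basis K).repr α (equivReindex K σ) : ℤ) : ℝ)| ≤ c * house (α : K) := by
  classical
  obtain ⟨c, hc⟩ : ∃ c : ℝ, ∀ (α : 𝓞 K) (σ : K →+* ℂ),
      ‖(((integralBasis K).reindex (equivReindex K).symm).repr α σ : ℂ)‖ ≤
        c * house (algebraMap (𝓞 K) K α) :=
    ⟨_, NumberField.house.basis_repr_norm_le_const_mul_house K⟩
  refine ⟨max 1 c, le_max_left _ _, fun α σ => ?_⟩
  have h := hc α σ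
  have h1 : ((integralBasis K).reindex (equivReindex K).symm).repr (α : K) σ =
      (((RingOfIntegers.basis K).repr α (equivReindex K σ) : ℤ) : ℚ) := by
    rw [Module.Basis.repr_reindex_apply, Equiv.symm_symm]
    exact integralBasis_repr_apply K α _
  rw [h1, Rat.cast_intCast, Complex.norm_intCast] at h
  exact h.trans (mul_le_mul_of_nonneg_right (le_max_right _ _) (house_nonneg _))

private theorem mova_house_le (α : K) : house α ≤ Real.exp (logHeight₁ α) := by
  refine (pi_norm_le_iff_of_nonneg (Real.exp_pos _).le).2 fun σ => ?_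
  have h := Pool.Agent.Lib.MP_8865d3_nt.Fa.log_max_le
    (v := (InfinitePlace.mk σ).1)
    (Or.inl (mem_multisetInfinitePlace.2 (InfinitePlace.mk σ).isInfinitePlace)) α
  have h0 : 0 < max ((InfinitePlace.mk σ).1 α) 1 := lt_of_lt_of_le one_pos (le_max_right _ _)
  calc ‖canonicalEmbedding K α σ‖ = (InfinitePlace.mk σ).1 α := by
        rw [canonicalEmbedding.apply_at]
        exact (InfinitePlace.apply σ α).symm
    _ ≤ max ((InfinitePlace.mk σ).1 α) 1 := le_max_left _ _
    _ = Real.exp (Real.log (max ((InfinitePlace.mk σ).1 α) 1)) := (Real.exp_log h0).symm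
    _ ≤ Real.exp (logHeight₁ α) := Real.exp_le_exp.2 h

private theorem mova_house_neg (α : K) : house (-α) = house α := by
  simp only [house, map_neg, norm_neg]

private theorem mova_house_prod {ι : Type} [Fintype ι] (f : ι → K) :
    house (∏ i, f i) ≤ ∏ i, house (f i) := by
  simp only [house, map_prod]
  exact Finset.norm_prod_le _ _

private theorem mova_cf {e a : ℕ} (b : ℕ) (ha : a ≤ e) {A B : K} {U : ℝ} (hU : 1 ≤ U)
    (hA : house A ≤ U) (hB : house B ≤ U) : house (cf e a b A B) ≤ (2 * U) ^ e := by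
  have h1 : house ((-A) ^ (a - b)) ≤ U ^ a := by
    refine (house_pow_le _ _).trans ?_
    rw [mova_house_neg]
    exact (pow_le_pow_left₀ (house_nonneg _) hA _).trans (pow_le_pow_right₀ hU (Nat.sub_le _ _))
  have h2 : house (B ^ (e - a)) ≤ U ^ (e - a) :=
    (house_pow_le _ _).trans (pow_le_pow_left₀ (house_nonneg _) hB _)
  have h3 : (a.choose b : ℝ) ≤ 2 ^ e := by
    have h4 : a.choose b ≤ 2 ^ e :=
      (Nat.choose_le_two_pow a b).trans (Nat.pow_le_pow_right two_pos ha)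
    exact_mod_cast h4
  have hU0 : 0 ≤ U := zero_le_one.trans hU
  rw [cf, mul_assoc, house_nat_mul, mul_pow]
  refine mul_le_mul h3 ((house_mul_le _ _).trans ?_) (house_nonneg _) (by positivity)
  refine (mul_le_mul h1 h2 (house_nonneg _) (by positivity)).trans (le_of_eq ?_)
  rw [← pow_add, Nat.add_sub_cancel' ha]

omit [NumberField K] in
private theorem mova_cf_int (e a b : ℕ) {A B : K} (hA : IsIntegral ℤ A) (hB : IsIntegral ℤ B) :
    IsIntegral ℤ (cf e a b A B) :=
  ((isIntegral_natCast _).mul (hA.neg.pow _)).mul (hB.pow _)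

/- Rows `(i, σ)`, entries the coordinates of `M i j` in the integral basis
(`NumberField.house.basis_repr_norm_le_const_mul_house`; the constant of that lemma is private, so
state first `∃ c, ∀ α σ, ‖coordinate‖ ≤ c * house α` by `⟨_, lemma⟩`); `auxpoly_siegel`
(`Common/Subspace/AuxPoly`). -/
theorem siegK : ∃ C : ℝ, 1 ≤ C ∧ ∀ (I J : Type) [Fintype I] [Fintype J] (M : I → J → K) (T : ℝ),
    1 ≤ T → (∀ i j, IsIntegral ℤ (M i j) ∧ house (M i j) ≤ T) →
    2 * (Fintype.card I * Module.finrank ℚ K) ≤ Fintype.card J → 0 < Fintype.card J →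
    ∃ c : J → ℤ, c ≠ 0 ∧ (∀ i, ∑ j, (c j : K) * M i j = 0) ∧
      ∀ j, |(c j : ℝ)| ≤ Fintype.card J * (C * T) := by
  classical
  obtain ⟨C, hC, hc⟩ := mova_coord (K := K)
  refine ⟨C, hC, fun I J _ _ M T hT hM h2 hJ => ?_⟩
  let a : I → J → 𝓞 K := fun i j => ⟨M i j, (hM i j).1⟩
  obtain ⟨t, t0, t1, t2⟩ := auxpoly_siegel (α := I × (K →+* ℂ)) (β := J)
    (Matrix.of fun q j => (RingOfIntegers.basis K).repr (a q.1 j) (equivReindex K q.2)) (C * T)
    (one_le_mul_of_one_le_of_one_le hC hT)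
    (fun q j => (hc (a q.1 j) q.2).trans
      (mul_le_mul_of_nonneg_left (hM q.1 j).2 (zero_le_one.trans hC)))
    (by rwa [Fintype.card_prod, Embeddings.card]) hJ
  refine ⟨t, t0, fun i => ?_, t2⟩
  have h0 : ∑ j, t j • a i j = 0 := by
    apply (RingOfIntegers.basis K).repr.injective
    ext k
    obtain ⟨σ, rfl⟩ := (equivReindex K).surjective k
    have h1 := congrFun t1 (i, σ)
    simp only [Matrix.mulVec, dotProduct, Matrix.of_apply, Pi.zero_apply] at h1
    simp only [map_sum, map_smul, Finsupp.coe_finsetSum, Finset.sum_apply, Finsupp.coe_smul,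
      Pi.smul_apply, smul_eq_mul, map_zero, Finsupp.coe_zero, Pi.zero_apply]
    rw [← h1]
    exact Finset.sum_congr rfl fun j _ => mul_comm _ _
  have h1 := congrArg (algebraMap (𝓞 K) K) h0
  rw [map_sum, map_zero] at h1
  rw [← h1]
  refine Finset.sum_congr rfl fun j _ => ?_
  rw [zsmul_eq_mul, map_mul, map_intCast]
  rfl

/- `NumberField.exists_nat_le_mulHeight₁`; `house α ≤ mulHeight₁ α` since every
`‖σ α‖ = w α ≤ max (w α) 1 ≤ exp (logHeight₁ α)` (`Fa.log_max_le`, `adm_av` or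
`mem_multisetInfinitePlace`). -/
theorem exists_den (α : K) {h : ℝ} (hα : logHeight₁ α ≤ h) : ∃ n : ℕ, n ≠ 0 ∧
    IsIntegral ℤ ((n : K) * α) ∧ (n : ℝ) ≤ Real.exp (2 * h) ∧
      house ((n : K) * α) ≤ Real.exp (2 * h) := by
  obtain ⟨n, hn, h1, h2⟩ := exists_nat_le_mulHeight₁ α
  have h0 : 0 ≤ h := (zero_le_logHeight₁ α).trans hα
  have h3 : (n : ℝ) ≤ Real.exp h := by
    refine h1.trans ?_
    rw [← Real.exp_log (mulHeight₁_pos α), ← logHeight₁_eq_log_mulHeight₁]
    exact Real.exp_le_exp.2 hα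
  refine ⟨n, hn, h2, h3.trans (Real.exp_le_exp.2 (by linarith)), ?_⟩
  rw [house_nat_mul, two_mul, Real.exp_add]
  exact mul_le_mul h3 ((mova_house_le α).trans (Real.exp_le_exp.2 hα)) (house_nonneg _)
    (Real.exp_pos _).le

/- `siegK` with rows `(p, β ∈ Lw)`, columns `τ`, entries
`∏ i, cf (e i) (τ i).2 (β i) (n i p * (-α i p)) (n i p * 1)`, of house at most
`∏ i, (2 * exp (2 * h i)) ^ e i`; `GB_smul`; `card (Col ..) = ∏ (e i + 1) ≤ ∏ 2 ^ e i`. -/
theorem exists_auxV : ∃ C : ℝ, 1 ≤ C ∧ ∀ (J : Type) [Fintype J] (m : ℕ) (e : Fin m → ℕ)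
    (α : Fin m → J → K) (h : Fin m → ℝ) (Lw : Finset (Ix e)), (∀ i, 0 ≤ h i) →
    (∀ i p, logHeight₁ (α i p) ≤ h i) →
    2 * (Fintype.card J * Lw.card * Module.finrank ℚ K) ≤ ∏ i, (e i + 1) →
    ∃ c : Col (fun _ => Unit) e → ℤ, c ≠ 0 ∧
      (∀ τ, |(c τ : ℝ)| ≤ C * ∏ i, (C * Real.exp (2 * h i)) ^ e i) ∧ ∀ p, ∀ β ∈ Lw,
        GB e c (fun _ _ => (1 : K)) (fun i => -α i p) (fun _ => 1) β = 0 := by
  classical
  obtain ⟨C, hC, hS⟩ := siegK (K := K)
  refine ⟨4 * C, by linarith, fun J _ m e α h Lw h0 hα hcard => ?_⟩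
  choose n hn hint hle hho using fun i p => exists_den (α i p) (hα i p)
  have hE : ∀ i, 1 ≤ Real.exp (2 * h i) := fun i => Real.one_le_exp (by linarith [h0 i])
  have hcol : Fintype.card (Col (fun _ => Unit) e) = ∏ i, (e i + 1) := by
    simp [Fintype.card_pi]
  have hT : 1 ≤ ∏ i, (2 * Real.exp (2 * h i)) ^ e i :=
    Finset.one_le_prod fun i _ => one_le_pow₀ (by linarith [hE i])
  obtain ⟨c, c0, c1, c2⟩ := hS (J × Lw) (Col (fun _ => Unit) e)
    (fun q τ => ∏ i, ((1 : K) * cf (e i) (τ i).2 (q.2.1 i) (n i q.1 * -α i q.1) (n i q.1 * 1)))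
    (∏ i, (2 * Real.exp (2 * h i)) ^ e i) hT
    (fun q τ => by
      constructor
      · refine IsIntegral.prod _ fun i _ => ?_
        rw [one_mul]
        refine mova_cf_int _ _ _ ?_ ?_
        · rw [mul_neg]
          exact (hint i q.1).neg
        · rw [mul_one]
          exact isIntegral_natCast _
      · refine (mova_house_prod _).trans (Finset.prod_le_prod (fun i _ => house_nonneg _)
          fun i _ => ?_)
        rw [one_mul]
        refine mova_cf _ (Nat.lt_succ_iff.1 (τ i).2.2) (hE i) ?_ ?_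
        · rw [mul_neg, mova_house_neg]
          exact hho i q.1
        · rw [house_nat_mul]
          have h1 : house (1 : K) = 1 := by simp [house]
          rw [h1, mul_one]
          exact hle i q.1)
    (by rwa [hcol, Fintype.card_prod, Fintype.card_coe])
    (by rw [hcol]; exact Finset.prod_pos fun i _ => Nat.succ_pos _)
  refine ⟨c, c0, fun τ => (c2 τ).trans ?_, fun p β hβ => ?_⟩
  · rw [hcol, Nat.cast_prod, mul_left_comm, ← Finset.prod_mul_distrib]
    refine mul_le_mul (by linarith) (Finset.prod_le_prod (fun i _ => by positivity) fun i _ => ?_)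
      (Finset.prod_nonneg fun i _ => by positivity) (by linarith)
    have h1 : ((e i + 1 : ℕ) : ℝ) ≤ 2 ^ e i := by exact_mod_cast Nat.lt_two_pow_self
    have h2 : 0 < Real.exp (2 * h i) := Real.exp_pos _
    refine (mul_le_mul_of_nonneg_right h1 (by positivity)).trans ?_
    rw [← mul_pow]
    refine pow_le_pow_left₀ (by positivity) ?_ _
    have h3 := mul_le_mul_of_nonneg_right hC h2.le
    linarith
  · have h1 : GB e c (fun _ _ => (1 : K)) (fun i => (n i p : K) * -α i p)
        (fun i => (n i p : K) * 1) β = 0 := c1 (p, ⟨β, hβ⟩)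
    rw [GB_smul c (fun _ _ => (1 : K)) (fun i => (n i p : K)) (fun i => -α i p) (fun _ => 1) β] at h1
    refine (mul_eq_zero.1 h1).resolve_left (Finset.prod_ne_zero_iff.2 fun i _ => ?_)
    exact pow_ne_zero _ (Nat.cast_ne_zero.2 (hn i p))

end Pool.Agent.Lib.MP_651af7_nt.Rt
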