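import Pool.Agent.Lib.MP_651af7_nt.P1Defs
import Pool.Agent.Lib.MP_8865d3_nt.FaDefs

/-! Vocabulary for the approximation theorem with targets that move along an elliptic curve. -/

namespace Pool.Agent.Lib.MP_651af7_nt.Rt

open Finset Height NumberField Pool.Agent.Lib.MP_e97e2b_nt Pool.Agent.Lib.MP_651af7_nt.Iv
  Pool.Agent.Lib.MP_651af7_nt.Vj Pool.Agent.Lib.MP_651af7_nt.Vj.P1
open Pool.Agent.Lib.MP_8865d3_nt.Fa (Small Adm)

section sections

variable {R : Type} [CommRing R] {m : ℕ} {T : Fin m → Type} [∀ i, Fintype (T i)]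

/-- The index set of the basic sections. -/
abbrev Col (T : Fin m → Type) (e : Fin m → ℕ) : Type := ∀ i, T i × Fin (e i + 1)

/-- The index set of the expansion in powers of the targets. -/
abbrev Ix (e : Fin m → ℕ) : Type := ∀ i, Fin (e i + 1)

/-- The auxiliary section. -/
def GR (e : Fin m → ℕ) (c : Col T e → ℤ) (f : ∀ i, T i → R) (t : Fin m → R) : R :=
  ∑ τ, (c τ : R) * ∏ i, (f i (τ i).1 * t i ^ ((τ i).2 : ℕ))

/-- The coefficient of `(A + B t) ^ β` in `B ^ e * t ^ α`. -/
def cf (e α β : ℕ) (A B : R) : R := (α.choose β : R) * (-A) ^ (α - β) * B ^ (e - α)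

/-- The coefficient of index `β` in the expansion of the auxiliary section. -/
def GB (e : Fin m → ℕ) (c : Col T e → ℤ) (f : ∀ i, T i → R) (A B : Fin m → R) (β : Ix e) : R :=
  ∑ τ, (c τ : R) * ∏ i, (f i (τ i).1 * cf (e i) (τ i).2 (β i) (A i) (B i))

open Classical in
/-- The indices of small weight. -/
noncomputable def Low (e : Fin m → ℕ) (w : Fin m → ℝ) (L : ℝ) : Finset (Ix e) :=
  univ.filter fun β => ∑ i, ((β i : ℕ) : ℝ) * w i < L

/-- The index set of one arm. -/
abbrev TA (d j : ℕ) : Type := TT d j × Fin 2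

/-- The factor of a basic section that comes from the curve; `none` is the centre. -/
def fA (a b : ℤ) (d : ℕ) (j : Fin m → ℕ) (l : Fin m → Bool) (x y : Option (Fin m) → R) (i : Fin m)
    (τ : TA d (j i)) : R :=
  arm (a : R) (b : R) d (j i) (x (some i)) (y (some i)) (x none) (y none) (l i) τ.1 *
    y (some i) ^ (τ.2 : ℕ)

/-- The degrees of the auxiliary section in the first coordinates. -/
def nx (d : ℕ) (j : Fin m → ℕ) : Option (Fin m) → ℕ
  | none => 2 * d * m
  | some i => (2 * d + 1) * 4 ^ j i + 2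

/-- A bound for the degrees of the auxiliary section in all the variables of a block. -/
def dg (d : ℕ) (j e : Fin m → ℕ) : Option (Fin m) → ℕ
  | none => 2 * d * m
  | some i => (2 * d + 1) * 4 ^ j i + 2 + e i

/-- The bound for the rank of the conditions in one arm. -/
def rk (κ d j e : ℕ) : ℕ := 2 * (d * 4 ^ j + 2 * (4 ^ j + 1 + κ * e) + 6)

end sections

variable {K : Type} [Field K] [NumberField K]

/-- The infinite places and the places of `S`. -/
abbrev Pl (S : Finset (FinitePlace K)) : Type := InfinitePlace K ⊕ S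

variable {S : Finset (FinitePlace K)}

/-- The absolute value of a place. -/
def av : Pl S → AbsoluteValue K ℝ := Sum.elim (fun w => w.1) fun v => v.1.1

/-- The multiplicity of a place. -/
noncomputable def mu : Pl S → ℕ := Sum.elim (fun w => w.mult) fun _ => 1

/-- The proximity of the numbers `l p` to zero at the places `p`. -/
noncomputable def prx (l : Pl S → K) : ℝ := ∑ p, mu p * Real.log (max 1 (av p (l p))⁻¹)

/-- An approximation pattern that contradicts the theorem. -/
structure Good (η : ℝ) (γ : Pl S → ℝ) (ρ : ℝ) : Prop where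
  nonneg : ∀ p, 0 ≤ γ p
  le : ∀ p, γ p ≤ 4
  rho_nonneg : 0 ≤ ρ
  rho_le : ρ ≤ 2
  big : 2 * ρ + η ≤ ∑ p, mu p * γ p

/-- The numbers `t` and `l p` follow the pattern at scale `H`. -/
def Pat (γ : Pl S → ℝ) (ρ H : ℝ) (t : K) (l : Pl S → K) : Prop :=
  logHeight₁ t ≤ ρ * H ∧ ∀ p, γ p = 0 ∨ av p (l p) ≤ Real.exp (-(γ p * H))

variable {a b : ℤ}

/-- The value of a polynomial at a point of the curve. -/
noncomputable def ev (P : Pt (a : K) (b : K)) (g : MvPolynomial (Fin 2) K) : K :=
  MvPolynomial.eval ![xc P, yc P] g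

/-- The value of the target form at a point of the product of the curve and the line. -/
noncomputable def ell (A B : MvPolynomial (Fin 2) K) (X : Pt (a : K) (b : K) × K) : K :=
  ev X.1 A + ev X.1 B * X.2

/-- The height of a point of the product. -/
noncomputable def HR (X : Pt (a : K) (b : K) × K) : ℝ := ht X.1 + logHeight₁ X.2

/-- The coordinates and the leading coefficient have moderate size at `v`. -/
def Sml (v : AbsoluteValue K ℝ) (B : MvPolynomial (Fin 2) K) (c : ℝ)
    (X : Pt (a : K) (b : K) × K) : Prop :=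
  v (xc X.1) ≤ Real.exp c ∧ v (yc X.1) ≤ Real.exp c ∧ v X.2 ≤ Real.exp c ∧
    Real.exp (-c) ≤ v (ev X.1 B)

/-- The point lies on a curve of bounded degree and small height. -/
def SpecR (D : ℕ) (ε : ℝ) (X : Pt (a : K) (b : K) × K) : Prop :=
  ∃ g : MvPolynomial (Fin 2) ℚ, Small D (ε * HR X) g ∧ MvPolynomial.aeval ![xc X.1, X.2] g = 0

/-- `2 ^ j • P` is close to `Q`. -/
def CloseR (θ : ℝ) (j : ℕ) (P Q : Pt (a : K) (b : K)) : Prop :=
  ht (Q - 2 ^ j • P) ≤ θ * ht Q ∧ ht Q ≤ 2 * (4 ^ j * ht P) ∧ 4 ^ j * ht P ≤ 2 * ht Q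

lemma HR_nonneg (X : Pt (a : K) (b : K) × K) : 0 ≤ HR X :=
  add_nonneg (ht_nonneg _) (zero_le_logHeight₁ _)

lemma ht_le_HR (X : Pt (a : K) (b : K) × K) : ht X.1 ≤ HR X :=
  le_add_of_nonneg_right (zero_le_logHeight₁ _)

lemma h_le_HR (X : Pt (a : K) (b : K) × K) : logHeight₁ X.2 ≤ HR X :=
  le_add_of_nonneg_left (ht_nonneg _)

lemma adm_av (p : Pl S) : Adm (av p) := by
  rcases p with w | v
  · exact Or.inl (mem_multisetInfinitePlace.2 w.isInfinitePlace)
  · exact Or.inr v.1.2

lemma one_le_mu (p : Pl S) : 1 ≤ mu p := by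
  rcases p with w | v
  · exact InfinitePlace.mult_pos (w := w)
  · exact le_rfl

end Pool.Agent.Lib.MP_651af7_nt.Rt
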