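import Pool.Agent.Lib.MP_651af7_nt.Rt.Defs
import Pool.Agent.Lib.MP_651af7_nt.P1Ind

/-! The basic sections are independent. -/

namespace Pool.Agent.Lib.MP_651af7_nt.Rt

open Finset Height NumberField Pool.Agent.Lib.MP_e97e2b_nt Pool.Agent.Lib.MP_651af7_nt.Iv
  Pool.Agent.Lib.MP_651af7_nt.Vj Pool.Agent.Lib.MP_651af7_nt.Vj.P1 Pool.Agent.Lib.Common.Subspace
open Pool.Agent.Lib.MP_8865d3_nt.Fa (Small Adm wt)

/- A version of `tens_ne_zero_fin` (`P1Tens`) for finitely many tensors and signs at once; induction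
on `m`. -/
theorem tens_ne_zero_fam {F : Type} [Field F] {m : ℕ} {T Z : Fin m → Type} [∀ i, Fintype (T i)]
    {Sg : Type} [Fintype Sg] (p : ∀ i, Z i → Sg → T i → F)
    (hp : ∀ i (H : Finset (T i → F)), (∀ h ∈ H, h ≠ 0) →
      ∃ z, ∀ h ∈ H, ∀ s, ∑ t, h t * p i z s t ≠ 0)
    (Cs : Finset ((∀ i, T i) → F)) (hc : ∀ c ∈ Cs, c ≠ 0) :
    ∃ z : ∀ i, Z i, ∀ c ∈ Cs, ∀ s : Fin m → Sg, ∑ τ, c τ * ∏ i, p i (z i) (s i) (τ i) ≠ 0 := by
  classical
  induction m with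
  | zero =>
    refine ⟨fun i => i.elim0, fun c hcs s => ?_⟩
    obtain ⟨τ₀, h₀⟩ := Function.ne_iff.mp (hc c hcs)
    rw [Fintype.sum_subsingleton _ τ₀]
    simpa using h₀
  | succ m ih =>
    have h1 : ∀ c : Cs, ∃ τ₀, c.1 τ₀ ≠ 0 := fun c => Function.ne_iff.mp (hc c.1 c.2)
    choose τ₀ h₀ using h1
    obtain ⟨z₀, hz₀⟩ := hp 0
      (univ.image fun c : Cs => fun t => c.1 (Fin.cons t (Fin.tail (τ₀ c)))) (by
        intro h hh
        obtain ⟨c, -, rfl⟩ := mem_image.1 hh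
        exact Function.ne_iff.mpr ⟨τ₀ c 0, by simpa using h₀ c⟩)
    obtain ⟨z, hz⟩ := ih (fun i => p i.succ) (fun i => hp i.succ)
      (univ.image fun q : Cs × Sg => fun τ' => ∑ t, q.1.1 (Fin.cons t τ') * p 0 z₀ q.2 t) (by
        intro c hh
        obtain ⟨q, -, rfl⟩ := mem_image.1 hh
        exact Function.ne_iff.mpr ⟨Fin.tail (τ₀ q.1),
          hz₀ _ (mem_image_of_mem _ (mem_univ q.1)) q.2⟩)
    refine ⟨Fin.cons z₀ z, fun c hcs s => ?_⟩
    have h2 := hz _ (mem_image_of_mem _ (mem_univ ((⟨c, hcs⟩, s 0) : Cs × Sg))) (Fin.tail s)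
    rw [← (Fin.consEquiv T).sum_comp, Fintype.sum_prod_type, sum_comm]
    convert h2 using 2 with τ'
    rw [sum_mul]
    refine sum_congr rfl fun t _ => ?_
    simp [Fin.consEquiv, Fin.prod_univ_succ, mul_assoc, Fin.tail]

theorem ind_nonroot {ι : Type} (s : Finset ι) (f : ι → Polynomial ℂ) (h : ∀ i ∈ s, f i ≠ 0) :
    ∃ x, ∀ i ∈ s, (f i).eval x ≠ 0 := by
  by_contra hcon
  push Not at hcon
  refine prod_ne_zero_iff.2 h (Polynomial.funext fun x => ?_)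
  obtain ⟨i, hi, h0⟩ := hcon x
  rw [Polynomial.eval_prod, Polynomial.eval_zero]
  exact prod_eq_zero hi h0

theorem ind_armP (a b : ℂ) (hD : 4 * a ^ 3 + 27 * b ^ 2 ≠ 0) (d j : ℕ) (g : TT d j → ℂ) :
    ∃ P : Polynomial ℂ, (g ≠ 0 → P ≠ 0) ∧
      ∀ x, P.eval x = ∑ t, g t * p1indArm a b d j x 0 0 0 t := by
  have hm := fun x : ℂ => map_dbl (Polynomial.evalRingHom x) (Polynomial.C a) (Polynomial.C b)
    Polynomial.X j
  simp only [Polynomial.coe_evalRingHom, Polynomial.eval_C, Polynomial.eval_X] at hm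
  generalize (dbl (Polynomial.C a) (Polynomial.C b) Polynomial.X j).1 = A at *
  generalize (dbl (Polynomial.C a) (Polynomial.C b) Polynomial.X j).2.1 = B at *
  have key : ∀ x, (∑ t : TT d j, Polynomial.C (g t) *
      ((A * B) ^ (t.1 : ℕ) * (B ^ 2) ^ (d - t.1) * Polynomial.X ^ (t.2 : ℕ))).eval x =
      ∑ t, g t * p1indArm a b d j x 0 0 0 t := by
    intro x
    simp only [p1ind_arm_zero, hm x, Polynomial.eval_finsetSum, Polynomial.eval_mul,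
      Polynomial.eval_pow, Polynomial.eval_C, Polynomial.eval_X]
  refine ⟨_, fun hg h0 => ?_, key⟩
  obtain ⟨x, hx⟩ := arm_indep a b hD d j g hg
  have h1 := key x
  rw [h0, Polynomial.eval_zero] at h1
  simp only [p1ind_arm_zero] at h1
  exact hx h1.symm

open Polynomial in
theorem ind_norm (a b : ℂ) {P Q : ℂ[X]} (h : P ≠ 0 ∨ Q ≠ 0) :
    P ^ 2 - Q ^ 2 * (X ^ 3 + C a * X + C b) ≠ 0 := by
  intro h0
  have hF : (X ^ 3 + C a * X + C b : ℂ[X]).natDegree = 3 := by compute_degree!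
  have hF0 : (X ^ 3 + C a * X + C b : ℂ[X]) ≠ 0 := by
    intro e
    rw [e] at hF
    simp at hF
  rw [sub_eq_zero] at h0
  by_cases hQ : Q = 0
  · rw [hQ] at h0
    simp only [ne_eq, OfNat.ofNat_ne_zero, not_false_eq_true, zero_pow, zero_mul,
      pow_eq_zero_iff] at h0
    exact h.elim (fun h => h h0) (fun h => h hQ)
  · have h1 := congrArg natDegree h0
    rw [natDegree_mul (pow_ne_zero _ hQ) hF0, natDegree_pow, natDegree_pow, hF] at h1
    omega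

theorem ind_curve (a b : ℂ) (hD : 4 * a ^ 3 + 27 * b ^ 2 ≠ 0) (d j : ℕ) {ι : Type}
    (H : Finset ι) (g : ι → TA d j → ℂ) (hH : ∀ h ∈ H, g h ≠ 0) :
    ∃ x y : ℂ, y ^ 2 = fc a b x ∧ ∀ h ∈ H, ∀ s : ℤˣ,
      ∑ τ, g h τ * (p1indArm a b d j x 0 0 0 τ.1 * (((s : ℤ) : ℂ) * y) ^ (τ.2 : ℕ)) ≠ 0 := by
  choose P hP hP' using ind_armP a b hD d j
  obtain ⟨x, hx⟩ := ind_nonroot H (fun h => P (fun t => g h (t, 0)) ^ 2 -
      P (fun t => g h (t, 1)) ^ 2 * (Polynomial.X ^ 3 + Polynomial.C a * Polynomial.X +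
        Polynomial.C b)) (fun h hh => by
    refine ind_norm a b ?_
    obtain ⟨⟨t, i⟩, ht⟩ := Function.ne_iff.1 (hH h hh)
    fin_cases i
    · exact Or.inl (hP _ (Function.ne_iff.2 ⟨t, ht⟩))
    · exact Or.inr (hP _ (Function.ne_iff.2 ⟨t, ht⟩)))
  obtain ⟨y, hy⟩ := IsAlgClosed.exists_pow_nat_eq (fc a b x) two_pos
  refine ⟨x, y, hy, fun h hh s h0 => hx h hh ?_⟩
  have hs : ((s : ℤ) : ℂ) ^ 2 = 1 := by
    rcases Int.units_eq_one_or s with rfl | rfl <;> simp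
  have e : ∑ τ, g h τ * (p1indArm a b d j x 0 0 0 τ.1 * (((s : ℤ) : ℂ) * y) ^ (τ.2 : ℕ)) =
      (P fun t => g h (t, 0)).eval x + (P fun t => g h (t, 1)).eval x * (((s : ℤ) : ℂ) * y) := by
    rw [hP', hP', Fintype.sum_prod_type, sum_mul, ← sum_add_distrib]
    refine sum_congr rfl fun t _ => ?_
    rw [Fin.sum_univ_two]
    simp only [Fin.val_zero, pow_zero, mul_one, Fin.val_one, pow_one]
    ring
  rw [e] at h0
  simp only [Polynomial.eval_sub, Polynomial.eval_mul, Polynomial.eval_pow, Polynomial.eval_add,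
    Polynomial.eval_X, Polynomial.eval_C]
  unfold fc at hy
  rw [← hy]
  linear_combination ((P fun t => g h (t, 0)).eval x -
    (P fun t => g h (t, 1)).eval x * (((s : ℤ) : ℂ) * y)) * h0 +
    ((P fun t => g h (t, 1)).eval x ^ 2 * y ^ 2) * hs

/- For `h ≠ 0` the sum is `P (x, t) + Q (x, t) * (± r (fc x))` with polynomials `P`, `Q` that are not
both zero (`arm_indep` of `P1Ind` for a slice of `h`), so `N h = P ^ 2 - Q ^ 2 * fc ≠ 0` (parity of the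
degree in `x`, e.g. in `Polynomial (Polynomial ℂ)` with `x` the outer variable); the product of the
`N h` is a nonzero polynomial and has a non-zero value. -/
theorem arm_indep_fam (a b : ℂ) (hD : 4 * a ^ 3 + 27 * b ^ 2 ≠ 0) (d j e : ℕ)
    (H : Finset (TA d j × Fin (e + 1) → ℂ)) (hH : ∀ h ∈ H, h ≠ 0) :
    ∃ z : ℂ × ℂ × ℂ, z.2.1 ^ 2 = fc a b z.1 ∧ ∀ h ∈ H, ∀ s : ℤˣ,
      ∑ τ, h τ * (p1indArm a b d j z.1 0 0 0 τ.1.1 * (((s : ℤ) : ℂ) * z.2.1) ^ (τ.1.2 : ℕ) *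
        z.2.2 ^ (τ.2 : ℕ)) ≠ 0 := by
  have h1 : ∀ h : H, ∃ τ, h.1 τ ≠ 0 := fun h => Function.ne_iff.mp (hH h.1 h.2)
  choose τ₀ h₀ using h1
  obtain ⟨t, ht⟩ := ind_nonroot (univ : Finset H) (fun h => ∑ α : Fin (e + 1),
      Polynomial.C (h.1 ((τ₀ h).1, α)) * Polynomial.X ^ (α : ℕ)) (fun h _ h0 => by
    have h5 := congrArg (fun P => Polynomial.coeff P ((τ₀ h).2 : ℕ)) h0
    simp only [Polynomial.finsetSum_coeff, Polynomial.coeff_C_mul_X_pow,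
      Polynomial.coeff_zero] at h5
    rw [Finset.sum_eq_single (τ₀ h).2] at h5
    · exact h₀ h (by simpa using h5)
    · intro i _ hi
      rw [if_neg]
      exact fun e => hi (Fin.ext e.symm)
    · simp)
  obtain ⟨x, y, hy, hxy⟩ := ind_curve a b hD d j (univ : Finset H)
    (fun h τ => ∑ α : Fin (e + 1), h.1 (τ, α) * t ^ (α : ℕ)) (fun h _ =>
      Function.ne_iff.2 ⟨(τ₀ h).1, by
        simpa [Polynomial.eval_finsetSum] using ht h (mem_univ _)⟩)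
  refine ⟨(x, y, t), hy, fun h hh s => ?_⟩
  have h2 := hxy ⟨h, hh⟩ (mem_univ _) s
  rw [Fintype.sum_prod_type]
  convert h2 using 2 with τ
  rw [sum_mul]
  exact sum_congr rfl fun α _ => by ring

/- As `GG_ne_zero` (`P1Ind`), `GT_ne_zero` (`Q1Ind`): let the centre tend to the origin,
`x none = β⁻¹`, `y none = v * β⁻¹ ^ 2`, `v ^ 2 = β + a β ^ 3 + b β ^ 4`; `p1ind_arm`, `p1ind_arm_zero`,
`p1ind_sqrt`. -/
theorem GR_ne_zero {m : ℕ} {a b : ℤ} (hD : 4 * a ^ 3 + 27 * b ^ 2 ≠ 0) (d : ℕ) (j e : Fin m → ℕ)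
    (c : Col (fun i => TA d (j i)) e → ℤ) (hc : c ≠ 0) :
    ∃ (x y : Option (Fin m) → ℂ) (t : Fin m → ℂ), (∀ p, y p ^ 2 = fc (a : ℂ) b (x p)) ∧
      ∀ sg : Option (Fin m) → ℤˣ,
        GR e c (fA a b d j (fun _ => false) x fun p => ((sg p : ℤ) : ℂ) * y p) t ≠ 0 := by
  classical
  obtain ⟨r, hr, hr0⟩ := p1ind_sqrt
  have hc' : (fun τ => (c τ : ℂ)) ≠ 0 := by
    intro h
    refine hc (funext fun τ => ?_)
    simpa using congrFun h τ
  have hD' : 4 * (a : ℂ) ^ 3 + 27 * (b : ℂ) ^ 2 ≠ 0 := by exact_mod_cast hD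
  obtain ⟨z, hz⟩ := tens_ne_zero_fam (T := fun i => TA d (j i) × Fin (e i + 1))
    (Z := fun _ => {z : ℂ × ℂ × ℂ // z.2.1 ^ 2 = fc (a : ℂ) b z.1}) (Sg := ℤˣ)
    (fun i z s τ => p1indArm a b d (j i) z.1.1 0 0 0 τ.1.1 *
      (((s : ℤ) : ℂ) * z.1.2.1) ^ (τ.1.2 : ℕ) * z.1.2.2 ^ (τ.2 : ℕ))
    (fun i H hH => by
      obtain ⟨z, h1, h2⟩ := arm_indep_fam (a : ℂ) b hD' d (j i) (e i) H hH
      exact ⟨⟨z, h1⟩, h2⟩) {fun τ => (c τ : ℂ)} (by simpa using hc')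
  let F : (Option (Fin m) → ℤˣ) → ℂ × ℂ → ℂ := fun sg p =>
    ∑ τ : Col (fun i => TA d (j i)) e, (c τ : ℂ) *
      ∏ i, (p1indArm a b d (j i) (z i).1.1 (((sg (some i) : ℤ) : ℂ) * (z i).1.2.1) p.1
        (((sg none : ℤ) : ℂ) * p.2) (τ i).1.1 *
        (((sg (some i) : ℤ) : ℂ) * (z i).1.2.1) ^ ((τ i).1.2 : ℕ) * (z i).1.2.2 ^ ((τ i).2 : ℕ))
  have hFc : ∀ sg, Continuous (F sg) := by
    intro sg
    simp only [F, p1indArm]
    fun_prop
  have hF0 : ∀ sg, F sg 0 ≠ 0 := by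
    intro sg
    have h1 := hz _ (mem_singleton_self _) (fun i => sg (some i))
    simpa only [F, Prod.fst_zero, Prod.snd_zero, mul_zero, p1ind_arm_zero] using h1
  let g : ℂ → ℂ := fun β => β + a * β ^ 3 + b * β ^ 4
  have hlim : Filter.Tendsto (fun β : ℂ => (β, r (g β))) (nhds 0) (nhds 0) := by
    rw [← Prod.mk_zero_zero, nhds_prod_eq]
    refine Filter.tendsto_id.prodMk (hr0.comp ?_)
    have h1 : Continuous g := by
      simp only [g]
      fun_prop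
    simpa [g] using h1.tendsto 0
  have hev : ∀ᶠ β in nhds (0 : ℂ), ∀ sg, F sg (β, r (g β)) ≠ 0 :=
    Filter.eventually_all.2 fun sg => hlim.eventually ((hFc sg).continuousAt.eventually_ne (hF0 sg))
  obtain ⟨β, hβ, hβ0⟩ := ((hev.filter_mono nhdsWithin_le_nhds).and
    (self_mem_nhdsWithin (s := {0}ᶜ))).exists
  have hβ1 : β ≠ 0 := hβ0
  refine ⟨fun p => p.elim β⁻¹ fun i => (z i).1.1,
    fun p => p.elim (r (g β) * β⁻¹ ^ 2) fun i => (z i).1.2.1, fun i => (z i).1.2.2, ?_,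
    fun sg => ?_⟩
  · rintro (_ | i)
    · simp only [Option.elim_none, mul_pow, hr, g, fc]
      field_simp
    · exact (z i).2
  · have key : GR e c (fA a b d j (fun _ => false) (fun p => p.elim β⁻¹ fun i => (z i).1.1)
        fun p => ((sg p : ℤ) : ℂ) * p.elim (r (g β) * β⁻¹ ^ 2) fun i => (z i).1.2.1)
        (fun i => (z i).1.2.2) = (∏ _i : Fin m, (β⁻¹ ^ 2) ^ d) * F sg (β, r (g β)) := by
      simp only [GR, fA, F, Option.elim_none, Option.elim_some]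
      rw [Finset.mul_sum]
      refine Finset.sum_congr rfl fun τ _ => ?_
      rw [mul_left_comm _ (c τ : ℂ), ← Finset.prod_mul_distrib]
      congr 1
      refine Finset.prod_congr rfl fun i _ => ?_
      rw [← mul_assoc ((sg none : ℤ) : ℂ), p1ind_arm _ _ _ _ _ _ _ _ hβ1]
      ring
    rw [key]
    exact mul_ne_zero (Finset.prod_ne_zero_iff.2 fun _ _ =>
      pow_ne_zero _ (pow_ne_zero _ (inv_ne_zero hβ1))) (hβ sg)

end Pool.Agent.Lib.MP_651af7_nt.Rt
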