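import Pool.Agent.Lib.MP_651af7_nt.Rt.Exp
import Pool.Agent.Lib.MP_651af7_nt.P1Exit
import Pool.Agent.Lib.MP_651af7_nt.Vj.Wd

/-! The auxiliary section as a polynomial. -/

namespace Pool.Agent.Lib.MP_651af7_nt.Rt

open Finset Height NumberField Pool.Agent.Lib.MP_e97e2b_nt Pool.Agent.Lib.MP_651af7_nt.Iv
  Pool.Agent.Lib.MP_651af7_nt.Vj Pool.Agent.Lib.MP_651af7_nt.Vj.P1 Pool.Agent.Lib.Common.Subspace
open Pool.Agent.Lib.MP_8865d3_nt.Fa (Small Adm wt)

open MvPolynomial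

section aux

variable {σ V : Type} [DecidableEq V]

private lemma pr_il_int (z : ℤ) : IL (z : MvPolynomial σ ℚ) |(z : ℝ)| := by
  simpa using il_intCast (σ := σ) z

private lemma pr_il_pow (s : σ) (n : ℕ) : IL (X s ^ n : MvPolynomial σ ℚ) 1 := by
  simpa using (il_X s).pow n

private lemma pr_il_mon {w : ℕ} (s s' : σ) (μ : MM w) :
    IL (mon (X s) (X s') μ : MvPolynomial σ ℚ) 1 := by
  simpa [mon] using (pr_il_pow s μ.1).mul (pr_il_pow s' μ.2)

private lemma pr_wd_int (w : σ → ℕ) (z : ℤ) : WD w (z : MvPolynomial σ ℚ) 0 := by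
  simpa using wd_C w (z : ℚ)

private lemma pr_wd_pow (cl : σ → V) (o : V) (s : σ) {n N : ℕ} (h : n ≤ N) :
    WD (fun q => if cl q = o then 1 else 0) (X s ^ n) (if cl s = o then N else 0) := by
  refine ((wd_X _ s).pow n).mono ?_
  split_ifs <;> omega

private lemma pr_wd_mon (cl : σ → V) (o : V) (s s' : σ) (e : cl s' = cl s) {w N : ℕ} (μ : MM w)
    (h : (μ.1 : ℕ) + 2 * μ.2 ≤ N) :
    WD (fun q => if cl q = o then 1 else 0) (mon (X s) (X s') μ) (if cl s = o then N else 0) := by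
  refine ((pr_wd_pow cl o s le_rfl).mul (pr_wd_pow cl o s' le_rfl)).mono ?_
  rw [e]
  split_ifs <;> omega

private lemma pr_card (d j e : ℕ) {C : ℝ} (hC : 1 ≤ C) :
    (Fintype.card (TA d j) : ℝ) * 2 ^ e * (C ^ 4 ^ j * 1 ^ e) ≤
      (4 * (d + 1) * C) ^ (4 ^ j + e) := by
  have hd : (1 : ℝ) ≤ d + 1 := by linarith [d.cast_nonneg (α := ℝ)]
  have h1 : (Fintype.card (TA d j) : ℝ) = (2 * (d + 1)) * 4 ^ j := by
    simp only [Fintype.card_prod, Fintype.card_fin]
    push_cast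
    ring
  have h2 : (2 * (d + 1) : ℝ) ≤ (2 * (d + 1)) ^ 4 ^ j := le_self_pow₀ (by linarith) (by positivity)
  have h3 : (4 : ℝ) ^ j ≤ 2 ^ 4 ^ j := by exact_mod_cast (Nat.lt_two_pow_self).le
  have h4 : (d + 1 : ℝ) ≤ (d + 1) * C := le_mul_of_one_le_right (by linarith) hC
  have h5 : (2 : ℝ) ^ e ≤ (4 * (d + 1) * C) ^ e :=
    pow_le_pow_left₀ (by norm_num) (by linarith) e
  have h6 : (4 * (d + 1) * C : ℝ) ^ 4 ^ j = (2 * (d + 1)) ^ 4 ^ j * 2 ^ 4 ^ j * C ^ 4 ^ j := by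
    rw [← mul_pow, ← mul_pow]
    congr 1
    ring
  rw [h1, pow_add, h6, one_pow, mul_one]
  calc _ = (2 * (d + 1) * 4 ^ j * C ^ 4 ^ j) * (2 : ℝ) ^ e := by ring
    _ ≤ _ := by gcongr

end aux

/- As `exists_polyT` in `MP_8865d3_nt/Q1Poly`.  `G = GR e c f t` in the polynomial ring, where
`f i τ = (∑ ν, ∑ μ, r ν μ * mon .. ν * mon .. μ) * X (inr (some i)) ^ τ.2` comes from `exists_arr`;
`locG` with `lenSN` (`P1Exit`) or the `IL`, `WD` calculus of `Vj/Wd` (`wd_single_iff`); `map_GR`. -/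
theorem exists_polyR (a b : ℤ) (d : ℕ) : ∃ C : ℝ, 1 ≤ C ∧
    ∀ (m : ℕ) (j e : Fin m → ℕ) (c : Col (fun i => TA d (j i)) e → ℤ) (Γ : ℝ), 1 ≤ Γ →
      (∀ τ, |(c τ : ℝ)| ≤ Γ) →
      ∃ G : MvPolynomial (VV m ⊕ Option (Fin m)) ℚ, IsInt G ∧
        len G ≤ Γ * C ^ (∑ i, (4 ^ j i + e i)) ∧
        (∀ μ ∈ G.support, ∀ q, μ q ≤ dg d j e (Sum.elim Prod.fst id q)) ∧
        ∀ (R : Type) [CommRing R] (φ : MvPolynomial (VV m ⊕ Option (Fin m)) ℚ →+* R),
          (∀ p, φ (X (.inr p)) ^ 2 = fc (a : R) b (φ (X (.inl (p, false))))) →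
          φ G = GR e c (fA a b d j (fun _ => false) (fun p => φ (X (.inl (p, false))))
            (fun p => φ (X (.inr p)))) fun i => φ (X (.inl (some i, true))) := by
  classical
  obtain ⟨C, hC, h⟩ := exists_arr a b d
  choose r h1 h2 h3 using h
  have hd : (1 : ℝ) ≤ d + 1 := by linarith [d.cast_nonneg (α := ℝ)]
  refine ⟨4 * (d + 1) * C, one_le_mul_of_one_le_of_one_le (by linarith) hC, ?_⟩
  intro m j e c Γ hΓ1 hΓ
  let f : ∀ i, TA d (j i) → MvPolynomial (VV m ⊕ Option (Fin m)) ℚ := fun i τ =>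
    (∑ ν, ∑ μ, (r (j i) false τ.1 ν μ : MvPolynomial (VV m ⊕ Option (Fin m)) ℚ) *
      mon (X (.inl (none, false))) (X (.inr none)) ν *
      mon (X (.inl (some i, false))) (X (.inr (some i))) μ) * X (.inr (some i)) ^ (τ.2 : ℕ)
  have hf : ∀ i τ, IL (f i τ) (C ^ 4 ^ j i) := fun i τ => by
    refine ((il_sum _ fun ν _ => il_sum _ fun μ _ =>
      ((pr_il_int _).mul (pr_il_mon _ _ ν)).mul (pr_il_mon _ _ μ)).mul (pr_il_pow _ _)).mono ?_
    simpa using h2 (j i) false τ.1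
  let cl : VV m ⊕ Option (Fin m) → Option (Fin m) := Sum.elim Prod.fst id
  have hw : ∀ o i τ, WD (fun q => if cl q = o then 1 else 0) (f i τ)
      (((if none = o then 2 * d else 0) + if some i = o then (2 * d + 1) * 4 ^ j i else 0) +
        if some i = o then 2 else 0) := fun o i τ => by
    refine WD.mul (wd_sum _ fun ν _ => wd_sum _ fun μ _ => ?_)
      (pr_wd_pow cl o (.inr (some i)) τ.2.2.le)
    by_cases h0 : r (j i) false τ.1 ν μ = 0
    · simpa [h0] using wd_zero _ _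
    obtain ⟨k1, k2⟩ := h1 _ _ _ ν μ h0
    have := ((pr_wd_int _ (r (j i) false τ.1 ν μ)).mul
      (pr_wd_mon cl o (.inl (none, false)) (.inr none) rfl ν k1)).mul
      (pr_wd_mon cl o (.inl (some i, false)) (.inr (some i)) rfl μ k2)
    rwa [zero_add] at this
  refine ⟨GR e c f fun i => X (.inl (some i, true)), ?_, ?_, ?_, ?_⟩
  · exact isInt_sum _ _ fun τ _ => (pr_il_int _).1.mul (isInt_prod _ _ fun i _ =>
      (hf i _).1.mul (pr_il_pow _ _).1)
  · have := locG (lenSN _) hΓ1 hΓ (f := f) (F := fun i => C ^ 4 ^ j i) (fun i => by positivity)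
      (fun i τ => (hf i τ).2) (t := fun i => X (.inl (some i, true))) (U := fun _ => 1)
      (fun _ => le_rfl) (fun i => (il_X _).2)
    rw [E_neg_case not_false, mul_assoc, ← prod_mul_distrib] at this
    refine le_trans this (mul_le_mul_of_nonneg_left ?_ (by linarith))
    rw [← prod_pow_eq_pow_sum]
    exact prod_le_prod (fun i _ => by positivity) fun i _ => pr_card d (j i) (e i) hC
  · intro μ hμ q
    have hG : WD (fun q' => if cl q' = cl q then 1 else 0)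
        (GR e c f fun i => X (.inl (some i, true))) (dg d j e (cl q)) := by
      refine wd_sum _ fun τ _ => ((pr_wd_int _ _).mul (wd_prod _ fun i _ => (hw (cl q) i _).mul
        (pr_wd_pow cl (cl q) (.inl (some i, true)) (Nat.lt_succ_iff.1 (τ i).2.2)))).mono ?_
      rcases cl q with _ | i₀
      · simp [cl, dg, mul_comm]
      · simp [cl, dg, sum_add_distrib]
    have := (apply_mul_le_weight _ μ q).trans (hG μ hμ)
    simpa using this
  · intro R _ φ hφ
    rw [map_GR]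
    congr 1
    funext i τ
    simp only [f, fA, mon, map_sum, map_mul, map_pow, map_intCast]
    rw [h3 (j i) false τ.1 R _ _ _ _ (hφ (some i)) (hφ none)]
    rfl

end Pool.Agent.Lib.MP_651af7_nt.Rt
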