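import Pool.Agent.Lib.MP_651af7_nt.Rt.Defs
import Pool.Agent.Lib.MP_651af7_nt.P1Ser

/-! Formal branches with a free radius. -/

namespace Pool.Agent.Lib.MP_651af7_nt.Rt

open Finset Height NumberField Pool.Agent.Lib.MP_e97e2b_nt Pool.Agent.Lib.MP_651af7_nt.Iv
  Pool.Agent.Lib.MP_651af7_nt.Vj Pool.Agent.Lib.MP_651af7_nt.Vj.P1 Pool.Agent.Lib.Common.Subspace
open Pool.Agent.Lib.MP_8865d3_nt.Fa (Small Adm wt)

open MvPowerSeries in
lemma ser_etaR {K V : Type} [Field K] {na : Prop} (S : SN (MvPowerSeries V K) na) {κ : V →₀ ℕ}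
    (hz : ∀ f, (∀ μ ≤ κ, coeff μ f = 0) → S.N f = 0) {g η : MvPowerSeries V K}
    (hg : constantCoeff g = 0) (hη : constantCoeff η = 0) (e : η = g - η ^ 2) {r : ℝ}
    (h0 : 0 ≤ r) (h1 : r ≤ 1) (hN : S.N g ≤ r * (E na 4)⁻¹) : S.N η ≤ r := by
  have h2 : 1 ≤ E na 2 := one_le_E one_le_two
  have h4 : E na 4 = E na 2 ^ 2 := by rw [← E_pow]; norm_num
  let s : ℕ → MvPowerSeries V K := fun k => (fun r => g - r ^ 2)^[k] 0
  have hs : ∀ k, s (k + 1) = g - s k ^ 2 := fun k => Function.iterate_succ_apply' _ _ _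
  have hc : ∀ k, constantCoeff (s k) = 0 := fun k => by
    induction k with
    | zero => exact map_zero _
    | succ k ih => simp [hs, hg, ih]
  refine (ser_lim S hz s (fun k => -(η + s k)) (fun k => by simp [hη, hc]) (fun k => ?_)
    (M := r * (E na 2)⁻¹) fun k => ?_).trans
    (mul_le_of_le_one_right h0 (inv_le_one_of_one_le₀ h2))
  · rw [hs]
    linear_combination e
  · induction k with
    | zero => exact S.zero.le.trans (by positivity)
    | succ k ih =>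
      have h5 := S.sub_le (s := 1) (t := 1) (M := r * (E na 4)⁻¹) (by rwa [E_one, one_mul])
        (g := s k ^ 2) (by
          rw [E_one, one_mul, h4, ← inv_pow]
          refine (S.pow_le ih 2).trans ?_
          rw [mul_pow]
          exact mul_le_mul_of_nonneg_right (pow_le_of_le_one h0 h1 two_ne_zero) (by positivity))
      rw [hs]
      refine h5.trans (le_of_eq ?_)
      rw [h4, one_add_one_eq_two]
      field_simp

open MvPowerSeries in
lemma ser_oneR {K V : Type} [Field K] {v : AbsoluteValue K ℝ} {na : Prop}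
    (S : SN (MvPowerSeries V K) na) {κ : V →₀ ℕ}
    (hz : ∀ f, (∀ μ ≤ κ, coeff μ f = 0) → S.N f = 0) (hC : ∀ c, S.N (C c) ≤ v c) {a : ℤ}
    {A : ℝ} (hA : 1 + |(a : ℝ)| ≤ A) {x y : K} (hy2 : v y ^ 2 ≤ E na A * max 1 (v x) ^ 3)
    {t η : MvPowerSeries V K} (ht : constantCoeff t = 0) (hη : constantCoeff η = 0)
    (e : η = C (4 * y ^ 2)⁻¹ * t *
      (3 * C x ^ 2 + (a : MvPowerSeries V K) + 3 * (C x * t) + t ^ 2) - η ^ 2) {r : ℝ}
    (hr0 : 0 ≤ r) (hr1 : r ≤ 1)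
    (hN : S.N t ≤ r * (E na (144 * A) * max 1 (v x) ^ 2 * max 1 (v (4 * y ^ 2)⁻¹))⁻¹) :
    S.N (C y * (1 + 2 * η) - C y) ≤ r * (E na (144 * A) * max 1 (v x)) ^ 2 := by
  have ha := abs_nonneg (a : ℝ)
  have hA1 : 1 ≤ A := by linarith
  have hx : v x ≤ max 1 (v x) := le_max_right _ _
  have hw : v (4 * y ^ 2)⁻¹ ≤ max 1 (v (4 * y ^ 2)⁻¹) := le_max_right _ _
  have hm1 : 1 ≤ max 1 (v x) := le_max_left _ _
  have hw1 : 1 ≤ max 1 (v (4 * y ^ 2)⁻¹) := le_max_left _ _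
  generalize max 1 (v x) = m at *
  generalize max 1 (v (4 * y ^ 2)⁻¹) = w at *
  have hc1 : 1 ≤ E na (144 * A) := one_le_E (by linarith)
  have hEA : 1 ≤ E na A := one_le_E hA1
  have hm2 : 1 ≤ m ^ 2 := one_le_pow₀ hm1
  have ht1 : S.N t ≤ 1 := hN.trans (mul_le_one₀ hr1 (by positivity) (inv_le_one_of_one_le₀
    (one_le_mul_of_one_le_of_one_le (one_le_mul_of_one_le_of_one_le hc1 hm2) hw1)))
  have hx1 : S.N (C x) ≤ m := (hC x).trans hx
  have hg : S.N (C (4 * y ^ 2)⁻¹ * t *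
      (3 * C x ^ 2 + (a : MvPowerSeries V K) + 3 * (C x * t) + t ^ 2)) ≤ r * (E na 4)⁻¹ := by
    have h3 : S.N 3 ≤ E na 3 := by simpa using S.natCast_le 3
    have h1 : S.N (3 * C x ^ 2 + (a : MvPowerSeries V K) + 3 * (C x * t) + t ^ 2) ≤
        E na (3 + |(a : ℝ)| + 3 + 1) * m ^ 2 :=
      S.add_le (S.add_le (S.add_le (S.mul_le h3 (S.pow_le hx1 2)) ((S.intCast_le a).trans
        (le_mul_of_one_le_right (E_nonneg ha) hm2)))
        (S.mul_le h3 (by rw [sq]; exact S.mul_le hx1 (ht1.trans hm1))))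
        (by rw [E_one, one_mul]; exact S.pow_le (ht1.trans hm1) 2)
    refine (S.mul_le (S.mul_le ((hC _).trans hw) hN) h1).trans ?_
    have h4 : E na (3 + |(a : ℝ)| + 3 + 1) * E na 4 ≤ E na (144 * A) := by
      rw [← E_mul]
      exact E_mono (by linarith)
    have h5 : 0 < E na 4 := E_pos (by norm_num)
    rw [← div_eq_mul_inv r (E na 4), le_div_iff₀ h5]
    refine le_trans (le_of_eq ?_)
      (mul_le_of_le_one_right hr0 ((div_le_one (by positivity)).2 h4))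
    field_simp
  have hη1 := ser_etaR S hz (by simp [ht]) hη e hr0 hr1 hg
  have h2 : S.N 2 ≤ E na 2 := by simpa using S.natCast_le 2
  have h1 : v y ≤ E na A * m ^ 2 := by
    refine le_of_sq_le_sq (hy2.trans ?_) (by positivity)
    rw [mul_pow, ← pow_mul]
    exact mul_le_mul (le_self_pow₀ hEA two_ne_zero) (pow_le_pow_right₀ hm1 (by norm_num))
      (by positivity) (by positivity)
  have h3 : E na A * E na 2 ≤ E na (144 * A) ^ 2 := by
    rw [← E_mul]
    exact (E_mono (by linarith)).trans (le_self_pow₀ hc1 two_ne_zero)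
  rw [show C y * (1 + 2 * η) - C y = C y * (2 * η) by ring]
  calc _ ≤ E na A * m ^ 2 * (E na 2 * r) := S.mul_le ((hC y).trans h1) (S.mul_le h2 hη1)
    _ = E na A * E na 2 * (r * m ^ 2) := by ring
    _ ≤ E na (144 * A) ^ 2 * (r * m ^ 2) := mul_le_mul_of_nonneg_right h3 (by positivity)
    _ = _ := by ring

open MvPowerSeries in
/- As `exists_branchT` (`MP_8865d3_nt/Q1Ser`), with the radii `r p / (E c * max ^ 2 * max)` for
`(p, false)` and `r p` for `(p, true)`.  For the last bound copy `ser_eta` (`P1Ser`): if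
`N g ≤ r * (E 4)⁻¹`, `r ≤ 1`, then `N η ≤ r` (iterates are bounded by `r * (E 2)⁻¹`); the bound for
`N g` is inside the proof of `ser_one`; `y - C y₀ = C y₀ * (2 * η)`.  The constant `c` may be enlarged. -/
theorem exists_branchR {K O : Type} [Field K] [CharZero K] [Fintype O] (a b : ℤ) :
    ∃ c : ℝ, 2 ≤ c ∧ ∀ x₀ y₀ : O → K, (∀ p, y₀ p ^ 2 = fc (a : K) b (x₀ p)) → (∀ p, y₀ p ≠ 0) →
      ∃ y : O → MvPowerSeries (O × Bool) K,
        (∀ p, y p ^ 2 = fc (a : MvPowerSeries (O × Bool) K) b (C (x₀ p) + X (p, false))) ∧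
        (∀ p, constantCoeff (y p) = y₀ p) ∧
        ∀ (v : AbsoluteValue K ℝ) (κ : O × Bool →₀ ℕ) (r : O → ℝ), (∀ p, 0 < r p) →
          (∀ p, r p ≤ 1) → ∃ S : SN (MvPowerSeries (O × Bool) K) (IsNonarchimedean v),
            (∀ f, v (coeff κ f) * ∏ p, r p ^ (κ (p, false) + κ (p, true)) ≤ S.N f * ∏ p,
              (E (IsNonarchimedean v) c * max 1 (v (x₀ p)) ^ 2 *
                max 1 (v (4 * y₀ p ^ 2)⁻¹)) ^ κ (p, false)) ∧
            (∀ z, S.N (C z) ≤ v z) ∧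
            ∀ p, S.N (C (x₀ p) + X (p, false)) ≤ E (IsNonarchimedean v) c * max 1 (v (x₀ p)) ∧
              S.N (y p) ≤ (E (IsNonarchimedean v) c * max 1 (v (x₀ p))) ^ 2 ∧
              S.N (X (p, false)) ≤ r p ∧ S.N (X (p, true)) ≤ r p ∧
              S.N (y p - C (y₀ p)) ≤ r p * (E (IsNonarchimedean v) c * max 1 (v (x₀ p))) ^ 2 := by
  classical
  obtain ⟨A, hA, hA1⟩ : ∃ A : ℝ, 1 + |(a : ℝ)| + |(b : ℝ)| ≤ A ∧ 1 ≤ A := ⟨_, le_rfl, by
    have := abs_nonneg (a : ℝ)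
    have := abs_nonneg (b : ℝ)
    linarith⟩
  refine ⟨144 * A, by linarith, fun x₀ y₀ hy hy0 => ?_⟩
  choose η hη e using fun p : O => exists_fix (C (4 * y₀ p ^ 2)⁻¹ * X (p, false) *
    (3 * C (x₀ p) ^ 2 + (a : MvPowerSeries (O × Bool) K) + 3 * (C (x₀ p) * X (p, false)) +
      X (p, false) ^ 2)) (by simp)
  refine ⟨fun p => C (y₀ p) * (1 + 2 * η p), fun p => ?_, fun p => by simp [hη],
    fun v κ r hr0 hr1 => ?_⟩
  · have h1 := congrArg (C : K →+* MvPowerSeries (O × Bool) K) (hy p)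
    rw [map_fc, map_pow, map_intCast, map_intCast] at h1
    have h2 : (4 * C (y₀ p) ^ 2 : MvPowerSeries (O × Bool) K) * C (4 * y₀ p ^ 2)⁻¹ = 1 := by
      rw [← map_pow, ← map_ofNat (C : K →+* MvPowerSeries (O × Bool) K) 4, ← map_mul, ← map_mul,
        mul_inv_cancel₀ (mul_ne_zero (by norm_num : (4 : K) ≠ 0) (pow_ne_zero 2 (hy0 p))), map_one]
    simp only [fc] at h1 ⊢
    linear_combination h1 + 4 * C (y₀ p) ^ 2 * e p + X (p, false) *
      (3 * C (x₀ p) ^ 2 + (a : MvPowerSeries (O × Bool) K) + 3 * (C (x₀ p) * X (p, false)) +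
        X (p, false) ^ 2) * h2
  · obtain ⟨F, hF⟩ : ∃ F : O → ℝ, ∀ p, F p = E (IsNonarchimedean v) (144 * A) *
        max 1 (v (x₀ p)) ^ 2 * max 1 (v (4 * y₀ p ^ 2)⁻¹) := ⟨_, fun _ => rfl⟩
    have hF1 : ∀ p, 1 ≤ F p := fun p => hF p ▸ one_le_mul_of_one_le_of_one_le
      (one_le_mul_of_one_le_of_one_le (one_le_E (by linarith)) (one_le_pow₀ (le_max_left _ _)))
      (le_max_left _ _)
    have hF0 : ∀ p, 0 < F p := fun p => one_pos.trans_le (hF1 p)
    obtain ⟨ρ, hρ0, hρ1⟩ : ∃ ρ : O × Bool → ℝ, (∀ p, ρ (p, false) = r p * (F p)⁻¹) ∧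
        ∀ p, ρ (p, true) = r p :=
      ⟨fun q => if q.2 = true then r q.1 else r q.1 * (F q.1)⁻¹, fun p => by simp, fun p => by simp⟩
    have hpos : ∀ q, 0 ≤ ρ q := by
      rintro ⟨p, _ | _⟩
      · rw [hρ0]
        exact mul_nonneg (hr0 p).le (inv_pos.2 (hF0 p)).le
      · rw [hρ1]
        exact (hr0 p).le
    obtain ⟨S, h1, h2, h3, h4⟩ := exists_SN v ρ hpos κ
    refine ⟨S, fun f => ?_, h2, fun p => ?_⟩
    · simp only [← hF]
      refine le_trans (le_of_eq ?_) (mul_le_mul_of_nonneg_right (h1 f)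
        (prod_nonneg fun p _ => pow_nonneg (hF0 p).le (κ (p, false))))
      rw [mul_assoc, Fintype.prod_prod_type, ← prod_mul_distrib]
      congr 1
      refine prod_congr rfl fun p _ => ?_
      have := (hF0 p).ne'
      rw [Fintype.prod_bool, hρ0, hρ1, pow_add, mul_pow, inv_pow]
      field_simp
    · have hy2 : v (y₀ p) ^ 2 ≤ E (IsNonarchimedean v) A * max 1 (v (x₀ p)) ^ 3 := by
        rw [← v.map_pow, hy]
        exact (ser_fc (serAbs v) a b (le_max_left _ _) (le_max_right _ _)).trans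
          (mul_le_mul_of_nonneg_right (E_mono hA) (by positivity))
      have hA' : 1 + |(a : ℝ)| ≤ A := (le_add_of_nonneg_right (abs_nonneg _)).trans hA
      have h5 : S.N (X (p, false)) ≤ r p * (F p)⁻¹ := hρ0 p ▸ h3 (p, false)
      obtain ⟨k1, k2, -⟩ := ser_one S h4 h2 hA' hy2 (by simp) (hη p) (e p)
        (hF p ▸ h5.trans (mul_le_of_le_one_left (inv_pos.2 (hF0 p)).le (hr1 p)))
      exact ⟨k1, k2, h5.trans (mul_le_of_le_one_right (hr0 p).le (inv_le_one_of_one_le₀ (hF1 p))),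
        hρ1 p ▸ h3 (p, true),
        ser_oneR S h4 h2 hA' hy2 (by simp) (hη p) (e p) (hr0 p).le (hr1 p) (hF p ▸ h5)⟩

/- Induction on the polynomial (`MvPolynomial.induction_on`), plain triangle inequality:
`G * z - ι (G₀ * z₀) = (G - ι G₀) * z + ι G₀ * (z - ι z₀)`. -/
theorem exists_lip {K σ : Type} [Field K] (v : AbsoluteValue K ℝ) (g : MvPolynomial σ K) :
    ∃ (C : ℝ) (n : ℕ), 1 ≤ C ∧ ∀ (R : Type) [CommRing R] (na : Prop) (S : SN R na) (ι : K →+* R),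
      (∀ z, S.N (ι z) ≤ v z) → ∀ (z : σ → R) (z₀ : σ → K) (M r : ℝ), 1 ≤ M → 0 ≤ r →
      (∀ s, S.N (z s) ≤ M) → (∀ s, v (z₀ s) ≤ M) → (∀ s, S.N (z s - ι (z₀ s)) ≤ r * M) →
      S.N (MvPolynomial.eval₂ ι z g) ≤ C * M ^ n ∧ v (MvPolynomial.eval z₀ g) ≤ C * M ^ n ∧
        S.N (MvPolynomial.eval₂ ι z g - ι (MvPolynomial.eval z₀ g)) ≤ r * (C * M ^ n) := by
  induction g using MvPolynomial.induction_on with
  | C a =>
    refine ⟨max 1 (v a), 0, le_max_left _ _, fun R _ na S ι hι z z₀ M r _ hr _ _ _ => ?_⟩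
    rw [MvPolynomial.eval₂_C, MvPolynomial.eval_C, pow_zero, mul_one, sub_self, S.zero]
    exact ⟨(hι a).trans (le_max_right _ _), le_max_right _ _, by positivity⟩
  | add f g hf hg =>
    obtain ⟨C₁, n₁, hC₁, h₁⟩ := hf
    obtain ⟨C₂, n₂, hC₂, h₂⟩ := hg
    refine ⟨C₁ + C₂, n₁ + n₂, by linarith, fun R _ na S ι hι z z₀ M r hM hr k1 k2 k3 => ?_⟩
    obtain ⟨a1, a2, a3⟩ := h₁ R na S ι hι z z₀ M r hM hr k1 k2 k3
    obtain ⟨b1, b2, b3⟩ := h₂ R na S ι hι z z₀ M r hM hr k1 k2 k3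
    have h : C₁ * M ^ n₁ + C₂ * M ^ n₂ ≤ (C₁ + C₂) * M ^ (n₁ + n₂) := by
      rw [add_mul]
      exact add_le_add
        (mul_le_mul_of_nonneg_left (pow_le_pow_right₀ hM (Nat.le_add_right _ _)) (by linarith))
        (mul_le_mul_of_nonneg_left (pow_le_pow_right₀ hM (Nat.le_add_left _ _)) (by linarith))
    rw [MvPolynomial.eval₂_add, map_add, map_add ι, add_sub_add_comm]
    refine ⟨(S.add _ _).trans ((add_le_add a1 b1).trans h),
      (v.add_le _ _).trans ((add_le_add a2 b2).trans h), (S.add _ _).trans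
        ((add_le_add a3 b3).trans ?_)⟩
    rw [← mul_add]
    exact mul_le_mul_of_nonneg_left h hr
  | mul_X f s hf =>
    obtain ⟨C₁, n₁, hC₁, h₁⟩ := hf
    refine ⟨2 * C₁, n₁ + 1, by linarith, fun R _ na S ι hι z z₀ M r hM hr k1 k2 k3 => ?_⟩
    obtain ⟨a1, a2, a3⟩ := h₁ R na S ι hι z z₀ M r hM hr k1 k2 k3
    have h0 : 0 ≤ C₁ * M ^ n₁ * M := by positivity
    have h : C₁ * M ^ n₁ * M ≤ 2 * C₁ * M ^ (n₁ + 1) := by
      rw [pow_succ]
      linarith
    rw [MvPolynomial.eval₂_mul, MvPolynomial.eval₂_X, map_mul, MvPolynomial.eval_X, map_mul,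
      map_mul]
    refine ⟨(S.mul_le a1 (k1 s)).trans h,
      (mul_le_mul a2 (k2 s) (v.nonneg _) (by positivity)).trans h, ?_⟩
    rw [show MvPolynomial.eval₂ ι z f * z s - ι (MvPolynomial.eval z₀ f) * ι (z₀ s) =
      (MvPolynomial.eval₂ ι z f - ι (MvPolynomial.eval z₀ f)) * z s +
        ι (MvPolynomial.eval z₀ f) * (z s - ι (z₀ s)) by ring]
    refine (S.add _ _).trans ((add_le_add (S.mul_le a3 (k1 s))
      (S.mul_le ((hι _).trans a2) (k3 s))).trans (le_of_eq ?_))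
    ring

end Pool.Agent.Lib.MP_651af7_nt.Rt
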