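import Pool.Agent.Lib.MP_651af7_nt.Rt.Sec
import Pool.Agent.Lib.MP_651af7_nt.Rt.Poly
import Pool.Agent.Lib.MP_651af7_nt.Rt.Ind
import Pool.Agent.Lib.MP_651af7_nt.Rt.Ser
import Pool.Agent.Lib.MP_651af7_nt.Rt.PF
import Pool.Agent.Lib.MP_8865d3_nt.Q1Norm
import Pool.Agent.Lib.MP_651af7_nt.P1Core

/-! The height inequality given by the auxiliary section. -/

namespace Pool.Agent.Lib.MP_651af7_nt.Rt

open Finset Height NumberField Pool.Agent.Lib.MP_e97e2b_nt Pool.Agent.Lib.MP_651af7_nt.Iv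
  Pool.Agent.Lib.MP_651af7_nt.Vj Pool.Agent.Lib.MP_651af7_nt.Vj.P1 Pool.Agent.Lib.Common.Subspace
open Pool.Agent.Lib.MP_8865d3_nt.Fa (Small Adm wt)

section alg

variable {m : ℕ} {na : Prop}

lemma core_alg1 {Γ Z₂ Z c : ℝ} (hΓ : 0 ≤ Γ) (hZ₂ : 0 ≤ Z₂) (hc : 0 ≤ c) (n e : Fin m → ℕ)
    (T Pm mt : Fin m → ℝ) (hT : ∀ i, 0 ≤ T i) (hP : ∀ i, 0 ≤ Pm i) (hmt : ∀ i, 0 ≤ mt i)
    (mx my : Option (Fin m) → ℝ) (hmy : ∀ o, 0 ≤ my o) (k : Option (Fin m) → ℕ)
    (hZ : ∀ i, T i * Z₂ ^ n i * 4 ^ e i ≤ Z ^ (n i + e i)) :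
    E na (Γ * ∏ i, (T i * 2 ^ e i)) * (∏ i, (E na (Z₂ ^ n i) * Pm i * (E na 2 * mt i) ^ e i)) *
        ∏ o, (E na c * mx o ^ 2 * my o) ^ k o ≤
      E na (Γ * Z ^ (∑ i, (n i + e i)) * c ^ (∑ o, k o)) *
        ((∏ i, Pm i) * (∏ o, (mx o ^ 2 * my o) ^ k o) * ∏ i, mt i ^ e i) := by
  have h1 : ∏ o, (E na c * mx o ^ 2 * my o) ^ k o =
      E na (c ^ (∑ o, k o)) * ∏ o, (mx o ^ 2 * my o) ^ k o := by
    rw [E_pow, ← prod_pow_eq_pow_sum, ← prod_mul_distrib]
    exact prod_congr rfl fun o _ => by ring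
  have h2 : ∏ i, (E na (Z₂ ^ n i) * Pm i * (E na 2 * mt i) ^ e i) =
      E na (∏ i, (Z₂ ^ n i * 2 ^ e i)) * ((∏ i, Pm i) * ∏ i, mt i ^ e i) := by
    rw [E_prod, ← prod_mul_distrib, ← prod_mul_distrib]
    refine prod_congr rfl fun i _ => ?_
    rw [E_mul, E_pow 2]
    ring
  have h3 : (∏ i, (T i * 2 ^ e i)) * ∏ i, (Z₂ ^ n i * 2 ^ e i) ≤ Z ^ (∑ i, (n i + e i)) := by
    rw [← prod_pow_eq_pow_sum, ← prod_mul_distrib]
    refine prod_le_prod (fun i _ => by have := hT i; positivity) fun i _ => le_of_eq_of_le ?_ (hZ i)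
    rw [show (4 : ℝ) = 2 * 2 by norm_num, mul_pow]
    ring
  have h4 : 0 ≤ (∏ i, Pm i) * (∏ o, (mx o ^ 2 * my o) ^ k o) * ∏ i, mt i ^ e i :=
    mul_nonneg (mul_nonneg (prod_nonneg fun i _ => hP i)
      (prod_nonneg fun o _ => by have := hmy o; positivity))
      (prod_nonneg fun i _ => pow_nonneg (hmt i) _)
  have h5 : E na (Γ * ((∏ i, (T i * 2 ^ e i)) * ∏ i, (Z₂ ^ n i * 2 ^ e i)) * c ^ (∑ o, k o)) ≤
      E na (Γ * Z ^ (∑ i, (n i + e i)) * c ^ (∑ o, k o)) :=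
    E_mono (mul_le_mul_of_nonneg_right (mul_le_mul_of_nonneg_left h3 hΓ) (by positivity))
  refine le_of_eq_of_le ?_ (mul_le_mul_of_nonneg_right h5 h4)
  rw [h1, h2, E_mul, E_mul, E_mul, E_mul]
  ring

lemma core_alg2 {Γ Z₂ Z c C₄ s u : ℝ} (hΓ : 0 ≤ Γ) (hZ₂ : 1 ≤ Z₂) (hc : 1 ≤ c) (hu : 0 ≤ u)
    (N : ℕ) (n e : Fin m → ℕ) (T Pm mt w : Fin m → ℝ) (hT : ∀ i, 0 ≤ T i) (hP : ∀ i, 0 ≤ Pm i)
    (hmt : ∀ i, 1 ≤ mt i) (mx my : Option (Fin m) → ℝ) (hmy : ∀ o, 0 ≤ my o)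
    (k : Option (Fin m) → ℕ)
    (hZ : ∀ i, T i * Z₂ ^ n i * (8 * C₄ ^ 2 * c ^ (4 * N)) ^ e i ≤ Z ^ (n i + e i)) :
    Γ * (∏ i, (T i * (E na (Z₂ ^ n i) * Pm i) *
        (8 * (C₄ * ((c * Real.exp (s * w i)) ^ 2) ^ N) ^ 2) ^ e i)) * u *
        ∏ o, (E na c * mx o ^ 2 * my o) ^ k o ≤
      Γ * Z ^ (∑ i, (n i + e i)) * c ^ (∑ o, k o) * Real.exp (4 * N * (s * ∑ i, e i * w i)) * u *
        ((∏ i, Pm i) * (∏ o, (mx o ^ 2 * my o) ^ k o) * ∏ i, mt i ^ e i) := by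
  have h1 : ∏ o, (E na c * mx o ^ 2 * my o) ^ k o ≤
      c ^ (∑ o, k o) * ∏ o, (mx o ^ 2 * my o) ^ k o := by
    rw [← prod_pow_eq_pow_sum, ← prod_mul_distrib]
    have hE := E_nonneg (na := na) (zero_le_one.trans hc)
    refine prod_le_prod (fun o _ => by have := hmy o; positivity) fun o _ => ?_
    rw [← mul_pow, ← mul_assoc]
    have := hmy o
    have := E_le_self (na := na) hc
    gcongr
  have h2 : ∏ i, (T i * (E na (Z₂ ^ n i) * Pm i) *
        (8 * (C₄ * ((c * Real.exp (s * w i)) ^ 2) ^ N) ^ 2) ^ e i) ≤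
      Z ^ (∑ i, (n i + e i)) * Real.exp (4 * N * (s * ∑ i, e i * w i)) *
        ((∏ i, Pm i) * ∏ i, mt i ^ e i) := by
    rw [← prod_pow_eq_pow_sum, mul_sum, mul_sum, Real.exp_sum, ← prod_mul_distrib,
      ← prod_mul_distrib, ← prod_mul_distrib]
    have hE : ∀ i, 0 ≤ E na (Z₂ ^ n i) := fun i => E_nonneg (by positivity)
    refine prod_le_prod (fun i _ => by have := hT i; have := hE i; have := hP i; positivity)
      fun i _ => ?_
    have e1 : (8 * (C₄ * ((c * Real.exp (s * w i)) ^ 2) ^ N) ^ 2) ^ e i =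
        (8 * C₄ ^ 2 * c ^ (4 * N)) ^ e i * Real.exp (4 * N * (s * (e i * w i))) := by
      rw [show 4 * N * (s * (e i * w i)) = ((4 * N * e i : ℕ) : ℝ) * (s * w i) by push_cast; ring,
        Real.exp_nat_mul]
      ring
    have e2 : T i * E na (Z₂ ^ n i) * (8 * C₄ ^ 2 * c ^ (4 * N)) ^ e i ≤ Z ^ (n i + e i) := by
      refine le_trans ?_ (hZ i)
      have := hT i
      have := E_le_self (na := na) (one_le_pow₀ hZ₂ (n := n i))
      gcongr
    have e3 : Pm i ≤ Pm i * mt i ^ e i := le_mul_of_one_le_right (hP i) (one_le_pow₀ (hmt i))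
    have e4 : 0 ≤ Z ^ (n i + e i) :=
      le_trans (by have := hT i; have := hE i; positivity) e2
    rw [e1]
    calc _ = T i * E na (Z₂ ^ n i) * (8 * C₄ ^ 2 * c ^ (4 * N)) ^ e i *
          Real.exp (4 * N * (s * (e i * w i))) * Pm i := by ring
      _ ≤ _ := by
        have := hP i
        gcongr
  have h3 : 0 ≤ ∏ o, (E na c * mx o ^ 2 * my o) ^ k o := by
    have hE := E_nonneg (na := na) (zero_le_one.trans hc)
    exact prod_nonneg fun o _ => by have := hmy o; positivity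
  have h4 : 0 ≤ Z ^ (∑ i, (n i + e i)) * Real.exp (4 * N * (s * ∑ i, e i * w i)) *
        ((∏ i, Pm i) * ∏ i, mt i ^ e i) := by
    refine le_trans (prod_nonneg fun i _ => ?_) h2
    have := hT i
    have := hP i
    have : 0 ≤ E na (Z₂ ^ n i) := E_nonneg (by positivity)
    positivity
  refine (mul_le_mul (mul_le_mul_of_nonneg_right (mul_le_mul_of_nonneg_left h2 hΓ) hu) h1 h3
    (by positivity)).trans_eq ?_
  ring

lemma core_alg3 {a u u' Γ α β δ l Q : ℝ} (ha : 0 ≤ a) (hΓ : 0 < Γ) (hu : Real.exp (-α) ≤ u)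
    (hu' : Real.exp (-β) ≤ u') (h : u * a * u' ≤ Γ * Real.exp δ * Real.exp (-l) * Q) :
    a * Real.exp (l - (Real.log Γ + δ + α + β)) ≤ Q := by
  have h1 : Real.exp (-α) * a * Real.exp (-β) ≤ u * a * u' := by
    have := (Real.exp_pos (-α)).le.trans hu
    gcongr
  have h2 : 0 < Γ * Real.exp δ * Real.exp (-l) := by positivity
  refine le_of_mul_le_mul_left (le_of_eq_of_le ?_ (h1.trans h)) h2
  have h3 : Γ * Real.exp δ * Real.exp (-l) * Real.exp (l - (Real.log Γ + δ + α + β)) =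
      Real.exp (-α) * Real.exp (-β) := by
    conv_lhs => rw [← Real.exp_log hΓ, Real.log_exp]
    simp only [← Real.exp_add]
    congr 1
    ring
  linear_combination a * h3

lemma core_Z {Z₂ Y : ℝ} (hZ₂ : 1 ≤ Z₂) (hY : 1 ≤ Y) (d j e : ℕ) {Y' : ℝ} (h0 : 0 ≤ Y')
    (h1 : Y' ≤ Y) : (Fintype.card (TA d j) : ℝ) * Z₂ ^ 4 ^ j * Y' ^ e ≤
      (4 * (d + 1) * Z₂ * Y) ^ (4 ^ j + e) := by
  have hd : (1 : ℝ) ≤ d + 1 := by linarith [Nat.cast_nonneg (α := ℝ) d]
  have h2 : (Fintype.card (TA d j) : ℝ) ≤ (4 * (d + 1)) ^ 4 ^ j := by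
    have e1 : ((4 ^ j : ℕ) : ℝ) ≤ 2 ^ 4 ^ j := by exact_mod_cast Nat.lt_two_pow_self.le
    have e2 : (2 * (d + 1) : ℝ) ≤ (2 * (d + 1)) ^ 4 ^ j :=
      le_self_pow₀ (by linarith) (by positivity)
    calc _ = (2 * (d + 1) : ℝ) * ((4 ^ j : ℕ) : ℝ) := by
          simp only [Fintype.card_prod, Fintype.card_fin]
          push_cast
          ring
      _ ≤ (2 * (d + 1)) ^ 4 ^ j * 2 ^ 4 ^ j := by gcongr
      _ = _ := by
          rw [← mul_pow]
          congr 1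
          ring
  have h3 : (1 : ℝ) ≤ 4 * (d + 1) * Z₂ := one_le_mul_of_one_le_of_one_le (by linarith) hZ₂
  rw [pow_add]
  refine mul_le_mul ?_ (pow_le_pow_left₀ h0 (h1.trans ?_) _) (by positivity) (by positivity)
  · refine (mul_le_mul_of_nonneg_right h2 (by positivity)).trans ?_
    rw [← mul_pow]
    exact pow_le_pow_left₀ (by positivity) (le_mul_of_one_le_right (by positivity) hY) _
  · exact le_mul_of_one_le_left (by positivity) h3

lemma core_F {C c x x' : ℝ} (hC : 1 ≤ C) (hc : 1 ≤ c) (hx : 0 ≤ x) (hx' : 0 ≤ x') (d j : ℕ) :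
    E na (C ^ 4 ^ j) * (E na c * x) ^ ((2 * d + 1) * 4 ^ j + 2) * (E na c * x') ^ (2 * d) ≤
      E na ((C * c ^ (4 * d + 3)) ^ 4 ^ j) * (x ^ ((2 * d + 1) * 4 ^ j + 2) * x' ^ (2 * d)) := by
  have h1 : E na (C ^ 4 ^ j * c ^ ((2 * d + 1) * 4 ^ j + 2 + 2 * d)) ≤
      E na ((C * c ^ (4 * d + 3)) ^ 4 ^ j) := by
    refine E_mono ?_
    rw [mul_pow, ← pow_mul]
    refine mul_le_mul_of_nonneg_left (pow_le_pow_right₀ hc ?_) (by positivity)
    have : 1 ≤ 4 ^ j := Nat.one_le_pow _ _ (by norm_num)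
    nlinarith
  refine le_of_eq_of_le ?_ (mul_le_mul_of_nonneg_right h1 (by positivity))
  rw [E_mul, E_pow c]
  ring

end alg

lemma core_lip {K : Type} [Field K] (v : AbsoluteValue K ℝ) (A B : MvPolynomial (Fin 2) K) :
    ∃ (C : ℝ) (n : ℕ), 1 ≤ C ∧ ∀ (R : Type) [CommRing R] (na : Prop) (S : SN R na) (ι : K →+* R),
      (∀ z, S.N (ι z) ≤ v z) → ∀ (z : Fin 2 → R) (z₀ : Fin 2 → K) (t : R) (t₀ : K) (M r : ℝ),
      1 ≤ M → 0 ≤ r → (∀ s, S.N (z s) ≤ M) → (∀ s, v (z₀ s) ≤ M) →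
      (∀ s, S.N (z s - ι (z₀ s)) ≤ r * M) → S.N t ≤ M → S.N (t - ι t₀) ≤ r →
      v (MvPolynomial.eval z₀ A + MvPolynomial.eval z₀ B * t₀) ≤ r →
      S.N (MvPolynomial.eval₂ ι z A) ≤ C * M ^ n ∧ S.N (MvPolynomial.eval₂ ι z B) ≤ C * M ^ n ∧
        S.N (MvPolynomial.eval₂ ι z A + MvPolynomial.eval₂ ι z B * t) ≤ C * M ^ n * r := by
  obtain ⟨C₁, n₁, h₁, H₁⟩ := exists_lip v A
  obtain ⟨C₂, n₂, h₂, H₂⟩ := exists_lip v B
  refine ⟨4 * (C₁ * C₂), n₁ + n₂ + 1, by nlinarith, fun R _ na S ι hι z z₀ t t₀ M r hM hr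
    z1 z2 z3 t1 t2 hl => ?_⟩
  obtain ⟨a1, -, a3⟩ := H₁ R na S ι hι z z₀ M r hM hr z1 z2 z3
  obtain ⟨b1, b2, b3⟩ := H₂ R na S ι hι z z₀ M r hM hr z1 z2 z3
  have p1 : 1 ≤ C₁ * M ^ n₁ := one_le_mul_of_one_le_of_one_le h₁ (one_le_pow₀ hM)
  have p2 : 1 ≤ C₂ * M ^ n₂ := one_le_mul_of_one_le_of_one_le h₂ (one_le_pow₀ hM)
  have e0 : 4 * (C₁ * C₂) * M ^ (n₁ + n₂ + 1) = 4 * ((C₁ * M ^ n₁) * (C₂ * M ^ n₂) * M) := by ring
  rw [e0]
  generalize C₁ * M ^ n₁ = U₁ at *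
  generalize C₂ * M ^ n₂ = U₂ at *
  have q0 : U₂ * M ≤ U₁ * U₂ * M := by
    rw [mul_assoc]
    exact le_mul_of_one_le_left (by positivity) p1
  have q1 : U₁ ≤ U₁ * U₂ * M := by
    rw [mul_assoc]
    exact le_mul_of_one_le_right (by positivity) (one_le_mul_of_one_le_of_one_le p2 hM)
  have q2 : U₂ ≤ U₁ * U₂ * M := (le_mul_of_one_le_right (by positivity) hM).trans q0
  refine ⟨by linarith, by linarith, ?_⟩
  have e1 : MvPolynomial.eval₂ ι z A + MvPolynomial.eval₂ ι z B * t =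
      (MvPolynomial.eval₂ ι z A - ι (MvPolynomial.eval z₀ A)) +
      (MvPolynomial.eval₂ ι z B - ι (MvPolynomial.eval z₀ B)) * t +
      ι (MvPolynomial.eval z₀ B) * (t - ι t₀) +
      ι (MvPolynomial.eval z₀ A + MvPolynomial.eval z₀ B * t₀) := by
    rw [map_add, map_mul]
    ring
  rw [e1]
  have c1 := S.mul_le b3 t1
  have c2 := S.mul_le ((hι _).trans b2) t2
  have c3 := (hι _).trans hl
  refine (S.add _ _).trans ((add_le_add ((S.add _ _).trans
    (add_le_add ((S.add _ _).trans (add_le_add a3 c1)) c2)) c3).trans ?_)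
  have d0 := mul_le_mul_of_nonneg_left q0 hr
  have d1 := mul_le_mul_of_nonneg_left q1 hr
  have d2 := mul_le_mul_of_nonneg_left q2 hr
  have d3 := mul_le_mul_of_nonneg_left (p1.trans q1) hr
  linarith

variable {K : Type} [Field K] [NumberField K] {S : Finset (FinitePlace K)} {a b : ℤ}

/-- The numbers on the right side of the product formula. -/
noncomputable def coreB {m : ℕ} (X : Option (Fin m) → Pt (a : K) (b : K) × K) :
    Option (Fin m) × Fin 2 ⊕ Fin m → K :=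
  Sum.elim (fun q => ![xc (X q.1).1, (4 * yc (X q.1).1 ^ 2)⁻¹] q.2) fun i => (X (some i)).2

/-- The exponents on the right side of the product formula. -/
def coreN {m : ℕ} (d : ℕ) (j e : Fin m → ℕ) (k : Option (Fin m) → ℕ) :
    Option (Fin m) × Fin 2 ⊕ Fin m → ℕ :=
  Sum.elim (fun q => ![nx d j q.1 + 2 * k q.1, k q.1] q.2) e

omit [NumberField K] in
lemma core_prod {m : ℕ} (v : AbsoluteValue K ℝ) (X : Option (Fin m) → Pt (a : K) (b : K) × K)
    (d : ℕ) (j e : Fin m → ℕ) (k : Option (Fin m) → ℕ) :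
    (∏ i, (max 1 (v (xc (X (some i)).1)) ^ ((2 * d + 1) * 4 ^ j i + 2) *
        max 1 (v (xc (X none).1)) ^ (2 * d))) *
      (∏ o, (max 1 (v (xc (X o).1)) ^ 2 * max 1 (v (4 * yc (X o).1 ^ 2)⁻¹)) ^ k o) *
      ∏ i, max 1 (v (X (some i)).2) ^ e i = ∏ q, max 1 (v (coreB X q)) ^ coreN d j e k q := by
  have h1 : ∏ i, (max 1 (v (xc (X (some i)).1)) ^ ((2 * d + 1) * 4 ^ j i + 2) *
      max 1 (v (xc (X none).1)) ^ (2 * d)) = ∏ o, max 1 (v (xc (X o).1)) ^ nx d j o := by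
    rw [Fintype.prod_option, prod_mul_distrib, prod_const, card_univ, Fintype.card_fin,
      ← pow_mul, mul_comm]
    rfl
  rw [h1, Fintype.prod_sum_type, Fintype.prod_prod_type, ← prod_mul_distrib]
  congr 1
  refine prod_congr rfl fun o _ => ?_
  simp only [coreB, coreN, Fin.prod_univ_two, Sum.elim_inl, Matrix.cons_val]
  ring

lemma core_xi {m : ℕ} (j : Fin m → ℕ) (P : Option (Fin m) → Pt (a : K) (b : K))
    (hP : ∀ p, P p ≠ 0) (h2 : ∀ i, 2 ^ j i • P (some i) ≠ 0)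
    (h3 : ∀ i, 2 ^ j i • P (some i) + P none ≠ 0) {x y : Option (Fin m) → MvPowerSeries (VV m) K}
    (e1 : ∀ p, y p ^ 2 = fc (a : MvPowerSeries (VV m) K) b (x p))
    (hπ : ∀ p, MvPowerSeries.constantCoeff (x p) = xc (P p))
    (e2 : ∀ p, MvPowerSeries.constantCoeff (y p) = yc (P p)) (i : Fin m) :
    ∃ ξ : MvPowerSeries (VV m) K, MvPowerSeries.constantCoeff ξ =
      xc (2 ^ j i • P (some i) + P none) ∧
      (law (a : MvPowerSeries (VV m) K) b (j i) (x (some i)) (y (some i)) (x none)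
        (y none) true).1 = ξ * (law (a : MvPowerSeries (VV m) K) b (j i) (x (some i))
          (y (some i)) (x none) (y none) false).1 ∧
      (law (a : MvPowerSeries (VV m) K) b (j i) (x (some i)) (y (some i)) (x none)
        (y none) true).2 = ξ * (law (a : MvPowerSeries (VV m) K) b (j i) (x (some i))
          (y (some i)) (x none) (y none) false).2 := by
  choose hns hpt using fun p => pt_spec (hP p)
  have := exists_xplus (F := K) MvPowerSeries.constantCoeff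
    (fun f hf => MvPowerSeries.isUnit_iff_constantCoeff.2 (isUnit_iff_ne_zero.2 hf))
    (e1 (some i)) (e1 none)
  have f1 := hπ (some i)
  have f2 := hπ none
  have f3 := e2 (some i)
  have f4 := e2 none
  have f5 : MvPowerSeries.constantCoeff (a : MvPowerSeries (VV m) K) = (a : K) := by simp
  have f6 : MvPowerSeries.constantCoeff (b : MvPowerSeries (VV m) K) = (b : K) := by simp
  rw [f1, f2, f3, f4, f5, f6] at this
  have g1 := hpt (some i)
  have g2 := hpt none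
  have := this (hns (some i)) (hns none) (j i) (by rw [← g1]; exact h2 i)
    (by rw [← g1, ← g2]; exact h3 i)
  rw [← g1, ← g2] at this
  exact this

/-- The local inequalities for a minimal coefficient of the auxiliary section. -/
theorem core_local (a b : ℤ) (A B : Pl S → MvPolynomial (Fin 2) K) :
    ∃ N : ℕ, ∀ m d : ℕ, ∃ Z c₁ : ℝ, 1 ≤ Z ∧ 1 ≤ c₁ ∧ ∀ (j e : Fin m → ℕ)
      (X : Option (Fin m) → Pt (a : K) (b : K) × K), (∀ o, (X o).1 ≠ 0) → (∀ o, yc (X o).1 ≠ 0) →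
      (∀ i, 2 ^ j i • (X (some i)).1 ≠ 0) → (∀ i, 2 ^ j i • (X (some i)).1 + (X none).1 ≠ 0) →
      ∀ x : Option (Fin m) → MvPowerSeries (VV m) K,
      (∀ p, x p = MvPowerSeries.C (xc (X p).1) + MvPowerSeries.X (p, false)) →
      ∃ y : Option (Fin m) → MvPowerSeries (VV m) K,
        (∀ p, y p ^ 2 = fc (a : MvPowerSeries (VV m) K) b (x p)) ∧ (∀ p, y p ≠ 0) ∧
        ∀ (c : Col (fun i => TA d (j i)) e → ℤ) (Γ : ℝ), 1 ≤ Γ → (∀ τ, |(c τ : ℝ)| ≤ Γ) →
        ∀ κ : VV m →₀ ℕ, MvPowerSeries.coeff κ (GR e c (fA a b d j (fun _ => false) x y)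
          fun i => MvPowerSeries.C (X (some i)).2 + MvPowerSeries.X (some i, true)) ≠ 0 →
        ∃ κ' ≤ κ, ∃ g : K, g ≠ 0 ∧ (∀ v : AbsoluteValue K ℝ,
          v g * ∏ i, max 1 (v (xc (2 ^ j i • (X (some i)).1 + (X none).1))) ^ d ≤
            E (IsNonarchimedean v) (Γ * Z ^ (∑ i, (4 ^ j i + e i)) * c₁ ^ (∑ o, κ' (o, false))) *
              ∏ q, max 1 (v (coreB X q)) ^ coreN d j e (fun o => κ' (o, false)) q) ∧
          ∀ (p : Pl S) (w : Option (Fin m) → ℝ) (γ s L : ℝ), 0 ≤ γ → γ ≤ 4 → 0 ≤ s →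
            (∀ o, 0 ≤ w o) →
            (∀ i, av p (ell (A p) (B p) (X (some i))) ≤ Real.exp (-(γ * w (some i))) ∧
              Sml (av p) (B p) (s * w (some i)) (X (some i))) →
            (∀ β ∈ Low e (fun i => w (some i)) L, GB e c (fA a b d j (fun _ => false) x y)
              (fun i => MvPolynomial.aeval ![x (some i), y (some i)] (A p))
              (fun i => MvPolynomial.aeval ![x (some i), y (some i)] (B p)) β = 0) →
            av p g * (∏ i, max 1 (av p (xc (2 ^ j i • (X (some i)).1 + (X none).1))) ^ d) *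
              Real.exp (γ * L -
                (Real.log (Γ * Z ^ (∑ i, (4 ^ j i + e i)) * c₁ ^ (∑ o, κ' (o, false))) +
                4 * N * (s * ∑ i, e i * w (some i)) + s * ∑ i, e i * w (some i) +
                4 * ∑ q, (κ' q : ℝ) * w q.1)) ≤
              ∏ q, max 1 (av p (coreB X q)) ^ coreN d j e (fun o => κ' (o, false)) q := by
  classical
  choose Cp np hCp Hp using fun p : Pl S => core_lip (av p) (A p) (B p)
  refine ⟨∑ p, np p, fun m d => ?_⟩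
  set N := ∑ p, np p with hN
  set C₄ : ℝ := 1 + ∑ p, Cp p with hC₄
  have hC₄p : ∀ p, Cp p ≤ C₄ := fun p =>
    (single_le_sum (f := Cp) (fun q _ => zero_le_one.trans (hCp q)) (mem_univ p)).trans
      (le_add_of_nonneg_left zero_le_one)
  have hC₄1 : 1 ≤ C₄ :=
    le_add_of_nonneg_right (sum_nonneg fun q _ => zero_le_one.trans (hCp q))
  have hNp : ∀ p, np p ≤ N := fun p =>
    single_le_sum (f := np) (fun q _ => Nat.zero_le _) (mem_univ p)
  obtain ⟨C₃, hC₃, H₃⟩ := exists_fA_le a b d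
  obtain ⟨c₁, hc₂, H₁⟩ := exists_branchR (K := K) (O := Option (Fin m)) a b
  have hc₁ : 1 ≤ c₁ := by linarith
  have hZ₂ : 1 ≤ C₃ * c₁ ^ (4 * d + 3) := one_le_mul_of_one_le_of_one_le hC₃ (one_le_pow₀ hc₁)
  have hY4 : 4 ≤ 8 * C₄ ^ 2 * c₁ ^ (4 * N) := by
    have := one_le_mul_of_one_le_of_one_le (one_le_pow₀ hC₄1 (n := 2))
      (one_le_pow₀ hc₁ (n := 4 * N))
    linarith
  have hY : 1 ≤ 8 * C₄ ^ 2 * c₁ ^ (4 * N) := by linarith
  refine ⟨4 * (d + 1) * (C₃ * c₁ ^ (4 * d + 3)) * (8 * C₄ ^ 2 * c₁ ^ (4 * N)), c₁,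
    one_le_mul_of_one_le_of_one_le (one_le_mul_of_one_le_of_one_le
      (by linarith [Nat.cast_nonneg (α := ℝ) d]) hZ₂) hY, hc₁,
    fun j e X hP hy h2 h3 x hx => ?_⟩
  choose hns hpt using fun p => pt_spec (hP p)
  obtain ⟨y, e1, e2, e3⟩ := H₁ (fun p => xc (X p).1) (fun p => yc (X p).1) (fun p => (hns p).1) hy
  simp only [← hx] at e1 e3
  refine ⟨y, e1, fun p h => hy p (by rw [← e2, h, map_zero]), fun c Γ hΓ hc κ hκ => ?_⟩
  set t : Fin m → MvPowerSeries (VV m) K :=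
    fun i => MvPowerSeries.C (X (some i)).2 + MvPowerSeries.X (some i, true) with ht
  obtain ⟨κ', k1, k2, k3⟩ := exists_min_coeff _ κ hκ
  have hπ : ∀ p, MvPowerSeries.constantCoeff (x p) = xc (X p).1 := fun p => by simp [hx]
  choose ξ x1 x2 using core_xi j (fun p => (X p).1) hP h2 h3 e1 hπ e2
  have key : ∀ v : AbsoluteValue K ℝ, ∃ (l : Fin m → Bool) (sc : Fin m → MvPowerSeries (VV m) K),
      (∀ i τ, fA a b d j l x y i τ = sc i * fA a b d j (fun _ => false) x y i τ) ∧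
      v (MvPowerSeries.constantCoeff (∏ i, sc i)) =
        ∏ i, max 1 (v (xc (2 ^ j i • (X (some i)).1 + (X none).1))) ^ d := by
    intro v
    refine ⟨fun i => decide (1 < v (xc (2 ^ j i • (X (some i)).1 + (X none).1))), _,
      fA_law a b d j _ x y ξ x2, ?_⟩
    rw [map_prod, map_prod]
    refine prod_congr rfl fun i _ => ?_
    split_ifs with h
    · rw [map_pow, map_pow, x1, max_eq_right (of_decide_eq_true h).le]
    · rw [max_eq_left (not_lt.1 fun h' => h (decide_eq_true h'))]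
      simp
  have hF : ∀ (v : AbsoluteValue K ℝ) (Sn : SN (MvPowerSeries (VV m) K) (IsNonarchimedean v))
      (l : Fin m → Bool),
      (∀ p, Sn.N (x p) ≤ E (IsNonarchimedean v) c₁ * max 1 (v (xc (X p).1))) →
      (∀ p, Sn.N (y p) ≤ (E (IsNonarchimedean v) c₁ * max 1 (v (xc (X p).1))) ^ 2) →
      ∀ i τ, Sn.N (fA a b d j l x y i τ) ≤
        E (IsNonarchimedean v) ((C₃ * c₁ ^ (4 * d + 3)) ^ 4 ^ j i) *
          (max 1 (v (xc (X (some i)).1)) ^ ((2 * d + 1) * 4 ^ j i + 2) *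
            max 1 (v (xc (X none).1)) ^ (2 * d)) := fun v Sn l s1 s2 i τ =>
    (H₃ _ _ Sn m j l x y _ e1 (fun p => one_le_mul_of_one_le_of_one_le (one_le_E hc₁)
      (le_max_left _ _)) s1 s2 i τ).trans
      (core_F hC₃ hc₁ (by positivity) (by positivity) d (j i))
  have hF0 : ∀ (v : AbsoluteValue K ℝ) (i : Fin m),
      0 ≤ E (IsNonarchimedean v) ((C₃ * c₁ ^ (4 * d + 3)) ^ 4 ^ j i) *
          (max 1 (v (xc (X (some i)).1)) ^ ((2 * d + 1) * 4 ^ j i + 2) *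
            max 1 (v (xc (X none).1)) ^ (2 * d)) := fun v i =>
    mul_nonneg (E_nonneg (by positivity)) (by positivity)
  refine ⟨κ', k1, _, k2, fun v => ?_, fun p w γ s L hγ0 hγ4 hs hw hl h0 => ?_⟩
  · obtain ⟨l, sc, l1, l2⟩ := key v
    obtain ⟨Sn, s1, s2, s3⟩ := e3 v κ' (fun _ => 1) (fun _ => one_pos) fun _ => le_rfl
    have b1 := locG Sn hΓ hc (hF0 v) (hF v Sn l (fun p => (s3 p).1) fun p => (s3 p).2.1) (t := t)
      (U := fun i => E (IsNonarchimedean v) 2 * max 1 (v (X (some i)).2))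
      (fun i => one_le_mul_of_one_le_of_one_le (one_le_E one_le_two) (le_max_left _ _))
      (fun i => by
        have := Sn.add_le (s := 1) (t := 1) (M := max 1 (v (X (some i)).2))
          (f := MvPowerSeries.C (X (some i)).2) (g := MvPowerSeries.X (some i, true))
          (by rw [E_one, one_mul]; exact (s2 _).trans (le_max_right _ _))
          (by rw [E_one, one_mul]; exact (s3 _).2.2.2.1.trans (le_max_left _ _))
        rwa [one_add_one_eq_two] at this)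
    have b2 := s1 (GR e c (fA a b d j l x y) t)
    rw [GR_scale c sc l1, k3, ← GR_scale c sc l1, map_mul, l2, mul_comm _ (v _)] at b2
    simp only [one_pow, prod_const_one, mul_one] at b2
    rw [← core_prod]
    refine b2.trans ((mul_le_mul_of_nonneg_right b1 (prod_nonneg fun o _ => ?_)).trans ?_)
    · have := E_nonneg (na := IsNonarchimedean v) (zero_le_one.trans hc₁)
      positivity
    exact core_alg1 (by positivity) (by positivity) (by positivity) (fun i => 4 ^ j i) e _ _ _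
      (fun i => by positivity) (fun i => by positivity) (fun i => by positivity) _ _
      (fun o => by positivity) _ fun i => core_Z hZ₂ hY d (j i) (e i) (by norm_num) hY4
  · obtain ⟨l, sc, l1, l2⟩ := key (av p)
    have r0 : ∀ o, 0 < Real.exp (-(γ * w o)) := fun o => Real.exp_pos _
    have r1 : ∀ o, Real.exp (-(γ * w o)) ≤ 1 := fun o =>
      Real.exp_le_one_iff.2 (neg_nonpos.2 (mul_nonneg hγ0 (hw o)))
    obtain ⟨Sn, s1, s2, s3⟩ := e3 (av p) κ' _ r0 r1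
    have hlip : ∀ i, Sn.N (MvPolynomial.aeval ![x (some i), y (some i)] (A p)) ≤
          C₄ * ((c₁ * Real.exp (s * w (some i))) ^ 2) ^ N ∧
        Sn.N (MvPolynomial.aeval ![x (some i), y (some i)] (B p)) ≤
          C₄ * ((c₁ * Real.exp (s * w (some i))) ^ 2) ^ N ∧
        Sn.N (MvPolynomial.aeval ![x (some i), y (some i)] (A p) +
          MvPolynomial.aeval ![x (some i), y (some i)] (B p) * t i) ≤
          C₄ * ((c₁ * Real.exp (s * w (some i))) ^ 2) ^ N * Real.exp (-(γ * w (some i))) := by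
      intro i
      obtain ⟨u0, u1, u2, u3, -⟩ := hl i
      have v1 : 1 ≤ Real.exp (s * w (some i)) := Real.one_le_exp (mul_nonneg hs (hw _))
      obtain ⟨t1, t2, t3, t4, t5⟩ := s3 (some i)
      have v2 : E (IsNonarchimedean (av p)) c₁ * max 1 (av p (xc (X (some i)).1)) ≤
          c₁ * Real.exp (s * w (some i)) :=
        mul_le_mul (E_le_self hc₁) (max_le v1 u1) (by positivity) (by positivity)
      have v3 : (E (IsNonarchimedean (av p)) c₁ * max 1 (av p (xc (X (some i)).1))) ^ 2 ≤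
          (c₁ * Real.exp (s * w (some i))) ^ 2 :=
        pow_le_pow_left₀ (mul_nonneg (E_nonneg (by positivity)) (by positivity)) v2 2
      have v4 : 2 * Real.exp (s * w (some i)) ≤ c₁ * Real.exp (s * w (some i)) :=
        mul_le_mul_of_nonneg_right hc₂ (by positivity)
      have v5 : c₁ * Real.exp (s * w (some i)) ≤ (c₁ * Real.exp (s * w (some i))) ^ 2 :=
        le_self_pow₀ (by linarith) two_ne_zero
      have v6 := r0 (some i)
      have v7 := r1 (some i)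
      have v8 : Sn.N (t i) ≤ av p (X (some i)).2 + Real.exp (-(γ * w (some i))) :=
        (Sn.add _ _).trans (add_le_add (s2 _) t4)
      generalize (c₁ * Real.exp (s * w (some i))) ^ 2 = M at *
      have hM : 1 ≤ M := by linarith
      have hb : Cp p * M ^ np p ≤ C₄ * M ^ N :=
        mul_le_mul (hC₄p p) (pow_le_pow_right₀ hM (hNp p)) (by positivity) (by positivity)
      obtain ⟨q1, q2, q3⟩ := Hp p _ _ Sn MvPowerSeries.C s2 ![x (some i), y (some i)]
        ![xc (X (some i)).1, yc (X (some i)).1] (t i) (X (some i)).2 M _ hM v6.le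
        (Fin.forall_fin_two.2 ⟨t1.trans (v2.trans v5), t2.trans v3⟩)
        (Fin.forall_fin_two.2 ⟨by simpa using u1.trans (by linarith),
          by simpa using u2.trans (by linarith)⟩)
        (Fin.forall_fin_two.2 ⟨by
          simpa [hx] using t3.trans (le_mul_of_one_le_right v6.le hM),
          t5.trans (mul_le_mul_of_nonneg_left v3 v6.le)⟩)
        (by linarith) (by simpa [ht] using t4) u0
      exact ⟨q1.trans hb, q2.trans hb, q3.trans (mul_le_mul_of_nonneg_right hb v6.le)⟩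
    have b1 := locS Sn hΓ hc (hF0 (av p))
      (hF (av p) Sn l (fun p => (s3 p).1) fun p => (s3 p).2.1) (t := t)
      (w := fun i => w (some i)) (L := L) hγ0
      (fun i => one_le_mul_of_one_le_of_one_le hC₄1 (one_le_pow₀ (one_le_pow₀
        (one_le_mul_of_one_le_of_one_le hc₁ (Real.one_le_exp (mul_nonneg hs (hw _)))))))
      (fun i => (hlip i).1) (fun i => (hlip i).2.1) (fun i => (hlip i).2.2)
      (fun β hβ => by rw [GB_scale c sc l1, h0 β hβ, mul_zero])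
    have b2 := s1 ((∏ i, MvPolynomial.aeval ![x (some i), y (some i)] (B p) ^ e i) *
      GR e c (fA a b d j l x y) t)
    rw [GR_scale c sc l1, ← mul_assoc, k3, mul_assoc, ← GR_scale c sc l1, map_mul, map_mul,
      map_mul, l2, mul_assoc (av p _), mul_comm (∏ i, _) (av p _)] at b2
    rw [← core_prod]
    refine core_alg3 (by positivity) (by positivity) ?_ ?_ (b2.trans
      ((mul_le_mul_of_nonneg_right b1 (prod_nonneg fun o _ => ?_)).trans
      (core_alg2 (by positivity) hZ₂ hc₁ (Real.exp_pos _).le N (fun i => 4 ^ j i) e _ _ _ _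
        (fun i => by positivity) (fun i => by positivity) (fun i => le_max_left _ _) _ _
        (fun o => by positivity) _
        fun i => core_Z hZ₂ hY d (j i) (e i) (by positivity) le_rfl)))
    · rw [map_prod, map_prod, mul_sum, ← sum_neg_distrib, Real.exp_sum]
      refine prod_le_prod (fun i _ => (Real.exp_pos _).le) fun i _ => ?_
      have f1 : MvPowerSeries.constantCoeff
          (MvPolynomial.aeval ![x (some i), y (some i)] (B p)) = ev (X (some i)).1 (B p) := by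
        rw [MvPolynomial.map_aeval, ev, MvPolynomial.coe_eval₂Hom, ← MvPolynomial.eval₂_id]
        congr 1
        funext s
        fin_cases s
        · exact hπ _
        · exact e2 _
      rw [map_pow, map_pow, f1, show -(s * (e i * w (some i))) = e i * -(s * w (some i)) by ring,
        Real.exp_nat_mul]
      exact pow_le_pow_left₀ (Real.exp_pos _).le (hl i).2.2.2.2 _
    · rw [Fintype.sum_prod_type, mul_sum, ← sum_neg_distrib, Real.exp_sum]
      refine prod_le_prod (fun i _ => (Real.exp_pos _).le) fun o _ => ?_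
      rw [← Real.exp_nat_mul, Real.exp_le_exp, Fintype.sum_bool]
      have f1 : (0 : ℝ) ≤ (4 - γ) * (((κ' (o, false) : ℝ) + κ' (o, true)) * w o) :=
        mul_nonneg (by linarith) (mul_nonneg (by positivity) (hw o))
      push_cast
      linarith
    · have := E_nonneg (na := IsNonarchimedean (av p)) (zero_le_one.trans hc₁)
      positivity

lemma core_fin {m : ℕ} (d : ℕ) (j e : Fin m → ℕ) (κ : VV m → ℕ)
    (X : Option (Fin m) → Pt (a : K) (b : K) × K) (w : Option (Fin m) → ℝ) {C u : ℝ}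
    (h1 : ∀ o, ht (X o).1 ≤ w o)
    (h2 : ∀ o, logHeight₁ (4 * yc (X o).1 ^ 2)⁻¹ ≤ 3 * ht (X o).1 + C) (h3 : ∀ o, C + u ≤ w o)
    (h4 : ∀ o, 0 ≤ w o) :
    ∑ q, (coreN d j e (fun o => κ (o, false)) q : ℝ) * logHeight₁ (coreB X q) +
        u * (∑ o, κ (o, false) : ℕ) ≤
      ∑ o, nx d j o * ht (X o).1 + ∑ i, e i * logHeight₁ (X (some i)).2 +
        6 * ∑ q, (κ q : ℝ) * w q.1 := by
  have h5 : ∑ o, ∑ s : Fin 2, (coreN d j e (fun o => κ (o, false)) (.inl (o, s)) : ℝ) *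
        logHeight₁ (coreB X (.inl (o, s))) + u * (∑ o, κ (o, false) : ℕ) ≤
      ∑ o, nx d j o * ht (X o).1 + 6 * ∑ q, (κ q : ℝ) * w q.1 := by
    rw [Nat.cast_sum, mul_sum, Fintype.sum_prod_type, mul_sum, ← sum_add_distrib,
      ← sum_add_distrib]
    refine sum_le_sum fun o _ => ?_
    have k1 := mul_le_mul_of_nonneg_left (h1 o) (Nat.cast_nonneg (α := ℝ) (κ (o, false)))
    have k2 := mul_le_mul_of_nonneg_left (h2 o) (Nat.cast_nonneg (α := ℝ) (κ (o, false)))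
    have k3 := mul_le_mul_of_nonneg_left (h3 o) (Nat.cast_nonneg (α := ℝ) (κ (o, false)))
    have k4 := mul_nonneg (Nat.cast_nonneg (α := ℝ) (κ (o, true))) (h4 o)
    rw [Fin.sum_univ_two, Fintype.sum_bool]
    simp only [coreN, coreB, Sum.elim_inl, Matrix.cons_val]
    unfold ht at *
    push_cast
    linarith
  rw [Fintype.sum_sum_type, Fintype.sum_prod_type]
  have h6 : ∑ i, (coreN d j e (fun o => κ (o, false)) (.inr i) : ℝ) *
      logHeight₁ (coreB X (.inr i)) = ∑ i, e i * logHeight₁ (X (some i)).2 := rfl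
  rw [h6]
  linarith

open Pool.Agent.Lib.MP_8865d3_nt.Gm Pool.Agent.Lib.Common.ZeroLemma in
/-- Either the height inequality holds with a small error, or a block lies on a small curve. -/
theorem core_ineqR (hD : 4 * a ^ 3 + 27 * b ^ 2 ≠ 0) (A B : Pl S → MvPolynomial (Fin 2) K) :
    ∃ κ : ℕ, 1 ≤ κ ∧ ∀ (m d : ℕ) (θ : ℝ), 0 < m → 0 < θ →
    ∃ (Bd : ℕ) (ζ C : ℝ), 0 < ζ ∧ 1 ≤ C ∧ ∀ (ε s D L : ℝ) (j e : Fin m → ℕ)
      (X : Option (Fin m) → Pt (a : K) (b : K) × K) (w : Option (Fin m) → ℝ) (γ : Pl S → ℝ),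
      0 < ε → ε ≤ 1 → 0 ≤ s → (∀ o, (X o).1 ≠ 0) → (∀ o, yc (X o).1 ≠ 0) →
      (∀ i, 2 ^ j i • (X (some i)).1 ≠ 0) → (∀ i, 2 ^ j i • (X (some i)).1 + (X none).1 ≠ 0) →
      (∀ o, C ≤ ε * w o) → (∀ o, ht (X o).1 ≤ w o) →
      (∀ o o', o ≠ o' → w o ≤ ζ * w o' ∨ w o' ≤ ζ * w o) → (∀ o, w o * dg d j e o ≤ D) →
      C * (∑ i, (4 ^ j i + e i) : ℕ) ≤ ε * D →
      2 * (Fintype.card (Pl S) * (Low e (fun i => w (some i)) L).card *
        (∏ i, rk κ d (j i) (e i)) * (8 * ((2 * d + 2) * m + 1) * κ)) ≤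
        ∏ i, (2 * (d + 1) * 4 ^ j i * (e i + 1)) →
      (∀ p, 0 ≤ γ p ∧ γ p ≤ 4) →
      (∀ p i, γ p = 0 ∨ av p (ell (A p) (B p) (X (some i))) ≤ Real.exp (-(γ p * w (some i))) ∧
        Sml (av p) (B p) (s * w (some i)) (X (some i))) →
      (∃ κ' : VV m → ℕ, ∑ q, (κ' q : ℝ) * w q.1 < θ * D ∧
        d * ∑ i, ht (2 ^ j i • (X (some i)).1 + (X none).1) + L * ∑ p, mu p * γ p ≤
          C * (∑ i, (4 ^ j i + e i) : ℕ) + ∑ o, nx d j o * ht (X o).1 +
            ∑ i, e i * logHeight₁ (X (some i)).2 + κ * (s * ∑ i, e i * w (some i)) +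
            κ * ∑ q, (κ' q : ℝ) * w q.1) ∨
      ∃ (o : Option (Fin m)) (g : MvPolynomial (Fin 2) ℚ), Small Bd (Bd * ε * w o) g ∧
        MvPolynomial.aeval ![xc (X o).1, (X o).2] g = 0 := by
  classical
  obtain ⟨κ₀, H₀⟩ := exists_sec hD A B
  obtain ⟨N, H₁⟩ := core_local a b A B
  set μ : ℕ := ∑ p : Pl S, mu p with hμ
  refine ⟨κ₀ + (6 + 4 * μ) + μ * (4 * N + 1), by omega, fun m d θ hm hθ => ?_⟩
  obtain ⟨C₁, hC₁, H₀⟩ := H₀ d
  obtain ⟨Z, c₁, hZ, hc₁, H₁⟩ := H₁ m d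
  obtain ⟨C₂, hC₂, H₂⟩ := exists_polyR a b d
  obtain ⟨C₃, H₃⟩ := P1.height_y_le (K := K) a b
  obtain ⟨Bd, ζ, hζ, H₄⟩ := nonvanishing (K := K) (σ := VV m ⊕ Option (Fin m)) (τ := VV m)
    (e := Sum.inl) Sum.inl_injective Prod.fst 3 (Fintype.card (Option (Fin m))) θ hθ
  have l₁ := Real.log_nonneg hC₁
  have l₂ := Real.log_nonneg hC₂
  have l₃ := Real.log_nonneg hc₁
  have l₄ := Real.log_nonneg hZ
  set n : ℝ := (totalWeight K : ℝ) + μ with hn
  have hn0 : 0 ≤ n := by positivity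
  set C : ℝ := 1 + Real.log C₁ + Real.log C₂ + n * (Real.log C₁ + Real.log Z) +
    n * Real.log c₁ + |C₃| + (2 + |(a : ℝ)| + |(b : ℝ)|) with hC
  have p₁ : 0 ≤ n * (Real.log C₁ + Real.log Z) := by positivity
  have p₂ : 0 ≤ n * Real.log c₁ := by positivity
  have p₄ : 0 ≤ 2 + |(a : ℝ)| + |(b : ℝ)| := by positivity
  have p₅ := abs_nonneg C₃
  have hC1 : 1 ≤ C := by linarith
  refine ⟨Bd, ζ, C, hζ, hC1, fun ε s D L j e X w γ hε hε1 hs hP hy h2 h3 hw hht hr hdeg hlen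
    hcnt hγ hpat => ?_⟩
  have : IsDomain (MvPowerSeries (VV m) K) := NoZeroDivisors.to_isDomain _
  have : CharZero (MvPowerSeries (VV m) K) := algebraRat.charZero _
  obtain ⟨y, e1, e2, H₅⟩ := H₁ j e X hP hy h2 h3 _ fun _ => rfl
  obtain ⟨c, hc0, hc1, hc2⟩ := H₀ m j e (Low e (fun i => w (some i)) L)
    (le_trans (by
      unfold rk
      gcongr <;> omega) hcnt) (MvPowerSeries (VV m) K) _ y e1
  set T : ℕ := ∑ i, (4 ^ j i + e i) with hT
  have hΓ₀ : 1 ≤ C₁ ^ T := one_le_pow₀ hC₁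
  obtain ⟨G, g1, g2, g3, g5⟩ := H₂ m j e c _ hΓ₀ hc1
  obtain ⟨x₀, y₀, t₀, z1, z2⟩ := GR_ne_zero hD d j e c hc0
  have hT1 : (1 : ℝ) ≤ T := by
    have : 4 ^ j ⟨0, hm⟩ + e ⟨0, hm⟩ ≤ T := single_le_sum (f := fun i => 4 ^ j i + e i)
      (fun _ _ => Nat.zero_le _) (mem_univ _)
    exact_mod_cast ((Nat.one_le_pow _ _ (by norm_num)).trans (Nat.le_add_right _ _)).trans this
  let ξ : VV m → K := fun p => cond p.2 (X p.1).2 (xc (X p.1).1)
  let φ : MvPolynomial (VV m ⊕ Option (Fin m)) ℚ →+* MvPowerSeries (VV m) K :=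
    MvPolynomial.eval₂Hom (algebraMap ℚ _)
      (Sum.elim (fun p => MvPowerSeries.C (ξ p) + MvPowerSeries.X p) y)
  have v1 : ∀ p, φ (MvPolynomial.X (.inl p)) = MvPowerSeries.C (ξ p) + MvPowerSeries.X p :=
    fun p => by simp [φ]
  have v2 : ∀ p, φ (MvPolynomial.X (.inr p)) = y p := fun p => by simp [φ]
  have v3 : ∀ p, φ (MvPolynomial.X (.inr p)) ^ 2 = fc (a : MvPowerSeries (VV m) K) b
      (φ (MvPolynomial.X (.inl (p, false)))) := fun p => by rw [v1, v2, e1]; rfl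
  have v4 : φ G ≠ 0 := by
    refine ev_ne_zeroT (fun o => (o, false)) a b G
      (fun p => cond p.2 (p.1.elim 0 t₀) (x₀ p.1)) y₀ z1 (fun sg => ?_) ξ φ v1 v3
    rw [g5]
    · simpa using z2 sg
    · intro p
      have : ((sg p : ℤ) : ℂ) ^ 2 = 1 := by
        rcases Int.units_eq_one_or (sg p) with h | h <;> simp [h]
      simp [mul_pow, this, z1]
  have hw0 : ∀ o, 0 ≤ w o := fun o => ((mul_pos_iff_of_pos_left hε).1 (by linarith [hw o])).le
  have hCT : C ≤ C * T := le_mul_of_one_le_right (by linarith) hT1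
  have hG : Sm (fun q : VV m ⊕ Option (Fin m) => w (Sum.elim Prod.fst id q)) ε D G := by
    refine ⟨g1, fun ν hν q => le_trans (mul_le_mul_of_nonneg_left
      (Nat.cast_le.2 (g3 ν hν q)) (hw0 _)) (hdeg _), g2.trans ?_⟩
    rw [← mul_pow, ← Real.exp_log (show 0 < C₁ * C₂ by positivity), ← Real.exp_nat_mul,
      Real.exp_le_exp, Real.log_mul (by positivity) (by positivity), mul_comm]
    exact (mul_le_mul_of_nonneg_right (by linarith) (by linarith)).trans hlen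
  rcases H₄ ε (fun q => w (Sum.elim Prod.fst id q)) hε (fun q => hC1.trans (hw _))
    (fun p q h => by simp [h]) (fun p q h => hr _ _ h) ξ φ v1
    ((univ : Finset (Option (Fin m))).toList.map Sum.inr)
    (Sum.elim (fun _ => 0) (eqnT (fun o => (o, false)) a b)) (by simp)
    (by rintro (p | p) <;> simp) (eqnT_pairwise _ a b) (fun q hq => by
      obtain ⟨p, -, rfl⟩ := List.mem_map.1 hq
      rw [Sum.elim_inr]
      refine eqnT_rel (fun o => (o, false)) a b p φ _ ε rfl ?_ (v3 p) (by rw [v2]; exact e2 p)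
      have h4 : 2 + |(a : ℝ)| + |(b : ℝ)| ≤ Real.exp (ε * w p) := by
        linarith [hw p, Real.add_one_le_exp (ε * w p)]
      exact h4)
    D (by linarith) G hG v4 with ⟨κ, k1, k2⟩ | ⟨p, g, q1, q2, q3, q4, q5⟩
  · left
    rw [g5 _ φ v3] at k2
    simp only [v1, v2] at k2
    obtain ⟨κ', k3, g, hg, k4, k5⟩ := H₅ c _ hΓ₀ hc1 κ k2
    refine ⟨κ', lt_of_le_of_lt ?_ k1, ?_⟩
    · rw [Finsupp.weight_apply, Finsupp.sum_fintype _ _ (by simp)]
      refine sum_le_sum fun p _ => ?_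
      rw [nsmul_eq_mul]
      exact mul_le_mul_of_nonneg_right (Nat.cast_le.2 (k3 p)) (hw0 _)
    have hΓ : 1 ≤ C₁ ^ T * Z ^ T * c₁ ^ (∑ o, κ' (o, false)) :=
      one_le_mul_of_one_le_of_one_le (one_le_mul_of_one_le_of_one_le hΓ₀ (one_le_pow₀ hZ))
        (one_le_pow₀ hc₁)
    have m1 : 0 ≤ s * ∑ i, e i * w (some i) :=
      mul_nonneg hs (sum_nonneg fun i _ => mul_nonneg (Nat.cast_nonneg _) (hw0 _))
    have m2 : 0 ≤ ∑ q, (κ' q : ℝ) * w q.1 :=
      sum_nonneg fun q _ => mul_nonneg (Nat.cast_nonneg _) (hw0 _)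
    have m3 := Real.log_nonneg hΓ
    have k6 := pfS hg _ (fun _ => d) (coreB X) (coreN d j e fun o => κ' (o, false)) hΓ
      (fun p : Pl S => γ p * L - (Real.log (C₁ ^ T * Z ^ T * c₁ ^ (∑ o, κ' (o, false))) +
        4 * N * (s * ∑ i, e i * w (some i)) + s * ∑ i, e i * w (some i) +
        4 * ∑ q, (κ' q : ℝ) * w q.1)) k4 (fun p => by
        by_cases h : γ p = 0
        · left
          rw [h, zero_mul, zero_sub, neg_nonpos]
          positivity
        · exact Or.inr (k5 p w (γ p) s L (hγ p).1 (hγ p).2 hs hw0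
            (fun i => (hpat p i).resolve_left h) (hc2 p)))
    have k7 := core_fin d j e κ' X w (C := C₃) (u := n * Real.log c₁) hht
      (fun o => H₃ _ _ (pt_spec (hP o)).choose.1) (fun o => by
        have := mul_le_of_le_one_left (hw0 o) hε1
        linarith [hw o, le_abs_self C₃]) hw0
    have k8 : Real.log (C₁ ^ T * Z ^ T * c₁ ^ (∑ o, κ' (o, false))) =
        T * (Real.log C₁ + Real.log Z) + (∑ o, κ' (o, false) : ℕ) * Real.log c₁ := by
      rw [Real.log_mul (by positivity) (by positivity), Real.log_mul (by positivity)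
        (by positivity), Real.log_pow, Real.log_pow, Real.log_pow]
      ring
    have k9 : n * (Real.log C₁ + Real.log Z) * T ≤ C * T :=
      mul_le_mul_of_nonneg_right (by linarith) (by linarith)
    simp only [mul_sub, sum_sub_distrib, ← sum_mul, ← mul_assoc, ← mul_sum] at k6
    rw [← Nat.cast_sum, ← hμ, k8] at k6
    unfold ht at *
    generalize ∑ q, (κ' q : ℝ) * w q.1 = W₁ at *
    generalize ∑ i, (e i : ℝ) * w (some i) = W₂ at *
    have n1 := mul_nonneg (Nat.cast_nonneg (α := ℝ) (κ₀ + μ * (4 * N + 1))) m2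
    have n2 := mul_nonneg (Nat.cast_nonneg (α := ℝ) (κ₀ + (6 + 4 * μ))) m1
    rw [hn] at k7 k9
    push_cast at n1 n2 k6 k7 ⊢
    linarith
  · right
    obtain ⟨g', r1, r2, r3, r4, r5⟩ := exit_two p.1 g q1 q2 Bd q3 _ q5
    exact ⟨p.1, g', ⟨r1.ne_zero, ⟨r2, r4.trans q4⟩, fun ν hν i =>
      (MvPolynomial.monomial_le_degreeOf i hν).trans (r3 i)⟩, r5⟩

end Pool.Agent.Lib.MP_651af7_nt.Rt
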