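import Pool.Agent.Lib.MP_651af7_nt.Rt.MovA
import Pool.Agent.Lib.MP_651af7_nt.Rt.PF
import Pool.Agent.Lib.MP_651af7_nt.P1Ser
import Pool.Agent.Lib.MP_651af7_nt.P1Exit
import Pool.Agent.Lib.MP_651af7_nt.P1Norm

/-! The height inequality for targets of small height. -/

namespace Pool.Agent.Lib.MP_651af7_nt.Rt

open Finset Height NumberField Pool.Agent.Lib.MP_e97e2b_nt Pool.Agent.Lib.MP_651af7_nt.Iv
  Pool.Agent.Lib.MP_651af7_nt.Vj Pool.Agent.Lib.MP_651af7_nt.Vj.P1 Pool.Agent.Lib.Common.Subspace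
open Pool.Agent.Lib.MP_8865d3_nt.Fa (Small Adm wt)

variable {K : Type} [Field K] [NumberField K]

section aux

variable {m : ℕ} {e : Fin m → ℕ}

private lemma movc_mono (c : Col (fun _ : Fin m => Unit) e → ℤ) :
    GR e c (fun _ _ => (1 : MvPolynomial (Fin m) ℚ)) MvPolynomial.X =
      ∑ τ, MvPolynomial.monomial (Finsupp.equivFunOnFinite.symm fun i => ((τ i).2 : ℕ))
        (c τ : ℚ) := by
  refine sum_congr rfl fun τ _ => ?_
  rw [MvPolynomial.monomial_eq, Finsupp.prod_fintype _ _ (by simp)]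
  simp

private lemma movc_ne {c : Col (fun _ : Fin m => Unit) e → ℤ} (hc : c ≠ 0) :
    GR e c (fun _ _ => (1 : MvPolynomial (Fin m) ℚ)) MvPolynomial.X ≠ 0 := by
  classical
  intro h0
  apply hc
  funext τ
  have h1 := congrArg (MvPolynomial.coeff
    (Finsupp.equivFunOnFinite.symm fun i => ((τ i).2 : ℕ))) h0
  rw [movc_mono, MvPolynomial.coeff_sum, sum_eq_single τ] at h1
  · simpa using h1
  · intro τ' _ hne
    rw [MvPolynomial.coeff_monomial, if_neg]
    intro h
    apply hne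
    funext i
    have h2 := congrFun (Finsupp.equivFunOnFinite.symm.injective h) i
    exact Prod.ext (Subsingleton.elim _ _) (Fin.ext h2)
  · simp

private lemma movc_int (c : Col (fun _ : Fin m => Unit) e → ℤ) :
    IsInt (GR e c (fun _ _ => (1 : MvPolynomial (Fin m) ℚ)) MvPolynomial.X) := by
  rw [movc_mono]
  exact isInt_sum _ _ fun τ _ => isInt_monomial _ _

private lemma movc_deg (c : Col (fun _ : Fin m => Unit) e → ℤ) :
    ∀ μ ∈ (GR e c (fun _ _ => (1 : MvPolynomial (Fin m) ℚ)) MvPolynomial.X).support, ∀ i,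
      μ i ≤ e i := by
  classical
  intro μ hμ i
  rw [movc_mono] at hμ
  obtain ⟨τ, -, h⟩ := mem_biUnion.1 (MvPolynomial.support_sum hμ)
  have h2 := mem_singleton.1 (MvPolynomial.support_monomial_subset h)
  rw [h2]
  simpa using Nat.lt_succ_iff.1 (τ i).2.2

private lemma movc_prod {x u : Fin m → ℝ} (hx : ∀ i, 0 ≤ x i) {k : ℝ} (hk : 0 ≤ k)
    (h : ∀ i, x i ≤ Real.exp (k * u i)) :
    ∏ i, x i ^ e i ≤ Real.exp (k * (1 + ∑ i, e i * u i)) := by
  have h1 : ∏ i, x i ^ e i ≤ Real.exp (∑ i, e i * (k * u i)) := by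
    rw [Real.exp_sum]
    refine prod_le_prod (fun i _ => pow_nonneg (hx i) _) fun i _ => ?_
    rw [Real.exp_nat_mul]
    exact pow_le_pow_left₀ (hx i) (h i) _
  refine h1.trans (Real.exp_le_exp.2 ?_)
  rw [mul_add, mul_sum, sum_congr rfl fun i _ => mul_left_comm (e i : ℝ) k (u i)]
  linarith

private lemma movc_two : (2 : ℝ) ≤ Real.exp 1 := by linarith [Real.add_one_le_exp (1 : ℝ)]

private lemma movc_two_le {u : ℝ} (hu : 0 ≤ u) : (2 : ℝ) ≤ Real.exp (1 * (1 + u)) :=
  movc_two.trans (Real.exp_le_exp.2 (by linarith))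

private lemma movc_M {u : ℝ} (hu : 0 ≤ u) :
    8 * (2 * Real.exp u) ^ 2 ≤ Real.exp (5 * (1 + u)) := by
  have h1 : (2 : ℝ) ^ 5 ≤ Real.exp 1 ^ 5 := pow_le_pow_left₀ zero_le_two movc_two 5
  have h2 : Real.exp u ^ 2 ≤ Real.exp u ^ 5 :=
    pow_le_pow_right₀ (Real.one_le_exp hu) (by norm_num)
  calc 8 * (2 * Real.exp u) ^ 2 = 2 ^ 5 * Real.exp u ^ 2 := by ring
    _ ≤ Real.exp 1 ^ 5 * Real.exp u ^ 5 := mul_le_mul h1 h2 (by positivity) (by positivity)
    _ = Real.exp (5 * (1 + u)) := by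
      rw [← mul_pow, ← Real.exp_add, ← Real.exp_nat_mul]
      norm_num

omit [NumberField K] in
private lemma movc_any (v : AbsoluteValue K ℝ) {c : Col (fun _ : Fin m => Unit) e → ℤ} {Γ Y : ℝ}
    (hΓ : 1 ≤ Γ) (hc : ∀ τ, |(c τ : ℝ)| ≤ Γ) (hY : ∏ i, (2 : ℝ) ^ e i ≤ Y) (t : Fin m → K)
    (κ : Fin m →₀ ℕ) :
    v (MvPowerSeries.coeff κ (GR e c (fun _ _ => (1 : MvPowerSeries (Fin m) K))
      fun i => MvPowerSeries.C (t i) + MvPowerSeries.X i)) ≤
      E (IsNonarchimedean v) (Γ * Y * Y) * ∏ i, max 1 (v (t i)) ^ e i := by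
  obtain ⟨N, s1, s2, s3, -⟩ := exists_SN v (fun _ : Fin m => (1 : ℝ)) (fun _ => zero_le_one) κ
  have hE : 1 ≤ E (IsNonarchimedean v) 2 := one_le_E one_le_two
  have h1 := locG N hΓ hc (f := fun _ _ => 1) (F := fun _ => 1) (fun _ => zero_le_one)
    (fun _ _ => N.one) (t := fun i => MvPowerSeries.C (t i) + MvPowerSeries.X i)
    (U := fun i => E (IsNonarchimedean v) 2 * max 1 (v (t i)))
    (fun i => one_le_mul_of_one_le_of_one_le hE (le_max_left _ _)) (fun i => by
      have := N.add_le (s := 1) (t := 1) (M := max 1 (v (t i)))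
        (by rw [E_one, one_mul]; exact (s2 (t i)).trans (le_max_right _ _))
        (by rw [E_one, one_mul]; exact (s3 i).trans (le_max_left _ _))
      rwa [one_add_one_eq_two] at this)
  have h2 := s1 (GR e c (fun _ _ => (1 : MvPowerSeries (Fin m) K))
      fun i => MvPowerSeries.C (t i) + MvPowerSeries.X i)
  simp only [one_pow, prod_const_one, mul_one] at h2
  refine (h2.trans h1).trans ?_
  simp only [Fintype.card_unit, Nat.cast_one, one_mul, mul_pow, prod_mul_distrib, ← E_pow,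
    ← E_prod]
  rw [← mul_assoc, ← E_mul]
  have h3 : (0 : ℝ) ≤ ∏ i, (2 : ℝ) ^ e i := by positivity
  refine mul_le_mul_of_nonneg_right (E_mono ?_) (by positivity)
  exact mul_le_mul (mul_le_mul_of_nonneg_left hY (by linarith)) hY h3
    (mul_nonneg (by linarith) (h3.trans hY))

omit [NumberField K] in
private lemma movc_at (v : AbsoluteValue K ℝ) {c : Col (fun _ : Fin m => Unit) e → ℤ} {Γ : ℝ}
    (hΓ : 1 ≤ Γ) (hc : ∀ τ, |(c τ : ℝ)| ≤ Γ) (t α : Fin m → K) {u w : Fin m → ℝ} {γ L : ℝ}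
    (hγ : 0 ≤ γ) (hu : ∀ i, 0 ≤ u i) (hα : ∀ i, v (α i) ≤ Real.exp (u i))
    (ht : ∀ i, v (t i - α i) ≤ Real.exp (-(γ * w i)))
    (h0 : ∀ β ∈ Low e w L, GB e c (fun _ _ => (1 : K)) (fun i => -α i) (fun _ => 1) β = 0)
    (κ : Fin m →₀ ℕ) :
    v (MvPowerSeries.coeff κ (GR e c (fun _ _ => (1 : MvPowerSeries (Fin m) K))
      fun i => MvPowerSeries.C (t i) + MvPowerSeries.X i)) *
      Real.exp (-(γ * ∑ i, (κ i : ℝ) * w i)) ≤
      Γ * Real.exp (5 * (1 + ∑ i, e i * (1 + u i))) * Real.exp (-(γ * L)) := by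
  obtain ⟨N, s1, s2, s3, -⟩ := exists_SN v (fun i : Fin m => Real.exp (-(γ * w i)))
    (fun _ => (Real.exp_pos _).le) κ
  have hM : ∀ i, 1 ≤ Real.exp (u i) := fun i => Real.one_le_exp (hu i)
  have h1 := locS N hΓ hc (f := fun _ _ => 1) (F := fun _ => 1) (fun _ => zero_le_one)
    (fun _ _ => N.one) (t := fun i => MvPowerSeries.C (t i) + MvPowerSeries.X i)
    (A := fun i => MvPowerSeries.C (-α i)) (B := fun _ => 1) (M := fun i => 2 * Real.exp (u i))
    (w := w) (L := L) hγ (fun i => by linarith [hM i])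
    (fun i => by
      have := s2 (-α i)
      rw [v.map_neg] at this
      linarith [hM i, hα i])
    (fun i => by linarith [hM i, N.one])
    (fun i => by
      have e1 : MvPowerSeries.C (-α i) + 1 * (MvPowerSeries.C (t i) + MvPowerSeries.X i) =
          (MvPowerSeries.C (t i - α i) + MvPowerSeries.X i : MvPowerSeries (Fin m) K) := by
        rw [map_neg, map_sub]
        ring
      rw [e1]
      have h2 := N.add (MvPowerSeries.C (t i - α i)) (MvPowerSeries.X i)
      have h3 := mul_le_mul_of_nonneg_right (hM i) (Real.exp_pos (-(γ * w i))).le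
      linarith [s2 (t i - α i), s3 i, ht i])
    (fun β hβ => by
      have h2 := map_GB (MvPowerSeries.C : K →+* MvPowerSeries (Fin m) K) c (fun _ _ => (1 : K))
        (fun i => -α i) (fun _ => 1) β
      rw [h0 β hβ, map_zero] at h2
      simpa using h2.symm)
  have h2 := s1 (GR e c (fun _ _ => (1 : MvPowerSeries (Fin m) K))
      fun i => MvPowerSeries.C (t i) + MvPowerSeries.X i)
  have e2 : ∏ i, Real.exp (-(γ * w i)) ^ κ i = Real.exp (-(γ * ∑ i, (κ i : ℝ) * w i)) := by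
    rw [mul_sum, ← sum_neg_distrib, Real.exp_sum]
    refine prod_congr rfl fun i _ => ?_
    rw [← Real.exp_nat_mul]
    congr 1
    ring
  rw [e2] at h2
  simp only [one_pow, prod_const_one, one_mul, Fintype.card_unit, Nat.cast_one] at h1
  refine (h2.trans h1).trans (mul_le_mul_of_nonneg_right (mul_le_mul_of_nonneg_left ?_
    (by linarith)) (Real.exp_pos _).le)
  exact movc_prod (fun i => by positivity) (by norm_num) fun i => movc_M (hu i)

end aux

/- `exists_auxV` with `h i = s * w i`, `Lw = Low e w L`.  `G = GR e c 1 X` in `MvPolynomial (Fin m) ℚ`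
is nonzero (its coefficients are the `c τ`), integral, of length at most `Γ * ∏ 2 ^ e i` (`locG` with
`lenSN` of `P1Exit`).  `nonvanishing` (`Common/ZeroLemma/NV`) with `σ = τ = ι = Fin m`, `e = blk = id`,
`l = []`, `ev = eval₂Hom (algebraMap ..) (C (t i) + X i)`; `ev G ≠ 0` by `shift_ne_zero` (`P1Norm`).
Exit: `height_root_le`.  Otherwise `g = coeff κ (ev G) ≠ 0`; apply `pfS` with `I = Empty` (or
`nα = 0`), `β = t`, `nβ = e`.  At any `v`: `exists_SN` (`P1Ser`) with radii `1`, `locG` with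
`U i = E 2 * max 1 (v (t i))`.  At `p` with `γ p ≠ 0`: radii `exp (-(γ p * w i))`, `locS` with
`A i = C (-α i p)`, `B i = 1`, `M i = 2 * exp (s * w i)` (`Fa.log_max_le`), `map_GB` along `C`;
`gain p = γ p * L - log Γ - ∑ e i * (log 32 + 2 s w i) - γ p * ∑ κ i * w i`, and `gain p = 0` if
`γ p = 0`. -/
theorem core_mov (S : Finset (FinitePlace K)) : ∃ κ : ℝ, 1 ≤ κ ∧ ∀ (m : ℕ) (θ : ℝ), 0 < θ →
    ∃ (B : ℕ) (ζ : ℝ), 0 < ζ ∧ ∀ (ε s D L : ℝ) (e : Fin m → ℕ) (t : Fin m → K)
      (α : Fin m → Pl S → K) (w : Fin m → ℝ) (γ : Pl S → ℝ), 0 < ε → 0 ≤ s →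
      (∀ i, 1 ≤ ε * w i) → (∀ i i', i ≠ i' → w i ≤ ζ * w i' ∨ w i' ≤ ζ * w i) →
      (∀ i, w i * e i ≤ D) → (∀ i p, logHeight₁ (α i p) ≤ s * w i) →
      κ * (1 + ∑ i, e i * (1 + s * w i)) ≤ ε * D →
      2 * (Fintype.card (Pl S) * (Low e w L).card * Module.finrank ℚ K) ≤ ∏ i, (e i + 1) →
      (∀ p, 0 ≤ γ p ∧ γ p ≤ 4) →
      (∀ p i, γ p = 0 ∨ av p (t i - α i p) ≤ Real.exp (-(γ p * w i))) →
      (∃ κ' : Fin m → ℕ, ∑ i, (κ' i : ℝ) * w i < θ * D ∧
        L * ∑ p, mu p * γ p ≤ κ * (1 + ∑ i, e i * (1 + s * w i)) +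
          ∑ i, e i * logHeight₁ (t i) + κ * ∑ i, (κ' i : ℝ) * w i) ∨
      ∃ i, logHeight₁ (t i) ≤ totalWeight K * (B * ε * w i) := by
  classical
  obtain ⟨C, hC, H⟩ := exists_auxV (K := K)
  have ha : 0 ≤ Real.log C := Real.log_nonneg hC
  have hCe : C = Real.exp (Real.log C) := (Real.exp_log (by linarith)).symm
  generalize Real.log C = a at ha hCe
  obtain ⟨n, hn⟩ : ∃ n : ℝ, (totalWeight K : ℝ) = n := ⟨_, rfl⟩
  have hn0 : 0 ≤ n := hn ▸ Nat.cast_nonneg _
  obtain ⟨M, hM⟩ : ∃ M : ℝ, M = ∑ p : Pl S, (mu p : ℝ) := ⟨_, rfl⟩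
  have hM0 : 0 ≤ M := hM ▸ sum_nonneg fun p _ => Nat.cast_nonneg _
  have p1 : 0 ≤ n * (2 * a + 4) := by positivity
  have p2 : 0 ≤ M * (2 * a + 7) := by positivity
  have p3 : 0 ≤ M * a := by positivity
  refine ⟨2 * a + 3 + n * (2 * a + 4) + M * (2 * a + 7), by linarith, fun m θ hθ => ?_⟩
  obtain ⟨B, ζ, hζ, H₄⟩ := Pool.Agent.Lib.Common.ZeroLemma.nonvanishing (K := K) (σ := Fin m)
    (τ := Fin m) (ι := Fin m) (e := id) Function.injective_id id 0 0 θ hθ
  refine ⟨B, ζ, hζ, fun ε s D L e t α w γ hε hs hw hr hdeg hα hlen hcard hγ happ => ?_⟩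
  have hw0 : ∀ i, 0 ≤ w i := fun i => ((mul_pos_iff_of_pos_left hε).1 (by linarith [hw i])).le
  have hu : ∀ i, 0 ≤ s * w i := fun i => mul_nonneg hs (hw0 i)
  obtain ⟨c, hc0, hc1, hc2⟩ := H (Pl S) m e α (fun i => s * w i) (Low e w L) hu hα hcard
  obtain ⟨Y, hY⟩ : ∃ Y : ℝ, 1 + ∑ i, (e i : ℝ) * (1 + s * w i) = Y := ⟨_, rfl⟩
  have hY1 : 1 ≤ Y := hY ▸ le_add_of_nonneg_right
    (sum_nonneg fun i _ => mul_nonneg (Nat.cast_nonneg _) (add_nonneg zero_le_one (hu i)))
  have hY0 : 0 ≤ Y := zero_le_one.trans hY1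
  have hC0 : 0 ≤ C := zero_le_one.trans hC
  rw [hY] at hlen
  have hc : ∀ τ, |(c τ : ℝ)| ≤ Real.exp ((2 * a + 2) * Y) := fun τ => by
    refine (hc1 τ).trans ?_
    have h1 : ∏ i, (C * Real.exp (2 * (s * w i))) ^ e i ≤ Real.exp ((a + 2) * Y) :=
      hY ▸ movc_prod (fun i => by positivity) (by linarith) fun i => by
        rw [hCe, ← Real.exp_add, Real.exp_le_exp]
        linarith [mul_nonneg ha (hu i)]
    have h2 : C ≤ Real.exp (a * Y) := by
      rw [hCe, Real.exp_le_exp]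
      exact le_mul_of_one_le_right ha hY1
    refine (mul_le_mul h2 h1 (by positivity) (by positivity)).trans (le_of_eq ?_)
    rw [← Real.exp_add]
    congr 1
    ring
  have hΓ : 1 ≤ Real.exp ((2 * a + 2) * Y) := Real.one_le_exp (by positivity)
  have h2e : ∏ i, (2 : ℝ) ^ e i ≤ Real.exp (1 * Y) :=
    hY ▸ movc_prod (fun i => zero_le_two) zero_le_one fun i => movc_two_le (hu i)
  have q1 : 0 ≤ n * (2 * a + 4) * Y := by positivity
  have q2 : 0 ≤ M * (2 * a + 7) * Y := by positivity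
  have q3 : 0 ≤ a * Y := by positivity
  have hG : Pool.Agent.Lib.Common.ZeroLemma.Sm w ε D
      (GR e c (fun _ _ => (1 : MvPolynomial (Fin m) ℚ)) MvPolynomial.X) := by
    refine ⟨movc_int c, fun μ hμ i => le_trans (mul_le_mul_of_nonneg_left
      (Nat.cast_le.2 (movc_deg c μ hμ i)) (hw0 i)) (hdeg i), ?_⟩
    have h1 := locG (lenSN (Fin m)) hΓ hc (f := fun _ _ => 1) (F := fun _ => 1)
      (fun _ => zero_le_one) (fun _ _ => (lenSN (Fin m)).one) (t := MvPolynomial.X)
      (U := fun _ => 1) (fun _ => le_rfl) fun i => (nrm_X i).le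
    rw [E_neg_case not_false] at h1
    simp only [Fintype.card_unit, Nat.cast_one, one_mul, one_pow, prod_const_one, mul_one] at h1
    refine le_trans h1 ((mul_le_mul_of_nonneg_left h2e (by positivity)).trans ?_)
    rw [← Real.exp_add, Real.exp_le_exp]
    linarith
  let ev : MvPolynomial (Fin m) ℚ →+* MvPowerSeries (Fin m) K :=
    MvPolynomial.eval₂Hom (algebraMap ℚ _) fun i => MvPowerSeries.C (t i) + MvPowerSeries.X i
  have v1 : ∀ i, ev (MvPolynomial.X i) = MvPowerSeries.C (t i) + MvPowerSeries.X i :=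
    fun i => by simp [ev]
  rcases H₄ ε w hε hw (fun i j h => congrArg w h) (fun i j h => hr i j h) t ev v1 []
    (fun _ => 0) le_rfl (fun i => Or.inr ⟨i, rfl⟩) List.Pairwise.nil (by simp) D (by linarith) _ hG
    (shift_ne_zero t (movc_ne hc0) _) with ⟨κ', k1, k2⟩ | ⟨i, g, r1, r2, r3, r4, r5⟩
  · left
    rw [map_GR] at k2
    simp only [v1, map_one] at k2
    rw [Finsupp.weight_apply, Finsupp.sum_fintype _ _ (by simp)] at k1
    simp only [nsmul_eq_mul, id] at k1
    refine ⟨κ', k1, ?_⟩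
    obtain ⟨W, hW⟩ : ∃ W : ℝ, ∑ i, (κ' i : ℝ) * w i = W := ⟨_, rfl⟩
    have hW0 : 0 ≤ W := hW ▸ sum_nonneg fun i _ => mul_nonneg (Nat.cast_nonneg _) (hw0 i)
    rw [hY, hW]
    have hΓ' : 1 ≤ Real.exp ((2 * a + 2) * Y) * Real.exp (1 * Y) * Real.exp (1 * Y) := by
      rw [← Real.exp_add, ← Real.exp_add]
      exact Real.one_le_exp (by positivity)
    have key := pfS (S := S) (I := Empty) k2 Empty.elim Empty.elim t e hΓ'
      (fun p => γ p * L - (2 * a + 7) * Y - γ p * W)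
      (fun v => by simpa using movc_any v hΓ hc h2e t κ') (fun p => by
        by_cases h0 : γ p = 0
        · left
          rw [h0]
          have : 0 ≤ (2 * a + 7) * Y := by positivity
          linarith
        · right
          have h1 := movc_at (av p) hΓ hc t (fun i => α i p) (u := fun i => s * w i) (hγ p).1 hu
            (fun i => by
              have h2 := (Pool.Agent.Lib.MP_8865d3_nt.Fa.log_max_le (adm_av p) (α i p)).trans
                (hα i p)
              have h3 : 0 < max (av p (α i p)) 1 := lt_max_of_lt_right one_pos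
              exact (le_max_left _ _).trans ((Real.log_le_iff_le_exp h3).1 h2))
            (fun i => (happ p i).resolve_left h0) (hc2 p) κ'
          rw [hY, hW] at h1
          have h4 : (1 : ℝ) ≤ ∏ j, max 1 (av p (t j)) ^ e j :=
            (prod_const_one (s := univ)).ge.trans
              (prod_le_prod (fun _ _ => zero_le_one) fun j _ => one_le_pow₀ (le_max_left _ _))
          refine le_trans ?_ h4
          rw [univ_eq_empty, prod_empty, mul_one]
          have h5 := mul_le_mul_of_nonneg_right h1 (Real.exp_pos (γ p * L - (2 * a + 7) * Y)).le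
          rw [mul_assoc, ← Real.exp_add, ← Real.exp_add, ← Real.exp_add, ← Real.exp_add] at h5
          rw [show γ p * L - (2 * a + 7) * Y - γ p * W =
            -(γ p * W) + (γ p * L - (2 * a + 7) * Y) by ring]
          refine h5.trans (le_of_eq ?_)
          rw [Real.exp_eq_one_iff]
          ring)
    rw [univ_eq_empty, sum_empty, zero_add, ← Real.exp_add, ← Real.exp_add, Real.log_exp, hn] at key
    have e1 : ∑ p : Pl S, (mu p : ℝ) * (γ p * L - (2 * a + 7) * Y - γ p * W) =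
        L * ∑ p : Pl S, mu p * γ p - M * ((2 * a + 7) * Y) - (∑ p : Pl S, mu p * γ p) * W := by
      rw [hM, mul_sum, sum_mul, sum_mul, ← sum_sub_distrib, ← sum_sub_distrib]
      exact sum_congr rfl fun p _ => by ring
    have e2 : ∑ p : Pl S, (mu p : ℝ) * γ p ≤ M * 4 := by
      rw [hM, sum_mul]
      exact sum_le_sum fun p _ => mul_le_mul_of_nonneg_left (hγ p).2 (Nat.cast_nonneg _)
    have e3 : (∑ p : Pl S, (mu p : ℝ) * γ p) * W ≤
        (2 * a + 3 + n * (2 * a + 4) + M * (2 * a + 7)) * W :=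
      mul_le_mul_of_nonneg_right (by linarith) hW0
    rw [e1] at key
    linarith
  · right
    refine ⟨i, ?_⟩
    have h1 := height_root_le r1.ne_zero (T := Real.exp (B * ε * w i)) ⟨r2, r4⟩ i
      (fun μ hμ j hj => (r3 μ hμ j).1 hj) t r5
    rwa [Real.log_exp] at h1

end Pool.Agent.Lib.MP_651af7_nt.Rt
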