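import Pool.Agent.Lib.MP_651af7_nt.Rt.Defs
import Pool.Agent.Lib.MP_651af7_nt.P1Law

/-! Points over an algebraically closed field. -/

namespace Pool.Agent.Lib.MP_651af7_nt.Rt

open Finset Height NumberField Pool.Agent.Lib.MP_e97e2b_nt Pool.Agent.Lib.MP_651af7_nt.Iv
  Pool.Agent.Lib.MP_651af7_nt.Vj Pool.Agent.Lib.MP_651af7_nt.Vj.P1 Pool.Agent.Lib.Common.Subspace
open Pool.Agent.Lib.MP_8865d3_nt.Fa (Small Adm wt)

variable {F : Type} [Field F] [CharZero F]

open Polynomial in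
lemma half_dstep {a b : F} (hD : 4 * a ^ 3 + 27 * b ^ 2 ≠ 0) {n : ℕ} {p : F[X] × F[X] × F[X]}
    (h1 : p.1.Monic) (h2 : p.1.natDegree = n) (h3 : p.2.1.natDegree < n)
    (h4 : IsCoprime p.1 p.2.1) :
    (dstep (C a) (C b) p).1.Monic ∧ (dstep (C a) (C b) p).1.natDegree = n * 4 ∧
      (dstep (C a) (C b) p).2.1.natDegree < n * 4 ∧
      IsCoprime (dstep (C a) (C b) p).1 (dstep (C a) (C b) p).2.1 := by
  obtain ⟨A, B, T⟩ := p
  simp only [dstep] at *
  obtain ⟨k, rfl⟩ : ∃ k, n = k + 1 := ⟨n - 1, by omega⟩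
  have hB : B.natDegree ≤ k := by omega
  have hA : A.natDegree ≤ k + 1 := h2.le
  have hr : (-(2 * C a * A ^ 2 * B ^ 2) - 8 * C b * A * B ^ 3 + C a ^ 2 * B ^ 4).natDegree ≤
      4 * k + 2 := by
    have e1 : (2 * C a * A ^ 2 * B ^ 2).natDegree ≤ 0 + 2 * (k + 1) + 2 * k := by
      refine natDegree_mul_le_of_le (natDegree_mul_le_of_le ?_ (natDegree_pow_le_of_le 2 hA))
        (natDegree_pow_le_of_le 2 hB)
      compute_degree
    have e2 : (8 * C b * A * B ^ 3).natDegree ≤ 0 + (k + 1) + 3 * k := by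
      refine natDegree_mul_le_of_le (natDegree_mul_le_of_le ?_ hA) (natDegree_pow_le_of_le 3 hB)
      compute_degree
    have e3 : (C a ^ 2 * B ^ 4).natDegree ≤ 0 + 4 * k := by
      refine natDegree_mul_le_of_le ?_ (natDegree_pow_le_of_le 4 hB)
      compute_degree
    refine natDegree_add_le_of_degree_le ((natDegree_sub_le _ _).trans (max_le ?_ ?_)) ?_
    · rw [natDegree_neg]
      omega
    · omega
    · omega
  have he : A ^ 4 - 2 * C a * A ^ 2 * B ^ 2 - 8 * C b * A * B ^ 3 + C a ^ 2 * B ^ 4 =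
      A ^ 4 + (-(2 * C a * A ^ 2 * B ^ 2) - 8 * C b * A * B ^ 3 + C a ^ 2 * B ^ 4) := by ring
  have h5 : (A ^ 4).natDegree = (k + 1) * 4 := by rw [h1.natDegree_pow, h2, mul_comm]
  have hlt : (-(2 * C a * A ^ 2 * B ^ 2) - 8 * C b * A * B ^ 3 + C a ^ 2 * B ^ 4).natDegree <
      (A ^ 4).natDegree := by omega
  refine ⟨?_, ?_, ?_, ?_⟩
  · rw [he]
    exact (h1.pow 4).add_of_left (degree_lt_degree hlt)
  · rw [he, natDegree_add_eq_left_of_natDegree_lt hlt, h5]
  · have e1 : (A ^ 3 + C a * A * B ^ 2 + C b * B ^ 3).natDegree ≤ 3 * (k + 1) := by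
      have f1 : (C a * A * B ^ 2).natDegree ≤ 0 + (k + 1) + 2 * k :=
        natDegree_mul_le_of_le (natDegree_mul_le_of_le (natDegree_C a).le hA)
          (natDegree_pow_le_of_le 2 hB)
      have f2 : (C b * B ^ 3).natDegree ≤ 0 + 3 * k :=
        natDegree_mul_le_of_le (natDegree_C b).le (natDegree_pow_le_of_le 3 hB)
      refine natDegree_add_le_of_degree_le (natDegree_add_le_of_degree_le
        (natDegree_pow_le_of_le 3 hA) ?_) ?_ <;> omega
    have e2 : (4 * B * (A ^ 3 + C a * A * B ^ 2 + C b * B ^ 3)).natDegree ≤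
        0 + k + 3 * (k + 1) := by
      refine natDegree_mul_le_of_le (natDegree_mul_le_of_le ?_ hB) e1
      compute_degree
    omega
  · have c1 : IsCoprime
        (A ^ 4 - 2 * C a * A ^ 2 * B ^ 2 - 8 * C b * A * B ^ 3 + C a ^ 2 * B ^ 4) B := by
      have : A ^ 4 - 2 * C a * A ^ 2 * B ^ 2 - 8 * C b * A * B ^ 3 + C a ^ 2 * B ^ 4 =
          A ^ 4 + B * (-(2 * C a * A ^ 2 * B) - 8 * C b * A * B ^ 2 + C a ^ 2 * B ^ 3) := by ring
      rw [this]
      exact h4.pow_left.add_mul_left_left _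
    have u1 : IsUnit (4 : F[X]) := by
      have : (4 : F[X]) = C 4 := (map_ofNat C 4).symm
      rw [this]
      exact isUnit_C.2 (by simp)
    have u2 : IsUnit (C (4 * a ^ 3 + 27 * b ^ 2) : F[X]) := isUnit_C.2 hD.isUnit
    refine IsCoprime.mul_right ((isCoprime_mul_unit_left_right u1 _ _).2 c1) ?_
    obtain ⟨s, t, hst⟩ := (isCoprime_mul_unit_left_right u2 _ _).2 (c1.pow_right (n := 6))
    refine ⟨s + t * (3 * A ^ 2 + 4 * C a * B ^ 2),
      -(t * (3 * A ^ 3 - 5 * C a * A * B ^ 2 - 27 * C b * B ^ 3)), ?_⟩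
    rw [← hst]
    simp only [map_add, map_mul, map_pow, map_ofNat]
    ring

open Polynomial in
lemma half_dbl {a b : F} (hD : 4 * a ^ 3 + 27 * b ^ 2 ≠ 0) (j : ℕ) :
    (dbl (C a) (C b) X j).1.Monic ∧ (dbl (C a) (C b) X j).1.natDegree = 4 ^ j ∧
      (dbl (C a) (C b) X j).2.1.natDegree < 4 ^ j ∧
      IsCoprime (dbl (C a) (C b) X j).1 (dbl (C a) (C b) X j).2.1 := by
  induction j with
  | zero => simp [P1.dbl, isCoprime_one_right]
  | succ j ih =>
    obtain ⟨h1, h2, h3, h4⟩ := ih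
    rw [pow_succ]
    exact half_dstep hD h1 h2 h3 h4

/- Copy `p1ind_dstep`, `p1ind_dbl` of `P1Ind` with `F` in place of the complex numbers; `map_dbl`
with `Polynomial.evalRingHom`. -/
theorem exists_dbl_poly {a b : F} (hD : 4 * a ^ 3 + 27 * b ^ 2 ≠ 0) (j : ℕ) :
    ∃ A B : Polynomial F, A.Monic ∧ A.natDegree = 4 ^ j ∧ B ≠ 0 ∧ B.natDegree < 4 ^ j ∧
      ∀ x : F, (dbl a b x j).1 = A.eval x ∧ (dbl a b x j).2.1 = B.eval x := by
  obtain ⟨h1, h2, h3, h4⟩ := half_dbl hD j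
  refine ⟨_, _, h1, h2, ?_, h3, fun x => ?_⟩
  · intro h0
    rw [h0] at h4
    have := Polynomial.natDegree_eq_zero_of_isUnit (isCoprime_zero_right.1 h4)
    have h5 : 0 < 4 ^ j := by positivity
    omega
  · have hm := map_dbl (Polynomial.evalRingHom x) (Polynomial.C a) (Polynomial.C b) Polynomial.X j
    simp only [Polynomial.coe_evalRingHom, Polynomial.eval_C, Polynomial.eval_X] at hm
    rw [hm]
    exact ⟨rfl, rfl⟩

open Polynomial in
lemma half_one [IsAlgClosed F] {a b : F} (hD : 4 * a ^ 3 + 27 * b ^ 2 ≠ 0) (U : Pt a b) :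
    ∃ P : Pt a b, P + P = U := by
  rcases U.cases with rfl | ⟨u, w, hu, rfl⟩
  · exact ⟨0, add_zero _⟩
  obtain ⟨x, hx⟩ := IsAlgClosed.exists_root (X ^ 4 - C (2 * a) * X ^ 2 - C (8 * b) * X + C (a ^ 2)
      - C (4 * u) * (X ^ 3 + C a * X + C b) : F[X]) (by
    have : (X ^ 4 - C (2 * a) * X ^ 2 - C (8 * b) * X + C (a ^ 2)
      - C (4 * u) * (X ^ 3 + C a * X + C b) : F[X]).degree = 4 := by compute_degree!
    rw [this]
    decide)
  simp only [IsRoot.def, eval_sub, eval_add, eval_mul, eval_pow, eval_X, eval_C] at hx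
  obtain ⟨y, hy⟩ := IsAlgClosed.exists_pow_nat_eq (x ^ 3 + a * x + b) two_pos
  have h : NS a b x y := ns_of_eq two_ne_zero hD hy
  have hy0 : y ≠ 0 := by
    rintro rfl
    apply hD
    linear_combination (3 * x ^ 2 + 4 * a) * hx
      + ((3 * x ^ 3 - 5 * a * x - 27 * b) - (3 * x ^ 2 + 4 * a) * (4 * u)) * hy
  have h0 : pt x y h + pt x y h ≠ 0 := by
    intro e
    rw [add_eq_zero_iff_eq_neg, neg_pt, pt_inj] at e
    exact hy0 (by linear_combination (1 / 2 : F) * e.2)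
  obtain ⟨-, k1, -⟩ := dbl_aff h h0
  rcases (pt x y h + pt x y h).cases with e | ⟨xs, ys, hs, e⟩
  · exact absurd e h0
  rw [e, xc_pt] at k1
  have hxs : xs = u := by
    refine mul_right_cancel₀ (mul_ne_zero (by norm_num : (4 : F) ≠ 0) (pow_ne_zero 2 hy0)) ?_
    linear_combination k1 + hx - 4 * u * hy
  subst hxs
  rcases pt_eq_or hs hu with e' | e'
  · exact ⟨_, e.trans e'⟩
  · exact ⟨-pt x y h, by rw [← neg_add, e, e', neg_neg]⟩

/- For `U = (u, w)` take a root `x` of `X ^ 4 - 2 a X ^ 2 - 8 b X + a ^ 2 - 4 u (X ^ 3 + a X + b)` and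
`y` with `y ^ 2 = fc a b x`.  Then `y ≠ 0` since
`(3 x^2 + 4 a) (x^4 - 2 a x^2 - 8 b x + a^2) - (3 x^3 - 5 a x - 27 b) (x^3 + a x + b) = 4 a^3 + 27 b^2`;
`dbl_aff` (`P1Law`) gives `xc (P + P) = u`, so `P + P = U` or `-U`.  Induction on `j`. -/
theorem exists_half [IsAlgClosed F] {a b : F} (hD : 4 * a ^ 3 + 27 * b ^ 2 ≠ 0) (j : ℕ)
    (U : Pt a b) : ∃ P : Pt a b, 2 ^ j • P = U := by
  induction j generalizing U with
  | zero => exact ⟨U, by simp⟩
  | succ j ih =>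
    obtain ⟨Q, rfl⟩ := half_one hD U
    obtain ⟨P, rfl⟩ := ih Q
    exact ⟨P, by rw [pow_succ, mul_two, add_nsmul]⟩

/- Write the sum as `P (x) + Q (x) * y`.  Using `y` and `-y`: `P (x) = 0` and `Q (x) * y = 0` for
all `x` outside `Z`, so `P = 0` and `Q * (X ^ 3 + a X + b) = 0` (`Polynomial.eq_zero_of_infinite_isRoot`). -/
theorem mon_indep [IsAlgClosed F] (a b : F) {W : ℕ} (v : MM W → F) (Z : Finset F)
    (h : ∀ x y : F, x ∉ Z → y ^ 2 = fc a b x → ∑ μ, v μ * mon x y μ = 0) : v = 0 := by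
  have key : ∀ s : Fin 2, ∀ x : F, x ∉ Z → fc a b x ≠ 0 →
      ∑ i : Fin (W + 1), v (i, s) * x ^ (i : ℕ) = 0 := by
    intro s x hx hf
    obtain ⟨y, hy⟩ := IsAlgClosed.exists_pow_nat_eq (fc a b x) two_pos
    have hy0 : y ≠ 0 := fun e => hf (by rw [← hy, e]; simp)
    have e : ∀ y : F, ∑ μ, v μ * mon x y μ = ∑ i : Fin (W + 1), v (i, 0) * x ^ (i : ℕ) +
        y * ∑ i : Fin (W + 1), v (i, 1) * x ^ (i : ℕ) := by
      intro y
      rw [Fintype.sum_prod_type, mul_sum, ← sum_add_distrib]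
      refine sum_congr rfl fun i _ => ?_
      simp [Fin.sum_univ_two, mon]
      ring
    have h1 := h x y hx hy
    have h2 := h x (-y) hx (by rw [← hy]; ring)
    rw [e] at h1 h2
    fin_cases s
    · simp only [Fin.zero_eta]
      linear_combination (1 / 2 : F) * h1 + (1 / 2 : F) * h2
    · simp only [Fin.mk_one]
      refine mul_left_cancel₀ hy0 ?_
      linear_combination (1 / 2 : F) * h1 - (1 / 2 : F) * h2
  classical
  funext μ
  obtain ⟨i, s⟩ := μ
  have hc : (Polynomial.X ^ 3 + Polynomial.C a * Polynomial.X + Polynomial.C b : Polynomial F) ≠ 0 := by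
    have : (Polynomial.X ^ 3 + Polynomial.C a * Polynomial.X + Polynomial.C b :
      Polynomial F).Monic := by monicity!
    exact this.ne_zero
  have hq : (∑ i : Fin (W + 1), Polynomial.C (v (i, s)) * Polynomial.X ^ (i : ℕ) :
      Polynomial F) = 0 := by
    refine Polynomial.eq_zero_of_infinite_isRoot _ (Set.Infinite.mono ?_
      ((Z ∪ (Polynomial.X ^ 3 + Polynomial.C a * Polynomial.X + Polynomial.C b :
        Polynomial F).roots.toFinset).finite_toSet.infinite_compl))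
    intro x hx
    simp only [Set.mem_compl_iff, mem_coe, mem_union, Multiset.mem_toFinset,
      Polynomial.mem_roots hc, not_or, Polynomial.IsRoot.def, Polynomial.eval_add,
      Polynomial.eval_mul, Polynomial.eval_pow, Polynomial.eval_X, Polynomial.eval_C] at hx
    simp only [Set.mem_ofPred_eq, Polynomial.IsRoot.def, Polynomial.eval_finsetSum,
      Polynomial.eval_mul, Polynomial.eval_pow, Polynomial.eval_X, Polynomial.eval_C]
    exact key s x hx.1 hx.2
  have h5 := congrArg (fun P => Polynomial.coeff P (i : ℕ)) hq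
  simp only [Polynomial.finsetSum_coeff, Polynomial.coeff_C_mul_X_pow,
    Polynomial.coeff_zero] at h5
  rw [Finset.sum_eq_single i] at h5
  · simpa using h5
  · intro k _ hk
    rw [if_neg]
    exact fun e => hk (Fin.ext e.symm)
  · simp

/- The coordinates of a difference of two points.  `add_aff` (`P1Law`) for `(x', -y')`, `neg_pt`;
for the second coordinate `Affine.Point.add_of_X_ne`, `slope_of_X_ne` or `exists_lam`
(`MP_e97e2b_nt/Short`). -/
theorem sub_aff {a b x₀ y₀ x' y' : F} (h₀ : NS a b x₀ y₀) (h' : NS a b x' y') (hx : x₀ ≠ x') :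
    xc (pt x₀ y₀ h₀ - pt x' y' h') * (x₀ - x') ^ 2 =
        (x₀ + x') * (x₀ * x' + a) + 2 * b + 2 * y₀ * y' ∧
      yc (pt x₀ y₀ h₀ - pt x' y' h') * (x₀ - x') ^ 3 =
        (y₀ + y') * (x₀ * (x₀ - x') ^ 2 - ((x₀ + x') * (x₀ * x' + a) + 2 * b + 2 * y₀ * y')) -
          y₀ * (x₀ - x') ^ 3 := by
  have hne : ¬(x₀ = x' ∧ y₀ = -(-y')) := fun e => hx e.1
  obtain ⟨l, e₁, e₂⟩ := exists_lam h₀ h'.neg hne
  obtain ⟨h₃, e⟩ := add_char h₀ h'.neg hne e₁ e₂
  have e3 := h₀.1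
  have e4 := h'.1
  rw [sub_eq_add_neg (pt x₀ y₀ h₀), neg_pt, e, xc_pt, yc_pt]
  have k2 : (l ^ 2 - x₀ - x') * (x₀ - x') ^ 2 =
      (x₀ + x') * (x₀ * x' + a) + 2 * b + 2 * y₀ * y' := by
    linear_combination (l * (x₀ - x') + y₀ + y') * e₁ + e3 + e4
  refine ⟨k2, ?_⟩
  rw [← k2]
  linear_combination (-((l ^ 2 - x₀ - x' - x₀) * (x₀ - x') ^ 2)) * e₁

/- `dbl_pt` (`P1Law`) and `sub_aff` for `S = 2 ^ j • (x, y) = (A / B, y T / B ^ 2)`. -/
theorem law_sub {a b x y u w : F} (h : NS a b x y) (h' : NS a b u w) (j : ℕ)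
    (h0 : 2 ^ j • pt x y h ≠ 0) (h1 : (dbl a b x j).1 - u * (dbl a b x j).2.1 ≠ 0) :
    (law a b j x y u w false).2 ≠ 0 ∧ (law a b j x y u w false).1 =
      xc (2 ^ j • pt x y h - pt u w h') * (law a b j x y u w false).2 := by
  obtain ⟨hB, hx, hy⟩ := dbl_pt h j h0
  rcases (2 ^ j • pt x y h).cases with e | ⟨xs, ys, hs, e⟩
  · exact absurd e h0
  rw [e] at hx hy ⊢
  rw [xc_pt] at hx
  rw [yc_pt] at hy
  simp only [law, lawp]
  generalize (dbl a b x j).1 = A at *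
  generalize (dbl a b x j).2.1 = B at *
  generalize (dbl a b x j).2.2 = T at *
  have hA : A = xs * B := by rw [hx]; field_simp
  have hT : y * T = ys * B ^ 2 := by rw [hy]; field_simp
  have hxu : xs ≠ u := fun e' => h1 (by rw [hA, e', sub_self])
  obtain ⟨k1, -⟩ := sub_aff hs h' hxu
  refine ⟨pow_ne_zero 2 h1, ?_⟩
  generalize xc (pt xs ys hs - pt u w h') = X at *
  rw [hA]
  linear_combination (2 * w) * hT - B ^ 2 * k1

end Pool.Agent.Lib.MP_651af7_nt.Rt
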