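import Pool.Agent.Lib.MP_651af7_nt.Rt.Rows
import Pool.Agent.Lib.MP_651af7_nt.Rt.Half

/-! The rank of the conditions in one arm. -/

namespace Pool.Agent.Lib.MP_651af7_nt.Rt

open Finset Height NumberField Pool.Agent.Lib.MP_e97e2b_nt Pool.Agent.Lib.MP_651af7_nt.Iv
  Pool.Agent.Lib.MP_651af7_nt.Vj Pool.Agent.Lib.MP_651af7_nt.Vj.P1 Pool.Agent.Lib.Common.Subspace
open Pool.Agent.Lib.MP_8865d3_nt.Fa (Small Adm wt)

section aux

variable {F : Type} [Field F]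

theorem rank_xc_neg {a b : F} (P : Pt a b) : xc (-P) = xc P := by
  rcases P.cases with rfl | ⟨x, y, h, rfl⟩
  · rw [neg_zero]
  · rw [neg_pt, xc_pt, xc_pt]

theorem rank_yc_neg {a b : F} (P : Pt a b) : yc (-P) = -yc P := by
  rcases P.cases with rfl | ⟨x, y, h, rfl⟩
  · rw [neg_zero, yc_zero, neg_zero]
  · rw [neg_pt, yc_pt, yc_pt]

theorem rank_ne [CharZero F] {a b x y : F} (h : NS a b x y) (j : ℕ)
    (hB : (dbl a b x j).2.1 ≠ 0) : 2 ^ j • pt x y h ≠ 0 := by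
  induction j with
  | zero => simpa using pt_ne_zero h
  | succ j ih =>
    simp only [P1.dbl, dstep] at hB
    have h1 : (dbl a b x j).2.1 ≠ 0 := right_ne_zero_of_mul (left_ne_zero_of_mul hB)
    obtain ⟨-, -, h2⟩ := dbl_pt h j (ih h1)
    intro h3
    rw [pow_succ, mul_two, add_nsmul] at h3
    have h4 := congrArg yc (eq_neg_of_add_eq_zero_left h3)
    rw [rank_yc_neg, h2] at h4
    have h5 : y * (dbl a b x j).2.2 / (dbl a b x j).2.1 ^ 2 = 0 := by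
      linear_combination (1 / 2 : F) * h4
    have h6 : y * (dbl a b x j).2.2 = 0 :=
      (div_eq_zero_iff.1 h5).resolve_right (pow_ne_zero 2 h1)
    have h7 := dbl_sq (a := a) (b := b) (x := x) (y := y) h.1 j
    rw [h6] at h7
    exact hB (by linear_combination (-4) * h7)

theorem rank_pt [CharZero F] {a b u w x₀ y₀ x y : F} (h' : NS a b u w) (h₀ : NS a b x₀ y₀)
    (h : NS a b x y) {j : ℕ} (hj : 2 ^ j • pt x₀ y₀ h₀ = pt u w h') (h1 : x ≠ x₀)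
    (h2 : x ≠ xc (pt x₀ y₀ h₀ + pt x₀ y₀ h₀)) (h3 : (dbl a b x j).2.1 ≠ 0)
    (h4 : (dbl a b x j).1 - u * (dbl a b x j).2.1 ≠ 0) :
    ∃ x' y' : F, y' ^ 2 = fc a b x' ∧ x₀ ≠ x' ∧ (dbl a b x' j).2.1 ≠ 0 ∧
      (law a b j x y u w false).2 ≠ 0 ∧
      (law a b j x y u w false).1 * (dbl a b x' j).2.1 =
        (dbl a b x' j).1 * (law a b j x y u w false).2 ∧
      x * (x₀ - x') ^ 2 = (x₀ + x') * (x₀ * x' + a) + 2 * b + 2 * y₀ * y' ∧
      y * (x₀ - x') ^ 3 =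
        (y₀ + y') * (x₀ * (x₀ - x') ^ 2 - ((x₀ + x') * (x₀ * x' + a) + 2 * b + 2 * y₀ * y')) -
          y₀ * (x₀ - x') ^ 3 := by
  rcases (pt x₀ y₀ h₀ - pt x y h).cases with e | ⟨x', y', h'', e⟩
  · exact absurd (pt_inj.1 (sub_eq_zero.1 e)).1.symm h1
  have e1 : pt x₀ y₀ h₀ - pt x' y' h'' = pt x y h := by rw [← e, sub_sub_cancel]
  have hx : x₀ ≠ x' := by
    rintro rfl
    rcases pt_eq_or h₀ h'' with e2 | e2
    · rw [← e2, sub_self] at e1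
      exact pt_ne_zero h e1.symm
    · rw [sub_eq_add_neg, ← e2] at e1
      exact h2 (by rw [e1, xc_pt])
  have h0 := rank_ne h j h3
  have e2 : 2 ^ j • pt x y h - pt u w h' = -(2 ^ j • pt x' y' h'') := by
    rw [← e, ← hj, nsmul_sub, neg_sub]
  have h5 : 2 ^ j • pt x' y' h'' ≠ 0 := by
    intro e3
    rw [e3, neg_zero, sub_eq_zero] at e2
    have e4 := (dbl_pt h j h0).2.1
    rw [e2, xc_pt, eq_div_iff h3] at e4
    exact h4 (by rw [e4, sub_self])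
  obtain ⟨k1, k2, -⟩ := dbl_pt h'' j h5
  obtain ⟨k3, k4⟩ := law_sub h h' j h0 h4
  obtain ⟨k5, k6⟩ := sub_aff h₀ h'' hx
  rw [e1, xc_pt] at k5
  rw [e1, yc_pt] at k6
  refine ⟨x', y', h''.1, hx, k1, k3, ?_, k5, k6⟩
  rw [k4, e2, rank_xc_neg, k2]
  field_simp

variable {Ω : Type} [CommRing Ω] [Algebra F Ω] {a b : ℤ} {x y : Ω}

theorem rank_lin (c : F) : algebraMap F Ω c - x ∈ Vw F x y 1 :=
  sub_mem (Vw_mono (Nat.zero_le 1) (algebraMap_mem_Vw c))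
    (by simpa using mon_mem_Vw (F := F) (x := x) (y := y) (k := 1) (f := 0) (W := 1) zero_le_one le_rfl)

theorem rank_mem (h : y ^ 2 = fc (a : Ω) b x) (x₀ y₀ : F) {p q : Ω}
    (hp : p = (algebraMap F Ω x₀ + x) * (algebraMap F Ω x₀ * x + algebraMap F Ω a) +
      algebraMap F Ω (2 * b) + algebraMap F Ω (2 * y₀) * y)
    (hq : q = ((algebraMap F Ω y₀ + y) * (algebraMap F Ω x₀ * (algebraMap F Ω x₀ - x) ^ 2 - p) -
      algebraMap F Ω y₀ * (algebraMap F Ω x₀ - x) ^ 3) * (algebraMap F Ω x₀ - x)) :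
    p ∈ Vw F x y 2 ∧ q ∈ Vw F x y 5 := by
  have hx : x ∈ Vw F x y 1 := by
    simpa using mon_mem_Vw (F := F) (x := x) (y := y) (k := 1) (f := 0) (W := 1) zero_le_one le_rfl
  have hy : y ∈ Vw F x y 2 := by
    simpa using mon_mem_Vw (F := F) (x := x) (y := y) (k := 0) (f := 1) (W := 2) le_rfl le_rfl
  have hc : ∀ (c : F) (n : ℕ), algebraMap F Ω c ∈ Vw F x y n := fun c n =>
    Vw_mono (Nat.zero_le n) (algebraMap_mem_Vw c)
  have h1 : p ∈ Vw F x y 2 := by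
    rw [hp]
    have h2 : algebraMap F Ω x₀ * x ∈ Vw F x y 1 := (mul_mem_Vw h (hc x₀ 0) hx :)
    have h3 : algebraMap F Ω (2 * y₀) * y ∈ Vw F x y 2 := (mul_mem_Vw h (hc (2 * y₀) 0) hy :)
    have h4 : (algebraMap F Ω x₀ + x) * (algebraMap F Ω x₀ * x + algebraMap F Ω a) ∈
      Vw F x y 2 := (mul_mem_Vw h (add_mem (hc x₀ 1) hx) (add_mem h2 (hc a 1)) :)
    exact add_mem (add_mem h4 (hc _ 2)) h3
  refine ⟨h1, ?_⟩
  rw [hq]
  have h2 : algebraMap F Ω x₀ * (algebraMap F Ω x₀ - x) ^ 2 ∈ Vw F x y 2 :=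
    (mul_mem_Vw h (hc x₀ 0) (pow_mem_Vw h (rank_lin x₀) 2) :)
  have h3 : algebraMap F Ω y₀ * (algebraMap F Ω x₀ - x) ^ 3 ∈ Vw F x y 4 :=
    (mul_mem_Vw h (hc y₀ 1) (pow_mem_Vw h (rank_lin x₀) 3) :)
  have h4 : (algebraMap F Ω y₀ + y) * (algebraMap F Ω x₀ * (algebraMap F Ω x₀ - x) ^ 2 - p) ∈
    Vw F x y 4 := (mul_mem_Vw h (add_mem (hc y₀ 2) hy) (sub_mem h2 h1) :)
  exact (mul_mem_Vw h (sub_mem h4 h3) (rank_lin x₀) :)

theorem rank_term (h : y ^ 2 = fc (a : Ω) b x) {p q l : Ω} (hp : p ∈ Vw F x y 2)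
    (hq : q ∈ Vw F x y 5) (hl : l ∈ Vw F x y 1) {w₀ : ℕ} (μ : MM w₀) :
    p ^ (μ.1 : ℕ) * q ^ (μ.2 : ℕ) * l ^ (2 * (w₀ + 2) - 2 * μ.1 - 4 * μ.2) ∈
      Vw F x y (2 * w₀ + 5) := by
  have h1 := μ.1.2
  have h2 := μ.2.2
  exact Vw_mono (by omega)
    (mul_mem_Vw h (mul_mem_Vw h (pow_mem_Vw h hp _) (pow_mem_Vw h hq _)) (pow_mem_Vw h hl _))

theorem rank_alg {A B N D e S : F} (hD : D ≠ 0) (h : N * B = A * D) {k d : ℕ} (hk : k ≤ d) :
    B ^ d * e / D ^ d * (N ^ k * D ^ (d - k) * S) = A ^ k * B ^ (d - k) * (e * S) := by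
  obtain ⟨m, rfl⟩ := Nat.exists_eq_add_of_le hk
  have h1 : N ^ k * B ^ k = A ^ k * D ^ k := by rw [← mul_pow, h, mul_pow]
  rw [Nat.add_sub_cancel_left, pow_add, pow_add]
  field_simp
  linear_combination (B ^ m * e * S) * h1

theorem rank_mon {x y l : F} {w₀ : ℕ} (μ : MM w₀) :
    l ^ (2 * (w₀ + 2)) * mon x y μ = (x * l ^ 2) ^ (μ.1 : ℕ) * (y * l ^ 3 * l) ^ (μ.2 : ℕ) *
      l ^ (2 * (w₀ + 2) - 2 * μ.1 - 4 * μ.2) := by
  have h1 := μ.1.2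
  have h2 := μ.2.2
  obtain ⟨m, hm⟩ : ∃ m, 2 * (w₀ + 2) = 2 * μ.1 + 4 * μ.2 + m :=
    ⟨2 * (w₀ + 2) - 2 * μ.1 - 4 * μ.2, by omega⟩
  rw [show 2 * (w₀ + 2) - 2 * (μ.1 : ℕ) - 4 * (μ.2 : ℕ) = m by omega, hm, mon]
  ring

end aux

/- Let `U = (u, w)`, `X₀ = (x₀, y₀)` with `2 ^ j • X₀ = U` (`exists_half`; `X₀ ≠ 0`).  Let `Z` be the
finite set of `x` with `x = x₀`, `x = xc (X₀ + X₀)`, `B x = 0` or `A x - u * B x = 0`
(`exists_dbl_poly`; `A - C u * B` is monic), and `E₀` the type of pairs `(x, y)` on the curve with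
`x ∉ Z`.  For such `X` let `X' = X₀ - X = (x', y')`: it is not `0`, `x' ≠ x₀` (else `X = 0` or
`X = X₀ + X₀`), `2 ^ j • X ≠ 0` (a zero multiple: use `dbl_pt` inductively, or put into `Z` what is
needed: `B x ≠ 0` implies `2 ^ j • X ≠ 0` by induction on `j`, since `B (j + 1) = 4 B (A ^ 3 + ..)`
and `dbl_sq`), `2 ^ j • X - U = -(2 ^ j • X')` is nonzero and has first coordinate `A x' / B x'`,
`B x' ≠ 0` (`dbl_pt`).  Work in the algebra `Ω = E₀ → F` with the elements `x'`, `y'`.  The linear map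
`Φ v = (X ↦ B x' ^ d * (x₀ - x') ^ (2 * (w₀ + 2)) / den X ^ d * ∑ μ, v μ * mon x y μ)` is injective
(`mon_indep`), and `Φ (ρ τ) = A x' ^ k * B x' ^ (d - k) * ∑ μ, s τ μ * ((x₀ - x') ^ (2 * (w₀ + 2)) * mon x y μ)`
lies in `Vw F x' y' (d * 4 ^ j + 2 * (w₀ + 2) + 1)` by `sub_aff` (`X = X₀ - X'`):
`x * (x₀ - x') ^ 2 ∈ Vw 2`, `y * (x₀ - x') ^ 4 ∈ Vw 5`.  `finrank_Vw`,
`LinearMap.finrank_le_finrank_of_injective`, then `exists_rows`. -/
theorem rank_arm {F : Type} [Field F] [CharZero F] [IsAlgClosed F] {a b : ℤ}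
    (hD : 4 * a ^ 3 + 27 * b ^ 2 ≠ 0) {u w : F} (huw : w ^ 2 = fc (a : F) b u) (d j w₀ W : ℕ)
    {T : Type} [Fintype T] (k : T → ℕ) (hk : ∀ τ, k τ ≤ d) (s : T → MM w₀ → F) (ρ : T → MM W → F)
    (h : ∀ τ (x y : F), y ^ 2 = fc (a : F) b x → ∑ μ, ρ τ μ * mon x y μ =
      (law (a : F) b j x y u w false).1 ^ k τ * (law (a : F) b j x y u w false).2 ^ (d - k τ) *
        ∑ μ, s τ μ * mon x y μ) :
    ∃ g : Fin (2 * (d * 4 ^ j + 2 * w₀ + 6)) → MM W, ∀ μ,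
      ∃ c : Fin (2 * (d * 4 ^ j + 2 * w₀ + 6)) → F, ∀ τ, ρ τ μ = ∑ n, c n * ρ τ (g n) := by
  classical
  have hD' : 4 * (a : F) ^ 3 + 27 * (b : F) ^ 2 ≠ 0 := by exact_mod_cast hD
  have h' : NS (a : F) b u w := ns_of_eq two_ne_zero hD' huw
  obtain ⟨P, hP⟩ := exists_half hD' j (pt u w h')
  rcases P.cases with rfl | ⟨x₀, y₀, h₀, rfl⟩
  · rw [nsmul_zero] at hP
    exact absurd hP.symm (pt_ne_zero h')
  obtain ⟨A, B, hA, hA', hB, hB', hAB⟩ := exists_dbl_poly hD' j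
  have hC : A - Polynomial.C u * B ≠ 0 := by
    intro e
    have e1 := congrArg Polynomial.natDegree (sub_eq_zero.1 e)
    have e2 := Polynomial.natDegree_C_mul_le u B
    omega
  obtain ⟨Z, hZ⟩ : ∃ Z : Finset F, ∀ x, x ∉ Z → x ≠ x₀ ∧ x ≠ xc (pt x₀ y₀ h₀ + pt x₀ y₀ h₀) ∧
      (dbl (a : F) b x j).2.1 ≠ 0 ∧ (dbl (a : F) b x j).1 - u * (dbl (a : F) b x j).2.1 ≠ 0 := by
    refine ⟨{x₀, xc (pt x₀ y₀ h₀ + pt x₀ y₀ h₀)} ∪ (B * (A - Polynomial.C u * B)).roots.toFinset,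
      fun x hx => ?_⟩
    rw [mem_union, not_or, mem_insert, mem_singleton, not_or, Multiset.mem_toFinset,
      Polynomial.mem_roots (mul_ne_zero hB hC), Polynomial.IsRoot.def, Polynomial.eval_mul,
      Polynomial.eval_sub, Polynomial.eval_mul, Polynomial.eval_C, ← (hAB x).1, ← (hAB x).2] at hx
    exact ⟨hx.1.1, hx.1.2, left_ne_zero_of_mul hx.2, right_ne_zero_of_mul hx.2⟩
  have key := fun X : {p : F × F // p.1 ∉ Z ∧ p.2 ^ 2 = fc (a : F) b p.1} =>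
    rank_pt h' h₀ (ns_of_eq two_ne_zero hD' X.2.2) hP (hZ _ X.2.1).1 (hZ _ X.2.1).2.1
      (hZ _ X.2.1).2.2.1 (hZ _ X.2.1).2.2.2
  choose x' y' k0 k1 k2 k3 k4 k5 k6 using key
  have hc : y' ^ 2 = fc (a : _ → F) b x' := funext fun X => k0 X
  let Φ : (MM W → F) →ₗ[F] ({p : F × F // p.1 ∉ Z ∧ p.2 ^ 2 = fc (a : F) b p.1} → F) :=
    { toFun := fun v X => (dbl (a : F) b (x' X) j).2.1 ^ d * (x₀ - x' X) ^ (2 * (w₀ + 2)) /
        (law (a : F) b j X.1.1 X.1.2 u w false).2 ^ d * ∑ μ, v μ * mon X.1.1 X.1.2 μ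
      map_add' := fun v v' => funext fun X => by
        simp only [Pi.add_apply, add_mul, sum_add_distrib, mul_add]
      map_smul' := fun c v => funext fun X => by
        simp only [Pi.smul_apply, smul_eq_mul, RingHom.id_apply, mul_assoc, ← mul_sum]
        ring }
  have hinj : Function.Injective Φ := by
    rw [injective_iff_map_eq_zero]
    intro v hv
    refine mon_indep (a : F) b v Z fun x y hx hy => ?_
    refine (mul_eq_zero.1 (congrFun hv ⟨(x, y), hx, hy⟩)).resolve_left ?_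
    exact div_ne_zero (mul_ne_zero (pow_ne_zero _ (k2 _)) (pow_ne_zero _ (sub_ne_zero.2 (k1 _))))
      (pow_ne_zero _ (k3 _))
  obtain ⟨hp, hq⟩ := rank_mem (F := F) hc x₀ y₀ (p := fun X => X.1.1 * (x₀ - x' X) ^ 2)
    (q := fun X => X.1.2 * (x₀ - x' X) ^ 3 * (x₀ - x' X))
    (funext fun X => by simpa using k5 X) (funext fun X => by
      rw [k6 X, ← k5 X]
      simp)
  have hmem : ∀ τ, Φ (ρ τ) ∈ Vw F x' y' (d * 4 ^ j + (2 * w₀ + 5)) := by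
    intro τ
    have e : Φ (ρ τ) = Polynomial.aeval x' A ^ k τ * Polynomial.aeval x' B ^ (d - k τ) *
        ∑ μ, s τ μ • ((fun X => X.1.1 * (x₀ - x' X) ^ 2) ^ (μ.1 : ℕ) *
          (fun X => X.1.2 * (x₀ - x' X) ^ 3 * (x₀ - x' X)) ^ (μ.2 : ℕ) *
          (algebraMap F _ x₀ - x') ^ (2 * (w₀ + 2) - 2 * μ.1 - 4 * μ.2)) := by
      funext X
      simp only [Φ, LinearMap.coe_mk, AddHom.coe_mk, Pi.mul_apply, Pi.pow_apply, Finset.sum_apply,
        Pi.smul_apply, smul_eq_mul, Pi.sub_apply, Pi.algebraMap_apply, Algebra.algebraMap_self_apply,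
        Polynomial.aeval_pi_apply, Polynomial.coe_aeval_eq_eval]
      rw [h τ _ _ X.2.2, rank_alg (k3 X) (k4 X) (hk τ), (hAB _).1, (hAB _).2, mul_sum]
      congr 1
      refine sum_congr rfl fun μ _ => ?_
      rw [← rank_mon]
      ring
    rw [e]
    refine mul_mem_Vw hc (Vw_mono (le_of_eq ?_) (mul_mem_Vw hc
      (pow_mem_Vw hc (aeval_mem_Vw hA'.le) _) (pow_mem_Vw hc (aeval_mem_Vw hB'.le) _)))
      (Submodule.sum_mem _ fun μ _ => Submodule.smul_mem _ _ (rank_term hc hp hq (rank_lin x₀) μ))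
    rw [← add_mul, Nat.add_sub_cancel' (hk τ)]
  obtain ⟨hfin, hle⟩ := finrank_Vw (F := F) (x := x') (y := y') (W := d * 4 ^ j + (2 * w₀ + 5))
  have hmap : ∀ v ∈ Submodule.span F (Set.range ρ),
      Φ v ∈ Vw F x' y' (d * 4 ^ j + (2 * w₀ + 5)) := by
    intro v hv
    refine (Submodule.span_le (p := (Vw F x' y' (d * 4 ^ j + (2 * w₀ + 5))).comap Φ)).2 ?_ hv
    rintro _ ⟨τ, rfl⟩
    exact hmem τ
  refine exists_rows ρ (le_trans (LinearMap.finrank_le_finrank_of_injective (f := Φ.restrict hmap)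
    fun v v' e => Subtype.ext (hinj (congrArg Subtype.val e))) (hle.trans_eq ?_))
  ring

end Pool.Agent.Lib.MP_651af7_nt.Rt
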