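import Pool.Agent.Lib.MP_651af7_nt.Rt.Defs
import Pool.Agent.Lib.MP_651af7_nt.P1Arr
import Pool.Agent.Lib.MP_8865d3_nt.FaRedY
import Pool.Agent.Lib.Common.ZeroLemma.Elim

/-! Integral polynomials for the columns of the linear system. -/

namespace Pool.Agent.Lib.MP_651af7_nt.Rt

open Finset Height NumberField Pool.Agent.Lib.MP_e97e2b_nt Pool.Agent.Lib.MP_651af7_nt.Iv
  Pool.Agent.Lib.MP_651af7_nt.Vj Pool.Agent.Lib.MP_651af7_nt.Vj.P1 Pool.Agent.Lib.Common.Subspace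
open Pool.Agent.Lib.MP_8865d3_nt.Fa (Small Adm wt)

open MvPolynomial

open Pool.Agent.Lib.Common.ZeroLemma in
/- `ρ μ = ((elToP t ((elToP s P).coeff μ.1)).coeff μ.2)` with `el_supp`, `el_isInt`, `el_sum_len`,
`el_eval`, `el_natDegree_le` (`Common/ZeroLemma/Elim`), or directly as a sum over the support. -/
theorem exists_split {σ : Type} [DecidableEq σ] {s t : σ} (hst : s ≠ t) (P : MvPolynomial σ ℚ)
    (W : ℕ) (h : ∀ μ ∈ P.support, μ s ≤ W ∧ μ t ≤ 1) :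
    ∃ ρ : MM W → MvPolynomial σ ℚ, (∀ T, IL P T → ∀ μ, IL (ρ μ) T) ∧
      (∀ μ, ∀ ν ∈ (ρ μ).support, ν s = 0 ∧ ν t = 0 ∧
        ∃ ν' ∈ P.support, ∀ r, r ≠ s → r ≠ t → ν r = ν' r) ∧
      P = ∑ μ, ρ μ * mon (X s) (X t) μ := by
  refine ⟨fun μ => (elToP t ((elToP s P).coeff μ.1)).coeff μ.2, fun T hT μ => ⟨?_, ?_⟩,
    fun μ ν hν => ?_, ?_⟩
  · exact el_isInt _ (el_isInt _ hT.1 _) _
  · have h1 := el_sum_len t ((elToP s P).coeff μ.1) {(μ.2 : ℕ)}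
    have h2 := el_sum_len s P {(μ.1 : ℕ)}
    rw [Finset.sum_singleton] at h1 h2
    exact h1.trans (h2.trans hT.2)
  · obtain ⟨ν1, h1, -, rfl⟩ := el_supp _ _ _ ν hν
    obtain ⟨ν2, h2, -, rfl⟩ := el_supp _ _ _ ν1 h1
    refine ⟨?_, Finsupp.erase_same, ν2, h2, fun r hs ht => ?_⟩
    · rw [Finsupp.erase_ne hst, Finsupp.erase_same]
    · rw [Finsupp.erase_ne ht, Finsupp.erase_ne hs]
  · have hd := el_natDegree_le s (P := P) (p := W) fun μ hμ => (h μ hμ).1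
    conv_lhs => rw [← el_eval s P, Polynomial.eval_eq_sum_range' (Nat.lt_succ_of_le hd)]
    rw [Fintype.sum_prod_type, Finset.sum_range]
    refine Finset.sum_congr rfl fun i _ => ?_
    have hd2 := el_natDegree_le t (P := (elToP s P).coeff i) (p := 1) fun ν hν => by
      obtain ⟨ν2, h2, -, rfl⟩ := el_supp _ _ _ ν hν
      rw [Finsupp.erase_ne hst.symm]
      exact (h ν2 h2).2
    conv_lhs => rw [← el_eval t ((elToP s P).coeff i),
      Polynomial.eval_eq_sum_range' (Nat.lt_succ_of_le hd2)]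
    rw [Finset.sum_range, Finset.sum_mul]
    refine Finset.sum_congr rfl fun k _ => ?_
    simp only [mon]
    ring

theorem split_den {σ : Type} (G : MvPolynomial σ ℚ) :
    ∃ D : ℤ, D ≠ 0 ∧ IsInt (C (D : ℚ) * G) := by
  induction G using MvPolynomial.induction_on' with
  | monomial μ c =>
    refine ⟨c.den, by exact_mod_cast c.den_nz, ?_⟩
    rw [C_mul_monomial]
    have : ((c.den : ℤ) : ℚ) * c = (c.num : ℚ) := by
      rw [Int.cast_natCast, mul_comm]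
      exact Rat.mul_den_eq_num c
    rw [this]
    exact isInt_monomial _ _
  | add p q hp hq =>
    obtain ⟨D, hD, h1⟩ := hp
    obtain ⟨D', hD', h2⟩ := hq
    refine ⟨D * D', mul_ne_zero hD hD', ?_⟩
    have : C ((D * D' : ℤ) : ℚ) * (p + q) =
        C (D' : ℚ) * (C (D : ℚ) * p) + C (D : ℚ) * (C (D' : ℚ) * q) := by
      rw [Int.cast_mul, map_mul]
      ring
    rw [this]
    exact ((isInt_C _).mul h1).add ((isInt_C _).mul h2)

theorem split_wd {σ : Type} (w : σ → ℕ) (G : MvPolynomial σ ℚ) : ∃ D : ℕ, WD w G D :=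
  ⟨G.support.sup fun μ => Finsupp.weight w μ, fun _ hμ =>
    Finset.le_sup (f := fun μ => Finsupp.weight w μ) hμ⟩

theorem split_prim (K : Type) [Field K] [NumberField K] :
    ∃ θ : K, IsIntegral ℤ θ ∧ ∀ c : K, ∃ q : Polynomial ℚ, Polynomial.aeval θ q = c := by
  obtain ⟨α, hα⟩ := Field.exists_primitive_element ℚ K
  have halg : IsAlgebraic ℚ α := Algebra.IsAlgebraic.isAlgebraic α
  have halgZ : IsAlgebraic ℤ α := (IsFractionRing.isAlgebraic_iff ℤ ℚ K).2 halg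
  obtain ⟨y, hy, hi⟩ := halgZ.exists_integral_multiple
  refine ⟨y • α, hi, fun c => ?_⟩
  have hc : c ∈ Algebra.adjoin ℚ {α} := by
    rw [← IntermediateField.adjoin_simple_toSubalgebra_of_isAlgebraic halg, hα]
    trivial
  rw [Algebra.adjoin_singleton_eq_range_aeval] at hc
  obtain ⟨p, hp⟩ := hc
  refine ⟨p.comp (Polynomial.C (y : ℚ)⁻¹ * Polynomial.X), ?_⟩
  have hy' : (y : K) ≠ 0 := Int.cast_ne_zero.2 hy
  have : Polynomial.aeval (y • α) (Polynomial.C (y : ℚ)⁻¹ * Polynomial.X) = α := by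
    rw [map_mul, Polynomial.aeval_C, Polynomial.aeval_X, map_inv₀, map_intCast, zsmul_eq_mul,
      inv_mul_cancel_left₀ hy']
  rw [Polynomial.aeval_comp, this]
  exact hp

theorem split_lift {K : Type} [Field K] [NumberField K] {θ : K}
    (hθ : ∀ c : K, ∃ q : Polynomial ℚ, Polynomial.aeval θ q = c) (g : MvPolynomial (Fin 2) K) :
    ∃ G : MvPolynomial (Fin 3 ⊕ Fin 3) ℚ, WD (wt 1) G 0 ∧
      ∀ (F : Type) [Field F] [CharZero F] [Algebra K F] (z : Fin 3 ⊕ Fin 3 → F),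
        z (.inl 2) = algebraMap K F θ → aeval z G = aeval ![z (.inl 0), z (.inr 0)] g := by
  induction g using MvPolynomial.induction_on with
  | C c =>
    obtain ⟨q, rfl⟩ := hθ c
    refine ⟨Polynomial.aeval (X (.inl 2)) q, ?_, fun F _ _ _ z hz => ?_⟩
    · rw [Polynomial.aeval_eq_sum_range]
      refine wd_sum _ fun i _ => WD.smul ?_ _
      exact ((wd_X (wt 1) (Sum.inl 2)).pow i).mono (by simp [wt])
    · rw [← Polynomial.aeval_algHom_apply, aeval_X, hz, aeval_C,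
        Polynomial.aeval_algebraMap_apply]
  | add p q hp hq =>
    obtain ⟨G, h1, h2⟩ := hp
    obtain ⟨G', h1', h2'⟩ := hq
    refine ⟨G + G', h1.add h1', fun F _ _ _ z hz => ?_⟩
    rw [map_add, map_add, h2 F z hz, h2' F z hz]
  | mul_X p i hp =>
    obtain ⟨G, h1, h2⟩ := hp
    refine ⟨G * X (![Sum.inl 0, Sum.inr 0] i), ?_, fun F _ _ _ z hz => ?_⟩
    · refine (h1.mul (wd_X _ _)).mono ?_
      fin_cases i <;> simp [wt]
    · rw [map_mul, map_mul, h2 F z hz, aeval_X, aeval_X]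
      fin_cases i <;> simp

/- `θ` is an integral primitive element (`Field.exists_primitive_element`, scaled, or
`NumberField.RingOfIntegers` power basis facts; only two things matter: `θ` is integral and every
element of `K` is a rational polynomial in `θ`), `X ^ n + ψ` a monic integer polynomial that kills
it.  Write each coefficient of each `g j` as a rational polynomial in `θ`, build a rational polynomial
in the variables `inl 0`, `inr 0`, `inl 2`, clear the denominators (one integer `D` for all `j`), take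
`κ` larger than all the weights. -/
theorem exists_theta (K : Type) [Field K] [NumberField K] {J : Type} [Fintype J]
    (g : J → MvPolynomial (Fin 2) K) :
    ∃ (θ : K) (n κ : ℕ) (Λ : ℝ) (D : ℤ) (ψ : MvPolynomial (Fin 3 ⊕ Fin 3) ℚ)
      (g' : J → MvPolynomial (Fin 3 ⊕ Fin 3) ℚ), 1 ≤ n ∧ n ≤ κ ∧ 1 ≤ Λ ∧ D ≠ 0 ∧ IL ψ Λ ∧
      (∀ μ ∈ ψ.support, μ (.inl 2) < n ∧ ∀ r, r ≠ .inl 2 → μ r = 0) ∧
      (∀ j, IL (g' j) Λ ∧ WD (wt 0) (g' j) κ ∧ WD (wt 1) (g' j) 0 ∧ WD (wt 2) (g' j) κ) ∧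
      ∀ (F : Type) [Field F] [CharZero F] [Algebra K F] (z : Fin 3 ⊕ Fin 3 → F),
        z (.inl 2) = algebraMap K F θ → aeval z (1 * X (.inl 2) ^ n + ψ) = 0 ∧
          ∀ j, aeval z (g' j) = D * aeval ![z (.inl 0), z (.inr 0)] (g j) := by
  classical
  obtain ⟨θ, ⟨p, hp, hp0⟩, hθ⟩ := split_prim K
  choose G hG1 hG2 using fun j => split_lift hθ (g j)
  choose D hD0 hD using fun j => split_den (G j)
  choose k0 hk0 using fun j => split_wd (wt 0) (G j)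
  choose k2 hk2 using fun j => split_wd (wt 2) (G j)
  have hn : 1 ≤ p.natDegree := by
    refine Nat.one_le_iff_ne_zero.2 fun h0 => ?_
    rw [hp.natDegree_eq_zero.1 h0] at hp0
    simp at hp0
  let ψ : MvPolynomial (Fin 3 ⊕ Fin 3) ℚ :=
    ∑ i ∈ range p.natDegree, monomial (Finsupp.single (.inl 2) i) ((p.coeff i : ℤ) : ℚ)
  let g' : J → MvPolynomial (Fin 3 ⊕ Fin 3) ℚ := fun j => C ((∏ i, D i : ℤ) : ℚ) * G j
  have hl : ∀ j, len (g' j) ≤ ∑ j, len (g' j) := fun j =>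
    Finset.single_le_sum (f := fun j => len (g' j)) (fun _ _ => len_nonneg _) (mem_univ j)
  have hl0 : 0 ≤ ∑ j, len (g' j) := Finset.sum_nonneg fun _ _ => len_nonneg _
  have hψ0 := len_nonneg ψ
  have hk : ∀ j, k0 j + k2 j ≤ ∑ j, (k0 j + k2 j) := fun j =>
    Finset.single_le_sum (f := fun j => k0 j + k2 j) (fun _ _ => Nat.zero_le _) (mem_univ j)
  refine ⟨θ, p.natDegree, p.natDegree + ∑ j, (k0 j + k2 j), 1 + len ψ + ∑ j, len (g' j),
    ∏ i, D i, ψ, g', hn, Nat.le_add_right _ _, by linarith,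
    Finset.prod_ne_zero_iff.2 fun i _ => hD0 i,
    ⟨isInt_sum _ _ fun i _ => isInt_monomial _ _, by linarith⟩, fun μ hμ => ?_, fun j => ?_,
    fun F _ _ _ z hz => ⟨?_, fun j => ?_⟩⟩
  · obtain ⟨i, hi, h2⟩ := Finset.mem_biUnion.mp (support_sum hμ)
    rw [Finset.mem_singleton.mp (support_monomial_subset h2)]
    refine ⟨by simpa using hi, fun r hr => ?_⟩
    exact Finsupp.single_eq_of_ne hr
  · refine ⟨⟨?_, by linarith [hl j]⟩, ?_, ?_, ?_⟩
    · have : g' j = C ((∏ i ∈ univ.erase j, D i : ℤ) : ℚ) * (C (D j : ℚ) * G j) := by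
        simp only [g']
        rw [← mul_assoc, ← map_mul, ← Int.cast_mul, Finset.prod_erase_mul _ _ (mem_univ j)]
      rw [this]
      exact (isInt_C _).mul (hD j)
    · exact ((wd_C _ _).mul (hk0 j)).mono (by have := hk j; omega)
    · exact ((wd_C _ _).mul (hG1 j)).mono (by omega)
    · exact ((wd_C _ _).mul (hk2 j)).mono (by have := hk j; omega)
  · have h1 : Polynomial.aeval (algebraMap K F θ) p = 0 := by
      rw [Polynomial.aeval_algebraMap_apply, Polynomial.aeval_def, hp0, map_zero]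
    rw [hp.as_sum, map_add, map_pow, Polynomial.aeval_X, map_sum] at h1
    rw [one_mul, map_add, map_pow, aeval_X, hz, ← h1, map_sum]
    refine congrArg _ (Finset.sum_congr rfl fun i _ => ?_)
    rw [aeval_monomial, Finsupp.prod_single_index (by simp), hz]
    simp
  · simp only [g']
    rw [map_mul, hG2 j F z hz, aeval_C, map_intCast]

theorem split_congr {σ : Type} {s t : σ} {P : MvPolynomial σ ℚ}
    (h : ∀ ν ∈ P.support, ν s = 0 ∧ ν t = 0) {F : Type} [CommRing F] [Algebra ℚ F] {z z' : σ → F}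
    (hz : ∀ r, r ≠ s → r ≠ t → z r = z' r) : aeval z P = aeval z' P := by
  rw [aeval_def, aeval_def, eval₂_eq, eval₂_eq]
  refine Finset.sum_congr rfl fun ν hν => congrArg _ (Finset.prod_congr rfl fun r hr => ?_)
  have h0 := Finsupp.mem_support_iff.1 hr
  rw [hz r (fun e => h0 (e ▸ (h ν hν).1)) (fun e => h0 (e ▸ (h ν hν).2))]

theorem split_red (a b : ℤ) {P : MvPolynomial (Fin 3 ⊕ Fin 3) ℚ} {T : ℝ} (hP : IL P T)
    {W D1 D2 : ℕ} (h0 : WD (wt 0) P W) (h1 : WD (wt 1) P D1) (h2 : WD (wt 2) P D2) :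
    ∃ ρ : MM W → MvPolynomial (Fin 3 ⊕ Fin 3) ℚ,
      (∀ μ, IL (ρ μ) ((1 + |(a : ℝ)| + |(b : ℝ)|) ^ (W + D1 + D2) * T) ∧ WD (wt 0) (ρ μ) 0 ∧
        WD (wt 1) (ρ μ) (D1 + 2) ∧ WD (wt 2) (ρ μ) (D2 + 2)) ∧
      ∀ (F : Type) [Field F] [CharZero F] (x y : Fin 3 → F),
        (∀ p, y p ^ 2 = fc (a : F) b (x p)) →
        ∑ μ, aeval (Sum.elim (Function.update x 0 0) (Function.update y 0 0)) (ρ μ) *
            mon (x 0) (y 0) μ = aeval (Sum.elim x y) P := by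
  have hΛ : 1 ≤ 1 + |(a : ℝ)| + |(b : ℝ)| := by
    linarith [abs_nonneg (a : ℝ), abs_nonneg (b : ℝ)]
  obtain ⟨P', q1, q2, q3⟩ := Pool.Agent.Lib.MP_8865d3_nt.Fa.exists_red (fun _ => a) (fun _ => b)
    hΛ (fun _ => le_rfl) hP ![W, D1, D2] (fun p => by fin_cases p; exacts [h0, h1, h2])
  obtain ⟨ρ, r1, r2, r3⟩ := exists_split (s := Sum.inl 0) (t := Sum.inr 0) (by simp) P' W
    fun μ hμ => q2 μ hμ 0
  refine ⟨ρ, fun μ => ⟨?_, fun ν hν => ?_, fun ν hν => ?_, fun ν hν => ?_⟩, fun F _ _ x y h => ?_⟩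
  · have := r1 _ q1 μ
    rwa [Fin.sum_univ_three] at this
  · rw [Pool.Agent.Lib.MP_8865d3_nt.Fa.red_weight, (r2 μ ν hν).1, (r2 μ ν hν).2.1]
  · obtain ⟨-, -, ν', e1, e2⟩ := r2 μ ν hν
    rw [Pool.Agent.Lib.MP_8865d3_nt.Fa.red_weight, e2 _ (by simp) (by simp),
      e2 _ (by simp) (by simp)]
    have e3 : ν' (Sum.inl 1) ≤ D1 := (q2 ν' e1 1).1
    have e4 := (q2 ν' e1 1).2
    omega
  · obtain ⟨-, -, ν', e1, e2⟩ := r2 μ ν hν
    rw [Pool.Agent.Lib.MP_8865d3_nt.Fa.red_weight, e2 _ (by simp) (by simp),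
      e2 _ (by simp) (by simp)]
    have e3 : ν' (Sum.inl 2) ≤ D2 := (q2 ν' e1 2).1
    have e4 := (q2 ν' e1 2).2
    omega
  · rw [← q3 F x y h]
    conv_rhs => rw [r3, map_sum]
    refine Finset.sum_congr rfl fun μ _ => ?_
    rw [map_mul, split_congr (z' := Sum.elim x y) (fun ν hν => ⟨(r2 μ ν hν).1, (r2 μ ν hν).2.1⟩)]
    · simp [mon]
    · rintro (r | r) hs ht
      · exact Function.update_of_ne (fun e => hs (congrArg _ e)) _ _
      · exact Function.update_of_ne (fun e => ht (congrArg _ e)) _ _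

theorem split_wd_cf {σ : Type} {w : σ → ℕ} {A B : MvPolynomial σ ℚ} {κ e α : ℕ} (β : ℕ)
    (hA : WD w A κ) (hB : WD w B κ) (h : α ≤ e) : WD w (cf e α β A B) (κ * e) := by
  refine (((wd_natCast w _).mul (hA.neg.pow _)).mul (hB.pow _)).mono ?_
  rw [zero_add, ← add_mul, mul_comm]
  exact Nat.mul_le_mul_left _ (by omega)

theorem split_il_cf {σ : Type} {A B : MvPolynomial σ ℚ} {Λ : ℝ} {e α : ℕ} (β : ℕ) (hΛ : 1 ≤ Λ)
    (hA : IL A Λ) (hB : IL B Λ) (h : α ≤ e) : IL (cf e α β A B) ((2 * Λ) ^ e) := by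
  refine (((il_natCast _).mul (hA.neg.pow _)).mul (hB.pow _)).mono ?_
  rw [mul_assoc, ← pow_add, mul_pow]
  have h1 : (α.choose β : ℝ) ≤ 2 ^ e := by
    have := (Nat.choose_le_two_pow α β).trans (Nat.pow_le_pow_right (by norm_num : 0 < 2) h)
    exact_mod_cast this
  exact mul_le_mul h1 (pow_le_pow_right₀ hΛ (by omega)) (by positivity) (by positivity)

theorem split_map_cf {R R' : Type} [CommRing R] [CommRing R'] [Algebra ℚ R] [Algebra ℚ R']
    (φ : R →ₐ[ℚ] R') (e α β : ℕ) (A B : R) : φ (cf e α β A B) = cf e α β (φ A) (φ B) := by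
  simp [cf]

/- The factor of one column as a reduced polynomial, split along the monomials of the arm.
From `exists_arr` (`P1Arr`) build `Φ = (∑ ν, ∑ μ, r ν μ * mon (X (inl 1)) (X (inr 1)) ν *
mon (X (inl 0)) (X (inr 0)) μ) * X (inr 0) ^ τ.2 * cf e α β A B`; `IL` and `WD` calculus of `Vj/Wd`
(`choose α β ≤ 2 ^ e`); `Fa.exists_red` with `a p = a`, `b p = b`, `D = ![W, 2 d, κ e]`;
`exists_split` with `s = inl 0`, `t = inr 0`.  For `s` do the same with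
`X (inl 0) ^ τ.1.2 * X (inr 0) ^ τ.2 * cf e α β A B`. -/
theorem exists_col (a b : ℤ) (d κ : ℕ) {Λ : ℝ} (hΛ : 1 ≤ Λ) : ∃ C : ℝ, 1 ≤ C ∧
    ∀ (A B : MvPolynomial (Fin 3 ⊕ Fin 3) ℚ), IL A Λ → IL B Λ → WD (wt 0) A κ → WD (wt 0) B κ →
      WD (wt 1) A 0 → WD (wt 1) B 0 → WD (wt 2) A κ → WD (wt 2) B κ →
      ∀ (j e α β : ℕ) (τ : TA d j), α ≤ e →
      ∃ (ρ : MM ((2 * d + 1) * 4 ^ j + 2 + κ * e) → MvPolynomial (Fin 3 ⊕ Fin 3) ℚ)
        (s : MM (4 ^ j + 1 + κ * e) → MvPolynomial (Fin 3 ⊕ Fin 3) ℚ),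
        (∀ μ, IL (ρ μ) (C ^ (4 ^ j + e)) ∧ WD (wt 0) (ρ μ) 0 ∧ WD (wt 1) (ρ μ) (2 * d + 2) ∧
          WD (wt 2) (ρ μ) (κ * e + 2)) ∧
        ∀ (F : Type) [Field F] [CharZero F] (x y : Fin 3 → F),
          (∀ p, y p ^ 2 = fc (a : F) b (x p)) →
          ∑ μ, aeval (Sum.elim (Function.update x 0 0) (Function.update y 0 0)) (ρ μ) *
              mon (x 0) (y 0) μ =
            arm (a : F) b d j (x 0) (y 0) (x 1) (y 1) false τ.1 * y 0 ^ (τ.2 : ℕ) *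
              cf e α β (aeval (Sum.elim x y) A) (aeval (Sum.elim x y) B) ∧
          ∑ μ, aeval (Sum.elim (Function.update x 0 0) (Function.update y 0 0)) (s μ) *
              mon (x 0) (y 0) μ =
            x 0 ^ (τ.1.2 : ℕ) * y 0 ^ (τ.2 : ℕ) *
              cf e α β (aeval (Sum.elim x y) A) (aeval (Sum.elim x y) B) := by
  obtain ⟨C0, hC0, harr⟩ := exists_arr a b d
  have hL : 1 ≤ 1 + |(a : ℝ)| + |(b : ℝ)| := by
    linarith [abs_nonneg (a : ℝ), abs_nonneg (b : ℝ)]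
  have h2Λ : 1 ≤ 2 * Λ := by linarith
  refine ⟨(1 + |(a : ℝ)| + |(b : ℝ)|) ^ (4 * d + 3 + 2 * κ) * (C0 * (2 * Λ)),
    one_le_mul_of_one_le_of_one_le (one_le_pow₀ hL) (one_le_mul_of_one_le_of_one_le hC0 h2Λ),
    fun A B hA hB hA0 hB0 hA1 hB1 hA2 hB2 j e α β τ hα => ?_⟩
  obtain ⟨r, r1, r2, r3⟩ := harr j false τ.1
  have hτ : (τ.2 : ℕ) ≤ 1 := Nat.lt_succ_iff.1 τ.2.2
  have hτ' : (τ.1.2 : ℕ) < 4 ^ j := τ.1.2.2
  have c0 := split_wd_cf β hA0 hB0 hα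
  have c1 := split_wd_cf β hA1 hB1 hα
  have c2 := split_wd_cf β hA2 hB2 hα
  have ci := split_il_cf β hΛ hA hB hα
  let Ψ : MvPolynomial (Fin 3 ⊕ Fin 3) ℚ := ∑ ν, ∑ μ, C (r ν μ : ℚ) *
    mon (X (.inl 1)) (X (.inr 1)) ν * mon (X (.inl 0)) (X (.inr 0)) μ
  have hΨi : IL Ψ (C0 ^ 4 ^ j) := by
    refine (il_sum _ fun ν _ => il_sum _ fun μ _ => ?_).mono r2
    refine (((il_intCast _).mul (((il_X _).pow _).mul ((il_X _).pow _))).mul
      (((il_X _).pow _).mul ((il_X _).pow _))).mono (le_of_eq ?_)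
    simp
  have hΨw : ∀ (p : Fin 3) (D : ℕ), (∀ ν μ, r ν μ ≠ 0 →
      (ν.1 : ℕ) * wt p (Sum.inl 1) + (ν.2 : ℕ) * wt p (Sum.inr 1) +
        ((μ.1 : ℕ) * wt p (Sum.inl 0) + (μ.2 : ℕ) * wt p (Sum.inr 0)) ≤ D) → WD (wt p) Ψ D := by
    intro p D hD
    refine wd_sum _ fun ν _ => wd_sum _ fun μ _ => ?_
    by_cases h0 : r ν μ = 0
    · rw [h0, Int.cast_zero, map_zero, zero_mul, zero_mul]
      exact wd_zero _ _
    · refine (((wd_C _ _).mul (((wd_X _ _).pow _).mul ((wd_X _ _).pow _))).mul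
        (((wd_X _ _).pow _).mul ((wd_X _ _).pow _))).mono ?_
      rw [zero_add]
      exact hD ν μ h0
  have w0 : WD (wt 0) Ψ ((2 * d + 1) * 4 ^ j) := hΨw 0 _ fun ν μ h => by
    have := (r1 ν μ h).2
    simp [wt]
    omega
  have w1 : WD (wt 1) Ψ (2 * d) := hΨw 1 _ fun ν μ h => by
    have := (r1 ν μ h).1
    simp [wt]
    omega
  have w2 : WD (wt 2) Ψ 0 := hΨw 2 _ fun ν μ h => by simp [wt]
  have y0 : WD (wt 0) (X (Sum.inr 0) ^ (τ.2 : ℕ) : MvPolynomial (Fin 3 ⊕ Fin 3) ℚ) 2 :=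
    ((wd_X _ _).pow _).mono (by simp [wt]; omega)
  have y1 : WD (wt 1) (X (Sum.inr 0) ^ (τ.2 : ℕ) : MvPolynomial (Fin 3 ⊕ Fin 3) ℚ) 0 :=
    ((wd_X _ _).pow _).mono (by simp [wt])
  have y2 : WD (wt 2) (X (Sum.inr 0) ^ (τ.2 : ℕ) : MvPolynomial (Fin 3 ⊕ Fin 3) ℚ) 0 :=
    ((wd_X _ _).pow _).mono (by simp [wt])
  have x0 : WD (wt 0) (X (Sum.inl 0) ^ (τ.1.2 : ℕ) : MvPolynomial (Fin 3 ⊕ Fin 3) ℚ) τ.1.2 :=
    ((wd_X _ _).pow _).mono (by simp [wt])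
  have x1 : WD (wt 1) (X (Sum.inl 0) ^ (τ.1.2 : ℕ) : MvPolynomial (Fin 3 ⊕ Fin 3) ℚ) 0 :=
    ((wd_X _ _).pow _).mono (by simp [wt])
  have x2 : WD (wt 2) (X (Sum.inl 0) ^ (τ.1.2 : ℕ) : MvPolynomial (Fin 3 ⊕ Fin 3) ℚ) 0 :=
    ((wd_X _ _).pow _).mono (by simp [wt])
  obtain ⟨ρ, ρ1, ρ2⟩ := split_red a b ((hΨi.mul ((il_X (Sum.inr 0)).pow (τ.2 : ℕ))).mul ci)
    (W := (2 * d + 1) * 4 ^ j + 2 + κ * e) (D1 := 2 * d) (D2 := κ * e)
    ((w0.mul y0).mul c0) (((w1.mul y1).mul c1).mono (by omega))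
    (((w2.mul y2).mul c2).mono (by omega))
  obtain ⟨s, -, s2⟩ := split_red a b
    ((((il_X (Sum.inl 0)).pow (τ.1.2 : ℕ)).mul ((il_X (Sum.inr 0)).pow (τ.2 : ℕ))).mul ci)
    (W := 4 ^ j + 1 + κ * e) (D1 := 0) (D2 := κ * e)
    (((x0.mul y0).mul c0).mono (by omega)) (((x1.mul y1).mul c1).mono (by omega))
    (((x2.mul y2).mul c2).mono (by omega))
  refine ⟨ρ, s, fun μ => ⟨(ρ1 μ).1.mono ?_, (ρ1 μ).2⟩, fun F _ _ x y h => ⟨?_, ?_⟩⟩
  · rw [one_pow, mul_one, mul_pow _ (C0 * _), mul_pow C0, ← pow_mul]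
    have h4 : 1 ≤ 4 ^ j := Nat.one_le_pow _ _ (by norm_num)
    refine mul_le_mul (pow_le_pow_right₀ hL ?_) (mul_le_mul (pow_le_pow_right₀ hC0 (by omega))
      (pow_le_pow_right₀ h2Λ (by omega)) (by positivity) (by positivity)) (by positivity)
      (by positivity)
    generalize 4 ^ j = N at h4 ⊢
    obtain ⟨M, rfl⟩ : ∃ M, N = M + 1 := ⟨N - 1, by omega⟩
    have : (4 * d + 3 + 2 * κ) * (M + 1 + e) = (2 * d + 1) * (M + 1) + 2 + κ * e + 2 * d + κ * e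
        + ((2 * d + 2) * M + 2 * κ * (M + 1) + (4 * d + 3) * e) := by ring
    omega
  · rw [ρ2 F x y h, map_mul, map_mul, split_map_cf, r3 F _ _ _ _ (h 0) (h 1)]
    simp [Ψ, mon]
  · rw [s2 F x y h, map_mul, map_mul, split_map_cf]
    simp

end Pool.Agent.Lib.MP_651af7_nt.Rt
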