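import Pool.Agent.Lib.MP_651af7_nt.Rt.Exp
import Pool.Agent.Lib.MP_651af7_nt.Rt.Rank
import Pool.Agent.Lib.MP_651af7_nt.Rt.Split
import Pool.Agent.Lib.MP_651af7_nt.Vj.Red
import Pool.Agent.Lib.MP_651af7_nt.Vj.Sieg

/-! Construction of the auxiliary section. -/

namespace Pool.Agent.Lib.MP_651af7_nt.Rt

open Finset Height NumberField Pool.Agent.Lib.MP_e97e2b_nt Pool.Agent.Lib.MP_651af7_nt.Iv
  Pool.Agent.Lib.MP_651af7_nt.Vj Pool.Agent.Lib.MP_651af7_nt.Vj.P1 Pool.Agent.Lib.Common.Subspace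
open Pool.Agent.Lib.MP_8865d3_nt.Fa (Small Adm wt)

section aux

open MvPolynomial

/-- The bounds for the exponents of a reduced polynomial. -/
def secBd (D n : ℕ) : Fin 3 ⊕ Fin 3 → ℕ := Sum.elim ![1, D + 1, n] fun _ => 2

theorem sec_box (D n : ℕ) : ∃ Mon : Finset (Fin 3 ⊕ Fin 3 →₀ ℕ), Mon.card = 8 * (D + 1) * n ∧
    ∀ ν : Fin 3 ⊕ Fin 3 →₀ ℕ, (∀ s, ν s < secBd D n s) → ν ∈ Mon := by
  obtain ⟨Mon, h1, h2⟩ := exists_box fun s => range (secBd D n s)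
  refine ⟨Mon, ?_, fun ν hν => (h2 ν).2 fun s => mem_range.2 (hν s)⟩
  rw [h1, Fintype.prod_sum_type]
  simp [secBd, Fin.prod_univ_three]
  ring

theorem sec_reduce (a b : ℤ) {n : ℕ} (hn : 1 ≤ n) {Λ : ℝ} (hΛ : 1 ≤ Λ)
    {ψ : MvPolynomial (Fin 3 ⊕ Fin 3) ℚ} (hψ : IL ψ Λ)
    (hψs : ∀ μ ∈ ψ.support, μ (.inl 2) < n ∧ ∀ r, r ≠ .inl 2 → μ r = 0)
    {P : MvPolynomial (Fin 3 ⊕ Fin 3) ℚ} {T : ℝ} (hP : IL P T) {D1 D2 : ℕ} (h0 : WD (wt 0) P 0)
    (h1 : WD (wt 1) P D1) (h2 : WD (wt 2) P D2) :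
    ∃ q : MvPolynomial (Fin 3 ⊕ Fin 3) ℚ,
      IL q (Λ ^ D2 * ((1 + |(a : ℝ)| + |(b : ℝ)|) ^ (D1 + D2) * T)) ∧
      (∀ ν ∈ q.support, ∀ s, ν s < secBd D1 n s) ∧
      ∀ (F : Type) [Field F] [CharZero F] (u w θ η : F), w ^ 2 = fc (a : F) b u →
        η ^ 2 = fc (a : F) b θ →
        aeval (Sum.elim ![0, u, θ] ![0, w, η]) (1 * X (.inl 2) ^ n + ψ) = 0 →
        aeval (Sum.elim ![0, u, θ] ![0, w, η]) q = aeval (Sum.elim ![0, u, θ] ![0, w, η]) P := by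
  have ha := abs_nonneg (a : ℝ)
  have hb := abs_nonneg (b : ℝ)
  obtain ⟨P', k1, k2, k3⟩ := Pool.Agent.Lib.MP_8865d3_nt.Fa.exists_red ![0, a, a] ![0, b, b]
    (Λ := 1 + |(a : ℝ)| + |(b : ℝ)|) (by linarith)
    (fun p => by fin_cases p <;> simp <;> linarith) hP ![0, D1, D2]
    (fun p => by fin_cases p <;> simpa)
  have hone : ∀ κ ∈ (1 : MvPolynomial (Fin 3 ⊕ Fin 3) ℚ).support, ∀ s, κ s = 0 := by
    intro κ hκ s
    have h : κ = 0 := mem_singleton.1 (support_monomial_subset (s := 0) (a := (1 : ℚ)) hκ)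
    rw [h]
    rfl
  obtain ⟨π, hπ⟩ := red (Sum.inl 2 : Fin 3 ⊕ Fin 3) hn hΛ (il_one.mono hΛ) hψ
    (fun κ hκ => hone κ hκ _) (fun μ hμ => (hψs μ hμ).1) D2
  obtain ⟨l1, l2, l3⟩ := hπ P' fun μ hμ => (k2 μ hμ 2).1
  refine ⟨π P', ?_, fun ν hν s => ?_, fun F _ _ u w θ η hw hη hz => ?_⟩
  · have := l2 _ k1
    rwa [Fin.sum_univ_three, show (![0, D1, D2] : Fin 3 → ℕ) 0 + (![0, D1, D2] : Fin 3 → ℕ) 1 +
      (![0, D1, D2] : Fin 3 → ℕ) 2 = D1 + D2 by simp] at this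
  · obtain ⟨m1, μ, hμ, -, m2⟩ := l3 ν hν
    by_cases hs : s = Sum.inl 2
    · rw [hs]
      exact m1
    · rw [m2 s hs (fun κ hκ => hone κ hκ _) fun κ hκ => (hψs κ hκ).2 s hs]
      rcases s with p | p
      · have := (k2 μ hμ p).1
        fin_cases p
        · exact Nat.lt_succ_of_le this
        · exact Nat.lt_succ_of_le this
        · exact absurd rfl hs
      · exact Nat.lt_succ_of_le (k2 μ hμ p).2
  · rw [← k3 F ![0, u, θ] ![0, w, η] fun p => by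
      fin_cases p
      · simp [Pool.Agent.Lib.MP_8865d3_nt.Fa.OnE]
      · exact hw
      · exact hη]
    obtain ⟨r, hr⟩ := l1
    have := congrArg (aeval (Sum.elim ![0, u, θ] ![0, w, η])) hr
    rw [map_mul (aeval _) _ r, hz, zero_mul, one_pow, one_mul, map_sub, sub_eq_zero] at this
    exact this.symm

theorem sec_card (d : ℕ) {m : ℕ} (j e : Fin m → ℕ) :
    Fintype.card (Col (fun i => TA d (j i)) e) = ∏ i, (2 * (d + 1) * 4 ^ j i * (e i + 1)) := by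
  rw [Fintype.card_pi]
  refine prod_congr rfl fun i _ => ?_
  simp only [Fintype.card_prod, Fintype.card_fin]
  ring

theorem sec_card_le (d : ℕ) {m : ℕ} (j e : Fin m → ℕ) :
    ∏ i, (2 * (d + 1) * 4 ^ j i * (e i + 1)) ≤ (4 * (d + 1)) ^ ∑ i, (4 ^ j i + e i) := by
  rw [← prod_pow_eq_pow_sum]
  refine prod_le_prod' fun i _ => ?_
  have h1 : 1 ≤ 4 ^ j i := Nat.one_le_pow _ _ (by norm_num)
  have h2 : 2 * (d + 1) ≤ (2 * (d + 1)) ^ 4 ^ j i := Nat.le_self_pow (by omega) _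
  have h3 : 4 ^ j i ≤ 2 ^ 4 ^ j i := Nat.lt_two_pow_self.le
  have h4 : e i + 1 ≤ (4 * (d + 1)) ^ e i :=
    le_trans Nat.lt_two_pow_self (Nat.pow_le_pow_left (by omega) _)
  calc _ ≤ (2 * (d + 1)) ^ 4 ^ j i * 2 ^ 4 ^ j i * (4 * (d + 1)) ^ e i := by gcongr
    _ = _ := by rw [← mul_pow, pow_add]; congr 2; ring

theorem sec_size {Λ Λ' C : ℝ} (hΛ : 1 ≤ Λ) (hΛ' : 1 ≤ Λ') (hC : 1 ≤ C) (κ d : ℕ) {m : ℕ}
    (j e : Fin m → ℕ) :
    Λ ^ (∑ i, (κ * e i + 2)) * (Λ' ^ ((2 * d + 2) * m + ∑ i, (κ * e i + 2)) *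
      ∏ i, C ^ (4 ^ j i + e i)) ≤
      (Λ ^ (κ + 2) * (Λ' ^ (2 * d + 2 + (κ + 2)) * C)) ^ ∑ i, (4 ^ j i + e i) := by
  have h1 : ∀ i, 1 ≤ 4 ^ j i := fun i => Nat.one_le_pow _ _ (by norm_num)
  have h2 : ∑ i, (κ * e i + 2) ≤ (κ + 2) * ∑ i, (4 ^ j i + e i) := by
    rw [mul_sum]
    refine sum_le_sum fun i _ => ?_
    have := h1 i
    nlinarith [Nat.zero_le κ, Nat.zero_le (e i), Nat.zero_le (κ * 4 ^ j i)]
  have h3 : m ≤ ∑ i, (4 ^ j i + e i) := by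
    calc m = ∑ _i : Fin m, 1 := by simp
      _ ≤ _ := sum_le_sum fun i _ => (h1 i).trans (Nat.le_add_right _ _)
  rw [prod_pow_eq_pow_sum, mul_pow, mul_pow, ← pow_mul, ← pow_mul]
  have h4 : (2 * d + 2) * m + ∑ i, (κ * e i + 2) ≤
      (2 * d + 2 + (κ + 2)) * ∑ i, (4 ^ j i + e i) := by
    rw [add_mul (2 * d + 2)]
    exact add_le_add (Nat.mul_le_mul_left _ h3) h2
  have h5 : 0 ≤ C := zero_le_one.trans hC
  have h6 : 0 ≤ Λ' := zero_le_one.trans hΛ'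
  have h7 : 0 ≤ Λ := zero_le_one.trans hΛ
  gcongr

theorem sec_field {K : Type} [Field K] [NumberField K] {J : Type} [Fintype J] {a b : ℤ}
    (hD : 4 * a ^ 3 + 27 * b ^ 2 ≠ 0) (A B : J → MvPolynomial (Fin 2) K) :
    ∃ κ : ℕ, ∀ d : ℕ, ∃ C : ℝ, 1 ≤ C ∧ ∀ (m : ℕ) (j e : Fin m → ℕ) (Lw : Finset (Ix e)),
      2 * (Fintype.card J * Lw.card * (∏ i, rk κ d (j i) (e i)) * (8 * ((2 * d + 2) * m + 1) * κ)) ≤
        ∏ i, (2 * (d + 1) * 4 ^ j i * (e i + 1)) →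
      ∀ (F : Type) [Field F] [CharZero F] [IsAlgClosed F] [Algebra K F]
        (x y : Option (Fin m) → F), (∀ p, y p ^ 2 = fc (a : F) b (x p)) →
        ∃ c : Col (fun i => TA d (j i)) e → ℤ, c ≠ 0 ∧
          (∀ τ, |(c τ : ℝ)| ≤ C ^ (∑ i, (4 ^ j i + e i))) ∧ ∀ p, ∀ β ∈ Lw,
            GB e c (fA a b d j (fun _ => false) x y)
              (fun i => MvPolynomial.aeval ![x (some i), y (some i)] (A p))
              (fun i => MvPolynomial.aeval ![x (some i), y (some i)] (B p)) β = 0 := by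
  classical
  obtain ⟨θ, n, κ, Λ, D, ψ, g', hn, hnκ, hΛ, hD0, hψ, hψs, hg, hev⟩ :=
    exists_theta K (Sum.elim A B)
  refine ⟨κ, fun d => ?_⟩
  obtain ⟨C₁, hC₁, hcol⟩ := exists_col a b d κ hΛ
  have hcol' := fun (p : J) (j e β : ℕ) (τ : TA d j × Fin (e + 1)) =>
    hcol (g' (.inl p)) (g' (.inr p)) (hg _).1 (hg _).1 (hg _).2.1 (hg _).2.1 (hg _).2.2.1
      (hg _).2.2.1 (hg _).2.2.2 (hg _).2.2.2 j e τ.2 β τ.1 (Nat.lt_succ_iff.1 τ.2.2)
  choose ρ s hρ hρs using hcol'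
  have hΛ' : (1 : ℝ) ≤ 1 + |(a : ℝ)| + |(b : ℝ)| := by
    linarith [abs_nonneg (a : ℝ), abs_nonneg (b : ℝ)]
  have hC₂ : (1 : ℝ) ≤ Λ ^ (κ + 2) * ((1 + |(a : ℝ)| + |(b : ℝ)|) ^ (2 * d + 2 + (κ + 2)) * C₁) :=
    one_le_mul_of_one_le_of_one_le (one_le_pow₀ hΛ)
      (one_le_mul_of_one_le_of_one_le (one_le_pow₀ hΛ') hC₁)
  have hd : (1 : ℝ) ≤ ((4 * (d + 1) : ℕ) : ℝ) := by exact_mod_cast (by omega : 1 ≤ 4 * (d + 1))
  refine ⟨_, one_le_mul_of_one_le_of_one_le hd hC₂, fun m j e Lw hcard F _ _ _ _ x y hxy => ?_⟩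
  obtain ⟨η, hη⟩ := IsAlgClosed.exists_pow_nat_eq (fc (a : F) b (algebraMap K F θ)) two_pos
  have hup : ∀ (u v X : F), Function.update ![X, u, v] 0 0 = ![0, u, v] := fun u v X => by
    funext p
    fin_cases p <;> simp
  have hcv : ∀ X Y : F, Y ^ 2 = fc (a : F) b X → ∀ p : Fin 3,
      ![Y, y none, η] p ^ 2 = fc (a : F) b (![X, x none, algebraMap K F θ] p) := fun X Y h p => by
    fin_cases p
    · exact h
    · exact hxy none
    · exact hη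
  have hF := fun p j e β τ (X Y : F) (h : Y ^ 2 = fc (a : F) b X) =>
    hρs p j e β τ F ![X, x none, algebraMap K F θ] ![Y, y none, η] (hcv X Y h)
  simp only [hup] at hF
  set z₀ : Fin 3 ⊕ Fin 3 → F := Sum.elim ![0, x none, algebraMap K F θ] ![0, y none, η] with hz₀
  have hrk : ∀ (p : J) (j e β : ℕ), ∃ g : Fin (rk κ d j e) → MM ((2 * d + 1) * 4 ^ j + 2 + κ * e),
      ∀ μ, ∃ c : Fin (rk κ d j e) → F, ∀ τ, aeval z₀ (ρ p j e β τ μ) =
        ∑ k, c k * aeval z₀ (ρ p j e β τ (g k)) := fun p j e β =>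
    rank_arm hD (hxy none) d j (4 ^ j + 1 + κ * e) _ (fun τ : TA d j × Fin (e + 1) => τ.1.1.1)
      (fun τ => Nat.lt_succ_iff.1 τ.1.1.1.2) (fun τ μ => aeval z₀ (s p j e β τ μ))
      (fun τ μ => aeval z₀ (ρ p j e β τ μ)) fun τ X Y h => by
        obtain ⟨h1, h2⟩ := hF p j e β τ X Y h
        simp only [Matrix.cons_val_zero, Matrix.cons_val_one] at h1 h2
        rw [h1, h2, arm]
        ring
  choose g hgk using hrk
  obtain ⟨Mon, hMon, hMon'⟩ := sec_box ((2 * d + 2) * m) n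
  have hq := fun (τ : Col (fun i => TA d (j i)) e)
      (r : J × Lw × ∀ i, Fin (rk κ d (j i) (e i))) =>
    sec_reduce a b hn hΛ hψ hψs
      (P := ∏ i, ρ r.1 (j i) (e i) (r.2.1.1 i) (τ i) (g r.1 (j i) (e i) (r.2.1.1 i) (r.2.2 i)))
      (il_prod _ fun i _ => (hρ _ _ _ _ _ _).1) (D1 := (2 * d + 2) * m)
      (D2 := ∑ i, (κ * e i + 2))
      ((wd_prod _ fun i _ => (hρ _ _ _ _ _ _).2.1).mono (by simp))
      ((wd_prod _ fun i _ => (hρ _ _ _ _ _ _).2.2.1).mono (by simp [mul_comm]))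
      (wd_prod _ fun i _ => (hρ _ _ _ _ _ _).2.2.2)
  choose q hq1 hq2 hq3 using hq
  obtain ⟨c, hc0, hc1, hc2⟩ := sieg q Mon (fun τ r ν hν => hMon' ν (hq2 τ r ν hν))
    (one_le_pow₀ hC₂ (n := ∑ i, (4 ^ j i + e i)))
    (fun τ r => (hq1 τ r).mono (sec_size hΛ hΛ' hC₁ κ d j e))
    (by
      rw [sec_card, hMon, Fintype.card_prod, Fintype.card_prod, Fintype.card_coe, Fintype.card_pi]
      simp only [Fintype.card_fin]
      refine le_trans ?_ hcard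
      rw [← mul_assoc (Fintype.card J)]
      gcongr)
    (by
      rw [sec_card]
      exact prod_pos fun i _ => by positivity)
  refine ⟨c, hc0, fun τ => (hc2 τ).trans ?_, fun p β hβ => ?_⟩
  · rw [mul_pow ((4 * (d + 1) : ℕ) : ℝ)]
    refine mul_le_mul_of_nonneg_right ?_ (pow_nonneg (zero_le_one.trans hC₂) _)
    rw [sec_card]
    exact_mod_cast sec_card_le d j e
  have hz := (hev F z₀ rfl).1
  have h1 : ∀ k : ∀ i, Fin (rk κ d (j i) (e i)), ∑ τ, (c τ : F) *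
      ∏ i, aeval z₀ (ρ p (j i) (e i) (β i) (τ i) (g p (j i) (e i) (β i) (k i))) = 0 := by
    intro k
    have h2 := congrArg (aeval z₀) (hc1 (p, ⟨β, hβ⟩, k))
    rw [map_sum, map_zero] at h2
    rw [← h2]
    refine sum_congr rfl fun τ _ => ?_
    rw [map_zsmul, zsmul_eq_mul, hq3 τ _ F _ _ _ _ (hxy none) hη hz, map_prod]
  have h2 := tens_rows (fun i τ μ => aeval z₀ (ρ p (j i) (e i) (β i) τ μ))
    (fun i => g p (j i) (e i) (β i)) (fun i μ => hgk p (j i) (e i) (β i) μ)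
    (fun τ => (c τ : F)) h1
  have h3 : GB e c (fA a b d j (fun _ => false) x y)
      (fun i => (D : F) * MvPolynomial.aeval ![x (some i), y (some i)] (A p))
      (fun i => (D : F) * MvPolynomial.aeval ![x (some i), y (some i)] (B p)) β = 0 := by
    have h4 : ∀ (τ : Col (fun i => TA d (j i)) e) (i : Fin m),
        fA a b d j (fun _ => false) x y i (τ i).1 * cf (e i) (τ i).2 (β i)
          ((D : F) * MvPolynomial.aeval ![x (some i), y (some i)] (A p))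
          ((D : F) * MvPolynomial.aeval ![x (some i), y (some i)] (B p)) =
        ∑ μ, aeval z₀ (ρ p (j i) (e i) (β i) (τ i) μ) * mon (x (some i)) (y (some i)) μ := by
      intro τ i
      have h5 := (hF p (j i) (e i) (β i) (τ i) _ _ (hxy (some i))).1
      have h6 := (hev F (Sum.elim ![x (some i), x none, algebraMap K F θ]
        ![y (some i), y none, η]) rfl).2
      rw [h6, h6] at h5
      exact h5.symm
    unfold GB
    simp only [h4, prod_univ_sum, Fintype.piFinset_univ, mul_sum, prod_mul_distrib]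
    rw [sum_comm]
    refine sum_eq_zero fun μ _ => ?_
    simp only [← mul_assoc]
    rw [← sum_mul, h2 μ, zero_mul]
  rw [GB_smul] at h3
  refine (mul_eq_zero.1 h3).resolve_left (prod_ne_zero_iff.2 fun i _ => pow_ne_zero _ ?_)
  exact_mod_cast hD0

end aux

/- `exists_theta` for the family `A ⊕ B` gives `θ, n, κ, Λ, D, ψ, A', B'`.  Let
`F = AlgebraicClosure (FractionRing R)` (an algebra over `K` through `R`, characteristic zero, the map
`R → F` is injective), `u, w` the images of `x none, y none`, `η` with `η ^ 2 = fc a b θ` in `F`,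
`z₀ = Sum.elim ![0, u, θ] ![0, w, η]`.  For `i, p, β i, τ` take `ρ, s` from `exists_col`; `rank_arm`
(with `T = TA d (j i) × Fin (e i + 1)`, the arrays `aeval z₀ (ρ τ μ)`, `aeval z₀ (s τ μ)`) gives rows
`g i p (β i) : Fin (rk κ d (j i) (e i)) → MM _`.  For each row `(p, β ∈ Lw, k)` and column `τ` reduce
`∏ i, ρ i .. (τ i) (g .. (k i))` by `Fa.exists_red` (`D = ![0, (2 d + 2) m, ∑ i, (κ e i + 2)]`) and by
`Vj.red` (`Vj/Red`, variable `inl 2`, `lc = 1`); the support lies in a box (`exists_box`) with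
`1 * ((2 d + 2) m + 1) * n * 2 * 2 * 2` elements.  `Vj.sieg` gives `c`.  Evaluate at `z₀`, `tens_rows`
gives the vanishing for all `μ`, hence (`Finset.prod_univ_sum`) `GB e c (fA ..) (D * A) (D * B) β = 0`
in `F`; `GB_smul`, `map_GB`, `map_fA`.  Sizes: `m ≤ ∑ i, 4 ^ j i`, `card (Col ..) ≤ C ^ ∑ i, (4 ^ j i + e i)`. -/
theorem exists_sec {K : Type} [Field K] [NumberField K] {J : Type} [Fintype J] {a b : ℤ}
    (hD : 4 * a ^ 3 + 27 * b ^ 2 ≠ 0) (A B : J → MvPolynomial (Fin 2) K) :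
    ∃ κ : ℕ, ∀ d : ℕ, ∃ C : ℝ, 1 ≤ C ∧ ∀ (m : ℕ) (j e : Fin m → ℕ) (Lw : Finset (Ix e)),
      2 * (Fintype.card J * Lw.card * (∏ i, rk κ d (j i) (e i)) * (8 * ((2 * d + 2) * m + 1) * κ)) ≤
        ∏ i, (2 * (d + 1) * 4 ^ j i * (e i + 1)) →
      ∀ (R : Type) [CommRing R] [IsDomain R] [Algebra K R] (x y : Option (Fin m) → R),
        (∀ p, y p ^ 2 = fc (a : R) b (x p)) →
        ∃ c : Col (fun i => TA d (j i)) e → ℤ, c ≠ 0 ∧
          (∀ τ, |(c τ : ℝ)| ≤ C ^ (∑ i, (4 ^ j i + e i))) ∧ ∀ p, ∀ β ∈ Lw,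
            GB e c (fA a b d j (fun _ => false) x y)
              (fun i => MvPolynomial.aeval ![x (some i), y (some i)] (A p))
              (fun i => MvPolynomial.aeval ![x (some i), y (some i)] (B p)) β = 0 := by
  obtain ⟨κ, hκ⟩ := sec_field hD A B
  refine ⟨κ, fun d => ?_⟩
  obtain ⟨C, hC, h⟩ := hκ d
  refine ⟨C, hC, fun m j e Lw hcard R _ _ _ x y hxy => ?_⟩
  let F := AlgebraicClosure (FractionRing R)
  have : CharZero F := charZero_of_injective_algebraMap (algebraMap K F).injective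
  let φ : R →ₐ[K] F := IsScalarTower.toAlgHom K R F
  have hφ : Function.Injective φ :=
    (algebraMap (FractionRing R) F).injective.comp (IsFractionRing.injective R (FractionRing R))
  obtain ⟨c, h0, h1, h2⟩ := h m j e Lw hcard F (fun p => φ (x p)) (fun p => φ (y p)) fun p => by
    have := congrArg (φ : R →+* F) (hxy p)
    rwa [map_pow, map_fc, map_intCast, map_intCast] at this
  refine ⟨c, h0, h1, fun p β hβ => hφ ?_⟩
  have h3 : ∀ (u v : R) (g : MvPolynomial (Fin 2) K),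
      (φ : R →+* F) (MvPolynomial.aeval ![u, v] g) = MvPolynomial.aeval ![φ u, φ v] g := by
    intro u v g
    have h4 : (fun i => φ (![u, v] i)) = ![φ u, φ v] := by
      funext i
      fin_cases i <;> rfl
    rw [← h4, ← MvPolynomial.comp_aeval_apply]
    rfl
  rw [map_zero, ← h2 p β hβ]
  refine (map_GB (φ : R →+* F) _ _ _ _ _).trans ?_
  simp only [map_fA, h3]
  rfl

end Pool.Agent.Lib.MP_651af7_nt.Rt
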