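import Pool.Agent.Lib.MP_651af7_nt.Rt.Defs

/-! Counting the indices of small weight; finitely many patterns. -/

namespace Pool.Agent.Lib.MP_651af7_nt.Rt

open Finset Height NumberField Pool.Agent.Lib.MP_e97e2b_nt Pool.Agent.Lib.MP_651af7_nt.Iv
  Pool.Agent.Lib.MP_651af7_nt.Vj Pool.Agent.Lib.MP_651af7_nt.Vj.P1 Pool.Agent.Lib.Common.Subspace
open Pool.Agent.Lib.MP_8865d3_nt.Fa (Small Adm wt)

lemma cher_sym (n : ℕ) (z : Fin (n + 1) → ℝ) (δ : ℝ) (habs : ∀ β, |z β| ≤ 1 / 2)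
    (hrev : ∀ β, z (Fin.revPerm β) = - z β) :
    ∑ β, Real.exp (2 * δ * z β) ≤ ((n : ℝ) + 1) * Real.exp (δ ^ 2 / 2) := by
  have h1 : ∑ β, Real.exp (2 * δ * z β) = ∑ β, Real.exp (-(2 * δ * z β)) := by
    rw [← Equiv.sum_comp Fin.revPerm]
    refine Finset.sum_congr rfl fun β _ => ?_
    rw [hrev]
    congr 1
    ring
  have h2 : ∑ β, Real.exp (2 * δ * z β) = ∑ β, Real.cosh (2 * δ * z β) := by
    simp only [Real.cosh_eq]
    rw [← Finset.sum_div, Finset.sum_add_distrib, ← h1]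
    ring
  rw [h2]
  calc ∑ β, Real.cosh (2 * δ * z β) ≤ ∑ _β : Fin (n + 1), Real.exp (δ ^ 2 / 2) := by
        refine Finset.sum_le_sum fun β _ => (Real.cosh_le_exp_half_sq _).trans ?_
        refine Real.exp_le_exp.2 ?_
        have h3 : z β ^ 2 ≤ (1 / 2) ^ 2 := by
          rw [← sq_abs]
          exact pow_le_pow_left₀ (abs_nonneg _) (habs β) 2
        have h4 := mul_le_mul_of_nonneg_left h3 (sq_nonneg δ)
        have h5 : (2 * δ * z β) ^ 2 = 4 * (δ ^ 2 * z β ^ 2) := by ring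
        rw [h5]
        linarith
    _ = _ := by
        rw [Finset.sum_const, Finset.card_univ, Fintype.card_fin, nsmul_eq_mul]
        push_cast
        ring

/- Put `z i β = (e i / 2 - β) * w i / W`, so `|z| ≤ 1 / 2`, and `z i (rev β) = - z i β`.  On `Low`,
`δ m / 2 < ∑ i, z i (β i)`.  With `s = 2 δ`: `card Low * exp (s δ m / 2) ≤ ∑ β, ∏ i, exp (s z) =
∏ i, ∑ β, exp (s z)`, and by the symmetry (`Fin.revPerm`, `Equiv.sum_comp`)
`∑ β, exp (s z) = ∑ β, cosh (s z) ≤ (e i + 1) * exp (s ^ 2 / 8)` (`Real.cosh_le_exp_half_sq`). -/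
theorem card_low {m : ℕ} (e : Fin m → ℕ) (w : Fin m → ℝ) {W δ : ℝ} (hW : 0 < W) (hδ : 0 ≤ δ)
    (hw : ∀ i, 0 ≤ w i) (h1 : ∀ i, e i * w i ≤ W) (h2 : ∀ i, (1 - δ) * W ≤ e i * w i) :
    ((Low e w ((1 / 2 - δ) * m * W)).card : ℝ) ≤
      Real.exp (-(δ ^ 2 * m / 2)) * ∏ i, ((e i : ℝ) + 1) := by
  classical
  set z : ∀ i, Fin (e i + 1) → ℝ := fun i β => ((e i : ℝ) / 2 - (β : ℕ)) * w i / W with hz
  have habs : ∀ i β, |z i β| ≤ 1 / 2 := by
    intro i β
    have hb : ((β : ℕ) : ℝ) ≤ e i := by exact_mod_cast Nat.lt_succ_iff.1 β.2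
    have hb0 : (0 : ℝ) ≤ (β : ℕ) := Nat.cast_nonneg _
    have h3 : ((β : ℕ) : ℝ) * w i ≤ e i * w i := mul_le_mul_of_nonneg_right hb (hw i)
    have h4 : 0 ≤ ((β : ℕ) : ℝ) * w i := mul_nonneg hb0 (hw i)
    have h5 := h1 i
    rw [abs_le]
    constructor
    · simp only [hz]
      rw [le_div_iff₀ hW]
      linarith
    · simp only [hz]
      rw [div_le_iff₀ hW]
      linarith
  have hrev : ∀ i β, z i (Fin.revPerm β) = - z i β := by
    intro i β
    have hb : (β : ℕ) ≤ e i := Nat.lt_succ_iff.1 β.2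
    simp only [hz, Fin.revPerm_apply, Fin.val_rev]
    have : e i + 1 - ((β : ℕ) + 1) = e i - β := by omega
    rw [this, Nat.cast_sub hb]
    ring
  have hone : ∀ i, ∑ β, Real.exp (2 * δ * z i β) ≤ ((e i : ℝ) + 1) * Real.exp (δ ^ 2 / 2) :=
    fun i => cher_sym (e i) (z i) δ (habs i) (hrev i)
  have hlow : ∀ β ∈ Low e w ((1 / 2 - δ) * m * W),
      Real.exp (δ ^ 2 * m) ≤ ∏ i, Real.exp (2 * δ * z i (β i)) := by
    intro β hβ
    have hβ' : ∑ i, ((β i : ℕ) : ℝ) * w i < (1 / 2 - δ) * m * W := by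
      simpa [Low] using hβ
    have hs : (1 - δ) * W * m ≤ ∑ i, (e i : ℝ) * w i := by
      have := Finset.sum_le_sum (s := univ) fun i _ => h2 i
      simpa [mul_comm] using this
    have hsum : ∑ i, z i (β i) = ((∑ i, (e i : ℝ) * w i) / 2 - ∑ i, ((β i : ℕ) : ℝ) * w i) / W := by
      rw [Finset.sum_div, ← Finset.sum_sub_distrib, Finset.sum_div]
      refine Finset.sum_congr rfl fun i _ => ?_
      simp only [hz]
      ring
    have hge : δ * m / 2 ≤ ∑ i, z i (β i) := by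
      rw [hsum, le_div_iff₀ hW]
      linarith
    rw [← Real.exp_sum, ← Finset.mul_sum]
    refine Real.exp_le_exp.2 ?_
    have := mul_le_mul_of_nonneg_left hge (by linarith : (0 : ℝ) ≤ 2 * δ)
    linarith
  have hA : ((Low e w ((1 / 2 - δ) * m * W)).card : ℝ) * Real.exp (δ ^ 2 * m) ≤
      ∑ β : Ix e, ∏ i, Real.exp (2 * δ * z i (β i)) := by
    calc ((Low e w ((1 / 2 - δ) * m * W)).card : ℝ) * Real.exp (δ ^ 2 * m)
        = ∑ β ∈ Low e w ((1 / 2 - δ) * m * W), Real.exp (δ ^ 2 * m) := by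
          rw [Finset.sum_const, nsmul_eq_mul]
      _ ≤ ∑ β ∈ Low e w ((1 / 2 - δ) * m * W), ∏ i, Real.exp (2 * δ * z i (β i)) :=
          Finset.sum_le_sum hlow
      _ ≤ _ := Finset.sum_le_sum_of_subset_of_nonneg (Finset.subset_univ _)
          fun β _ _ => Finset.prod_nonneg fun i _ => (Real.exp_pos _).le
  have hB : ∑ β : Ix e, ∏ i, Real.exp (2 * δ * z i (β i)) =
      ∏ i, ∑ β, Real.exp (2 * δ * z i β) := by
    rw [Finset.prod_univ_sum, Fintype.piFinset_univ]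
  have hC : ∏ i, ∑ β, Real.exp (2 * δ * z i β) ≤
      (∏ i, ((e i : ℝ) + 1)) * Real.exp (δ ^ 2 * m / 2) := by
    calc ∏ i, ∑ β, Real.exp (2 * δ * z i β)
        ≤ ∏ i, (((e i : ℝ) + 1) * Real.exp (δ ^ 2 / 2)) :=
          Finset.prod_le_prod (fun i _ => Finset.sum_nonneg fun β _ => (Real.exp_pos _).le)
            fun i _ => hone i
      _ = _ := by
          rw [Finset.prod_mul_distrib, Finset.prod_const, Finset.card_univ, Fintype.card_fin,
            ← Real.exp_nat_mul]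
          congr 2
          ring
  have hD := hA.trans (hB.le.trans hC)
  have hE : Real.exp (-(δ ^ 2 * m / 2)) * Real.exp (δ ^ 2 * m) = Real.exp (δ ^ 2 * m / 2) := by
    rw [← Real.exp_add]
    congr 1
    ring
  refine le_of_mul_le_mul_right ?_ (Real.exp_pos (δ ^ 2 * m))
  calc _ ≤ _ := hD
    _ = _ := by rw [← hE]; ring

lemma cher_min {ι : Type} [Fintype ι] (μ lam : ι → ℝ) (hμ : ∀ p, 1 ≤ μ p) (h0 : ∀ p, 0 ≤ lam p)
    {c : ℝ} (hc : c ≤ ∑ p, μ p * lam p) (hc4 : c ≤ 4) : c ≤ ∑ p, μ p * min (lam p) 4 := by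
  by_cases h : ∀ p, lam p ≤ 4
  · refine hc.trans (le_of_eq (Finset.sum_congr rfl fun p _ => ?_))
    rw [min_eq_left (h p)]
  · obtain ⟨p, hp⟩ := not_forall.1 h
    have h1 : μ p * min (lam p) 4 ≤ ∑ q, μ q * min (lam q) 4 :=
      Finset.single_le_sum (f := fun q => μ q * min (lam q) 4)
        (fun q _ => mul_nonneg (zero_le_one.trans (hμ q)) (le_min (h0 q) (by norm_num)))
        (Finset.mem_univ p)
    rw [min_eq_right (not_le.1 hp).le] at h1
    have := hμ p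
    linarith

lemma cher_exp {x c : ℝ} (hx : 0 ≤ x) (hc : 0 < c) (h : c ≤ Real.log (max 1 x⁻¹)) :
    x ≤ Real.exp (-c) := by
  rcases le_total x⁻¹ 1 with h1 | h1
  · rw [max_eq_left h1, Real.log_one] at h
    linarith
  · rw [max_eq_right h1, Real.log_inv] at h
    rcases hx.eq_or_lt with h0 | h0
    · rw [← h0]
      exact (Real.exp_pos _).le
    · rw [← Real.exp_log h0]
      exact Real.exp_le_exp.2 (by linarith)

variable {K : Type} [Field K] [NumberField K]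

/- Let `M = ∑ p, mu p`, `σ = η / (2 * (M + 2))`, `λ p = log (max 1 (av p (l p))⁻¹) / H`,
`γ p = σ * ⌊min (λ p) 4 / σ⌋₊`, `ρ = σ * ⌈logHeight₁ t / (σ * H)⌉₊ ≤ 1 + σ`.  All these lie in the
image of `range N` under `k ↦ σ * k`; `Γ` is the set of good pairs with such coordinates
(`Fintype.piFinset`, `filter`).  As `1 ≤ mu p`, `∑ mu p * min (λ p) 4 ≥ min (∑ mu p * λ p) 4`. -/
theorem exists_pats (S : Finset (FinitePlace K)) {η : ℝ} (hη : 0 < η) (hη2 : η ≤ 2) :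
    ∃ Γ : Finset ((Pl S → ℝ) × ℝ), (∀ g ∈ Γ, Good (η / 2) g.1 g.2) ∧
      ∀ (H : ℝ) (t : K) (l : Pl S → K), 0 < H → logHeight₁ t ≤ H →
        2 * logHeight₁ t + η * H ≤ prx l → ∃ g ∈ Γ, Pat g.1 g.2 H t l := by
  classical
  set M : ℝ := ∑ p : Pl S, (mu p : ℝ) with hM
  have hM0 : 0 ≤ M := Finset.sum_nonneg fun p _ => Nat.cast_nonneg _
  set σ : ℝ := η / (2 * (M + 2)) with hσ
  have hσ0 : 0 < σ := by positivity
  have hσM : (M + 2) * σ = η / 2 := by
    rw [hσ]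
    field_simp
  have hσ1 : σ ≤ 1 / 2 := by
    have := mul_nonneg hM0 hσ0.le
    linarith
  set N : ℕ := ⌈4 / σ⌉₊ + 1 with hN
  set V : Finset ℝ := (range N).image fun k : ℕ => σ * k with hV
  have hmem : ∀ k : ℕ, σ * k ≤ 4 → σ * k ∈ V := by
    intro k hk
    refine Finset.mem_image.2 ⟨k, Finset.mem_range.2 ?_, rfl⟩
    have h1 : (k : ℝ) ≤ 4 / σ := by
      rw [le_div_iff₀ hσ0]
      linarith
    have h2 : (k : ℝ) ≤ (⌈4 / σ⌉₊ : ℕ) := h1.trans (Nat.le_ceil _)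
    have h3 : k ≤ ⌈4 / σ⌉₊ := by exact_mod_cast h2
    omega
  refine ⟨((Fintype.piFinset fun _ : Pl S => V) ×ˢ V).filter fun g => Good (η / 2) g.1 g.2,
    fun g hg => (Finset.mem_filter.1 hg).2, ?_⟩
  intro H t l hH htH hprx
  have ht0 : 0 ≤ logHeight₁ t := zero_le_logHeight₁ _
  set lam : Pl S → ℝ := fun p => Real.log (max 1 (av p (l p))⁻¹) / H with hlam
  have hlam0 : ∀ p, 0 ≤ lam p := fun p =>
    div_nonneg (Real.log_nonneg (le_max_left _ _)) hH.le
  have hmin0 : ∀ p, 0 ≤ min (lam p) 4 := fun p => le_min (hlam0 p) (by norm_num)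
  set γ : Pl S → ℝ := fun p => σ * (⌊min (lam p) 4 / σ⌋₊ : ℕ) with hγ
  set u : ℝ := logHeight₁ t / H with hu
  have hu0 : 0 ≤ u := div_nonneg ht0 hH.le
  have hu1 : u ≤ 1 := (div_le_one hH).2 htH
  set ρ : ℝ := σ * (⌈u / σ⌉₊ : ℕ) with hρ
  have hγle : ∀ p, γ p ≤ min (lam p) 4 := by
    intro p
    have := Nat.floor_le (div_nonneg (hmin0 p) hσ0.le)
    rw [le_div_iff₀ hσ0] at this
    simp only [hγ]
    linarith
  have hγge : ∀ p, min (lam p) 4 - σ ≤ γ p := by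
    intro p
    have := (Nat.lt_floor_add_one (min (lam p) 4 / σ)).le
    rw [div_le_iff₀ hσ0] at this
    simp only [hγ]
    linarith
  have hγ0 : ∀ p, 0 ≤ γ p := fun p => mul_nonneg hσ0.le (Nat.cast_nonneg _)
  have hρge : u ≤ ρ := by
    have := Nat.le_ceil (u / σ)
    rw [div_le_iff₀ hσ0] at this
    simp only [hρ]
    linarith
  have hρle : ρ ≤ u + σ := by
    have := (Nat.ceil_lt_add_one (div_nonneg hu0 hσ0.le)).le
    have h2 := mul_le_mul_of_nonneg_left this hσ0.le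
    have h3 : σ * (u / σ + 1) = u + σ := by field_simp
    simp only [hρ]
    linarith
  have hsum : 2 * u + η ≤ ∑ p, (mu p : ℝ) * lam p := by
    have h1 : ∑ p, (mu p : ℝ) * lam p = prx l / H := by
      rw [prx, Finset.sum_div]
      refine Finset.sum_congr rfl fun p _ => ?_
      simp only [hlam]
      ring
    rw [h1, le_div_iff₀ hH]
    have h2 : u * H = logHeight₁ t := by
      rw [hu]
      field_simp
    have h3 : (2 * u + η) * H = 2 * (u * H) + η * H := by ring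
    rw [h3, h2]
    exact hprx
  have hsum2 : 2 * u + η ≤ ∑ p, (mu p : ℝ) * min (lam p) 4 :=
    cher_min (fun p => (mu p : ℝ)) lam (fun p => by exact_mod_cast one_le_mu p) hlam0 hsum
      (by linarith)
  have hbig : 2 * ρ + η / 2 ≤ ∑ p, (mu p : ℝ) * γ p := by
    have h1 : ∑ p, (mu p : ℝ) * (min (lam p) 4 - σ) ≤ ∑ p, (mu p : ℝ) * γ p :=
      Finset.sum_le_sum fun p _ => mul_le_mul_of_nonneg_left (hγge p) (Nat.cast_nonneg _)
    have h2 : ∑ p, (mu p : ℝ) * (min (lam p) 4 - σ) =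
        ∑ p, (mu p : ℝ) * min (lam p) 4 - M * σ := by
      rw [hM, Finset.sum_mul, ← Finset.sum_sub_distrib]
      refine Finset.sum_congr rfl fun p _ => ?_
      ring
    linarith
  refine ⟨(γ, ρ), Finset.mem_filter.2 ⟨Finset.mem_product.2 ⟨?_, ?_⟩, ?_⟩, ?_, ?_⟩
  · exact Fintype.mem_piFinset.2 fun p => hmem _ ((hγle p).trans (min_le_right _ _))
  · exact hmem _ (by linarith)
  · exact ⟨hγ0, fun p => (hγle p).trans (min_le_right _ _), hu0.trans hρge, by linarith, hbig⟩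
  · have := (div_le_iff₀ hH).1 hρge
    exact this
  · intro p
    rcases (hγ0 p).eq_or_lt with h | h
    · exact Or.inl h.symm
    · refine Or.inr ?_
      have h1 : γ p ≤ lam p := (hγle p).trans (min_le_left _ _)
      have h2 : γ p * H ≤ Real.log (max 1 (av p (l p))⁻¹) := (le_div_iff₀ hH).1 h1
      exact cher_exp (apply_nonneg _ _) (mul_pos h hH) h2

/- Some `γ p` is at least the mean. -/
theorem Good.exists_pos {S : Finset (FinitePlace K)} {η : ℝ} (hη : 0 < η) {γ : Pl S → ℝ} {ρ : ℝ}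
    (h : Good η γ ρ) : ∃ p, 0 < γ p := by
  by_contra hn
  have h0 : ∀ p, γ p = 0 := fun p =>
    le_antisymm (not_lt.1 fun hp => hn ⟨p, hp⟩) (h.nonneg p)
  have h1 := h.big
  have h2 := h.rho_nonneg
  simp only [h0, mul_zero, Finset.sum_const_zero] at h1
  linarith

end Pool.Agent.Lib.MP_651af7_nt.Rt
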