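import Pool.Agent.Lib.MP_651af7_nt.Rt.Core
import Pool.Agent.Lib.MP_651af7_nt.Rt.Cher
import Pool.Agent.Lib.MP_651af7_nt.VjP1

/-! Among well spaced, nearly proportional bad points one lies on a small curve. -/

namespace Pool.Agent.Lib.MP_651af7_nt.Rt

open Finset Height NumberField Pool.Agent.Lib.MP_e97e2b_nt Pool.Agent.Lib.MP_651af7_nt.Iv
  Pool.Agent.Lib.MP_651af7_nt.Vj Pool.Agent.Lib.MP_651af7_nt.Vj.P1 Pool.Agent.Lib.Common.Subspace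
open Pool.Agent.Lib.MP_8865d3_nt.Fa (Small Adm wt)

variable {K : Type} [Field K] [NumberField K] {S : Finset (FinitePlace K)} {a b : ℤ}

/- The counting condition.  `rk κ d j e ≤ 2 * (d + 1) * 4 ^ j * exp (δ ^ 2 / 4)` when
`e ≤ n' * 4 ^ j` and `9 + 2 κ n' ≤ δ ^ 2 / 4 * (d + 1)`. -/
theorem count_ok {m κ d N : ℕ} {δ n' : ℝ} (j e : Fin m → ℕ) (hn : 0 ≤ n')
    (he : ∀ i, (e i : ℝ) ≤ n' * 4 ^ j i) (hd : 9 + 2 * κ * n' ≤ δ ^ 2 / 4 * (d + 1))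
    (hm : 2 * N * (8 * ((2 * d + 2) * m + 1) * κ) ≤ Real.exp (δ ^ 2 * m / 4)) {Lw : ℕ}
    (hL : (Lw : ℝ) ≤ Real.exp (-(δ ^ 2 * m / 2)) * ∏ i, ((e i : ℝ) + 1)) :
    2 * (N * Lw * (∏ i, rk κ d (j i) (e i)) * (8 * ((2 * d + 2) * m + 1) * κ)) ≤
      ∏ i, (2 * (d + 1) * 4 ^ j i * (e i + 1)) := by
  have h1 : ∀ i, (rk κ d (j i) (e i) : ℝ) ≤ Real.exp (δ ^ 2 / 4) * (2 * (d + 1) * 4 ^ j i) := by
    intro i
    have e1 : (1 : ℝ) ≤ 4 ^ j i := one_le_pow₀ (by norm_num)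
    have e0 : (0 : ℝ) ≤ 4 ^ j i := by positivity
    have e2 := mul_le_mul_of_nonneg_left (he i) (show (0 : ℝ) ≤ 2 * κ by positivity)
    have e3 := mul_le_mul_of_nonneg_right hd e0
    have e4 := mul_le_mul_of_nonneg_right (Real.add_one_le_exp (δ ^ 2 / 4))
      (show (0 : ℝ) ≤ 2 * (d + 1) * 4 ^ j i by positivity)
    refine le_trans ?_ e4
    unfold rk
    push_cast
    linarith
  have h2 : ((∏ i, rk κ d (j i) (e i) : ℕ) : ℝ) ≤
      Real.exp (δ ^ 2 * m / 4) * ∏ i, (2 * (d + 1) * 4 ^ j i : ℝ) := by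
    rw [Nat.cast_prod]
    refine (prod_le_prod (fun i _ => by positivity) fun i _ => h1 i).trans_eq ?_
    rw [prod_mul_distrib, prod_const, card_univ, Fintype.card_fin, ← Real.exp_nat_mul]
    congr 2
    ring
  have h3 := mul_le_mul (mul_le_mul hm hL (by positivity) (by positivity)) h2 (by positivity)
    (by positivity)
  have h4 : Real.exp (δ ^ 2 * m / 4) * Real.exp (-(δ ^ 2 * m / 2)) * Real.exp (δ ^ 2 * m / 4) =
      1 := by
    rw [← Real.exp_add, ← Real.exp_add, ← Real.exp_zero]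
    congr 1
    ring
  have h5 : ((∏ i, (2 * (d + 1) * 4 ^ j i * (e i + 1)) : ℕ) : ℝ) =
      (∏ i, (2 * (d + 1) * 4 ^ j i : ℝ)) * ∏ i, ((e i : ℝ) + 1) := by
    rw [← prod_mul_distrib]
    push_cast
    rfl
  refine Nat.cast_le (α := ℝ).1 ?_
  rw [h5]
  generalize (∏ i, rk κ d (j i) (e i) : ℕ) = R at h3 ⊢
  push_cast
  refine le_trans (le_of_eq (by ring)) (h3.trans_eq ?_)
  linear_combination ((∏ i, (2 * (d + 1) * 4 ^ j i : ℝ)) * ∏ i, ((e i : ℝ) + 1)) * h4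

/-- The choice of the parameters. -/
theorem params (κ N : ℕ) {η δ₀ : ℝ} (hη : 0 < η) (hδ : 0 < δ₀) :
    ∃ (δ θ : ℝ) (n d m : ℕ), 0 < δ ∧ δ ≤ 1 / 2 ∧ δ * (4 + η) ≤ η / 4 ∧ 1 ≤ n ∧ 1 ≤ δ * n ∧
      128 ≤ η * n ∧ 9 + 2 * κ * (2 * n / δ₀) ≤ δ ^ 2 / 4 * (d + 1) ∧ 0 < m ∧
      2 * N * (8 * ((2 * d + 2) * m + 1) * κ) ≤ Real.exp (δ ^ 2 * m / 4) ∧ 0 < θ ∧ θ < 1 ∧
      32 * (d * θ) ≤ η * n := by
  obtain ⟨δ, hδ'⟩ : ∃ δ : ℝ, δ = η / (4 * (4 + η)) := ⟨_, rfl⟩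
  have δ0 : 0 < δ := by rw [hδ']; positivity
  have δ1 : δ * (4 + η) = η / 4 := by rw [hδ']; field_simp
  have δ2 : δ ≤ 1 / 2 := by
    rw [hδ', div_le_iff₀ (by positivity)]
    linarith
  obtain ⟨n, hn⟩ := exists_nat_ge (1 / δ + 128 / η + 1)
  have u1 : 0 < 1 / δ := by positivity
  have u2 : 0 < 128 / η := by positivity
  have n1 : (1 : ℝ) ≤ n := by linarith
  have n2 : 1 ≤ δ * n := (div_le_iff₀' δ0).1 (by linarith)
  have n3 : 128 ≤ η * n := (div_le_iff₀' hη).1 (by linarith)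
  obtain ⟨d, hd⟩ := exists_nat_ge ((9 + 2 * κ * (2 * n / δ₀)) / (δ ^ 2 / 4))
  have d1 : 9 + 2 * κ * (2 * n / δ₀) ≤ δ ^ 2 / 4 * (d + 1) :=
    (div_le_iff₀' (by positivity)).1 (by linarith)
  obtain ⟨m, hm⟩ := exists_nat_ge (512 * N * κ * (2 * d + 3) / δ ^ 4 + 1)
  have u3 : 0 ≤ 512 * N * κ * (2 * d + 3) / δ ^ 4 := by positivity
  have m1 : (1 : ℝ) ≤ m := by linarith
  have m2 : 512 * N * κ * (2 * d + 3) ≤ δ ^ 4 * m :=
    (div_le_iff₀' (by positivity)).1 (by linarith)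
  refine ⟨δ, 1 / (d + 2), n, d, m, δ0, δ2, δ1.le, by exact_mod_cast n1, n2, n3, d1,
    by exact_mod_cast (show (0 : ℝ) < m by linarith), ?_, by positivity, ?_, ?_⟩
  · have e1 := Real.quadratic_le_exp_of_nonneg (show 0 ≤ δ ^ 2 * m / 4 by positivity)
    have e2 := mul_le_mul_of_nonneg_right m2 (zero_le_one.trans m1)
    have e3 := mul_le_mul_of_nonneg_left m1 (show (0 : ℝ) ≤ N * κ by positivity)
    have e4 : 0 ≤ δ ^ 2 * m / 4 := by positivity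
    linarith
  · rw [div_lt_one (by positivity)]
    linarith [Nat.cast_nonneg (α := ℝ) d]
  · have : (d : ℝ) * (1 / (d + 2)) ≤ 1 := by
      rw [mul_one_div, div_le_one (by positivity)]
      linarith
    linarith

/-- The final contradiction. -/
theorem num_finalR {η δ ρ G W m S₁ S₂ S₃ E₂ E₄ E₅ : ℝ} (hη : 0 < η) (hδ : 0 < δ)
    (hδ1 : δ ≤ 1 / 2) (hδ2 : δ * (4 + η) ≤ η / 4) (hρ : ρ ≤ 2) (hG : 2 * ρ + η ≤ G)
    (hW : 0 < m * W) (h3 : S₃ ≤ ρ * (m * W)) (e1 : S₂ - S₁ + E₂ ≤ 3 * (η * (m * W) / 32))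
    (e4 : E₄ ≤ η * (m * W) / 32) (e5 : E₅ ≤ η * (m * W) / 32)
    (h : S₁ + (1 / 2 - δ) * m * W * G ≤ E₂ + S₂ + S₃ + E₄ + E₅) : False := by
  have a1 : 0 ≤ (1 / 2 - δ) * (m * W) := mul_nonneg (by linarith) hW.le
  have a2 := mul_le_mul_of_nonneg_left hG a1
  have a3 := mul_le_mul_of_nonneg_right hδ2 hW.le
  have a4 := mul_le_mul_of_nonneg_left hρ (mul_pos hδ hW).le
  have a5 := mul_pos hη hW
  rw [mul_assoc (1 / 2 - δ)] at h
  linarith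

/-- The choice of the lower bound for the heights. -/
theorem exists_H₀ {x y z : ℝ} (hx : 0 < x) (hy : 0 < y) (hz : 0 < z) (u v w : ℝ) :
    ∃ H₀ : ℝ, 0 < H₀ ∧ u ≤ x * H₀ ∧ v < y * H₀ ∧ w ≤ z * H₀ := by
  have u1 : 0 ≤ |u| / x := by positivity
  have u2 : 0 ≤ |v| / y := by positivity
  have u3 : 0 ≤ |w| / z := by positivity
  refine ⟨|u| / x + |v| / y + |w| / z + 1, by linarith, (le_abs_self u).trans ?_,
    (le_abs_self v).trans_lt ?_, (le_abs_self w).trans ?_⟩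
  · exact (div_le_iff₀' hx).1 (by linarith)
  · exact (div_lt_iff₀' hy).1 (by linarith)
  · exact (div_le_iff₀' hz).1 (by linarith)

/-- The contribution of one arm to the height inequality. -/
theorem arm_le {d θ η n C' Cp Ct F e x y Y s r u : ℝ} (hd : 0 ≤ d) (hθ : 0 ≤ θ) (hF : 1 ≤ F)
    (he : 0 ≤ e) (hC : C' = 2 * |Ct| + |Cp|) (h1 : -Cp ≤ s + r - 2 * (y + u))
    (h2 : -(Ct * F) ≤ u - F * x) (h3 : r ≤ θ * y) (h4 : F * x ≤ 2 * y) (h5 : x ≤ Y) (h6 : y ≤ Y)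
    (hY : 0 ≤ Y) (h7 : 128 ≤ η * n) (h8 : 32 * (d * θ) ≤ η * n) :
    ((2 * d + 1) * F + 2) * x + 2 * d * y - d * s ≤ 2 * (η * (n * Y) / 32) + d * C' * (F + e) := by
  have e6 := mul_le_mul_of_nonneg_right (le_abs_self Ct) (zero_le_one.trans hF)
  have e7 := mul_le_mul_of_nonneg_left hF (abs_nonneg Cp)
  have e8 : 2 * (F * x) + 2 * y - θ * y - C' * F ≤ s := by
    rw [hC]
    linarith [le_abs_self Cp]
  have e9 := mul_le_mul_of_nonneg_left e8 hd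
  have e10 := mul_le_mul_of_nonneg_right h7 hY
  have e11 := mul_le_mul_of_nonneg_right h8 hY
  have e12 := mul_le_mul_of_nonneg_left h6 (mul_nonneg hd hθ)
  have e13 : 0 ≤ d * C' * e := by rw [hC]; positivity
  linarith

/- As `phase1G` (`MP_8865d3_nt/GmP1`).  `κ` from `core_ineqR`; `δ ≤ 1 / 2` with
`δ (4 + η) ≤ η / 4`; `n ≥ 1 / δ`, `n ≥ 128 / η`; `n' = 2 n / δ₀`; `d` as in `count_ok`; `m ≥ 1` as in
`count_ok` (`exp x ≥ x ^ 2 / 2`); `θ < 1` with `d θ ≤ η n / 32`; `D = D₀ * HR Y`,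
`D₀ = 2 d m + (2 d + 1) * 2 / δ₀ + 2 + n`; the parameter of the zero lemma is `m n η / (32 κ D₀)`;
`s = η / (32 κ)`; `W = n * HR Y`, `e i = ⌊W / HR (X i)⌋₊`, `L = (1 / 2 - δ) m W`, `w = HR`;
`4 ^ j i * HR (X i) ≤ 2 / δ₀ * HR Y`; the parameter `ε` of the core is `min 1 (ε / (Bd + 1))`.
`nondeg`, `nondeg₂` (`VjP1`), `ht_par`, `ht_two_pow`, `card_low`.  In the first case the gain
`L (2 ρ + η) - ρ m W ≥ η m W / 4` exceeds the five errors, each at most `η m W / 32`. -/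
theorem phaseR (hD : 4 * a ^ 3 + 27 * b ^ 2 ≠ 0) (A B : Pl S → MvPolynomial (Fin 2) K)
    {η δ₀ : ℝ} (hη : 0 < η) (hδ : 0 < δ₀) {γ : Pl S → ℝ} {ρ : ℝ} (hg : Good η γ ρ) :
    ∃ (m Bd : ℕ) (θ lam s : ℝ), 0 < θ ∧ 0 < s ∧ ∀ ε : ℝ, 0 < ε → ∃ H₀ : ℝ,
      ∀ (X : Fin m → Pt (a : K) (b : K) × K) (Y : Pt (a : K) (b : K) × K) (j : Fin m → ℕ),
        (∀ i, H₀ ≤ HR (X i)) → H₀ ≤ HR Y → (∀ i i', i < i' → lam * HR (X i) ≤ HR (X i')) →
        (∀ i, lam * HR (X i) ≤ HR Y) → (∀ i, δ₀ * HR (X i) ≤ ht (X i).1) → δ₀ * HR Y ≤ ht Y.1 →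
        (∀ i, Pat γ ρ (HR (X i)) (X i).2 fun p => ell (A p) (B p) (X i)) →
        (∀ i p, γ p = 0 ∨ Sml (av p) (B p) (s * HR (X i)) (X i)) →
        (∀ i, CloseR θ (j i) (X i).1 Y.1) → (∃ i, SpecR Bd ε (X i)) ∨ SpecR Bd ε Y := by
  obtain ⟨κ, κ1, H⟩ := core_ineqR hD A B
  obtain ⟨δ, θ, n, d, m, δ0, δ1, δ2, n1, n2, n3, d1, m0, m1, θ0, θ1, θ2⟩ :=
    params κ (Fintype.card (Pl S)) hη hδ
  have hD' : 4 * (a : K) ^ 3 + 27 * (b : K) ^ 2 ≠ 0 := by exact_mod_cast hD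
  obtain ⟨Cp, hCp⟩ := ht_par hD'
  obtain ⟨Ct, hCt⟩ := ht_two_pow hD'
  have κ0 : (0 : ℝ) < κ := by exact_mod_cast κ1
  have n0 : (1 : ℝ) ≤ n := by exact_mod_cast n1
  have mR : (1 : ℝ) ≤ m := by exact_mod_cast m0
  have d0 : (0 : ℝ) ≤ d := Nat.cast_nonneg d
  obtain ⟨q, hq⟩ : ∃ q : ℝ, q = 2 / δ₀ := ⟨_, rfl⟩
  have q0 : 0 < q := by rw [hq]; positivity
  have q1 : δ₀ * q = 2 := by rw [hq]; field_simp
  have q2 : 2 * n / δ₀ = n * q := by rw [hq]; ring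
  rw [q2] at d1
  obtain ⟨D₀, hD₀⟩ : ∃ D₀ : ℝ, D₀ = 2 * d * m + (2 * d + 1) * q + 2 + n := ⟨_, rfl⟩
  have D2 : (0 : ℝ) ≤ 2 * d * m := by positivity
  have D3 : (0 : ℝ) ≤ (2 * d + 1) * q := by positivity
  have D1 : 1 ≤ D₀ := by linarith
  obtain ⟨Bd, ζ, C, hζ, hC, H⟩ := H m d (m * n * η / (32 * κ * D₀)) m0 (by positivity)
  refine ⟨m, Bd, θ, max 1 (1 / ζ), η / (32 * κ), θ0, by positivity, fun ε hε => ?_⟩
  obtain ⟨C', hC'⟩ : ∃ C' : ℝ, C' = 2 * |Ct| + |Cp| := ⟨_, rfl⟩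
  have C0 : 0 ≤ C' := by rw [hC']; positivity
  have C1 : Cp ≤ C' := by linarith [le_abs_self Cp, abs_nonneg Ct]
  obtain ⟨ε₀, hε₀⟩ : ∃ ε₀ : ℝ, ε₀ = min 1 (ε / (Bd + 1)) := ⟨_, rfl⟩
  have ε1 : 0 < ε₀ := by rw [hε₀]; positivity
  have ε2 : ε₀ ≤ 1 := hε₀ ▸ min_le_left _ _
  have ε3 : Bd * ε₀ ≤ ε := by
    have : ε₀ * (Bd + 1) ≤ ε := (le_div_iff₀ (by positivity)).1 (hε₀ ▸ min_le_right _ _)
    linarith
  obtain ⟨H₀, H1, H2, H3, H4⟩ := exists_H₀ ε1 hδ hη (C * (m * (q + n))) C'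
    (32 * ((C + d * C') * (q + n)))
  have H5 : C ≤ ε₀ * H₀ := by
    refine le_trans (le_mul_of_one_le_right (by linarith) ?_) H2
    exact one_le_mul_of_one_le_of_one_le mR (by linarith)
  refine ⟨H₀, fun X Y j h1 hY h2 h3 h4 h5 h6 h7 h8 => ?_⟩
  let Z : Option (Fin m) → Pt (a : K) (b : K) × K := fun o => o.elim Y X
  have r1 : ∀ {u v : ℝ}, 0 ≤ u → max 1 (1 / ζ) * u ≤ v → u ≤ v ∧ u ≤ ζ * v := fun {u v} hu h => by
    have e1 := mul_le_mul_of_nonneg_right (le_max_left 1 (1 / ζ)) hu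
    have e2 := mul_le_mul_of_nonneg_right (le_max_right 1 (1 / ζ)) hu
    refine ⟨by linarith, ?_⟩
    rw [← div_le_iff₀' hζ, div_eq_inv_mul, ← one_div]
    linarith
  have w1 : ∀ o, H₀ ≤ HR (Z o) := by
    rintro (_ | i)
    · exact hY
    · exact h1 i
  have w3 : ∀ o, δ₀ * HR (Z o) ≤ ht (Z o).1 := by
    rintro (_ | i)
    · exact h5
    · exact h4 i
  have w4 : ∀ o, Cp < ht (Z o).1 := fun o => by
    have := mul_le_mul_of_nonneg_left (w1 o) hδ.le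
    linarith [w3 o]
  have Y0 : 0 < HR Y := H1.trans_le hY
  have X0 : ∀ i, 0 < HR (X i) := fun i => H1.trans_le (h1 i)
  have XY : ∀ i, HR (X i) ≤ HR Y := fun i => (r1 (HR_nonneg _) (h3 i)).1
  have w8 : ∀ i, ht (Y.1 - 2 ^ j i • (X i).1) < ht Y.1 := fun i => by
    have := mul_lt_mul_of_pos_right θ1 ((mul_pos hδ Y0).trans_le h5)
    linarith [(h8 i).1]
  obtain ⟨e, he⟩ : ∃ e : Fin m → ℕ, e = fun i => ⌊n * HR Y / HR (X i)⌋₊ := ⟨_, rfl⟩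
  have W0 : 0 < n * HR Y := by positivity
  have f1 : ∀ i, e i * HR (X i) ≤ n * HR Y := fun i => by
    rw [he]
    exact (le_div_iff₀ (X0 i)).1 (Nat.floor_le (div_pos W0 (X0 i)).le)
  have f2 : ∀ i, (1 - δ) * (n * HR Y) ≤ e i * HR (X i) := fun i => by
    have e1 : n * HR Y < (e i + 1) * HR (X i) := by
      rw [he]
      exact (div_lt_iff₀ (X0 i)).1 (Nat.lt_floor_add_one _)
    have e2 := mul_le_mul_of_nonneg_right n2 Y0.le
    linarith [XY i]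
  have f3 : ∀ i, 4 ^ j i * HR (X i) ≤ q * HR Y := fun i => by
    have e1 := mul_le_mul_of_nonneg_left (h4 i) (show (0 : ℝ) ≤ 4 ^ j i by positivity)
    have e2 : δ₀ * (q * HR Y) = 2 * HR Y := by rw [← mul_assoc, q1]
    refine le_of_mul_le_mul_left ?_ hδ
    linarith [(h8 i).2.2, ht_le_HR Y]
  have f4 : ∀ i, (e i : ℝ) ≤ n * q * 4 ^ j i := fun i => by
    have e1 := mul_le_mul_of_nonneg_left (ht_le_HR (X i)) (show (0 : ℝ) ≤ 4 ^ j i by positivity)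
    have e2 : δ₀ * (q * (4 ^ j i * HR (X i))) = 2 * (4 ^ j i * HR (X i)) := by
      rw [← mul_assoc, q1]
    have e3 : HR Y ≤ q * (4 ^ j i * HR (X i)) := by
      refine le_of_mul_le_mul_left ?_ hδ
      linarith [(h8 i).2.1]
    have e4 := mul_le_mul_of_nonneg_left e3 (zero_le_one.trans n0)
    refine le_of_mul_le_mul_right ?_ (X0 i)
    linarith [f1 i]
  obtain ⟨T, hT⟩ : ∃ T : ℕ, T = ∑ i, (4 ^ j i + e i) := ⟨_, rfl⟩
  have hT' : (T : ℝ) = ∑ i, ((4 : ℝ) ^ j i + e i) := by rw [hT]; push_cast; rfl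
  have T1 : T * H₀ ≤ m * (q + n) * HR Y := by
    rw [hT', sum_mul]
    refine (sum_le_card_nsmul _ _ ((q + n) * HR Y) fun i _ => ?_).trans_eq (by simp; ring)
    have := mul_le_mul_of_nonneg_left (h1 i) (show (0 : ℝ) ≤ 4 ^ j i + e i by positivity)
    linarith [f1 i, f3 i]
  have sW : ∑ i, e i * HR (X i) ≤ m * (n * HR Y) :=
    (sum_le_card_nsmul _ _ (n * HR Y) fun i _ => f1 i).trans_eq (by simp)
  rcases H ε₀ (η / (32 * κ)) (D₀ * HR Y) ((1 / 2 - δ) * m * (n * HR Y)) j e Z (fun o => HR (Z o)) γ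
    ε1 ε2 (by positivity) (fun p => (nondeg hCp (w4 p)).1) (fun p => (nondeg hCp (w4 p)).2)
    (fun i => (nondeg₂ hCp (w4 none) (w8 i)).1) (fun i => (nondeg₂ hCp (w4 none) (w8 i)).2)
    (fun o => H5.trans (mul_le_mul_of_nonneg_left (w1 o) ε1.le)) (fun o => ht_le_HR _)
    (by
      rintro (_ | i) (_ | i') h
      · exact absurd rfl h
      · exact Or.inr (r1 (HR_nonneg _) (h3 i')).2
      · exact Or.inl (r1 (HR_nonneg _) (h3 i)).2
      · rcases lt_or_gt_of_ne (fun e => h (congrArg some e)) with h' | h'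
        · exact Or.inl (r1 (HR_nonneg _) (h2 _ _ h')).2
        · exact Or.inr (r1 (HR_nonneg _) (h2 _ _ h')).2)
    (by
      rintro (_ | i)
      · change HR Y * ((2 * d * m : ℕ) : ℝ) ≤ _
        rw [mul_comm]
        push_cast
        exact mul_le_mul_of_nonneg_right (by linarith) Y0.le
      · change HR (X i) * (((2 * d + 1) * 4 ^ j i + 2 + e i : ℕ) : ℝ) ≤ _
        have e1 := mul_le_mul_of_nonneg_left (f3 i) (show (0 : ℝ) ≤ 2 * d + 1 by positivity)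
        have e2 := mul_nonneg D2 Y0.le
        rw [hD₀]
        push_cast
        linarith [f1 i, XY i])
    (by
      rw [← hT]
      have e1 := mul_le_mul_of_nonneg_left T1 (show 0 ≤ C by linarith)
      have e2 := mul_le_mul_of_nonneg_right H2 Y0.le
      have e3 : C * T ≤ ε₀ * HR Y := le_of_mul_le_mul_right (by linarith) H1
      linarith [mul_le_mul_of_nonneg_right D1 (mul_pos ε1 Y0).le])
    (count_ok j e (by positivity) f4 d1 m1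
      (card_low e (fun i => HR (X i)) W0 δ0.le (fun i => (X0 i).le) f1 f2))
    (fun p => ⟨hg.nonneg p, hg.le p⟩)
    (fun p i => ((h6 i).2 p).elim Or.inl fun u => (h7 i p).imp id fun v => ⟨u, v⟩) with
    ⟨κ', k1, k2⟩ | ⟨o, g, q3, q4⟩
  · exfalso
    rw [← hT] at k2
    refine num_finalR hη δ0 δ1 δ2 hg.rho_le hg.big (mul_pos (by linarith) W0) ?_ ?_ ?_ ?_ k2
    · refine le_trans ?_ (mul_le_mul_of_nonneg_left sW hg.rho_nonneg)
      rw [mul_sum]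
      refine sum_le_sum fun i _ => ?_
      exact (mul_le_mul_of_nonneg_left (h6 i).1 (Nat.cast_nonneg (e i))).trans_eq (by ring)
    · have e1 := sum_le_sum fun i (_ : i ∈ univ) =>
        arm_le d0 θ0.le (one_le_pow₀ (by norm_num)) (Nat.cast_nonneg (e i)) hC'
          (abs_le.1 (hCp Y.1 (2 ^ j i • (X i).1))).1 (abs_le.1 (hCt (X i).1 (j i))).1 (h8 i).1
          (h8 i).2.2 ((ht_le_HR _).trans (XY i)) (ht_le_HR Y) Y0.le n3 θ2
      have e2 : (C + d * C') * T ≤ η * (m * (n * HR Y)) / 32 := by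
        have a1 := mul_le_mul_of_nonneg_left T1 (show 0 ≤ C + d * C' by positivity)
        have a2 := mul_le_mul_of_nonneg_right H4 (show 0 ≤ m * HR Y by positivity)
        have a3 := mul_le_mul_of_nonneg_right n0 (show 0 ≤ η * H₀ * (m * HR Y) by positivity)
        exact le_of_mul_le_mul_right (by linarith) H1
      rw [Fintype.sum_option]
      change ((2 * d * m : ℕ) : ℝ) * ht Y.1 +
        ∑ i, (((2 * d + 1) * 4 ^ j i + 2 : ℕ) : ℝ) * ht (X i).1 -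
        d * ∑ i, ht (2 ^ j i • (X i).1 + Y.1) + _ ≤ _
      rw [sum_sub_distrib, sum_add_distrib, sum_add_distrib, ← mul_sum, ← mul_sum, ← mul_sum,
        ← mul_sum, ← hT', sum_const, sum_const, card_univ, Fintype.card_fin, nsmul_eq_mul,
        nsmul_eq_mul] at e1
      simp only [add_comm Y.1] at e1
      push_cast
      linarith
    · have e1 := mul_le_mul_of_nonneg_left sW (show 0 ≤ η / 32 by positivity)
      have e2 : (κ : ℝ) * (η / (32 * κ)) = η / 32 := by field_simp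
      rw [← mul_assoc, e2]
      exact e1.trans_eq (by ring)
    · refine (mul_le_mul_of_nonneg_left k1.le κ0.le).trans_eq ?_
      field_simp
  · have e2 : SpecR Bd ε (Z o) :=
      ⟨g, q3.mono le_rfl (mul_le_mul_of_nonneg_right ε3 (HR_nonneg _)), q4⟩
    rcases o with _ | i
    · exact Or.inr e2
    · exact Or.inl ⟨i, e2⟩

end Pool.Agent.Lib.MP_651af7_nt.Rt
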