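import Pool.Agent.Lib.MP_651af7_nt.Rt.Defs
import Pool.Agent.Lib.MP_8865d3_nt.FaFin

/-! Points on small curves do not approach the targets. -/

namespace Pool.Agent.Lib.MP_651af7_nt.Rt

open Finset Height NumberField Pool.Agent.Lib.MP_e97e2b_nt Pool.Agent.Lib.MP_651af7_nt.Iv
  Pool.Agent.Lib.MP_651af7_nt.Vj Pool.Agent.Lib.MP_651af7_nt.Vj.P1 Pool.Agent.Lib.Common.Subspace
open Pool.Agent.Lib.MP_8865d3_nt.Fa (Small Adm wt)

variable {K : Type} [Field K] [NumberField K] {a b : ℤ}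

section helpers

open MvPolynomial Pool.Agent.Lib.MP_8865d3_nt.Fa Pool.Agent.Lib.Common.ZeroLemma

private theorem exit_abs (hD : 4 * a ^ 3 + 27 * b ^ 2 ≠ 0) {v : AbsoluteValue K ℝ} (hv : Adm v)
    (g : MvPolynomial (Fin 2) K) {ε : ℝ} (hε : 0 < ε) :
    ∃ C : ℝ, 0 ≤ C ∧ ∀ P : Pt (a : K) (b : K), P ≠ 0 →
      v (ev P g) ≤ Real.exp (ε * ht P + C) ∧
        (ev P g ≠ 0 → Real.exp (-(ε * ht P + C)) ≤ v (ev P g)) := by
  obtain ⟨C, hC⟩ := fa_abs (K := K) (κ := Unit) (fun _ => a) (fun _ => b) (fun _ => hD) hv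
    (rename ![Sum.inl (), Sum.inr ()] g) hε
  refine ⟨max C 0, le_max_right _ _, fun P hP => ?_⟩
  have e : eval (Sum.elim (fun _ : Unit => xc P) fun _ : Unit => yc P)
      (rename ![Sum.inl (), Sum.inr ()] g) = ev P g := by
    rw [eval_rename, ev]
    refine congrArg (fun z => eval z g) (funext fun j => ?_)
    fin_cases j <;> rfl
  have key : ev P g ≠ 0 → |Real.log (v (ev P g))| ≤ ε * ht P + max C 0 := fun h0 => by
    have h1 := hC (fun _ => P) (fun _ => hP) (e ▸ h0)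
    have h2 : HS (K := K) (a := fun _ : Unit => a) (b := fun _ => b) (fun _ => P) = ht P := by
      simp [HS]
    rw [e, h2] at h1
    linarith [le_max_left C 0]
  refine ⟨?_, fun h0 => ?_⟩
  · by_cases h0 : ev P g = 0
    · rw [h0, map_zero]
      exact (Real.exp_pos _).le
    · exact (Real.log_le_iff_le_exp (v.pos h0)).1 (abs_le.1 (key h0)).2
  · exact (Real.le_log_iff_exp_le (v.pos h0)).1 (abs_le.1 (key h0)).1

private theorem exit_elim (a b : ℤ) (v : AbsoluteValue K ℝ) (g : MvPolynomial (Fin 2 ⊕ Unit) K) :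
    ∃ (B : ℕ) (c : ℝ), 0 ≤ c ∧ ∀ x t y : K, OnE a b x y →
      eval (Sum.elim ![x, t] fun _ => y) g ≠ 0 →
      ∃ N : MvPolynomial (Fin 2) ℚ, Small B c N ∧ aeval ![x, t] N ≠ 0 ∧
        v (aeval ![x, t] N) ≤ v (eval (Sum.elim ![x, t] fun _ => y) g) * Real.exp c *
          (max (v x) 1 * max (v t) 1 * max (v y) 1) ^ B := by
  classical
  choose p hp0 hp using fun μ : g.support =>
    (IsFractionRing.isAlgebraic_iff ℤ ℚ K).2 (Algebra.IsAlgebraic.isAlgebraic (coeff μ.1 g))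
  let e : Fin 2 → (Fin 2 ⊕ Unit) ⊕ g.support := fun k => Sum.inl (Sum.inl k)
  have he : Function.Injective e := fun k k' h => Sum.inl_injective (Sum.inl_injective h)
  let φ : (Fin 2 ⊕ Unit) ⊕ g.support → MvPolynomial ((Fin 2 ⊕ Unit) ⊕ g.support) ℚ :=
    Sum.elim (Sum.elim (fun _ => 0) fun k => MvPolynomial.X (Sum.inl (Sum.inr k)) ^ 2 -
      (MvPolynomial.X (e 0) ^ 3 + C (a : ℚ) * MvPolynomial.X (e 0) + C (b : ℚ)))
      fun μ => Polynomial.aeval (MvPolynomial.X (Sum.inr μ)) ((p μ).map (Int.castRingHom ℚ))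
  let l := (Finset.univ.filter fun s => s ∉ Set.range e).toList
  have hl : ∀ s, s ∈ l ↔ s ∉ Set.range e := fun s => by
    simp only [l, Finset.mem_toList, Finset.mem_filter, Finset.mem_univ, true_and]
  have hpair : l.Pairwise fun s t => ∀ μ ∈ (φ t).support, μ s = 0 := by
    refine (Finset.nodup_toList _).pairwise_of_forall_ne fun s hs t _ hst μ hμ => ?_
    refine Nat.le_zero.1 ((wd_single_iff s).1 ?_ μ hμ)
    rcases t with (k | k) | ν
    · exact wd_zero _ _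
    · have h1 := faT4_wd_X hst
      have h2 := faT4_wd_X (s := s) (t := e 0) fun h => (hl s).1 hs ⟨0, h.symm⟩
      exact (h1.pow 2).sub (((h2.pow 3).add ((wd_C _ _).mul h2)).add (wd_C _ _))
    · exact (faT4_uni _ (p ν)).2 s hst
  have hint : ∀ t ∈ l, IsInt (φ t) := by
    rintro ((k | k) | ν) _
    · exact isInt_zero
    · exact (((il_X _).pow 2).sub ((((il_X _).pow 3).add ((il_intCast _).mul (il_X _))).add
        (il_intCast _))).1
    · exact (faT4_uni _ (p ν)).1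
  let G : MvPolynomial ((Fin 2 ⊕ Unit) ⊕ g.support) ℚ :=
    ∑ μ : g.support, MvPolynomial.X (Sum.inr μ) * rename Sum.inl (monomial μ.1 1)
  have hG : IsInt G :=
    (il_sum _ fun μ _ => (il_X _).mul ((il_monomial_one μ.1).rename Sum.inl)).1
  obtain ⟨B, c, hB⟩ := elim_list_small (K := K) φ l hpair hint G.totalDegree (len G)
  have hM : 1 ≤ ∏ μ : g.support, max (v (coeff μ.1 g)) 1 ^ B :=
    Finset.one_le_prod fun _ _ => one_le_pow₀ (le_max_right _ _)
  obtain ⟨c₁, hc₁, e₁⟩ : ∃ c₁ : ℝ, 0 ≤ c₁ ∧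
      Real.exp c₁ = ∏ μ : g.support, max (v (coeff μ.1 g)) 1 ^ B :=
    ⟨_, Real.log_nonneg hM, Real.exp_log (by linarith)⟩
  refine ⟨B, max c 0 + c₁, add_nonneg (le_max_right _ _) hc₁, fun x t y hE hne => ?_⟩
  let z : (Fin 2 ⊕ Unit) ⊕ g.support → K :=
    Sum.elim (Sum.elim ![x, t] fun _ => y) fun μ => coeff μ.1 g
  have hz : aeval z G = eval (Sum.elim ![x, t] fun _ => y) g := by
    rw [eval_eq, ← Finset.sum_coe_sort g.support, map_sum]
    refine Finset.sum_congr rfl fun μ _ => ?_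
    rw [map_mul, aeval_X, aeval_rename, aeval_monomial, map_one, one_mul]
    rfl
  rw [← hz] at hne ⊢
  obtain ⟨N, hN, hN0, hNl, hNv⟩ := hB v z (by
    rintro ((k | k) | ν) ht
    · exact absurd ⟨k, rfl⟩ ((hl _).1 ht)
    · refine ⟨?_, fun h => ?_⟩
      · simp only [φ, z, e, Sum.elim_inl, Sum.elim_inr, map_sub, map_add, map_mul, map_pow, aeval_X,
          map_intCast, Matrix.cons_val_zero]
        exact sub_eq_zero.2 hE
      · have h2 := faT4_wd_X (s := Sum.inl (Sum.inr k)) (t := e 0) (by simp [e])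
        have h3 := el_toP_free (Sum.inl (Sum.inr k)) fun μ hμ => Nat.le_zero.1 ((wd_single_iff _).1
          (((h2.pow 3).add ((wd_C _ (a : ℚ)).mul h2)).add (wd_C _ (b : ℚ))) μ hμ)
        simp only [φ, Sum.elim_inl, Sum.elim_inr] at h
        rw [map_sub, h3, map_pow, elToP, aeval_X, if_pos rfl, Polynomial.map_sub, Polynomial.map_pow,
          Polynomial.map_X, Polynomial.map_C] at h
        exact Polynomial.X_pow_sub_C_ne_zero two_pos _ h
    · refine ⟨?_, ?_⟩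
      · simp only [φ, Sum.elim_inr]
        rw [← Polynomial.aeval_algHom_apply, aeval_X, ← algebraMap_int_eq,
          Polynomial.aeval_map_algebraMap]
        exact hp ν
      · exact faT4_el _ z (hp0 ν)) G
    ⟨fun h => hne (by rw [h, map_zero]), ⟨hG, by linarith [Real.add_one_le_exp (len G)]⟩,
      fun μ hμ s => (monomial_le_degreeOf s hμ).trans (degreeOf_le_totalDegree _ _)⟩ hne
  obtain ⟨N', hN', rfl⟩ := exists_rename_small he hN fun μ hμ s hs => hNl s ((hl s).2 hs) μ hμ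
  rw [aeval_rename] at hN0 hNv
  have hze : z ∘ e = ![x, t] := rfl
  rw [hze] at hN0 hNv
  refine ⟨N', hN'.mono le_rfl (by linarith [le_max_left c 0]), hN0, hNv.trans ?_⟩
  have h1 : ∏ s, max (v (z s)) 1 ^ B =
      (max (v x) 1 * max (v t) 1 * max (v y) 1) ^ B * Real.exp c₁ := by
    rw [e₁]
    simp only [Fintype.prod_sum_type, z, Sum.elim_inl, Sum.elim_inr, Fin.prod_univ_two,
      Matrix.cons_val_zero, Matrix.cons_val_one, Finset.univ_unique, Finset.prod_singleton,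
      mul_pow]
  rw [h1, Real.exp_add]
  have h2 : Real.exp c ≤ Real.exp (max c 0) := Real.exp_le_exp.2 (le_max_left _ _)
  calc v (aeval z G) * Real.exp c * ((max (v x) 1 * max (v t) 1 * max (v y) 1) ^ B * Real.exp c₁)
      ≤ v (aeval z G) * Real.exp (max c 0) *
        ((max (v x) 1 * max (v t) 1 * max (v y) 1) ^ B * Real.exp c₁) := by gcongr
    _ = _ := by ring

private theorem exit_len {x y M : ℝ} (hy : 0 ≤ y) (B D : ℕ) (h : B * x + D * (y + 1) ≤ M) :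
    Real.exp x ^ B * (Real.exp y + 1) ^ D ≤ Real.exp M := by
  have h1 : Real.exp y + 1 ≤ Real.exp (y + 1) := by
    have h2 : 1 ≤ Real.exp y := Real.one_le_exp hy
    have h3 : 1 + 1 ≤ Real.exp 1 := Real.add_one_le_exp 1
    rw [Real.exp_add]
    nlinarith
  calc Real.exp x ^ B * (Real.exp y + 1) ^ D ≤ Real.exp x ^ B * Real.exp (y + 1) ^ D := by gcongr
    _ = Real.exp (B * x + D * (y + 1)) := by
        rw [← Real.exp_nat_mul, ← Real.exp_nat_mul, ← Real.exp_add]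
    _ ≤ Real.exp M := Real.exp_le_exp.2 h

private theorem exit_div {η : ℝ} (hη : 0 < η) {x : ℝ} (hx : 0 ≤ x) :
    ∃ δ : ℝ, 0 < δ ∧ x * δ ≤ η := by
  refine ⟨η / (x + 1), by positivity, ?_⟩
  rw [← mul_div_assoc, div_le_iff₀ (by positivity)]
  nlinarith

private theorem exit_vert {D : ℕ} {c : ℝ} {g : MvPolynomial (Fin 2) ℚ} (hg : Small D c g) (x t : K)
    (h : (elToP 1 g).map (aeval ![x, t] : MvPolynomial (Fin 2) ℚ →ₐ[ℚ] K).toRingHom = 0) :
    logHeight₁ x ≤ totalWeight K * c := by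
  obtain ⟨μ, hμ⟩ := support_nonempty.2 hg.ne
  obtain ⟨b1, -, b3⟩ := el_coeff_bounds 1 (d := fun _ => D) (fun ν hν s _ => hg.deg ν hν s) (μ 1)
  have h0 : (elToP 1 g).coeff (μ 1) ≠ 0 := fun e =>
    mem_support_iff.1 hμ (by rw [← faElim_coeff 1 g hμ, e, coeff_zero])
  have h2 := congrArg (fun q => Polynomial.coeff q (μ 1)) h
  simp only [Polynomial.coeff_map, Polynomial.coeff_zero] at h2
  have h3 := height_root_le h0 ⟨el_isInt 1 hg.il.1 _, b3.trans hg.il.2⟩ 0 (fun ν hν s hs => by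
    have : s = 1 := by omega
    rw [this]
    exact b1 ν hν) ![x, t] h2
  rwa [Real.log_exp] at h3

private theorem exit_mov (hD : 4 * a ^ 3 + 27 * b ^ 2 ≠ 0) {v : AbsoluteValue K ℝ} (hv : Adm v)
    {η : ℝ} (hη : 0 < η) (B : ℕ) : ∃ δ H₀ : ℝ, 0 < δ ∧
      ∀ (H : ℝ) (P : Pt (a : K) (b : K)) (t : K) (R : MvPolynomial (Fin 2) ℚ), H₀ ≤ H → ht P ≤ H →
        Small B (δ * H) R → (∀ μ ∈ R.support, μ 1 = 0) → aeval ![xc P, t] R ≠ 0 →
        Real.exp (-(η * H)) ≤ v (aeval ![xc P, t] R) := by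
  obtain ⟨δ, H₀, hδ, h⟩ := fa_moving (K := K) hv _ Unit rfl (fun _ => a) (fun _ => b)
    (fun _ => hD) η hη B
  refine ⟨δ, H₀, hδ, fun H P t R hH hP hR h1 h0 => ?_⟩
  obtain ⟨N, hN, rfl⟩ := exists_rename_small (e := fun _ : Unit => (0 : Fin 2))
    (fun _ _ _ => rfl) hR fun μ hμ s hs => by
      have h2 : s ≠ 0 := fun e => hs ⟨(), e.symm⟩
      have : s = 1 := by omega
      rw [this]
      exact h1 μ hμ
  rw [aeval_rename] at h0 ⊢
  exact h H (fun _ => P) N hH (by simpa [HS] using hP) hN h0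

end helpers

/- `Fa.fa_abs` (`FaFin`) with `κ = Unit` for the polynomials `X`, `Y`, `A`, `B` (renamed along
`Fin 2 → Unit ⊕ Unit`); a value that is zero is small anyway; `B t = ell - A`. -/
theorem sml (hD : 4 * a ^ 3 + 27 * b ^ 2 ≠ 0) {v : AbsoluteValue K ℝ} (hv : Adm v)
    (A B : MvPolynomial (Fin 2) K) {s : ℝ} (hs : 0 < s) :
    ∃ H₀ : ℝ, ∀ (X : Pt (a : K) (b : K) × K) (H : ℝ), H₀ ≤ H → X.1 ≠ 0 → ht X.1 ≤ H →
      ev X.1 B ≠ 0 → v (ell A B X) ≤ 1 → Sml v B (s * H) X := by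
  have hε : 0 < s / 4 := by positivity
  obtain ⟨C₁, p1, h1⟩ := exit_abs hD hv (MvPolynomial.X 0 : MvPolynomial (Fin 2) K) hε
  obtain ⟨C₂, p2, h2⟩ := exit_abs hD hv (MvPolynomial.X 1 : MvPolynomial (Fin 2) K) hε
  obtain ⟨C₃, p3, h3⟩ := exit_abs hD hv A hε
  obtain ⟨C₄, p4, h4⟩ := exit_abs hD hv B hε
  refine ⟨(C₁ + C₂ + C₃ + C₄ + 1) / (s / 2), fun X H hH hX hh hB hl => ?_⟩
  rw [div_le_iff₀' (by positivity)] at hH
  have h0 : 0 ≤ s / 4 * ht X.1 := mul_nonneg hε.le (ht_nonneg _)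
  have h5 : s / 4 * ht X.1 ≤ s / 4 * H := mul_le_mul_of_nonneg_left hh hε.le
  have e1 : ev X.1 (MvPolynomial.X 0) = xc X.1 := by simp [ev]
  have e2 : ev X.1 (MvPolynomial.X 1) = yc X.1 := by simp [ev]
  have k1 := (h1 X.1 hX).1
  have k2 := (h2 X.1 hX).1
  have k3 := (h3 X.1 hX).1
  have k4 := (h4 X.1 hX).2 hB
  rw [e1] at k1
  rw [e2] at k2
  refine ⟨k1.trans (Real.exp_le_exp.2 (by linarith)), k2.trans (Real.exp_le_exp.2 (by linarith)),
    ?_, le_trans (Real.exp_le_exp.2 (by linarith)) k4⟩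
  have k5 : v (ev X.1 B) * v X.2 ≤ Real.exp (s / 4 * ht X.1 + C₃ + 1) := by
    have e3 : ev X.1 B * X.2 = ell A B X - ev X.1 A := by rw [ell]; ring
    rw [← map_mul, e3]
    refine (v.sub_le_add _ _).trans ?_
    have := exit_len (x := 0) (y := s / 4 * ht X.1 + C₃) (by linarith) 0 1 (M := s / 4 * ht X.1 + C₃ + 1)
      (by simp)
    simp only [pow_zero, one_mul, pow_one] at this
    linarith
  have k6 : Real.exp (-(s / 4 * ht X.1 + C₄)) * v X.2 ≤ Real.exp (s / 4 * ht X.1 + C₃ + 1) :=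
    (mul_le_mul_of_nonneg_right k4 (v.nonneg _)).trans k5
  rw [Real.exp_neg, inv_mul_le_iff₀ (Real.exp_pos _), ← Real.exp_add] at k6
  exact k6.trans (Real.exp_le_exp.2 (by linarith))

/- Suppose `v ell ≤ exp (-γ₀ H)`, `H = HR X`.  Step 1 (fixed data, as in `fa_fixed` of `FaT4`): write
`ell` as the value of an integer polynomial in the variables `x, t, y` and the coefficients of `A`,
`B`; `elim_list_small` (`FaElim`) eliminates `y` and the coefficients and gives `N₀` in `x, t` only,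
`Small B' c' N₀`, `N₀ (x, t) ≠ 0`, `v (N₀ (x, t)) ≤ v ell * exp c' * ∏ max (v z) 1 ^ B'`; `sml` bounds
the product.  Step 2: if `(elToP 1 g).map (aeval z) ≠ 0`, `elim_small` with `φ = g` eliminates `t`
and gives `N₁ (x) ≠ 0` of bounded degree, length at most `exp (B' ε H) * (exp c' + 1) ^ D`, with
`v (N₁ x) ≤ exp (-γ₀ H / 2)`, against `fa_moving` (`FaT3`, `κ = Unit`, `exists_rename_small`).
Otherwise a nonzero coefficient of `elToP 1 g` (`faElim_coeff`) vanishes at `x`, and `height_root_le`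
gives `ht X.1 ≤ totalWeight K * ε * H < δ₀ H`. -/
theorem exitR (hD : 4 * a ^ 3 + 27 * b ^ 2 ≠ 0) {v : AbsoluteValue K ℝ} (hv : Adm v)
    (A B : MvPolynomial (Fin 2) K) {γ₀ δ₀ : ℝ} (hγ : 0 < γ₀) (hδ : 0 < δ₀) (D : ℕ) :
    ∃ ε H₀ : ℝ, 0 < ε ∧ ∀ X : Pt (a : K) (b : K) × K, H₀ ≤ HR X → δ₀ * HR X ≤ ht X.1 → X.1 ≠ 0 →
      ev X.1 B ≠ 0 → ell A B X ≠ 0 → SpecR D ε X →
      Real.exp (-(γ₀ * HR X)) < v (ell A B X) := by
  obtain ⟨B', c, hc, hel⟩ := exit_elim a b v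
    (MvPolynomial.rename ![Sum.inl 0, Sum.inr ()] A +
      MvPolynomial.rename ![Sum.inl 0, Sum.inr ()] B * MvPolynomial.X (Sum.inl 1))
  obtain ⟨δ, H₁, hδ', hmov⟩ := exit_mov hD hv (η := γ₀ / 4) (by positivity) (D * B' + B' * D)
  obtain ⟨m, hm, hm1, hm2⟩ : ∃ m : ℝ, 0 < m ∧ m ≤ δ ∧ m ≤ γ₀ / 4 :=
    ⟨min δ (γ₀ / 4), lt_min hδ' (by positivity), min_le_left _ _, min_le_right _ _⟩
  obtain ⟨ε₁, hε₁, q1⟩ := exit_div (η := m / 2) (by positivity) (Nat.cast_nonneg B')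
  obtain ⟨ε₂, hε₂, q2⟩ := exit_div (η := δ₀ / 2) (by positivity) (Nat.cast_nonneg (totalWeight K))
  obtain ⟨s, hs, q3⟩ := exit_div (η := γ₀ / 8) (by positivity)
    (Nat.cast_nonneg (3 * B' + 2 * (D * B' + B' * D)))
  obtain ⟨H₂, hsml⟩ := sml hD hv A B hs
  obtain ⟨H₀, hH₀⟩ : ∃ H₀ : ℝ, ∀ H, H₀ ≤ H → H₁ ≤ H ∧ H₂ ≤ H ∧ 0 < H ∧
      (D : ℝ) * (c + 1) ≤ m / 2 * H ∧ c ≤ γ₀ / 8 * H := by
    refine ⟨max (max H₁ H₂) (max 1 (max (D * (c + 1) / (m / 2)) (c / (γ₀ / 8)))), fun H hH => ?_⟩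
    simp only [max_le_iff] at hH
    obtain ⟨⟨h1, h2⟩, h3, h4, h5⟩ := hH
    rw [div_le_iff₀' (by positivity)] at h4 h5
    exact ⟨h1, h2, by linarith, h4, h5⟩
  refine ⟨min ε₁ ε₂, H₀, lt_min hε₁ hε₂, fun X hH hδX hX hB hl hsp => ?_⟩
  obtain ⟨g1, g2, g3, g4, g5⟩ := hH₀ _ hH
  obtain ⟨g, hg, hg0⟩ := hsp
  have hX1 := ht_le_HR X
  generalize HR X = H at *
  by_contra hlt
  rw [not_lt] at hlt
  have hγH : 0 < γ₀ * H := by positivity
  obtain ⟨s1, s2, s3, -⟩ := hsml X H g2 hX hX1 hB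
    (hlt.trans (Real.exp_le_one_iff.2 (by linarith)))
  have hsH : 1 ≤ Real.exp (s * H) := Real.one_le_exp (by positivity)
  have t1 : max (v (xc X.1)) 1 ≤ Real.exp (s * H) := max_le s1 hsH
  have t2 : max (v (yc X.1)) 1 ≤ Real.exp (s * H) := max_le s2 hsH
  have t3 : max (v X.2) 1 ≤ Real.exp (s * H) := max_le s3 hsH
  have e : MvPolynomial.eval (Sum.elim ![xc X.1, X.2] fun _ : Unit => yc X.1)
      (MvPolynomial.rename ![Sum.inl 0, Sum.inr ()] A +
        MvPolynomial.rename ![Sum.inl 0, Sum.inr ()] B * MvPolynomial.X (Sum.inl 1)) =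
      ell A B X := by
    have e0 : ((Sum.elim ![xc X.1, X.2] fun _ : Unit => yc X.1) ∘
        (![Sum.inl 0, Sum.inr ()] : Fin 2 → Fin 2 ⊕ Unit)) = ![xc X.1, yc X.1] := by
      funext j
      fin_cases j <;> rfl
    rw [map_add, map_mul, MvPolynomial.eval_rename, MvPolynomial.eval_rename, e0,
      MvPolynomial.eval_X]
    rfl
  obtain ⟨N₀, n1, n2, n3⟩ := hel (xc X.1) X.2 (yc X.1)
    (Pool.Agent.Lib.MP_8865d3_nt.Fa.onE_pt hX) (e ▸ hl)
  rw [e] at n3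
  by_cases hv0 : (Pool.Agent.Lib.Common.ZeroLemma.elToP 1 g).map
      (MvPolynomial.aeval ![xc X.1, X.2] : MvPolynomial (Fin 2) ℚ →ₐ[ℚ] K).toRingHom = 0
  · have h1 : ht X.1 ≤ totalWeight K * (min ε₁ ε₂ * H) := exit_vert hg _ _ hv0
    have h2 : (totalWeight K : ℝ) * (min ε₁ ε₂ * H) ≤ totalWeight K * (ε₂ * H) := by
      gcongr
      exact min_le_right _ _
    have h3 : (totalWeight K : ℝ) * ε₂ * H ≤ δ₀ / 2 * H := mul_le_mul_of_nonneg_right q2 g3.le
    have h4 : 0 < δ₀ * H := by positivity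
    linarith
  have hg' := hg.mono le_rfl (mul_le_mul_of_nonneg_right (min_le_left ε₁ ε₂) g3.le)
  obtain ⟨N, m1, m2, m3, m4, m5⟩ := Pool.Agent.Lib.MP_8865d3_nt.Fa.elim_small v ![xc X.1, X.2] 1
    hg'.il n1.il (fun _ => D) (fun _ => B') hg'.deg n1.deg hg0 hv0 n2
  have k5 : Real.exp (ε₁ * H) ^ B' * (Real.exp c + 1) ^ D ≤ Real.exp (m * H) := by
    refine exit_len hc B' D ?_
    have h1 : B' * ε₁ * H ≤ m / 2 * H := mul_le_mul_of_nonneg_right q1 g3.le
    linarith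
  have k6 := hmov H X.1 X.2 N g1 hX1 ⟨fun e => m2 (by rw [e, map_zero]), m1.mono (k5.trans
    (Real.exp_le_exp.2 (mul_le_mul_of_nonneg_right hm1 g3.le))), m4⟩ m3 m2
  have k7 : v (MvPolynomial.aeval ![xc X.1, X.2] N₀) ≤ Real.exp (-(γ₀ * H)) * Real.exp c *
      (Real.exp (s * H) * Real.exp (s * H) * Real.exp (s * H)) ^ B' := by
    refine n3.trans ?_
    gcongr
  have k8 : ∏ j, max (v (![xc X.1, X.2] j)) 1 ^ (D * B' + B' * D) ≤
      Real.exp (s * H) ^ (D * B' + B' * D) * Real.exp (s * H) ^ (D * B' + B' * D) := by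
    rw [Fin.prod_univ_two]
    simp only [Matrix.cons_val_zero, Matrix.cons_val_one]
    gcongr
  have k9 := k6.trans (m5.trans (mul_le_mul (mul_le_mul k7 k5 (by positivity) (by positivity)) k8
    (by positivity) (by positivity)))
  simp only [← Real.exp_add, ← Real.exp_nat_mul] at k9
  have k10 := Real.exp_le_exp.1 k9
  have k11 : m * H ≤ γ₀ / 4 * H := mul_le_mul_of_nonneg_right hm2 g3.le
  have k12 := mul_le_mul_of_nonneg_right q3 g3.le
  push_cast at k10 k12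
  linarith

end Pool.Agent.Lib.MP_651af7_nt.Rt
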