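import Pool.Agent.Lib.MP_651af7_nt.Rt.MovC
import Pool.Agent.Lib.MP_651af7_nt.Rt.Cher
import Pool.Agent.Lib.MP_651af7_nt.VjAsm

/-! The approximation theorem for targets of small height. -/

namespace Pool.Agent.Lib.MP_651af7_nt.Rt

open Finset Height NumberField Pool.Agent.Lib.MP_e97e2b_nt Pool.Agent.Lib.MP_651af7_nt.Iv
  Pool.Agent.Lib.MP_651af7_nt.Vj Pool.Agent.Lib.MP_651af7_nt.Vj.P1 Pool.Agent.Lib.Common.Subspace
open Pool.Agent.Lib.MP_8865d3_nt.Fa (Small Adm wt)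

variable {K : Type} [Field K] [NumberField K]

private lemma mov_m (N : ℕ) {δ : ℝ} (hδ : 0 < δ) :
    ∃ m : ℕ, 1 ≤ m ∧ 2 * (N : ℝ) * Real.exp (-(δ ^ 2 * m / 2)) ≤ 1 := by
  refine ⟨⌈4 * N / δ ^ 2⌉₊ + 1, by omega, ?_⟩
  have h1 : 4 * N / δ ^ 2 ≤ ((⌈4 * N / δ ^ 2⌉₊ + 1 : ℕ) : ℝ) := by
    push_cast
    linarith [Nat.le_ceil (4 * N / δ ^ 2)]
  generalize ((⌈4 * N / δ ^ 2⌉₊ + 1 : ℕ) : ℝ) = m at h1 ⊢
  rw [div_le_iff₀ (by positivity)] at h1
  rw [Real.exp_neg, ← div_eq_mul_inv, div_le_one (Real.exp_pos _)]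
  linarith [Real.add_one_le_exp (δ ^ 2 * m / 2)]

private lemma mov_err {m : ℕ} {κ ε s W H₁ : ℝ} (e : Fin m → ℕ) (w : Fin m → ℝ) (hκ : 1 ≤ κ)
    (hm : 1 ≤ m) (hε : 0 < ε) (hs0 : 0 ≤ s) (hs : κ * m * s ≤ ε / 4) (hH : 4 * κ * m ≤ ε * H₁)
    (hw : ∀ i, H₁ ≤ w i) (hW : H₁ ≤ W) (he : ∀ i, e i * w i ≤ W) :
    κ * (1 + ∑ i, e i * (1 + s * w i)) ≤ ε * W := by
  have hm' : (1 : ℝ) ≤ m := by exact_mod_cast hm
  have hκm : 1 ≤ κ * m := one_le_mul_of_one_le_of_one_le hκ hm'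
  have hH0 : 0 < H₁ := by
    by_contra h
    have := mul_nonpos_of_nonneg_of_nonpos hε.le (not_lt.mp h)
    linarith
  have h1 : ∀ i, (e i : ℝ) * (1 + s * w i) ≤ W / H₁ + s * W := by
    intro i
    have h2 : (e i : ℝ) ≤ W / H₁ := by
      rw [le_div_iff₀ hH0]
      exact (mul_le_mul_of_nonneg_left (hw i) (Nat.cast_nonneg _)).trans (he i)
    have h3 := mul_le_mul_of_nonneg_left (he i) hs0
    linarith
  have h2 : ∑ i, (e i : ℝ) * (1 + s * w i) ≤ m * (W / H₁ + s * W) := by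
    refine (sum_le_sum fun i _ => h1 i).trans ?_
    simp only [sum_const, card_univ, Fintype.card_fin, nsmul_eq_mul, le_refl]
  have hW0 : 0 < W := hH0.trans_le hW
  have h3 : κ * m * (W / H₁) ≤ ε / 4 * W := by
    rw [← mul_div_assoc, div_le_iff₀ hH0]
    have := mul_le_mul_of_nonneg_right hH hW0.le
    linarith
  have h4 := mul_le_mul_of_nonneg_right hs hW0.le
  have h5 : κ ≤ ε / 4 * W := by
    have a1 := mul_le_mul_of_nonneg_left hW hε.le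
    have a2 := mul_le_mul_of_nonneg_left hm' (zero_le_one.trans hκ)
    linarith
  have h6 := mul_le_mul_of_nonneg_left h2 (zero_le_one.trans hκ)
  have h7 := mul_pos hε hW0
  linarith

private lemma mov_gain {η δ ρ G M : ℝ} (hδ : δ * (4 + η) = η / 4) (hδ0 : 0 ≤ δ) (hδ1 : δ ≤ 1 / 4)
    (hρ : ρ ≤ 2) (hG : 2 * ρ + η ≤ G) (hM : 0 ≤ M) :
    ρ * M + η / 4 * M ≤ (1 / 2 - δ) * M * G := by
  have h1 : ρ + η / 4 ≤ (1 / 2 - δ) * G := by
    have a1 := mul_le_mul_of_nonneg_left hG (show 0 ≤ 1 / 2 - δ by linarith)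
    have a2 := mul_le_mul_of_nonneg_left hρ hδ0
    linarith
  have h2 := mul_le_mul_of_nonneg_left h1 hM
  linarith

/- Parameters: `δ` with `δ * (4 + η) ≤ η / 4`, `δ ≤ 1 / 2`; `m ≥ 1` with
`2 * card (Pl S) * finrank * exp (-(δ ^ 2 m / 2)) ≤ 1`; `θ = η m / (16 κ)`; `B, ζ` from `core_mov`;
`p₀` with `0 < γ p₀` (`Good.exists_pos`); `ε` with `totalWeight K * B * ε ≤ γ p₀ / 4`; `s` with
`s ≤ γ p₀ / 4`, `κ m s ≤ ε / 4`, `κ s ≤ η / 32`.  If the scales are unbounded take a chain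
(`exists_chain`, `VjAsm`, on triples `(H, t, α)`, factor `max 1 (1 / ζ)`), `w i = H i`,
`W = D = n * H last` with `1 / n ≤ δ` and `n` large, `e i = ⌊W / w i⌋₊`, `L = (1 / 2 - δ) m W`,
`card_low`.  First case: `L * (2 ρ + η) - ρ m W ≥ η m W / 4` exceeds the errors.  Second case:
`Fa.liouville` gives `av p₀ (t - α) ≥ exp (-(h t + h α + totalWeight K * log 2))`. -/
theorem mov_pat (S : Finset (FinitePlace K)) {η : ℝ} (hη : 0 < η) {γ : Pl S → ℝ} {ρ : ℝ}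
    (hg : Good η γ ρ) : ∃ s H₀ : ℝ, 0 < s ∧ ∀ (H : ℝ) (t : K) (α : Pl S → K), H₀ ≤ H →
      (∀ p, logHeight₁ (α p) ≤ s * H) → (∀ p, t ≠ α p) → ¬Pat γ ρ H t fun p => t - α p := by
  obtain ⟨κ, hκ, hcore⟩ := core_mov S
  obtain ⟨δ, hδ⟩ : ∃ δ : ℝ, δ = η / (4 * (4 + η)) := ⟨_, rfl⟩
  have hδ0 : 0 < δ := by
    rw [hδ]
    positivity
  have hδe : δ * (4 + η) = η / 4 := by
    rw [hδ]
    field_simp
  have hδ1 : δ ≤ 1 / 4 := by
    rw [hδ, div_le_div_iff₀ (by positivity) (by norm_num)]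
    linarith
  obtain ⟨m, hm, hmN⟩ := mov_m (Fintype.card (Pl S) * Module.finrank ℚ K) hδ0
  have hm' : (1 : ℝ) ≤ m := by exact_mod_cast hm
  have hκ0 : 0 < κ := zero_lt_one.trans_le hκ
  have hκm : 1 ≤ κ * m := one_le_mul_of_one_le_of_one_le hκ hm'
  obtain ⟨B, ζ, hζ, hcore⟩ := hcore m (η * m / (16 * κ)) (by positivity)
  obtain ⟨p₀, hp₀⟩ := hg.exists_pos hη
  obtain ⟨ε, hε0, hε1, hε2⟩ : ∃ ε : ℝ, 0 < ε ∧ totalWeight K * B * ε ≤ γ p₀ / 4 ∧ ε ≤ η / 8 := by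
    refine ⟨min (γ p₀ / (4 * (totalWeight K * B + 1))) (η / 8), by positivity, ?_,
      min_le_right _ _⟩
    refine (mul_le_mul_of_nonneg_left (min_le_left _ _) (by positivity)).trans ?_
    rw [← mul_div_assoc, div_le_div_iff₀ (by positivity) (by norm_num)]
    linarith
  obtain ⟨s, hs0, hs1, hs2⟩ : ∃ s : ℝ, 0 < s ∧ s ≤ γ p₀ / 4 ∧ κ * m * s ≤ ε / 4 := by
    refine ⟨min (γ p₀ / 4) (ε / (4 * (κ * m))), by positivity, min_le_left _ _, ?_⟩
    refine (mul_le_mul_of_nonneg_left (min_le_right _ _) (by positivity)).trans (le_of_eq ?_)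
    field_simp
  obtain ⟨H₁, hH1, hH2⟩ : ∃ H₁ : ℝ, 4 * κ * m ≤ ε * H₁ ∧
      2 * (totalWeight K * Real.log 2) < γ p₀ * H₁ := by
    have a1 : 0 ≤ totalWeight K * Real.log 2 := by
      have := Real.log_nonneg (show (1 : ℝ) ≤ 2 by norm_num)
      positivity
    refine ⟨4 * κ * m / ε + (2 * (totalWeight K * Real.log 2) / γ p₀ + 1), ?_, ?_⟩
    · rw [mul_add, mul_div_cancel₀ _ hε0.ne']
      exact le_add_of_nonneg_right (by positivity)
    · rw [mul_add, mul_add, mul_div_cancel₀ _ hp₀.ne']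
      have : 0 ≤ γ p₀ * (4 * κ * m / ε) := by positivity
      linarith
  have hH0 : 0 < H₁ := by
    by_contra h
    have := mul_nonpos_of_nonneg_of_nonpos hε0.le (not_lt.mp h)
    linarith
  by_contra hcon
  obtain ⟨c, c₁, c₂, c₃⟩ := exists_chain (fun x : ℝ × K × (Pl S → K) => |x.1|)
    (fun x => abs_nonneg _) {x | 0 ≤ x.1 ∧ (∀ p, logHeight₁ (x.2.2 p) ≤ s * x.1) ∧
      (∀ p, x.2.1 ≠ x.2.2 p) ∧ Pat γ ρ x.1 x.2.1 fun p => x.2.1 - x.2.2 p}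
    (fun u => by
      by_contra h
      refine hcon ⟨s, max u 0, hs0, fun H t α a1 a2 a3 a4 => h ⟨(H, t, α),
        ⟨(le_max_right _ _).trans a1, a2, a3, a4⟩, ?_⟩⟩
      exact ((le_max_left _ _).trans a1).trans (le_abs_self H))
    H₁ (max 1 (1 / ζ)) (le_max_left _ _)
  obtain ⟨w, hw⟩ : ∃ w : Fin m → ℝ, ∀ i, w i = (c i).1 := ⟨_, fun _ => rfl⟩
  have habs : ∀ i : Fin m, |(c i).1| = w i := fun i => by rw [hw, abs_of_nonneg (c₁ i).1]
  have hwH : ∀ i, H₁ ≤ w i := fun i => habs i ▸ c₂ i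
  have hw0 : ∀ i, 0 < w i := fun i => hH0.trans_le (hwH i)
  have hsp : ∀ i i' : Fin m, i < i' → w i ≤ ζ * w i' := by
    intro i i' h
    have a1 := c₃ i i' h
    simp only [habs] at a1
    have a2 := (mul_le_mul_of_nonneg_right (le_max_right 1 (1 / ζ)) (hw0 i).le).trans a1
    rwa [one_div, inv_mul_le_iff₀ hζ] at a2
  obtain ⟨W, hW⟩ : ∃ W : ℝ, ∀ i, w i ≤ δ * W := ⟨(∑ i, w i) / δ, fun i => by
    rw [mul_div_cancel₀ _ hδ0.ne']
    exact single_le_sum (fun i _ => (hw0 i).le) (mem_univ i)⟩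
  have hW0 : 0 < W := by
    by_contra h
    have := mul_nonpos_of_nonneg_of_nonpos hδ0.le (not_lt.mp h)
    linarith [hW ⟨0, hm⟩, hw0 ⟨0, hm⟩]
  have hWH : H₁ ≤ W := by
    have a1 := mul_le_mul_of_nonneg_right hδ1 hW0.le
    linarith [hW ⟨0, hm⟩, hwH ⟨0, hm⟩]
  obtain ⟨e, he⟩ : ∃ e : Fin m → ℕ, ∀ i, e i = ⌊W / w i⌋₊ := ⟨_, fun _ => rfl⟩
  have he1 : ∀ i, e i * w i ≤ W := fun i => by
    rw [he, ← le_div_iff₀ (hw0 i)]
    exact Nat.floor_le (div_pos hW0 (hw0 i)).le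
  have he2 : ∀ i, (1 - δ) * W ≤ e i * w i := fun i => by
    have a1 := Nat.lt_floor_add_one (W / w i)
    rw [← he, div_lt_iff₀ (hw0 i)] at a1
    linarith [hW i]
  have herr := mov_err e w hκ hm hε0 hs0.le hs2 hH1 hwH hWH he1
  have hcard := card_low e w hW0 hδ0.le (fun i => (hw0 i).le) he1 he2
  have hht : ∀ i : Fin m, logHeight₁ (c i).2.1 ≤ ρ * w i := fun i => hw i ▸ (c₁ i).2.2.2.1
  have hal : ∀ (i : Fin m) p, logHeight₁ ((c i).2.2 p) ≤ s * w i := fun i => hw i ▸ (c₁ i).2.1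
  have hpat : ∀ p (i : Fin m), γ p = 0 ∨
      av p ((c i).2.1 - (c i).2.2 p) ≤ Real.exp (-(γ p * w i)) :=
    fun p i => hw i ▸ (c₁ i).2.2.2.2 p
  rcases hcore ε s W ((1 / 2 - δ) * m * W) e (fun i => (c i).2.1) (fun i => (c i).2.2) w γ hε0
    hs0.le (fun i => by
      have := mul_le_mul_of_nonneg_left (hwH i) hε0.le
      linarith)
    (fun i i' h => (lt_or_gt_of_ne h).imp (hsp i i') (hsp i' i))
    (fun i => by rw [mul_comm]; exact he1 i) hal herr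
    (by
      have a1 : (0 : ℝ) ≤ ∏ i, ((e i : ℝ) + 1) := by positivity
      have a2 := mul_le_mul_of_nonneg_left hcard (show (0 : ℝ) ≤
        2 * ((Fintype.card (Pl S) * Module.finrank ℚ K : ℕ) : ℝ) by positivity)
      have a3 := mul_le_mul_of_nonneg_right hmN a1
      have a4 : ((2 * (Fintype.card (Pl S) * (Low e w ((1 / 2 - δ) * m * W)).card *
          Module.finrank ℚ K) : ℕ) : ℝ) ≤ ((∏ i, (e i + 1) : ℕ) : ℝ) := by
        push_cast at a2 a3 ⊢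
        linarith
      exact_mod_cast a4)
    (fun p => ⟨hg.nonneg p, hg.le p⟩) hpat with ⟨κ', b1, b2⟩ | ⟨i, hi⟩
  · have a1 : ∑ i, (e i : ℝ) * logHeight₁ (c i).2.1 ≤ ρ * (m * W) := by
      refine (sum_le_sum (g := fun _ => ρ * W) fun i _ => ?_).trans ?_
      · have a2 := mul_le_mul_of_nonneg_left (hht i) (Nat.cast_nonneg (α := ℝ) (e i))
        have a3 := mul_le_mul_of_nonneg_left (he1 i) hg.rho_nonneg
        linarith
      · simp only [sum_const, card_univ, Fintype.card_fin, nsmul_eq_mul]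
        linarith
    have a2 := mov_gain hδe hδ0.le hδ1 hg.rho_le hg.big (show 0 ≤ m * W by positivity)
    have a3 : κ * ∑ i, (κ' i : ℝ) * w i < η / 16 * (m * W) := by
      refine (mul_lt_mul_of_pos_left b1 hκ0).trans_le (le_of_eq ?_)
      field_simp
    have a4 : ε * W ≤ η / 8 * (m * W) :=
      mul_le_mul hε2 (le_mul_of_one_le_left hW0.le hm') hW0.le (by positivity)
    have a5 : 0 < η * (m * W) := by positivity
    rw [mul_assoc (1 / 2 - δ)] at b2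
    linarith
  · have a1 := Pool.Agent.Lib.MP_8865d3_nt.Fa.liouville (adm_av p₀)
      (sub_ne_zero.mpr ((c₁ i).2.2.1 p₀))
    have a2 := Real.exp_le_exp.mp (a1.trans ((hpat p₀ i).resolve_left hp₀.ne'))
    have a3 := logHeight₁_sub_le (c i).2.1 ((c i).2.2 p₀)
    have a4 := mul_le_mul_of_nonneg_right hε1 (hw0 i).le
    have a5 := mul_le_mul_of_nonneg_right hs1 (hw0 i).le
    have a6 := mul_le_mul_of_nonneg_left (hwH i) hp₀.le
    have a7 := hal i p₀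
    linarith

/- Reduce to `η ≤ 2`; `exists_pats`, `mov_pat` for the finitely many patterns (minimum of the `s`,
maximum of the `H₀`); for bounded `H` use `prx_le` and `logHeight₁_sub_le`. -/
theorem rothMov (S : Finset (FinitePlace K)) {η : ℝ} (hη : 0 < η) :
    ∃ δ C : ℝ, 0 < δ ∧ ∀ (H : ℝ) (t : K) (α : Pl S → K), logHeight₁ t ≤ H →
      (∀ p, logHeight₁ (α p) ≤ δ * H) → (∀ p, t ≠ α p) →
      prx (fun p => t - α p) ≤ 2 * logHeight₁ t + η * H + C := by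
  obtain ⟨Γ, hΓ, hpat⟩ := exists_pats S (lt_min hη two_pos) (min_le_right η 2)
  have h1 : ∀ g : (Pl S → ℝ) × ℝ, ∃ s H₀ : ℝ, 0 < s ∧ (g ∈ Γ → ∀ (H : ℝ) (t : K) (α : Pl S → K),
      H₀ ≤ H → (∀ p, logHeight₁ (α p) ≤ s * H) → (∀ p, t ≠ α p) →
        ¬Pat g.1 g.2 H t fun p => t - α p) := by
    intro g
    by_cases hg : g ∈ Γ
    · obtain ⟨s, H₀, a1, a2⟩ := mov_pat S (half_pos (lt_min hη two_pos)) (hΓ g hg)
      exact ⟨s, H₀, a1, fun _ => a2⟩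
    · exact ⟨1, 0, one_pos, fun h => absurd h hg⟩
  choose s H₀ hs h1 using h1
  have hsum : 0 ≤ ∑ g ∈ Γ, (s g)⁻¹ := sum_nonneg fun g _ => (inv_pos.mpr (hs g)).le
  obtain ⟨δ, hδ0, hδ1, hδ2⟩ : ∃ δ : ℝ, 0 < δ ∧ δ ≤ 1 ∧ ∀ g ∈ Γ, δ ≤ s g := by
    refine ⟨(1 + ∑ g ∈ Γ, (s g)⁻¹)⁻¹, by positivity, inv_le_one_of_one_le₀ (by linarith),
      fun g hg => ?_⟩
    rw [inv_le_comm₀ (by positivity) (hs g)]
    have := single_le_sum (f := fun g => (s g)⁻¹) (fun g _ => (inv_pos.mpr (hs g)).le) hg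
    linarith
  obtain ⟨T, hT0, hT⟩ : ∃ T : ℝ, 0 < T ∧ ∀ g ∈ Γ, H₀ g ≤ T := by
    have a1 : 0 ≤ ∑ g ∈ Γ, |H₀ g| := sum_nonneg fun g _ => abs_nonneg _
    refine ⟨1 + ∑ g ∈ Γ, |H₀ g|, by positivity, fun g hg => ?_⟩
    have := single_le_sum (f := fun g => |H₀ g|) (fun g _ => abs_nonneg _) hg
    linarith [le_abs_self (H₀ g)]
  have hlog : 0 ≤ Real.log 2 := Real.log_nonneg (by norm_num)
  refine ⟨δ, ∑ p : Pl S, mu p * (totalWeight K * Real.log 2 + T + T), hδ0,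
    fun H t α a1 a2 a3 => ?_⟩
  have hH : 0 ≤ H := (zero_le_logHeight₁ t).trans a1
  have hC : 0 ≤ ∑ p : Pl S, mu p * (totalWeight K * Real.log 2 + T + T) :=
    sum_nonneg fun p _ => by positivity
  by_cases hHT : T ≤ H
  · by_contra hcon
    obtain ⟨g, hg, hp⟩ := hpat H t (fun p => t - α p) (hT0.trans_le hHT) a1 (by
      have := mul_le_mul_of_nonneg_right (min_le_left η 2) hH
      linarith)
    exact h1 g hg H t α ((hT g hg).trans hHT)
      (fun p => (a2 p).trans (mul_le_mul_of_nonneg_right (hδ2 g hg) hH)) a3 hp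
  · have b1 : prx (fun p => t - α p) ≤ ∑ p : Pl S, mu p * (totalWeight K * Real.log 2 + T + T) := by
      refine (prx_le _).trans (sum_le_sum fun p _ =>
        mul_le_mul_of_nonneg_left ?_ (Nat.cast_nonneg _))
      have b2 := logHeight₁_sub_le t (α p)
      have b3 := mul_le_mul_of_nonneg_right hδ1 hH
      linarith [a2 p]
    have b2 := zero_le_logHeight₁ t
    have b3 := mul_nonneg hη.le hH
    linarith

end Pool.Agent.Lib.MP_651af7_nt.Rt
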