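import Pool.Agent.Lib.MP_651af7_nt.Rt.P1
import Pool.Agent.Lib.MP_651af7_nt.Rt.Exit
import Pool.Agent.Lib.MP_651af7_nt.Rt.Mov

/-! Assembly for short curves. -/

namespace Pool.Agent.Lib.MP_651af7_nt.Rt

open Finset Height NumberField Pool.Agent.Lib.MP_e97e2b_nt Pool.Agent.Lib.MP_651af7_nt.Iv
  Pool.Agent.Lib.MP_651af7_nt.Vj Pool.Agent.Lib.MP_651af7_nt.Vj.P1 Pool.Agent.Lib.Common.Subspace
open Pool.Agent.Lib.MP_8865d3_nt.Fa (Small Adm wt)

variable {K : Type} [Field K] [NumberField K] {S : Finset (FinitePlace K)} {a b : ℤ}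

/- `phaseR`; `p₀` from `Good.exists_pos`; `exitR` at `p₀` gives `ε`; `sml` at each `p` with
`γ p ≠ 0`; `cells_abs` (`VjCells`) for `ht` with `ht_euclid`; if the heights are unbounded they are
unbounded in one cell; `exists_chain` (`VjAsm`) with the factor `max (max 1 lam) (8 / δ₀)`;
`X i = chain i`, `Y = chain m`. -/
theorem main_pat (hD : 4 * a ^ 3 + 27 * b ^ 2 ≠ 0) (A B : Pl S → MvPolynomial (Fin 2) K)
    {η δ₀ : ℝ} (hη : 0 < η) (hδ : 0 < δ₀) {γ : Pl S → ℝ} {ρ : ℝ} (hg : Good η γ ρ) :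
    ∃ H₀ : ℝ, ∀ X : Pt (a : K) (b : K) × K, H₀ ≤ HR X → X.1 ≠ 0 → δ₀ * HR X ≤ ht X.1 →
      (∀ p, ev X.1 (B p) ≠ 0) → (∀ p, ell (A p) (B p) X ≠ 0) →
      ¬Pat γ ρ (HR X) X.2 fun p => ell (A p) (B p) X := by
  have hDK : 4 * (a : K) ^ 3 + 27 * (b : K) ^ 2 ≠ 0 := by exact_mod_cast hD
  obtain ⟨m, Bd, θ, lam, s, hθ, hs, hph⟩ := phaseR hD A B hη hδ hg
  obtain ⟨p₀, hp₀⟩ := hg.exists_pos hη
  obtain ⟨ε, H1, hε, hex⟩ := exitR hD (adm_av p₀) (A p₀) (B p₀) hp₀ hδ Bd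
  obtain ⟨H2, hH2⟩ := hph ε hε
  choose H3 hH3 using fun p => sml hD (adm_av p) (A p) (B p) hs
  obtain ⟨r, φ, C, hC⟩ := ht_euclid hDK
  obtain ⟨N, cell, H4, hc⟩ := cells_abs φ ht C hC θ hθ
  let Bad : Pt (a : K) (b : K) × K → Prop := fun X => X.1 ≠ 0 ∧ δ₀ * HR X ≤ ht X.1 ∧
    (∀ p, ev X.1 (B p) ≠ 0) ∧ (∀ p, ell (A p) (B p) X ≠ 0) ∧
    Pat γ ρ (HR X) X.2 fun p => ell (A p) (B p) X
  by_contra hcon
  have h1 : ∀ t : ℝ, ∃ X, Bad X ∧ t ≤ HR X := by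
    intro t
    by_contra h
    exact hcon ⟨t, fun X a₁ a₂ a₃ a₄ a₅ a₆ => h ⟨X, ⟨a₂, a₃, a₄, a₅, a₆⟩, a₁⟩⟩
  have h2 : ∃ c, ∀ t : ℝ, ∃ X ∈ {X | cell X.1 = c ∧ Bad X}, t ≤ HR X := by
    by_contra h
    push Not at h
    choose t ht' using h
    obtain ⟨X, hX, hle⟩ := h1 (∑ c, |t c|)
    have a₁ := ht' (cell X.1) X ⟨rfl, hX⟩
    have a₂ : |t (cell X.1)| ≤ ∑ c, |t c| :=
      single_le_sum (f := fun c => |t c|) (fun c _ => abs_nonneg _) (mem_univ _)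
    have a₃ := le_abs_self (t (cell X.1))
    linarith
  obtain ⟨c, h2⟩ := h2
  obtain ⟨z, z₁, z₂, z₃⟩ := exists_chain HR HR_nonneg _ h2
    (max (max H1 H2) (max (∑ p, |H3 p|) (H4 / δ₀))) (max (max 1 lam) (8 / δ₀))
    (le_max_of_le_left (le_max_left _ _))
  have b₁ : ∀ i, H1 ≤ HR (z i) := fun i => (le_max_of_le_left (le_max_left _ _)).trans (z₂ i)
  have b₂ : ∀ i, H2 ≤ HR (z i) := fun i => (le_max_of_le_left (le_max_right _ _)).trans (z₂ i)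
  have b₃ : ∀ i p, H3 p ≤ HR (z i) := fun i p =>
    ((le_abs_self _).trans (single_le_sum (f := fun p => |H3 p|) (fun p _ => abs_nonneg _)
      (mem_univ p))).trans ((le_max_of_le_right (le_max_left _ _)).trans (z₂ i))
  have b₄ : ∀ i, H4 ≤ ht (z i).1 := fun i => by
    have a₁ : H4 / δ₀ ≤ HR (z i) := (le_max_of_le_right (le_max_right _ _)).trans (z₂ i)
    rw [div_le_iff₀ hδ, mul_comm] at a₁
    exact a₁.trans (z₁ i).2.2.1
  have l₁ : ∀ i i', i < i' → lam * HR (z i) ≤ HR (z i') := fun i i' hi =>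
    (mul_le_mul_of_nonneg_right (le_max_of_le_left (le_max_right _ _)) (HR_nonneg _)).trans
      (z₃ i i' hi)
  have l₂ : ∀ i : Fin m, ∃ j, CloseR θ j (z i).1 (z m).1 := fun i => by
    refine hc _ _ ((z₁ i).1.trans (z₁ m).1.symm) (b₄ i) ?_
    have a₁ : 8 / δ₀ * HR (z i) ≤ HR (z m) :=
      (mul_le_mul_of_nonneg_right (le_max_right _ _) (HR_nonneg _)).trans (z₃ i m i.2)
    rw [div_mul_eq_mul_div, div_le_iff₀ hδ, mul_comm (HR (z m))] at a₁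
    have a₂ := ht_le_HR (z i)
    have a₃ := (z₁ m).2.2.1
    linarith
  choose j hj using l₂
  have fin : ∀ i, ¬SpecR Bd ε (z i) := by
    intro i hsp
    obtain ⟨-, c₁, c₂, c₃, c₄, c₅⟩ := z₁ i
    have a₁ := hex (z i) (b₁ i) c₂ c₁ (c₃ p₀) (c₄ p₀) hsp
    rcases c₅.2 p₀ with h | h
    · exact hp₀.ne' h
    · exact absurd h (not_le.2 a₁)
  have hsm : ∀ i p, γ p = 0 ∨ Sml (av p) (B p) (s * HR (z i)) (z i) := by
    intro i p
    obtain ⟨-, c₁, c₂, c₃, c₄, c₅⟩ := z₁ i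
    rcases c₅.2 p with h | h
    · exact Or.inl h
    · refine Or.inr (hH3 p (z i) _ (b₃ i p) c₁ (ht_le_HR _) (c₃ p) (h.trans ?_))
      exact Real.exp_le_one_iff.2 (neg_nonpos.2 (mul_nonneg (hg.nonneg p) (HR_nonneg _)))
  rcases hH2 (fun i => z i) (z m) j (fun i => b₂ i) (b₂ m) (fun i i' hi => l₁ i i' hi)
    (fun i => l₁ i m i.2) (fun i => (z₁ i).2.2.1) (z₁ m).2.2.1 (fun i => (z₁ i).2.2.2.2.2)
    (fun i p => hsm i p) hj with ⟨i, h⟩ | h
  · exact fin i h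
  · exact fin m h

theorem asm_log_mul {x y : ℝ} (hx : 0 ≤ x) (hy : 0 ≤ y) :
    Real.log (max 1 (x * y)) ≤ Real.log (max 1 x) + Real.log (max 1 y) := by
  have h1 : (0 : ℝ) < max 1 x := lt_max_of_lt_left one_pos
  have h2 : (0 : ℝ) < max 1 y := lt_max_of_lt_left one_pos
  rw [← Real.log_mul h1.ne' h2.ne']
  refine Real.log_le_log (lt_max_of_lt_left one_pos) (max_le ?_ ?_)
  · exact one_le_mul_of_one_le_of_one_le (le_max_left _ _) (le_max_left _ _)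
  · exact mul_le_mul (le_max_right _ _) (le_max_right _ _) hy h1.le

theorem asm_prx_mul (l l' : Pl S → K) : prx (fun p => l p * l' p) ≤ prx l + prx l' := by
  unfold prx
  rw [← sum_add_distrib]
  refine sum_le_sum fun p _ => ?_
  rw [← mul_add]
  refine mul_le_mul_of_nonneg_left ?_ (Nat.cast_nonneg _)
  rw [map_mul, mul_inv]
  exact asm_log_mul (inv_nonneg.2 ((av p).nonneg _)) (inv_nonneg.2 ((av p).nonneg _))

theorem asm_core (hD : 4 * a ^ 3 + 27 * b ^ 2 ≠ 0) (A B : Pl S → MvPolynomial (Fin 2) K)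
    {η : ℝ} (hη : 0 < η) (hη2 : η ≤ 2) : ∃ C : ℝ, ∀ X : Pt (a : K) (b : K) × K, X.1 ≠ 0 →
      (∀ p, ev X.1 (B p) ≠ 0) → (∀ p, ell (A p) (B p) X ≠ 0) →
      prx (fun p => ell (A p) (B p) X) ≤ 2 * logHeight₁ X.2 + η * HR X + C := by
  obtain ⟨δ, C₀, hδ, hro⟩ := rothMov S (half_pos hη)
  choose CA hCA0 hCA using fun p => ht_ev (K := K) a b (A p)
  choose CB hCB0 hCB using fun p => ht_ev (K := K) a b (B p)
  obtain ⟨M, hM0, hM⟩ : ∃ M : ℝ, 0 ≤ M ∧ ∀ P : Pt (a : K) (b : K),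
      prx (fun p => ev P (B p)) ≤ M * (1 + ht P) := by
    refine ⟨∑ p, mu p * CB p, sum_nonneg fun p _ => mul_nonneg (Nat.cast_nonneg _) (hCB0 p),
      fun P => (prx_le _).trans ?_⟩
    rw [sum_mul]
    refine sum_le_sum fun p _ => ?_
    rw [mul_assoc]
    exact mul_le_mul_of_nonneg_left (hCB p P) (Nat.cast_nonneg _)
  obtain ⟨E, hE0, hE⟩ : ∃ E : ℝ, 0 ≤ E ∧ ∀ (P : Pt (a : K) (b : K)) p,
      logHeight₁ (ev P (A p)) + logHeight₁ (ev P (B p)) ≤ E * (1 + ht P) := by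
    refine ⟨∑ p, (CA p + CB p), sum_nonneg fun p _ => add_nonneg (hCA0 p) (hCB0 p), fun P p => ?_⟩
    have a₁ : CA p + CB p ≤ ∑ p, (CA p + CB p) :=
      single_le_sum (f := fun p => CA p + CB p) (fun p _ => add_nonneg (hCA0 p) (hCB0 p))
        (mem_univ p)
    have a₂ : 0 ≤ 1 + ht P := add_nonneg zero_le_one (ht_nonneg P)
    calc _ ≤ CA p * (1 + ht P) + CB p * (1 + ht P) := add_le_add (hCA p P) (hCB p P)
      _ = (CA p + CB p) * (1 + ht P) := (add_mul _ _ _).symm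
      _ ≤ _ := mul_le_mul_of_nonneg_right a₁ a₂
  obtain ⟨δ₀, hδ₀, hδE, hδM⟩ : ∃ δ₀ : ℝ, 0 < δ₀ ∧ E * δ₀ ≤ δ / 2 ∧ M * δ₀ ≤ η / 2 := by
    refine ⟨min (δ / 2 / (E + 1)) (η / 2 / (M + 1)), by positivity, ?_, ?_⟩
    · refine (mul_le_mul (by linarith : E ≤ E + 1) (min_le_left _ _) (by positivity)
        (by positivity)).trans (le_of_eq ?_)
      field_simp
    · refine (mul_le_mul (by linarith : M ≤ M + 1) (min_le_right _ _) (by positivity)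
        (by positivity)).trans (le_of_eq ?_)
      field_simp
  obtain ⟨Γ, hΓ, hpat⟩ := exists_pats S hη hη2
  choose! H0 hH0 using fun g (hg : g ∈ Γ) => main_pat hD A B (half_pos hη) hδ₀ (hΓ g hg)
  obtain ⟨H, hH1, hH2, hH3⟩ : ∃ H : ℝ, 0 < H ∧ 2 * E / δ ≤ H ∧ ∀ g ∈ Γ, H0 g ≤ H := by
    have a₀ : 0 ≤ ∑ g ∈ Γ, |H0 g| := sum_nonneg fun g _ => abs_nonneg _
    have a₁ : 0 ≤ 2 * E / δ := by positivity
    refine ⟨1 + 2 * E / δ + ∑ g ∈ Γ, |H0 g|, by linarith, by linarith, fun g hg => ?_⟩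
    have a₂ : |H0 g| ≤ ∑ g ∈ Γ, |H0 g| :=
      single_le_sum (f := fun g => |H0 g|) (fun g _ => abs_nonneg _) hg
    have a₃ := le_abs_self (H0 g)
    linarith
  let C₂ : ℝ := ∑ p : Pl S, mu p * (totalWeight K * Real.log 2 + E * (1 + H) + H)
  refine ⟨|C₀ + M| + |C₂|, fun X hX hB hl => ?_⟩
  have n₁ := abs_nonneg (C₀ + M)
  have n₂ := abs_nonneg C₂
  have n₃ := zero_le_logHeight₁ X.2
  have n₄ : 0 ≤ η * HR X := mul_nonneg hη.le (HR_nonneg X)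
  rcases le_total (HR X) H with hle | hle
  · have a₁ : prx (fun p => ell (A p) (B p) X) ≤ C₂ := by
      refine (prx_le _).trans (sum_le_sum fun p _ => ?_)
      refine mul_le_mul_of_nonneg_left ?_ (Nat.cast_nonneg _)
      have c₁ := logHeight₁_add_le (ev X.1 (A p)) (ev X.1 (B p) * X.2)
      have c₂ := logHeight₁_mul_le (ev X.1 (B p)) X.2
      have c₃ := hE X.1 p
      have c₄ : E * (1 + ht X.1) ≤ E * (1 + H) :=
        mul_le_mul_of_nonneg_left (by linarith [ht_le_HR X]) hE0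
      have c₅ := h_le_HR X
      unfold ell
      linarith
    have a₂ := le_abs_self C₂
    linarith
  rcases le_total (ht X.1) (δ₀ * HR X) with hsm | hbig
  · let α : Pl S → K := fun p => -(ev X.1 (A p) * (ev X.1 (B p))⁻¹)
    have e₁ : ∀ p, ell (A p) (B p) X = ev X.1 (B p) * (X.2 - α p) := by
      intro p
      have := hB p
      simp only [ell, α]
      field_simp
      ring
    have a₁ : ∀ p, logHeight₁ (α p) ≤ δ * HR X := by
      intro p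
      have c₁ := logHeight₁_mul_le (ev X.1 (A p)) (ev X.1 (B p))⁻¹
      rw [logHeight₁_inv] at c₁
      have c₂ := hE X.1 p
      have c₃ : E * ht X.1 ≤ E * δ₀ * HR X := by
        rw [mul_assoc]
        exact mul_le_mul_of_nonneg_left hsm hE0
      have c₄ : E * δ₀ * HR X ≤ δ / 2 * HR X := mul_le_mul_of_nonneg_right hδE (HR_nonneg X)
      have c₅ : 2 * E ≤ HR X * δ := (div_le_iff₀ hδ).1 (hH2.trans hle)
      simp only [α, logHeight₁_neg]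
      linarith
    have a₂ : ∀ p, X.2 ≠ α p := by
      intro p h
      exact hl p (by rw [e₁, h, sub_self, mul_zero])
    have a₃ := hro (HR X) X.2 α (h_le_HR X) a₁ a₂
    have a₄ := asm_prx_mul (fun p => ev X.1 (B p)) fun p => X.2 - α p
    have a₅ := hM X.1
    have a₆ : M * ht X.1 ≤ M * δ₀ * HR X := by
      rw [mul_assoc]
      exact mul_le_mul_of_nonneg_left hsm hM0
    have a₇ : M * δ₀ * HR X ≤ η / 2 * HR X := mul_le_mul_of_nonneg_right hδM (HR_nonneg X)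
    have a₈ := le_abs_self (C₀ + M)
    simp only [e₁]
    linarith
  · by_contra hcon
    obtain ⟨g, hg, hp⟩ := hpat (HR X) X.2 (fun p => ell (A p) (B p) X) (hH1.trans_le hle)
      (h_le_HR X) (by linarith [not_le.1 hcon])
    exact hH0 g hg X ((hH3 g hg).trans hle) hX hbig hB hl hp

/- Reduce to `η ≤ 2`.  `rothMov` with `η / 2` gives `δ`; let `α p = -ev A / ev B`, so
`ell = ev B * (t - α)`, `logHeight₁ (α p) ≤ C (1 + ht)` (`ht_ev`) and
`log (max 1 (av ell)⁻¹) ≤ log (max 1 (av (ev B))⁻¹) + log (max 1 (av (t - α))⁻¹)`, `prx_le`: this settles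
`ht X.1 ≤ δ₀ * HR X` for small `δ₀` and large `HR X`.  Otherwise `exists_pats`, `main_pat`.  For bounded
`HR X` use `prx_le`, `ht_ev`. -/
theorem coreR (hD : 4 * a ^ 3 + 27 * b ^ 2 ≠ 0) (A B : Pl S → MvPolynomial (Fin 2) K)
    {η : ℝ} (hη : 0 < η) : ∃ C : ℝ, ∀ X : Pt (a : K) (b : K) × K, X.1 ≠ 0 →
      (∀ p, ev X.1 (B p) ≠ 0) → (∀ p, ell (A p) (B p) X ≠ 0) →
      prx (fun p => ell (A p) (B p) X) ≤ 2 * logHeight₁ X.2 + η * HR X + C := by
  obtain ⟨C, hC⟩ := asm_core hD A B (lt_min hη two_pos) (min_le_right η 2)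
  refine ⟨C, fun X h₁ h₂ h₃ => (hC X h₁ h₂ h₃).trans ?_⟩
  have := mul_le_mul_of_nonneg_right (min_le_left η 2) (HR_nonneg X)
  linarith

end Pool.Agent.Lib.MP_651af7_nt.Rt
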