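import Pool.Agent.Lib.MP_651af7_nt.Rt.Defs
import Pool.Agent.Lib.MP_651af7_nt.P1Arr

/-! The expansion of the auxiliary section and its sizes. -/

namespace Pool.Agent.Lib.MP_651af7_nt.Rt

open Finset Height NumberField Pool.Agent.Lib.MP_e97e2b_nt Pool.Agent.Lib.MP_651af7_nt.Iv
  Pool.Agent.Lib.MP_651af7_nt.Vj Pool.Agent.Lib.MP_651af7_nt.Vj.P1 Pool.Agent.Lib.Common.Subspace
open Pool.Agent.Lib.MP_8865d3_nt.Fa (Small Adm wt)

variable {R R' : Type} [CommRing R] [CommRing R'] {m : ℕ} {T : Fin m → Type} [∀ i, Fintype (T i)]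
  {e : Fin m → ℕ}

theorem map_GR (φ : R →+* R') (c : Col T e → ℤ) (f : ∀ i, T i → R) (t : Fin m → R) :
    φ (GR e c f t) = GR e c (fun i τ => φ (f i τ)) fun i => φ (t i) := by
  simp [GR]

theorem map_GB (φ : R →+* R') (c : Col T e → ℤ) (f : ∀ i, T i → R) (A B : Fin m → R) (β : Ix e) :
    φ (GB e c f A B β) =
      GB e c (fun i τ => φ (f i τ)) (fun i => φ (A i)) (fun i => φ (B i)) β := by
  simp [GB, cf]

theorem map_fA (φ : R →+* R') (a b : ℤ) (d : ℕ) (j : Fin m → ℕ) (l : Fin m → Bool)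
    (x y : Option (Fin m) → R) (i : Fin m) (τ : TA d (j i)) :
    φ (fA a b d j l x y i τ) = fA a b d j l (fun p => φ (x p)) (fun p => φ (y p)) i τ := by
  simp [fA, map_arm]

theorem GR_scale (c : Col T e → ℤ) {f f' : ∀ i, T i → R} (s : Fin m → R)
    (h : ∀ i τ, f' i τ = s i * f i τ) (t : Fin m → R) :
    GR e c f' t = (∏ i, s i) * GR e c f t := by
  unfold GR
  rw [mul_sum]
  refine sum_congr rfl fun τ _ => ?_
  rw [mul_left_comm, ← prod_mul_distrib]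
  simp only [h, mul_assoc]

theorem GB_scale (c : Col T e → ℤ) {f f' : ∀ i, T i → R} (s : Fin m → R)
    (h : ∀ i τ, f' i τ = s i * f i τ) (A B : Fin m → R) (β : Ix e) :
    GB e c f' A B β = (∏ i, s i) * GB e c f A B β := by
  unfold GB
  rw [mul_sum]
  refine sum_congr rfl fun τ _ => ?_
  rw [mul_left_comm, ← prod_mul_distrib]
  simp only [h, mul_assoc]

/- If `β ≤ α ≤ e` the exponents add up to `e - β`; otherwise the binomial coefficient is zero. -/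
theorem GB_smul (c : Col T e → ℤ) (f : ∀ i, T i → R) (s A B : Fin m → R) (β : Ix e) :
    GB e c f (fun i => s i * A i) (fun i => s i * B i) β =
      (∏ i, s i ^ (e i - β i)) * GB e c f A B β := by
  unfold GB
  rw [mul_sum]
  refine sum_congr rfl fun τ _ => ?_
  rw [mul_left_comm, ← prod_mul_distrib]
  congr 1
  refine prod_congr rfl fun i _ => ?_
  rw [mul_left_comm]
  congr 1
  have h1 : ((τ i).2 : ℕ) ≤ e i := Nat.lt_succ_iff.1 (τ i).2.2
  unfold cf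
  rcases lt_or_ge ((τ i).2 : ℕ) (β i) with h | h
  · simp [Nat.choose_eq_zero_of_lt h]
  · rw [show e i - β i = ((τ i).2 - β i) + (e i - (τ i).2) by omega, ← mul_neg, mul_pow, mul_pow,
      pow_add]
    ring

/- As in `GT_law` of `MP_8865d3_nt/Q1Defs`. -/
theorem fA_law (a b : ℤ) (d : ℕ) (j : Fin m → ℕ) (l : Fin m → Bool) (x y : Option (Fin m) → R)
    (ξ : Fin m → R)
    (hξ : ∀ i, (law (a : R) b (j i) (x (some i)) (y (some i)) (x none) (y none) true).1 =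
        ξ i * (law (a : R) b (j i) (x (some i)) (y (some i)) (x none) (y none) false).1 ∧
      (law (a : R) b (j i) (x (some i)) (y (some i)) (x none) (y none) true).2 =
        ξ i * (law (a : R) b (j i) (x (some i)) (y (some i)) (x none) (y none) false).2)
    (i : Fin m) (τ : TA d (j i)) :
    fA a b d j l x y i τ =
      (if l i = true then ξ i ^ d else 1) * fA a b d j (fun _ => false) x y i τ := by
  unfold fA
  rw [← mul_assoc]
  congr 1
  cases l i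
  · simp
  · obtain ⟨k, hk⟩ := Nat.exists_eq_add_of_le (Nat.lt_succ_iff.1 τ.1.1.2)
    simp only [arm, (hξ i).1, (hξ i).2, if_true]
    rw [show d - (τ.1.1 : ℕ) = k by omega]
    conv_rhs => rw [show ξ i ^ d = ξ i ^ ((τ.1.1 : ℕ) + k) by rw [← hk]]
    ring

lemma exp_one {e α : ℕ} (h : α ≤ e) (A B t : R) :
    ∑ β : Fin (e + 1), cf e α β A B * (A + B * t) ^ (β : ℕ) = B ^ e * t ^ α := by
  obtain ⟨k, rfl⟩ := Nat.exists_eq_add_of_le h
  have h1 := add_pow (A + B * t) (-A) α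
  rw [add_neg_cancel_comm, mul_pow] at h1
  rw [Fin.sum_univ_eq_sum_range (fun β => cf (α + k) α β A B * (A + B * t) ^ β),
    ← sum_subset (range_subset_range.2 (by omega : α + 1 ≤ α + k + 1)) fun β _ hβ => by
      rw [cf, Nat.choose_eq_zero_of_lt (by simpa using hβ)]; simp,
    pow_add, mul_right_comm, h1, sum_mul]
  refine sum_congr rfl fun β _ => ?_
  rw [cf, Nat.add_sub_cancel_left]
  ring

/- `B ^ e * t ^ α = B ^ (e - α) * ((A + B t) + (-A)) ^ α = ∑ β ≤ e, cf e α β A B * (A + B t) ^ β`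
(`add_pow`, extend the range since `choose α β = 0` for `α < β`); `Finset.prod_univ_sum`,
`Fintype.piFinset_univ`, `Finset.sum_comm`. -/
theorem expand (c : Col T e → ℤ) (f : ∀ i, T i → R) (t A B : Fin m → R) :
    (∏ i, B i ^ e i) * GR e c f t =
      ∑ β : Ix e, GB e c f A B β * ∏ i, (A i + B i * t i) ^ (β i : ℕ) := by
  unfold GR GB
  simp only [sum_mul]
  rw [sum_comm, mul_sum]
  refine sum_congr rfl fun τ _ => ?_
  simp only [mul_assoc, ← prod_mul_distrib]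
  rw [← mul_sum, mul_left_comm, ← prod_mul_distrib, ← Fintype.piFinset_univ,
    ← prod_univ_sum (fun _ => univ) fun i (β : Fin (e i + 1)) =>
      f i (τ i).1 * (cf (e i) (τ i).2 β (A i) (B i) * (A i + B i * t i) ^ (β : ℕ))]
  congr 1
  refine prod_congr rfl fun i _ => ?_
  rw [← mul_sum, mul_left_comm, exp_one (Nat.lt_succ_iff.1 (τ i).2.2)]

variable {na : Prop} (S : SN R na)

lemma exp_card (e : Fin m → ℕ) : (Fintype.card (Ix e) : ℝ) ≤ ∏ i, (2 : ℝ) ^ e i := by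
  rw [Fintype.card_pi, Nat.cast_prod]
  refine prod_le_prod (fun _ _ => Nat.cast_nonneg _) fun i _ => ?_
  rw [Fintype.card_fin]
  exact_mod_cast Nat.lt_two_pow_self

lemma exp_sum {c : Col T e → ℤ} {Γ : ℝ} (hΓ : 1 ≤ Γ) (hc : ∀ τ, |(c τ : ℝ)| ≤ Γ) {g : Col T e → R}
    {X : ℝ} (hX : 0 ≤ X) (hg : ∀ τ, S.N (g τ) ≤ X) :
    S.N (∑ τ, (c τ : R) * g τ) ≤ E na (Γ * ∏ i, ((Fintype.card (T i) : ℝ) * 2 ^ e i)) * X := by
  refine (S.int_sum_le _ c hX fun τ _ _ => hg τ).trans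
    (mul_le_mul_of_nonneg_right (E_mono ((sum_le_sum fun τ _ => hc τ).trans ?_)) hX)
  rw [sum_const, card_univ, nsmul_eq_mul, mul_comm, Fintype.card_pi, Nat.cast_prod]
  refine mul_le_mul_of_nonneg_left (prod_le_prod (fun _ _ => Nat.cast_nonneg _) fun i _ => ?_)
    (zero_le_one.trans hΓ)
  rw [Fintype.card_prod, Fintype.card_fin, Nat.cast_mul]
  exact mul_le_mul_of_nonneg_left (by exact_mod_cast Nat.lt_two_pow_self) (Nat.cast_nonneg _)

lemma exp_mon {w n : ℕ} {x y : R} {M : ℝ} (hM : 1 ≤ M) (hx : S.N x ≤ M)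
    (hy : S.N y ≤ M ^ 2) {μ : MM w} (h : (μ.1 : ℕ) + 2 * μ.2 ≤ n) : S.N (mon x y μ) ≤ M ^ n := by
  refine (S.mul_le (S.pow_le hx _) (S.pow_le hy _)).trans ?_
  rw [← pow_mul, ← pow_add]
  exact pow_le_pow_right₀ hM h

/- `SN.int_sum_le`, `E_mono`, `e + 1 ≤ 2 ^ e`. -/
theorem locG {c : Col T e → ℤ} {Γ : ℝ} (hΓ : 1 ≤ Γ) (hc : ∀ τ, |(c τ : ℝ)| ≤ Γ)
    {f : ∀ i, T i → R} {F : Fin m → ℝ} (hF : ∀ i, 0 ≤ F i) (hf : ∀ i τ, S.N (f i τ) ≤ F i)
    {t : Fin m → R} {U : Fin m → ℝ} (hU : ∀ i, 1 ≤ U i) (ht : ∀ i, S.N (t i) ≤ U i) :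
    S.N (GR e c f t) ≤
      E na (Γ * ∏ i, ((Fintype.card (T i) : ℝ) * 2 ^ e i)) * ∏ i, (F i * U i ^ e i) := by
  refine exp_sum S hΓ hc (prod_nonneg fun i _ => mul_nonneg (hF i)
    (pow_nonneg (zero_le_one.trans (hU i)) _)) fun τ => S.prod_le _ fun i _ => ?_
  exact S.mul_le (hf _ _) ((S.pow_le (ht i) _).trans
    (pow_le_pow_right₀ (hU i) (Nat.lt_succ_iff.1 (τ i).2.2)))

/- `expand`; only the indices outside `Low` remain; plain triangle inequality `S.add` (a bound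
`E na s ≤ s` for `1 ≤ s` is `E_le_self`); `choose α β ≤ 2 ^ e`, `(e + 1) ^ 2 ≤ 4 ^ e`,
`N (cf ..) ≤ 2 ^ e * M ^ e`, `(M * exp (-γ w)) ^ β ≤ M ^ e * exp (-γ w β)`. -/
theorem locS {c : Col T e → ℤ} {Γ : ℝ} (hΓ : 1 ≤ Γ) (hc : ∀ τ, |(c τ : ℝ)| ≤ Γ)
    {f : ∀ i, T i → R} {F : Fin m → ℝ} (hF : ∀ i, 0 ≤ F i) (hf : ∀ i τ, S.N (f i τ) ≤ F i)
    {t A B : Fin m → R} {M w : Fin m → ℝ} {γ L : ℝ} (hγ : 0 ≤ γ) (hM : ∀ i, 1 ≤ M i)
    (hA : ∀ i, S.N (A i) ≤ M i) (hB : ∀ i, S.N (B i) ≤ M i)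
    (hl : ∀ i, S.N (A i + B i * t i) ≤ M i * Real.exp (-(γ * w i)))
    (h0 : ∀ β ∈ Low e w L, GB e c f A B β = 0) :
    S.N ((∏ i, B i ^ e i) * GR e c f t) ≤
      Γ * (∏ i, ((Fintype.card (T i) : ℝ) * F i * (8 * M i ^ 2) ^ e i)) * Real.exp (-(γ * L)) := by
  let S' : SN R False := ⟨S.N, S.nonneg, S.zero, S.one, S.neg, S.mul, S.add, False.elim⟩
  have hM0 : ∀ i, 0 ≤ M i := fun i => zero_le_one.trans (hM i)
  have hG : ∀ β : Ix e, S.N (GB e c f A B β) ≤ (Γ * ∏ i, ((Fintype.card (T i) : ℝ) * 2 ^ e i)) *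
      ∏ i, (F i * (2 ^ e i * M i ^ e i)) := by
    intro β
    rw [← E_neg_case (na := False) not_false (Γ * _)]
    refine exp_sum S' hΓ hc (prod_nonneg fun i _ => mul_nonneg (hF i)
      (mul_nonneg (by positivity) (pow_nonneg (hM0 i) _))) fun τ => S.prod_le _ fun i _ => ?_
    have h1 : ((τ i).2 : ℕ) ≤ e i := Nat.lt_succ_iff.1 (τ i).2.2
    refine S.mul_le (hf _ _) ?_
    rw [cf, mul_assoc]
    refine S.mul_le ?_ ?_
    · refine (S'.natCast_le _).trans ?_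
      rw [E_neg_case not_false]
      exact_mod_cast (Nat.choose_le_two_pow _ _).trans (Nat.pow_le_pow_right two_pos h1)
    · refine (S.mul_le (S.pow_le ((S.neg _).le.trans (hA i)) _) (S.pow_le (hB i) _)).trans ?_
      rw [← pow_add]
      exact pow_le_pow_right₀ (hM i) (by omega)
  obtain ⟨X, hX⟩ : ∃ X, X = (Γ * ∏ i, ((Fintype.card (T i) : ℝ) * 2 ^ e i)) *
      ∏ i, (F i * (2 ^ e i * M i ^ e i)) := ⟨_, rfl⟩
  rw [← hX] at hG
  have hX0 : 0 ≤ X := (S.nonneg _).trans (hG fun _ => 0)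
  have hP0 : 0 ≤ ∏ i, M i ^ e i := prod_nonneg fun i _ => pow_nonneg (hM0 i) _
  have hY0 : 0 ≤ X * ((∏ i, M i ^ e i) * Real.exp (-(γ * L))) := by positivity
  have h1 := S'.sum_le_card (univ : Finset (Ix e)) hY0
    (f := fun β => GB e c f A B β * ∏ i, (A i + B i * t i) ^ (β i : ℕ)) fun β _ => by
      by_cases hβ : β ∈ Low e w L
      · rw [h0 β hβ, zero_mul]
        exact S.zero.le.trans hY0
      · refine S.mul_le (hG β) ((S.prod_le _ fun i _ => S.pow_le (hl i) _).trans ?_)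
        have h2 : L ≤ ∑ i, ((β i : ℕ) : ℝ) * w i := by simpa [Low] using hβ
        simp only [mul_pow, prod_mul_distrib, ← Real.exp_nat_mul, ← Real.exp_sum]
        refine mul_le_mul (prod_le_prod (fun i _ => pow_nonneg (hM0 i) _) fun i _ =>
          pow_le_pow_right₀ (hM i) (Nat.lt_succ_iff.1 (β i).2)) (Real.exp_le_exp.2 ?_)
          (Real.exp_pos _).le hP0
        have h3 : ∑ i, ((β i : ℕ) : ℝ) * -(γ * w i) = -(γ * ∑ i, ((β i : ℕ) : ℝ) * w i) := by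
          rw [mul_sum, ← sum_neg_distrib]
          exact sum_congr rfl fun i _ => by ring
        rw [h3]
        exact neg_le_neg (mul_le_mul_of_nonneg_left h2 hγ)
  rw [E_neg_case not_false, card_univ] at h1
  rw [expand]
  refine h1.trans ((mul_le_mul_of_nonneg_right (exp_card e) hY0).trans (le_of_eq ?_))
  have h8 : ∀ i, (8 * M i ^ 2) ^ e i = 2 ^ e i * 2 ^ e i * 2 ^ e i * M i ^ e i * M i ^ e i :=
    fun i => by simp only [← mul_pow]; congr 1; ring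
  simp only [hX, h8, prod_mul_distrib]
  ring

/- `exists_arr` of `P1Arr`, `SN.int_sum_le`; the bound for `mon` is as `p1aux_mon` of `P1Aux` (copy
it, do not import `P1Aux`). -/
theorem exists_fA_le (a b : ℤ) (d : ℕ) : ∃ C : ℝ, 1 ≤ C ∧
    ∀ (R : Type) [CommRing R] (na : Prop) (S : SN R na) (m : ℕ) (j : Fin m → ℕ) (l : Fin m → Bool)
      (x y : Option (Fin m) → R) (M : Option (Fin m) → ℝ),
      (∀ p, y p ^ 2 = fc (a : R) b (x p)) → (∀ p, 1 ≤ M p) → (∀ p, S.N (x p) ≤ M p) →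
      (∀ p, S.N (y p) ≤ M p ^ 2) → ∀ i τ, S.N (fA a b d j l x y i τ) ≤
        E na (C ^ 4 ^ j i) * M (some i) ^ ((2 * d + 1) * 4 ^ j i + 2) * M none ^ (2 * d) := by
  obtain ⟨C, hC, h⟩ := exists_arr a b d
  refine ⟨C, hC, fun R _ na S m j l x y M hxy hM hx hy i τ => ?_⟩
  obtain ⟨r, r1, r2, r3⟩ := h (j i) (l i) τ.1
  have hM0 : ∀ p, 0 ≤ M p := fun p => zero_le_one.trans (hM p)
  have h1 : S.N (arm (a : R) b d (j i) (x (some i)) (y (some i)) (x none) (y none) (l i) τ.1) ≤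
      E na (C ^ 4 ^ j i) * (M none ^ (2 * d) * M (some i) ^ ((2 * d + 1) * 4 ^ j i)) := by
    rw [r3 R _ _ _ _ (hxy _) (hxy _), ← sum_product']
    simp only [mul_assoc]
    have h0 : 0 ≤ M none ^ (2 * d) * M (some i) ^ ((2 * d + 1) * 4 ^ j i) :=
      mul_nonneg (pow_nonneg (hM0 _) _) (pow_nonneg (hM0 _) _)
    refine (S.int_sum_le _ (fun q : MM (2 * d) × MM ((2 * d + 1) * 4 ^ j i) => r q.1 q.2) h0
      fun q _ hq => S.mul_le (exp_mon S (hM _) (hx _) (hy _) (r1 _ _ hq).1)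
        (exp_mon S (hM _) (hx _) (hy _) (r1 _ _ hq).2)).trans
      (mul_le_mul_of_nonneg_right (E_mono ?_) h0)
    rw [sum_product' (f := fun ν μ => |(r ν μ : ℝ)|)]
    exact r2
  have h2 : S.N (y (some i) ^ (τ.2 : ℕ)) ≤ M (some i) ^ 2 := by
    refine (S.pow_le (hy _) _).trans ?_
    rw [← pow_mul]
    exact pow_le_pow_right₀ (hM _) (by have := τ.2.2; omega)
  refine (S.mul_le h1 h2).trans (le_of_eq ?_)
  ring

end Pool.Agent.Lib.MP_651af7_nt.Rt
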