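import Pool.Agent.Lib.MP_651af7_nt.Rt.Defs
import Pool.Agent.Lib.MP_8865d3_nt.FaFin

/-! Reduction of the general statement to the core statement. -/

namespace Pool.Agent.Lib.MP_651af7_nt.Rt

open Finset Height NumberField Pool.Agent.Lib.MP_e97e2b_nt Pool.Agent.Lib.MP_651af7_nt.Iv
  Pool.Agent.Lib.MP_651af7_nt.Vj Pool.Agent.Lib.MP_651af7_nt.Vj.P1 Pool.Agent.Lib.Common.Subspace
open Pool.Agent.Lib.MP_8865d3_nt.Fa (Small Adm wt)

open MvPolynomial

variable {K : Type} [Field K] [NumberField K]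

/-- The local height of the divisor of a form of bidegree `(e, 1)` with value `l`. -/
noncomputable def lamR (v : AbsoluteValue K ℝ) (e : ℕ) (P : Fin 3 → K) (s : Fin 2 → K) (l : K) : ℝ :=
  Real.log ((⨆ i, v (P i)) ^ e * (⨆ i, v (s i)) / v l)

theorem fin_up {a b : ℤ} (hD : 4 * a ^ 3 + 27 * b ^ 2 ≠ 0) {v : AbsoluteValue K ℝ} (hv : Adm v)
    (g : MvPolynomial (Fin 2) K) {ε : ℝ} (hε : 0 < ε) :
    ∃ C : ℝ, ∀ P : Pt (a : K) (b : K), P ≠ 0 →
      Real.log (max 1 (v (ev P g))) ≤ ε * ht P + C ∧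
        Real.log (max 1 (v (ev P g))⁻¹) ≤ ε * ht P + C := by
  obtain ⟨C, hC⟩ := MP_8865d3_nt.Fa.fa_abs (κ := Unit) (fun _ => a) (fun _ => b) (fun _ => hD) hv
    (rename ![Sum.inl (), Sum.inr ()] g) hε
  refine ⟨|C|, fun P hP => ?_⟩
  have h0 : 0 ≤ ε * ht P + |C| := add_nonneg (mul_nonneg hε.le (ht_nonneg P)) (abs_nonneg C)
  by_cases hg : ev P g = 0
  · simpa [hg] using h0
  have e : eval (Sum.elim (fun _ : Unit => xc P) fun _ : Unit => yc P)
      (rename ![Sum.inl (), Sum.inr ()] g) = ev P g := by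
    refine (eval_rename _ _ _).trans (congrArg (fun z => eval z g) (funext fun j => ?_))
    fin_cases j <;> rfl
  have h1 := hC (fun _ => P) (fun _ => hP) (e ▸ hg)
  have h2 : MP_8865d3_nt.Fa.HS (K := K) (a := fun _ : Unit => a) (b := fun _ => b)
      (fun _ => P) = ht P := by simp [MP_8865d3_nt.Fa.HS]
  rw [e, h2, abs_le] at h1
  have h3 := le_abs_self C
  constructor
  · rcases le_total 1 (v (ev P g)) with h | h
    · rw [max_eq_right h]
      linarith [h1.2]
    · rwa [max_eq_left h, Real.log_one]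
  · rcases le_total 1 (v (ev P g))⁻¹ with h | h
    · rw [max_eq_right h, Real.log_inv]
      linarith [h1.1]
    · rwa [max_eq_left h, Real.log_one]

theorem fin_up_all {a b : ℤ} (hD : 4 * a ^ 3 + 27 * b ^ 2 ≠ 0) (S : Finset (FinitePlace K))
    {ι : Type} [Fintype ι] (g : ι → MvPolynomial (Fin 2) K) {ε : ℝ} (hε : 0 < ε) :
    ∃ C : ℝ, 0 ≤ C ∧ ∀ P : Pt (a : K) (b : K), P ≠ 0 → ∀ (p : Pl S) (i : ι),
      Real.log (max 1 (av p (ev P (g i)))) ≤ ε * ht P + C ∧
        Real.log (max 1 (av p (ev P (g i)))⁻¹) ≤ ε * ht P + C := by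
  choose C hC using fun q : Pl S × ι => fin_up hD (adm_av q.1) (g q.2) hε
  refine ⟨∑ q, |C q|, Finset.sum_nonneg fun _ _ => abs_nonneg _, fun P hP p i => ?_⟩
  have h1 := Finset.single_le_sum (f := fun q => |C q|) (fun _ _ => abs_nonneg _) (mem_univ (p, i))
  have h2 := le_abs_self (C (p, i))
  have h3 := hC (p, i) P hP
  exact ⟨by linarith [h3.1], by linarith [h3.2]⟩

omit [NumberField K] in
theorem fin_local (v : AbsoluteValue K ℝ) (k : ℕ) {u t A B : K} (hu : u ≠ 0) (hB : B ≠ 0)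
    (hl : A + B * t ≠ 0) :
    Real.log (max (v (u * (1 + k * t))) (v (u * t)) / v (u * (A + B * t))) ≤
      Real.log (2 * (1 + k)) + Real.log (max 1 (v (A + B * t))⁻¹) + Real.log (max 1 (v A)) +
        Real.log (max 1 (v B)⁻¹) := by
  have h1 := v.pos hu
  have h2 := v.pos hB
  have h3 := v.pos hl
  have hk : (0 : ℝ) ≤ k := Nat.cast_nonneg k
  have ht1 : 1 ≤ max 1 (v t) := le_max_left _ _
  have ht2 : v t ≤ max 1 (v t) := le_max_right _ _
  have h4 : max (v (u * (1 + k * t))) (v (u * t)) ≤ v u * ((1 + k) * max 1 (v t)) := by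
    rw [map_mul, map_mul]
    refine max_le (mul_le_mul_of_nonneg_left ?_ h1.le) (mul_le_mul_of_nonneg_left ?_ h1.le)
    · refine (v.add_le _ _).trans ?_
      rw [map_one, map_mul, add_mul, one_mul]
      exact add_le_add ht1 (mul_le_mul (v.apply_nat_le_self k) ht2 (v.nonneg _) hk)
    · exact ht2.trans (le_mul_of_one_le_left (by positivity) (by linarith))
  have ha1 : 1 ≤ max 1 (v A) := le_max_left _ _
  have hb1 : 1 ≤ max 1 (v B)⁻¹ := le_max_left _ _
  have hl1 : 1 ≤ max 1 (v (A + B * t)) := le_max_left _ _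
  have h5 : max 1 (v t) ≤ 2 * (max 1 (v (A + B * t)) * max 1 (v A) * max 1 (v B)⁻¹) := by
    have h6 : 1 ≤ max 1 (v (A + B * t)) * max 1 (v A) := one_le_mul_of_one_le_of_one_le hl1 ha1
    refine max_le (by linarith [one_le_mul_of_one_le_of_one_le h6 hb1]) ?_
    have h7 : v t = v (B * t) * (v B)⁻¹ := by
      rw [map_mul]
      field_simp
    have h8 : v (B * t) ≤ v (A + B * t) + v A := by
      have := v.sub_le_add (A + B * t) A
      rwa [add_sub_cancel_left] at this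
    have h9 : v (A + B * t) ≤ max 1 (v (A + B * t)) * max 1 (v A) :=
      (le_max_right _ _).trans (le_mul_of_one_le_right (by positivity) ha1)
    have h10 : v A ≤ max 1 (v (A + B * t)) * max 1 (v A) :=
      (le_max_right _ _).trans (le_mul_of_one_le_left (by positivity) hl1)
    rw [h7, ← mul_assoc]
    exact mul_le_mul (by linarith) (le_max_right _ _) (by positivity) (by positivity)
  have h6 : max 1 (v (A + B * t)) = v (A + B * t) * max 1 (v (A + B * t))⁻¹ := by
    rw [mul_max_of_nonneg _ _ h3.le, mul_one, mul_inv_cancel₀ h3.ne', max_comm]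
  have hpos : 0 < max (v (u * (1 + k * t))) (v (u * t)) := by
    by_cases ht : t = 0
    · exact lt_max_of_lt_left (v.pos (by simpa [ht] using hu))
    · exact lt_max_of_lt_right (v.pos (mul_ne_zero hu ht))
  rw [← Real.log_mul (by positivity) (by positivity), ← Real.log_mul (by positivity) (by positivity),
    ← Real.log_mul (by positivity) (by positivity)]
  refine Real.log_le_log (div_pos hpos (v.pos (mul_ne_zero hu hl))) ?_
  rw [div_le_iff₀ (v.pos (mul_ne_zero hu hl)), map_mul v u (A + B * t)]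
  refine h4.trans ((mul_le_mul_of_nonneg_left (mul_le_mul_of_nonneg_left h5 (by positivity))
    h1.le).trans (le_of_eq ?_))
  rw [h6]
  ring

omit [NumberField K] in
theorem fin_exists_k [CharZero K] {ι : Type} [Fintype ι] (c d : ι → K)
    (h : ∀ i, c i ≠ 0 ∨ d i ≠ 0) : ∃ k ∈ range (Fintype.card ι + 1), ∀ i, c i + k * d i ≠ 0 := by
  classical
  by_contra hc
  push Not at hc
  choose f hf using hc
  have hinj : Function.Injective fun k : range (Fintype.card ι + 1) => f k.1 k.2 := by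
    intro k k' hk
    have h1 := hf k.1 k.2
    have h2 := hf k'.1 k'.2
    simp only at hk
    rw [← hk] at h2
    have h3 : ((k.1 : K) - k'.1) * d (f k.1 k.2) = 0 := by linear_combination h1 - h2
    rcases mul_eq_zero.1 h3 with h4 | h4
    · exact Subtype.ext (Nat.cast_injective (R := K) (sub_eq_zero.1 h4))
    · rcases h (f k.1 k.2) with h5 | h5
      · exact absurd (by simpa [h4] using h1) h5
      · exact absurd h4 h5
  have := Fintype.card_le_of_injective _ hinj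
  simp at this

theorem fin_ht (k : ℕ) : ∃ C : ℝ, ∀ s₀ s₁ : K,
    logHeight₁ (s₁ / (s₀ - k * s₁)) ≤ logHeight ![s₀, s₁] + C := by
  obtain ⟨C, hC⟩ := logHeight_eval_le' (K := K) (ι := Fin 2) (ι' := Fin 2) (N := 1)
    (p := ![X 1, X 0 - MvPolynomial.C (k : K) * X 1]) (fun i => by
      fin_cases i
      · exact isHomogeneous_X _ _
      · exact (isHomogeneous_X _ _).sub ((isHomogeneous_X _ _).C_mul _))
  refine ⟨C, fun s₀ s₁ => ?_⟩
  have h1 := hC ![s₀, s₁]
  have h2 : (fun j => eval ![s₀, s₁] ((![X 1, X 0 - MvPolynomial.C (k : K) * X 1] :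
      Fin 2 → MvPolynomial (Fin 2) K) j)) = ![s₁, s₀ - k * s₁] := by
    funext j
    fin_cases j <;> simp
  rw [h2] at h1
  rw [logHeight₁_div_eq_logHeight]
  push_cast at h1
  linarith

omit [NumberField K] in
theorem fin_other (v : AbsoluteValue K ℝ) {s₀ s₁ Ai Bi Aj Bj : K} (hΔ : Ai * Bj - Aj * Bi ≠ 0)
    (hi : Ai * s₀ + Bi * s₁ ≠ 0) (hij : v (Aj * s₀ + Bj * s₁) ≤ v (Ai * s₀ + Bi * s₁)) {T : ℝ}
    (h1 : Real.log (max 1 (v Ai)) ≤ T) (h2 : Real.log (max 1 (v Bi)) ≤ T)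
    (h3 : Real.log (max 1 (v Aj)) ≤ T) (h4 : Real.log (max 1 (v Bj)) ≤ T)
    (h5 : Real.log (max 1 (v (Ai * Bj - Aj * Bi))⁻¹) ≤ T) :
    Real.log (max (v s₀) (v s₁) / v (Ai * s₀ + Bi * s₁)) ≤ Real.log 2 + 2 * T := by
  have hl := v.pos hi
  have hd := v.pos hΔ
  have hb : ∀ z : K, Real.log (max 1 (v z)) ≤ T → v z ≤ Real.exp T := fun z hz =>
    (le_max_right 1 _).trans ((Real.log_le_iff_le_exp (by positivity)).1 hz)
  have h6 : (v (Ai * Bj - Aj * Bi))⁻¹ ≤ Real.exp T :=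
    (le_max_right 1 _).trans ((Real.log_le_iff_le_exp (by positivity)).1 h5)
  have key : ∀ s c d : K, (Ai * Bj - Aj * Bi) * s =
      c * (Ai * s₀ + Bi * s₁) - d * (Aj * s₀ + Bj * s₁) → v c ≤ Real.exp T → v d ≤ Real.exp T →
      v s ≤ 2 * Real.exp T * Real.exp T * v (Ai * s₀ + Bi * s₁) := by
    intro s c d he hc hd'
    have h7 := v.sub_le_add (c * (Ai * s₀ + Bi * s₁)) (d * (Aj * s₀ + Bj * s₁))
    rw [← he, map_mul, map_mul, map_mul] at h7
    have h8 := mul_le_mul hc le_rfl hl.le (Real.exp_pos T).le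
    have h9 := mul_le_mul hd' hij (v.nonneg _) (Real.exp_pos T).le
    have h10 : v s = (v (Ai * Bj - Aj * Bi))⁻¹ * (v (Ai * Bj - Aj * Bi) * v s) := by
      field_simp
    rw [h10]
    refine (mul_le_mul h6 (h7.trans (add_le_add h8 h9)) (by positivity)
      (Real.exp_pos T).le).trans (le_of_eq ?_)
    ring
  have h7 : max (v s₀) (v s₁) ≤ 2 * Real.exp T * Real.exp T * v (Ai * s₀ + Bi * s₁) :=
    max_le (key s₀ Bj Bi (by ring) (hb _ h4) (hb _ h2)) (by
      have := key s₁ (-Aj) (-Ai) (by ring) (by simpa using hb _ h3) (by simpa using hb _ h1)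
      exact this)
  have hpos : 0 < max (v s₀) (v s₁) := by
    by_cases h0 : s₀ = 0
    · exact lt_max_of_lt_right (v.pos fun h => hi (by simp [h0, h]))
    · exact lt_max_of_lt_left (v.pos h0)
  refine (Real.log_le_log (div_pos hpos hl) ((div_le_iff₀ hl).2 h7)).trans (le_of_eq ?_)
  rw [Real.log_mul (by positivity) (by positivity), Real.log_mul (by positivity) (by positivity),
    Real.log_exp]
  ring

omit [NumberField K] in
theorem fin_lam (v : AbsoluteValue K ℝ) (e : ℕ) {x y s₀ s₁ l : K} (hl : l ≠ 0)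
    (hs : s₀ ≠ 0 ∨ s₁ ≠ 0) {T : ℝ} (hx : Real.log (max 1 (v x)) ≤ T)
    (hy : Real.log (max 1 (v y)) ≤ T) :
    lamR v e ![x, y, 1] ![s₀, s₁] l ≤ e * T + Real.log (max (v s₀) (v s₁) / v l) := by
  have h1 : (⨆ i, v (![s₀, s₁] i)) = max (v s₀) (v s₁) := by
    refine le_antisymm (ciSup_le fun i => ?_) (max_le
      (le_ciSup (f := fun i => v (![s₀, s₁] i)) (Set.finite_range _).bddAbove 0)
      (le_ciSup (f := fun i => v (![s₀, s₁] i)) (Set.finite_range _).bddAbove 1))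
    fin_cases i
    exacts [le_max_left _ _, le_max_right _ _]
  have h2 : 1 ≤ ⨆ i, v (![x, y, 1] i) := by
    have := le_ciSup (f := fun i => v (![x, y, 1] i)) (Set.finite_range _).bddAbove 2
    simpa using this
  have hb : ∀ z : K, Real.log (max 1 (v z)) ≤ T → max 1 (v z) ≤ Real.exp T := fun z hz =>
    (Real.log_le_iff_le_exp (by positivity)).1 hz
  have h3 : (⨆ i, v (![x, y, 1] i)) ≤ Real.exp T := by
    refine ciSup_le fun i => ?_
    fin_cases i
    · exact (le_max_right _ _).trans (hb _ hx)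
    · exact (le_max_right _ _).trans (hb _ hy)
    · simpa using (le_max_left _ _).trans (hb _ hx)
  have hpos : 0 < max (v s₀) (v s₁) :=
    hs.elim (fun h => lt_max_of_lt_left (v.pos h)) fun h => lt_max_of_lt_right (v.pos h)
  have h4 : Real.log (⨆ i, v (![x, y, 1] i)) ≤ T :=
    (Real.log_le_iff_le_exp (by positivity)).2 h3
  rw [lamR, h1, mul_div_assoc, Real.log_mul (by positivity) (div_pos hpos (v.pos hl)).ne',
    Real.log_pow]
  have := mul_le_mul_of_nonneg_left h4 (Nat.cast_nonneg (α := ℝ) e)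
  linarith

/- One target at each place, homogeneous coordinates, short curve.  For the point `(P, s)` choose
`k ∈ range (card (Pl S) + 2)` with `s₀ - k s₁ ≠ 0` and `ev (B p) + k ev (A p) ≠ 0` for all `p` (each
condition excludes at most one `k`; note `s ≠ 0` because `Pl S` is nonempty).  Put `t = s₁ / (s₀ - k s₁)`,
`B' = B + k A`; the value of the form is `(s₀ - k s₁) * ell A B' (P, t)`; `coreR` for each of the
finitely many `k`; `max (v s₀) (v s₁) ≤ (1 + k) * v (s₀ - k s₁) * max 1 (v t)`;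
`max 1 (v t) ≤ max 1 (v ell) * (1 + v A) * max 1 (v B')⁻¹`, `Fa.fa_abs`;
`logHeight₁ t ≤ logHeight ![s₀, s₁] + C`. -/
theorem one_target (H : ∀ (S : Finset (FinitePlace K)) (a b : ℤ), 4 * a ^ 3 + 27 * b ^ 2 ≠ 0 →
      ∀ (A B : Pl S → MvPolynomial (Fin 2) K) (η : ℝ), 0 < η → ∃ C : ℝ,
      ∀ X : Pt (a : K) (b : K) × K, X.1 ≠ 0 → (∀ p, ev X.1 (B p) ≠ 0) →
        (∀ p, ell (A p) (B p) X ≠ 0) →
        prx (fun p => ell (A p) (B p) X) ≤ 2 * logHeight₁ X.2 + η * HR X + C)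
    (S : Finset (FinitePlace K)) {a b : ℤ} (hD : 4 * a ^ 3 + 27 * b ^ 2 ≠ 0)
    (A B : Pl S → MvPolynomial (Fin 2) K) {η : ℝ} (hη : 0 < η) :
    ∃ C : ℝ, ∀ (P : Pt (a : K) (b : K)) (s₀ s₁ : K), P ≠ 0 →
      (∀ p, ev P (A p) * s₀ + ev P (B p) * s₁ ≠ 0) →
      ∑ p : Pl S, mu p * Real.log (max (av p s₀) (av p s₁) /
        av p (ev P (A p) * s₀ + ev P (B p) * s₁)) ≤
        2 * logHeight ![s₀, s₁] + η * (ht P + logHeight ![s₀, s₁]) + C := by
  classical
  set M : ℝ := ∑ p : Pl S, (mu p : ℝ) with hM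
  have hM0 : 0 ≤ M := Finset.sum_nonneg fun _ _ => Nat.cast_nonneg _
  set N := Fintype.card (Option (Pl S)) + 1 with hN
  have hη2 : 0 < η / 2 := half_pos hη
  have hε : 0 < η / (4 * (M + 1)) := by positivity
  choose C₁ hC₁ using fun k : ℕ => H S a b hD A (fun p => B p + C (k : K) * A p) (η / 2) hη2
  choose C₂ hC₂ using fun k : ℕ => fin_ht (K := K) k
  obtain ⟨C₃, -, hC₃⟩ := fin_up_all hD S A hε
  obtain ⟨C₄, -, hC₄⟩ := fin_up_all hD S
    (fun q : Fin N × Pl S => B q.2 + C ((q.1 : ℕ) : K) * A q.2) hε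
  refine ⟨∑ k ∈ range N, |C₁ k + (2 + η / 2) * C₂ k + M * (Real.log (2 * (1 + k)) + C₃ + C₄)|,
    fun P s₀ s₁ hP hl => ?_⟩
  obtain ⟨p₀⟩ : Nonempty (Pl S) := ⟨Sum.inl (Classical.arbitrary _)⟩
  obtain ⟨k, hk, hk'⟩ := fin_exists_k (ι := Option (Pl S))
    (fun o => o.elim s₀ fun p => ev P (B p)) (fun o => o.elim (-s₁) fun p => ev P (A p)) (by
      rintro (_ | p)
      · by_contra hc
        push Not at hc
        simp only [Option.elim_none, neg_eq_zero] at hc
        exact hl p₀ (by simp [hc.1, hc.2])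
      · by_contra hc
        push Not at hc
        simp only [Option.elim_some] at hc
        exact hl p (by simp [hc.1, hc.2]))
  have hu : s₀ - k * s₁ ≠ 0 := by simpa [sub_eq_add_neg] using hk' none
  have hev : ∀ p, ev P (B p + C (k : K) * A p) = ev P (B p) + k * ev P (A p) := fun p => by
    simp [ev]
  have hB : ∀ p, ev P (B p + C (k : K) * A p) ≠ 0 := fun p => by
    rw [hev]
    exact hk' (some p)
  set u := s₀ - k * s₁ with hu'
  set t := s₁ / u with ht'
  have e1 : s₁ = u * t := by rw [ht', mul_div_cancel₀ _ hu]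
  have e0 : s₀ = u * (1 + k * t) := by
    rw [mul_add, mul_one, mul_left_comm, ← e1, hu', sub_add_cancel]
  have e2 : ∀ p, ev P (A p) * s₀ + ev P (B p) * s₁ =
      u * (ev P (A p) + ev P (B p + C (k : K) * A p) * t) := fun p => by
    rw [hev]
    conv_lhs => rw [e0, e1]
    ring
  have hl' : ∀ p, ev P (A p) + ev P (B p + C (k : K) * A p) * t ≠ 0 := fun p h =>
    hl p (by rw [e2, h, mul_zero])
  have h1 := hC₁ k (P, t) hP hB hl'
  have h2 : logHeight₁ t ≤ logHeight ![s₀, s₁] + C₂ k := hC₂ k s₀ s₁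
  have h3 : ∑ p : Pl S, mu p * Real.log (max (av p s₀) (av p s₁) /
      av p (ev P (A p) * s₀ + ev P (B p) * s₁)) ≤
      ∑ p : Pl S, (mu p * Real.log (max 1 (av p (ell (A p) (B p + C (k : K) * A p) (P, t)))⁻¹) +
        mu p * (Real.log (2 * (1 + k)) + C₃ + C₄ + 2 * (η / (4 * (M + 1)) * ht P))) := by
    refine Finset.sum_le_sum fun p _ => ?_
    rw [← mul_add]
    refine mul_le_mul_of_nonneg_left ?_ (Nat.cast_nonneg _)
    have h4 := fin_local (av p) k hu (hB p) (hl' p)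
    rw [← e0, ← e1, ← e2] at h4
    have h5 := (hC₃ P hP p p).1
    have h6 := (hC₄ P hP p (⟨k, mem_range.1 hk⟩, p)).2
    simp only at h6
    simp only [ell]
    linarith
  rw [Finset.sum_add_distrib, ← Finset.sum_mul, ← hM] at h3
  have h4 := Finset.single_le_sum (f := fun k : ℕ =>
    |C₁ k + (2 + η / 2) * C₂ k + M * (Real.log (2 * (1 + k)) + C₃ + C₄)|)
    (fun _ _ => abs_nonneg _) hk
  have h5 := le_abs_self (C₁ k + (2 + η / 2) * C₂ k + M * (Real.log (2 * (1 + k)) + C₃ + C₄))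
  have h6 : M * (2 * (η / (4 * (M + 1)) * ht P)) ≤ η / 2 * ht P := by
    have h7 : (M + 1) * (2 * (η / (4 * (M + 1)) * ht P)) = η / 2 * ht P := by
      field_simp
      ring
    have h8 : 0 ≤ 2 * (η / (4 * (M + 1)) * ht P) :=
      mul_nonneg two_pos.le (mul_nonneg hε.le (ht_nonneg P))
    linarith
  have h7 := mul_le_mul_of_nonneg_left h2 hη2.le
  have h8 := mul_nonneg hη2.le (logHeight_nonneg ![s₀, s₁])
  simp only [prx, HR] at h1
  linarith

/- `Fa.exists_short_inv` (`FaFin`) moves to a short curve (`A j` becomes `aeval ![φ 0, φ 1] (A j)`,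
`fin_eval_aeval`).  For `n = 0` the left side is `0`.  At each place `p` let `J p` minimise
`av p (l j)`; `one_target` for each of the finitely many functions `J`.  For `i ≠ J p`, with
`Δ = A i B j - A j B i`: `Δ s₀ = B j l i - B i l j`, `Δ s₁ = A i l j - A j l i`, so
`v Δ * max (v s₀) (v s₁) ≤ 2 * max (coefficients) * v (l i)`; `Fa.fa_abs` bounds `-log (v Δ)`, the
coefficients and `log (⨆ i, v (![x, y, 1] i))`. -/
theorem vojtaR (H : ∀ (S : Finset (FinitePlace K)) (a b : ℤ), 4 * a ^ 3 + 27 * b ^ 2 ≠ 0 →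
      ∀ (A B : Pl S → MvPolynomial (Fin 2) K) (η : ℝ), 0 < η → ∃ C : ℝ,
      ∀ X : Pt (a : K) (b : K) × K, X.1 ≠ 0 → (∀ p, ev X.1 (B p) ≠ 0) →
        (∀ p, ell (A p) (B p) X ≠ 0) →
        prx (fun p => ell (A p) (B p) X) ≤ 2 * logHeight₁ X.2 + η * HR X + C)
    (W : WeierstrassCurve ℚ) [W.IsElliptic] (n : ℕ) (A B : Fin n → MvPolynomial (Fin 2) K)
    (e : Fin n → ℕ) (S : Finset (FinitePlace K)) {ε : ℝ} (hε : 0 < ε) :
    ∃ C : ℝ, ∀ x y s₀ s₁ : K, (W.map (algebraMap ℚ K)).toAffine.Equation x y →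
      (∀ i j, i ≠ j → eval ![x, y] (A i * B j - A j * B i) ≠ 0) →
      (∀ j, eval ![x, y] (A j) * s₀ + eval ![x, y] (B j) * s₁ ≠ 0) →
      ∑ p : Pl S, mu p * ∑ j, lamR (av p) (e j) ![x, y, 1] ![s₀, s₁]
        (eval ![x, y] (A j) * s₀ + eval ![x, y] (B j) * s₁) ≤
        2 * logHeight ![s₀, s₁] + ε * (logHeight₁ x + logHeight ![s₀, s₁]) + C := by
  classical
  rcases Nat.eq_zero_or_pos n with rfl | hn
  · refine ⟨0, fun x y s₀ s₁ _ _ _ => ?_⟩
    have h1 := logHeight_nonneg ![s₀, s₁]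
    have h2 := mul_nonneg hε.le (add_nonneg (zero_le_logHeight₁ x) h1)
    simp only [univ_eq_empty, sum_empty, mul_zero, sum_const_zero]
    linarith
  have : Nonempty (Fin n) := ⟨⟨0, hn⟩⟩
  obtain ⟨a, b, C₀, φ, hD, hφ⟩ := MP_8865d3_nt.Fa.exists_short_inv (K := K) W
  set M : ℝ := ∑ p : Pl S, (mu p : ℝ) with hM
  have hM0 : 0 ≤ M := Finset.sum_nonneg fun _ _ => Nat.cast_nonneg _
  set E : ℝ := ∑ j, ((e j : ℝ) + 2) with hE
  have hE0 : 0 ≤ E := Finset.sum_nonneg fun _ _ => by positivity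
  have hε2 : 0 < ε / 2 := half_pos hε
  have hε' : 0 < ε / (2 * (M * E + 1)) := by positivity
  let ψ : MvPolynomial (Fin 2) K → MvPolynomial (Fin 2) K := fun g => aeval ![φ 0, φ 1] g
  choose C₁ hC₁ using fun J : Pl S → Fin n =>
    one_target H S hD (fun p => ψ (A (J p))) (fun p => ψ (B (J p))) hε2
  obtain ⟨C₂, hC₂0, hC₂⟩ := fin_up_all hD S (ι := (Fin n ⊕ Fin n) ⊕ (Fin n × Fin n) ⊕ Fin 2)
    (Sum.elim (Sum.elim (fun i => ψ (A i)) fun i => ψ (B i))
      (Sum.elim (fun q => ψ (A q.1 * B q.2 - A q.2 * B q.1)) fun i => ψ (X i))) hε'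
  refine ⟨∑ J, |C₁ J| + ε * C₀ + M * (E * C₂ + n * Real.log 2), fun x y s₀ s₁ he hΔ hl => ?_⟩
  obtain ⟨P, hP, hht, hxy⟩ := hφ x y he
  have hψ : ∀ g, ev P (ψ g) = eval ![x, y] g := fun g => by
    rw [ev, MP_8865d3_nt.Fa.fin_eval_aeval]
    refine congrArg (fun z => eval z g) (funext fun j => ?_)
    fin_cases j
    · exact hxy 0
    · exact hxy 1
  choose J hJ using fun p : Pl S => Finite.exists_min fun j =>
    av p (eval ![x, y] (A j) * s₀ + eval ![x, y] (B j) * s₁)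
  set T := ε / (2 * (M * E + 1)) * ht P + C₂ with hT
  have hT0 : 0 ≤ T := add_nonneg (mul_nonneg hε'.le (ht_nonneg P)) hC₂0
  have hs : s₀ ≠ 0 ∨ s₁ ≠ 0 := by
    by_contra hc
    push Not at hc
    exact hl ⟨0, hn⟩ (by simp [hc.1, hc.2])
  have h1 := hC₁ J P s₀ s₁ hP fun p => by
    rw [hψ, hψ]
    exact hl _
  simp only [hψ] at h1
  have h2 : ∀ p : Pl S, ∑ j, lamR (av p) (e j) ![x, y, 1] ![s₀, s₁]
      (eval ![x, y] (A j) * s₀ + eval ![x, y] (B j) * s₁) ≤
      Real.log (max (av p s₀) (av p s₁) /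
        av p (eval ![x, y] (A (J p)) * s₀ + eval ![x, y] (B (J p)) * s₁)) +
        (E * T + n * Real.log 2) := by
    intro p
    have hA : ∀ i, Real.log (max 1 (av p (eval ![x, y] (A i)))) ≤ T := fun i => by
      simpa only [Sum.elim_inl, hψ] using (hC₂ P hP p (Sum.inl (Sum.inl i))).1
    have hB : ∀ i, Real.log (max 1 (av p (eval ![x, y] (B i)))) ≤ T := fun i => by
      simpa only [Sum.elim_inl, Sum.elim_inr, hψ] using (hC₂ P hP p (Sum.inl (Sum.inr i))).1
    have hx : Real.log (max 1 (av p x)) ≤ T := by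
      simpa [hψ] using (hC₂ P hP p (Sum.inr (Sum.inr 0))).1
    have hy : Real.log (max 1 (av p y)) ≤ T := by
      simpa [hψ] using (hC₂ P hP p (Sum.inr (Sum.inr 1))).1
    have hlog : 0 ≤ Real.log 2 := Real.log_nonneg one_le_two
    have h3 : ∀ j, lamR (av p) (e j) ![x, y, 1] ![s₀, s₁]
        (eval ![x, y] (A j) * s₀ + eval ![x, y] (B j) * s₁) ≤
        (if j = J p then Real.log (max (av p s₀) (av p s₁) /
          av p (eval ![x, y] (A (J p)) * s₀ + eval ![x, y] (B (J p)) * s₁)) else 0) +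
          (((e j : ℝ) + 2) * T + Real.log 2) := by
      intro j
      have h4 := fin_lam (av p) (e j) (hl j) hs hx hy
      split_ifs with hj
      · rw [← hj]
        linarith
      · have h5 := (hC₂ P hP p (Sum.inr (Sum.inl (j, J p)))).2
        have h6 := hΔ j (J p) hj
        simp only [Sum.elim_inl, Sum.elim_inr, hψ, map_sub, map_mul] at h5 h6
        have h7 := fin_other (av p) h6 (hl j) (hJ p j) (hA j) (hB j) (hA _) (hB _) h5
        linarith
    refine (Finset.sum_le_sum fun j _ => h3 j).trans (le_of_eq ?_)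
    rw [Finset.sum_add_distrib, Finset.sum_ite_eq', if_pos (mem_univ _), Finset.sum_add_distrib,
      ← Finset.sum_mul, ← hE]
    simp
  have h3 := Finset.sum_le_sum fun p (_ : p ∈ (univ : Finset (Pl S))) =>
    mul_le_mul_of_nonneg_left (h2 p) (Nat.cast_nonneg (α := ℝ) (mu p))
  simp only [mul_add (mu _ : ℝ) (Real.log _)] at h3
  rw [Finset.sum_add_distrib, ← Finset.sum_mul, ← hM] at h3
  have h4 := Finset.single_le_sum (f := fun J => |C₁ J|) (fun _ _ => abs_nonneg _) (mem_univ J)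
  have h5 := le_abs_self (C₁ J)
  have h6 : M * E * (ε / (2 * (M * E + 1)) * ht P) ≤ ε / 2 * ht P := by
    have h7 : (M * E + 1) * (ε / (2 * (M * E + 1)) * ht P) = ε / 2 * ht P := by
      field_simp
    have h8 := mul_nonneg hε'.le (ht_nonneg P)
    linarith
  have h7 := mul_le_mul_of_nonneg_left hht hε.le
  have h8 := mul_nonneg hε2.le (logHeight_nonneg ![s₀, s₁])
  have h9 : M * (E * T + n * Real.log 2) =
      M * E * (ε / (2 * (M * E + 1)) * ht P) + M * (E * C₂ + n * Real.log 2) := by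
    rw [hT]
    ring
  linarith

end Pool.Agent.Lib.MP_651af7_nt.Rt
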