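import Pool.Agent.Lib.MP_651af7_nt.Rt.Asm
import Pool.Agent.Lib.MP_651af7_nt.Rt.Fin

namespace Pool.Agent.Results.MP_651af7_nt.MovingRoth

open Height MvPolynomial NumberField

/-- The local height at `v` of a divisor of bidegree `(e, 1)` on the product of the projective
plane and the projective line at the point `(P, s)`, where the form has the value `l`. -/
noncomputable def lam {k : Type} [Field k] (v : AbsoluteValue k ℝ) (e : ℕ) (P : Fin 3 → k)
    (s : Fin 2 → k) (l : k) : ℝ :=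
  Real.log ((⨆ i, v (P i)) ^ e * (⨆ i, v (s i)) / v l)

/-- Vojta's inequality for rational points on the product of an elliptic curve and a line, for
sums of graphs of functions on the curve and of fibres. -/
theorem result (W : WeierstrassCurve ℚ) [W.IsElliptic] (k : Type) [Field k] [NumberField k]
    (n : ℕ) (A B : Fin n → MvPolynomial (Fin 2) k) (e : Fin n → ℕ) (S : Finset (FinitePlace k))
    (ε : ℝ) (hε : 0 < ε) :
    ∃ C : ℝ, ∀ x y s₀ s₁ : k, (W.map (algebraMap ℚ k)).toAffine.Equation x y →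
      (∀ i j, i ≠ j → eval ![x, y] (A i * B j - A j * B i) ≠ 0) →
      (∀ j, eval ![x, y] (A j) * s₀ + eval ![x, y] (B j) * s₁ ≠ 0) →
      ∑ w : InfinitePlace k, w.mult * ∑ j, lam w.1 (e j) ![x, y, 1] ![s₀, s₁]
          (eval ![x, y] (A j) * s₀ + eval ![x, y] (B j) * s₁) +
        ∑ w ∈ S, ∑ j, lam w.1 (e j) ![x, y, 1] ![s₀, s₁]
          (eval ![x, y] (A j) * s₀ + eval ![x, y] (B j) * s₁) ≤
        2 * logHeight ![s₀, s₁] + ε * (logHeight₁ x + logHeight ![s₀, s₁]) + C := by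
  obtain ⟨C, hC⟩ := Pool.Agent.Lib.MP_651af7_nt.Rt.vojtaR (K := k)
    (fun _ _ _ hD A B _ hη => Pool.Agent.Lib.MP_651af7_nt.Rt.coreR hD A B hη) W n A B e S hε
  refine ⟨C, fun x y s₀ s₁ h1 h2 h3 => ?_⟩
  have h := hC x y s₀ s₁ h1 h2 h3
  rw [Fintype.sum_sum_type] at h
  rw [← Finset.sum_coe_sort S]
  simp only [Pool.Agent.Lib.MP_651af7_nt.Rt.mu, Pool.Agent.Lib.MP_651af7_nt.Rt.av, Sum.elim_inl,
    Sum.elim_inr, Nat.cast_one, one_mul] at h
  exact h

end Pool.Agent.Results.MP_651af7_nt.MovingRoth
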