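import Pool.Agent.Lib.MP_651af7_nt.Rt.Defs

/-! Linear algebra for the rank bound. -/

namespace Pool.Agent.Lib.MP_651af7_nt.Rt

open Finset Height NumberField Pool.Agent.Lib.MP_e97e2b_nt Pool.Agent.Lib.MP_651af7_nt.Iv
  Pool.Agent.Lib.MP_651af7_nt.Vj Pool.Agent.Lib.MP_651af7_nt.Vj.P1 Pool.Agent.Lib.Common.Subspace
open Pool.Agent.Lib.MP_8865d3_nt.Fa (Small Adm wt)

variable {F : Type} [Field F]

/- Row rank equals column rank (`Matrix.rank_transpose`, `Matrix.rank_eq_finrank_span_cols`,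
`Matrix.rank_eq_finrank_span_row`); choose a basis of the row space among the rows
(`exists_linearIndependent'` or `Submodule.exists_fun_fin_finrank_span_eq`), pad with any row. -/
theorem exists_rows {T U : Type} [Fintype T] [Fintype U] [Nonempty U] (ρ : T → U → F) {n : ℕ}
    (h : Module.finrank F (Submodule.span F (Set.range ρ)) ≤ n) :
    ∃ g : Fin n → U, ∀ μ, ∃ c : Fin n → F, ∀ τ, ρ τ μ = ∑ k, c k * ρ τ (g k) := by
  classical
  have h1 : Module.finrank F (Submodule.span F (Set.range (Matrix.of ρ).col)) ≤ n := by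
    rw [← Matrix.rank_eq_finrank_span_cols, Matrix.rank_eq_finrank_span_row]
    exact h
  obtain ⟨f, hf, hs, -⟩ := Submodule.exists_fun_fin_finrank_span_eq F (Set.range (Matrix.of ρ).col)
  choose g0 hg0 using hf
  refine ⟨fun k => if hk : (k : ℕ) < _ then g0 ⟨k, hk⟩ else Classical.arbitrary U, fun μ => ?_⟩
  have h2 : (Matrix.of ρ).col μ ∈ Submodule.span F (Set.range fun k : Fin n =>
      (Matrix.of ρ).col (if hk : (k : ℕ) < _ then g0 ⟨k, hk⟩ else Classical.arbitrary U)) := by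
    have h3 : (Matrix.of ρ).col μ ∈ Submodule.span F (Set.range f) := by
      rw [hs]
      exact Submodule.subset_span ⟨μ, rfl⟩
    refine Submodule.span_mono ?_ h3
    rintro _ ⟨i, rfl⟩
    exact ⟨⟨i, i.2.trans_le h1⟩, by simp [hg0]⟩
  obtain ⟨c, hc⟩ := (Submodule.mem_span_range_iff_exists_fun F).1 h2
  refine ⟨c, fun τ => ?_⟩
  have h4 := congrFun hc τ
  rw [Finset.sum_apply] at h4
  exact h4.symm

/- `Finset.prod_univ_sum`, `Finset.sum_comm`. -/
theorem tens_rows {m : ℕ} {T U N : Fin m → Type} [∀ i, Fintype (T i)] [∀ i, Fintype (N i)]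
    (ρ : ∀ i, T i → U i → F) (g : ∀ i, N i → U i)
    (h : ∀ i μ, ∃ c : N i → F, ∀ τ, ρ i τ μ = ∑ k, c k * ρ i τ (g i k)) (c : (∀ i, T i) → F)
    (hc : ∀ k : ∀ i, N i, ∑ τ, c τ * ∏ i, ρ i (τ i) (g i (k i)) = 0) (μ : ∀ i, U i) :
    ∑ τ, c τ * ∏ i, ρ i (τ i) (μ i) = 0 := by
  choose d hd using fun i => h i (μ i)
  have e : ∀ τ : ∀ i, T i, c τ * ∏ i, ρ i (τ i) (μ i) =
      ∑ k : ∀ i, N i, (∏ i, d i (k i)) * (c τ * ∏ i, ρ i (τ i) (g i (k i))) := fun τ => by
    simp only [hd]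
    rw [Finset.prod_univ_sum, Fintype.piFinset_univ, Finset.mul_sum]
    refine Finset.sum_congr rfl fun k _ => ?_
    rw [Finset.prod_mul_distrib]
    ring
  simp only [e]
  rw [Finset.sum_comm]
  refine Finset.sum_eq_zero fun k _ => ?_
  rw [← Finset.mul_sum, hc, mul_zero]

variable {Ω : Type} [CommRing Ω] [Algebra F Ω]

variable (F) in
/-- The span of the reduced monomials of weight at most `W`. -/
def Vw (x y : Ω) (W : ℕ) : Submodule F Ω :=
  Submodule.span F {z | ∃ k f : ℕ, f ≤ 1 ∧ k + 2 * f ≤ W ∧ z = x ^ k * y ^ f}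

variable {x y : Ω} {W W' : ℕ}

theorem Vw_mono (h : W ≤ W') : Vw F x y W ≤ Vw F x y W' := by
  refine Submodule.span_mono ?_
  rintro _ ⟨k, f, h1, h2, rfl⟩
  exact ⟨k, f, h1, h2.trans h, rfl⟩

theorem mon_mem_Vw {k f : ℕ} (hf : f ≤ 1) (h : k + 2 * f ≤ W) : x ^ k * y ^ f ∈ Vw F x y W := by
  exact Submodule.subset_span ⟨k, f, hf, h, rfl⟩

theorem algebraMap_mem_Vw (c : F) : algebraMap F Ω c ∈ Vw F x y 0 := by
  rw [Algebra.algebraMap_eq_smul_one]
  exact Submodule.smul_mem _ _ (Submodule.subset_span ⟨0, 0, zero_le_one, le_rfl, by simp⟩)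

theorem aeval_mem_Vw {p : Polynomial F} (h : p.natDegree ≤ W) :
    Polynomial.aeval x p ∈ Vw F x y W := by
  rw [Polynomial.aeval_eq_sum_range]
  refine Submodule.sum_mem _ fun i hi => Submodule.smul_mem _ _ ?_
  rw [Finset.mem_range] at hi
  exact Submodule.subset_span ⟨i, 0, zero_le_one, by omega, by simp⟩

/- `Submodule.span_induction₂` or `Submodule.mul_mem_mul` with `Submodule.span_mul_span`. -/
theorem mul_mem_Vw {a b : ℤ} (h : y ^ 2 = fc (a : Ω) b x) {u v : Ω} (hu : u ∈ Vw F x y W)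
    (hv : v ∈ Vw F x y W') : u * v ∈ Vw F x y (W + W') := by
  have hp : ∀ k, k ≤ W + W' → x ^ k ∈ Vw F x y (W + W') := fun k hk =>
    Submodule.subset_span ⟨k, 0, zero_le_one, by omega, by simp⟩
  have h1 := Submodule.mul_mem_mul hu hv
  rw [Vw, Vw, Submodule.span_mul_span] at h1
  refine Submodule.span_le.2 ?_ h1
  rintro _ ⟨_, ⟨k, f, g1, g2, rfl⟩, _, ⟨k', f', g3, g4, rfl⟩, rfl⟩
  change x ^ k * y ^ f * (x ^ k' * y ^ f') ∈ Vw F x y (W + W')
  by_cases hf : f + f' ≤ 1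
  · have e : x ^ k * y ^ f * (x ^ k' * y ^ f') = x ^ (k + k') * y ^ (f + f') := by ring
    rw [e]
    exact mon_mem_Vw hf (by omega)
  · obtain rfl : f = 1 := by omega
    obtain rfl : f' = 1 := by omega
    have e : x ^ k * y ^ 1 * (x ^ k' * y ^ 1) =
        x ^ (k + k' + 3) + a • x ^ (k + k' + 1) + b • x ^ (k + k') := by
      rw [fc] at h
      rw [zsmul_eq_mul, zsmul_eq_mul]
      linear_combination x ^ (k + k') * h
    rw [e]
    exact add_mem (add_mem (hp _ (by omega)) (zsmul_mem (hp _ (by omega)) _))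
      (zsmul_mem (hp _ (by omega)) _)

theorem pow_mem_Vw {a b : ℤ} (h : y ^ 2 = fc (a : Ω) b x) {u : Ω} (hu : u ∈ Vw F x y W) (n : ℕ) :
    u ^ n ∈ Vw F x y (n * W) := by
  induction n with
  | zero => simpa using algebraMap_mem_Vw (x := x) (y := y) (1 : F)
  | succ n ih =>
    rw [pow_succ, Nat.succ_mul]
    exact mul_mem_Vw h ih hu

/- The space lies in the span of the range of `mon x y : MM W → Ω`; `finrank_range_le_card`. -/
theorem finrank_Vw : FiniteDimensional F (Vw F x y W) ∧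
    Module.finrank F (Vw F x y W) ≤ 2 * (W + 1) := by
  have h : Vw F x y W ≤ Submodule.span F (Set.range (mon x y : MM W → Ω)) := by
    refine Submodule.span_mono ?_
    rintro _ ⟨k, f, h1, h2, rfl⟩
    exact ⟨(⟨k, by omega⟩, ⟨f, by omega⟩), rfl⟩
  have : FiniteDimensional F (Submodule.span F (Set.range (mon x y : MM W → Ω))) :=
    FiniteDimensional.span_of_finite F (Set.finite_range _)
  refine ⟨Submodule.finiteDimensional_of_le h, (Submodule.finrank_mono h).trans ?_⟩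
  refine (finrank_range_le_card (R := F) (mon x y : MM W → Ω)).trans (le_of_eq ?_)
  simp [mul_comm]

end Pool.Agent.Lib.MP_651af7_nt.Rt
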